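import Pool.Agent.Lib.MP_7e4769_co.Sp.YBr0

set_option autoImplicit false
set_option linter.unusedSectionVars false

namespace Pool.Agent.Lib.MP_7e4769_co.Sp

open Finset

variable {V : Type} [DecidableEq V] {G : SimpleGraph V} {X : Finset V}
  [DecidableRel (subG G X).Adj]

/-- the three neighbours of a vertex of a closed set, inside the induced graph -/
theorem sub_nb (hc : Hom2.Cub G X) (hcl : Hom2.Closed G X) (v : X) :
    ∃ x y z : X, Hom2.Nb G v.1 x.1 y.1 z.1 ∧ (subG G X).neighborFinset v = {x, y, z} := by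
  obtain ⟨x, y, z, h⟩ := hc v.1 v.2
  refine ⟨⟨x, hcl _ v.2 _ h.adj1⟩, ⟨y, hcl _ v.2 _ h.adj2⟩, ⟨z, hcl _ v.2 _ h.adj3⟩, h, ?_⟩
  ext w
  simp only [SimpleGraph.mem_neighborFinset, subG_adj, h.2.2.2, mem_insert, mem_singleton,
    Subtype.ext_iff]

theorem sub_reg (hc : Hom2.Cub G X) (hcl : Hom2.Closed G X) :
    (subG G X).IsRegularOfDegree 3 := by
  intro v
  obtain ⟨x, y, z, h, e⟩ := sub_nb hc hcl v
  rw [← SimpleGraph.card_neighborFinset_eq_degree, e]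
  exact card_eq_three.2 ⟨x, y, z, fun r => h.1 (congrArg _ r), fun r => h.2.1 (congrArg _ r),
    fun r => h.2.2.1 (congrArg _ r), rfl⟩

/-- `sub_nb`, `Hom2.card_three_eq_two`, `Hom2.OK.of_nb` (see the proof of `Hom2.top`) -/
theorem ok_up (hc : Hom2.Cub G X) (hcl : Hom2.Closed G X) (c : V → Fin 4) (v : X) :
    ok (subG G X) (fun a => c a.1) v ↔ Hom2.OK G c v.1 := by
  obtain ⟨x, y, z, h, e⟩ := sub_nb hc hcl v
  unfold ok
  rw [e]
  simp only [image_insert, image_singleton, Hom2.card_three_eq_two]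
  refine ⟨fun ⟨h1, h2⟩ => Hom2.OK.of_nb h
    ⟨(h1 x h.adj1).symm, (h1 y h.adj2).symm, (h1 z h.adj3).symm, h2⟩, fun h1 => ?_⟩
  obtain ⟨a1, a2, a3, a4⟩ := h1 _ _ _ h
  refine ⟨fun w hw => ?_, a4⟩
  rcases (h.2.2.2 w.1).1 hw with r | r | r <;> rw [r]
  exacts [a1.symm, a2.symm, a3.symm]

/-- extend a colouring of `X` by 3, or restrict a colouring of `V` -/
theorem good_up (hc : Hom2.Cub G X) (hcl : Hom2.Closed G X) (P : Finset X) :
    Good (subG G X) P ↔ Hom2.Good G (upS P) := by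
  constructor
  · rintro ⟨c, h1, h2⟩
    refine ⟨fun v => if h : v ∈ X then c ⟨v, h⟩ else 3, fun v hv _ => ?_, fun v hv => ?_⟩
    · by_cases h : v ∈ X
      · exact (dif_pos h).trans (h1 _ fun r => hv (mem_upS.2 ⟨h, r⟩))
      · exact dif_neg h
    · obtain ⟨h, r⟩ := mem_upS.1 hv
      refine (ok_up hc hcl _ ⟨v, h⟩).1 ?_
      simpa only [Subtype.prop, dif_pos, Subtype.coe_eta] using h2 _ r
  · rintro ⟨c, h1, h2⟩
    exact ⟨fun a => c a.1, fun v hv => h1 _ (fun r => hv (val_mem_upS.1 r)) id,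
      fun v hv => (ok_up hc hcl c v).2 (h2 _ (val_mem_upS.2 hv))⟩

/-- `cut_one_uniq`; without an edge take any vertex -/
theorem only_up {C P : Finset X} (hP : P.Nonempty) (h : cut (subG G X) C P ≤ 1) :
    ∃ a b, Hom2.Only G (upS C) (upS P) a b := by
  by_cases he : ∃ a ∈ P, ∃ b ∈ C, b ∉ P ∧ (subG G X).Adj a b
  · obtain ⟨a, ha, b, hb, hb', hab⟩ := he
    refine ⟨a.1, b.1, fun x hx y hy hy' hxy => ?_⟩
    obtain ⟨x1, x2⟩ := mem_upS.1 hx
    obtain ⟨y1, y2⟩ := mem_upS.1 hy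
    exact (cut_one_uniq h ha hb hb' hab _ x2 _ y2 (fun r => hy' (mem_upS.2 ⟨y1, r⟩)) hxy).imp
      (congrArg Subtype.val) (congrArg Subtype.val)
  · obtain ⟨a, -⟩ := hP
    refine ⟨a.1, a.1, fun x hx y hy hy' hxy => ?_⟩
    obtain ⟨x1, x2⟩ := mem_upS.1 hx
    obtain ⟨y1, y2⟩ := mem_upS.1 hy
    exact absurd ⟨_, x2, _, y2, fun r => hy' (mem_upS.2 ⟨y1, r⟩), hxy⟩ he

/-- `upS_surj`, `cut_pos` -/
theorem conn_up {C : Finset X} (h : Conn (subG G X) C) : Hom2.Conn G (upS C) := by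
  intro A hA hn hne
  obtain ⟨S, hS, rfl⟩ := upS_surj hA
  obtain ⟨a, ha, b, hb, hb', hab⟩ :=
    cut_pos (h S hS (map_nonempty.1 hn) fun e => hne (congrArg upS e))
  exact ⟨a.1, val_mem_upS.2 ha, b.1, val_mem_upS.2 hb, fun r => hb' (val_mem_upS.1 r), hab⟩

/-- `upS_surj`; an `Only` makes the cut at most 1 (`cut_le_one`, or `cut_eq_zero` if there is no
edge) -/
theorem ec2_up {P : Finset X} (h : EC2 (subG G X) P) : Hom2.TwoEC G (upS P) := by
  obtain ⟨a, ha, b, hb, hab⟩ := one_lt_card.1 h.1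
  refine ⟨⟨a.1, val_mem_upS.2 ha, b.1, val_mem_upS.2 hb, fun r => hab (Subtype.ext r)⟩,
    fun A hA hn hne u w ho => ?_⟩
  obtain ⟨S, hS, rfl⟩ := upS_surj hA
  have h2 := h.2 S hS (map_nonempty.1 hn) fun e => hne (congrArg upS e)
  have k : ∀ x ∈ S, ∀ y ∈ P, y ∉ S → (subG G X).Adj x y → x.1 = u ∧ y.1 = w :=
    fun x hx y hy hy' hxy => ho _ (val_mem_upS.2 hx) _ (val_mem_upS.2 hy)
      (fun r => hy' (val_mem_upS.1 r)) hxy
  obtain ⟨x, hx, y, hy, hy', hxy⟩ := cut_pos (le_trans one_le_two h2)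
  obtain ⟨e1, e2⟩ := k x hx y hy hy' hxy
  have h1 : cut (subG G X) P S ≤ 1 := cut_le_one (a := x) (b := y) fun x' hx' y' h3 h4 h5 =>
    (k x' hx' y' h3 h4 h5).imp (fun r => Subtype.ext (r.trans e1.symm))
      fun r => Subtype.ext (r.trans e2.symm)
  omega

theorem trip_down (hcl : Hom2.Closed G X) {P : Finset X} {f : X} (h : Trip G (upS P) f.1) :
    Trip (subG G X) P f := by
  obtain ⟨a, ha, b, hb, g, hg, hab, hbg, hag, haf, hbf, da, db, dg⟩ := h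
  obtain ⟨a1, a2⟩ := mem_upS.1 ha
  obtain ⟨b1, b2⟩ := mem_upS.1 hb
  obtain ⟨g1, g2⟩ := mem_upS.1 hg
  have k : ∀ x : X, (∃ s, s ∉ upS P ∧ G.Adj x.1 s) → ∃ s, s ∉ P ∧ (subG G X).Adj x s :=
    fun x ⟨s, s1, s2⟩ => ⟨⟨s, hcl _ x.2 _ s2⟩, fun r => s1 (val_mem_upS.2 r), s2⟩
  exact ⟨_, a2, _, b2, _, g2, hab, hbg, fun r => hag (congrArg Subtype.val r),
    fun r => haf (congrArg Subtype.val r), fun r => hbf (congrArg Subtype.val r), k _ da, k _ db,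
    dg.imp id fun r => ⟨fun e => r.1 (congrArg Subtype.val e), k _ r.2⟩⟩

end Pool.Agent.Lib.MP_7e4769_co.Sp
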