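import Pool.Agent.Lib.MP_7e4769_co.Sp.YBr0

set_option autoImplicit false
set_option linter.unusedSectionVars false

namespace Pool.Agent.Lib.MP_7e4769_co.Sp

open Finset

variable {V : Type} [DecidableEq V] {G : SimpleGraph V} {X : Finset V}

/-- `x = z 0`, `l = [z 1, ..., z (L - 1)]` -/
theorem isCyc_of_cyc {L : ℕ} {z : ℕ → V} (h : Hom2.Cyc G X L z) :
    ∃ (x : X) (l : List X), IsCyc (subG G X) x l ∧ l.length + 1 = L := by
  have h3 := h.three
  obtain ⟨n, rfl⟩ : ∃ n, L = n + 1 := ⟨L - 1, by omega⟩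
  let Z : ℕ → X := fun i => ⟨z i, h.mem i⟩
  have e1 : Z 0 :: (List.range' 1 n).map Z = (List.range (n + 1)).map Z := by
    rw [List.range_eq_range', List.range'_succ, List.map_cons]
  have e0 : Z 0 = Z (n + 1) := Subtype.ext ((h.inj _ _).2 (by simp))
  have e2 : Z 0 :: ((List.range' 1 n).map Z ++ [Z 0]) = (List.range (n + 1 + 1)).map Z := by
    rw [← List.cons_append, e1, List.range_succ (n := n + 1), List.map_append, e0]
    rfl
  refine ⟨Z 0, (List.range' 1 n).map Z, ⟨?_, ?_, by simp; omega⟩, by simp⟩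
  · rw [Pth, e2, List.isChain_map, List.isChain_range_succ]
    exact fun m _ => h.adj m
  · rw [e1]
    refine List.nodup_range.map_on fun i hi j hj e => ?_
    have := (h.inj i j).1 (congrArg Subtype.val e)
    rwa [Nat.mod_eq_of_lt (List.mem_range.1 hi), Nat.mod_eq_of_lt (List.mem_range.1 hj)] at this

/-- `Hom2.Pth.cyc` for `w i = ((x :: l).getD i x).1` -/
theorem cyc_of_isCyc {x : X} {l : List X} (h : IsCyc (subG G X) x l) :
    ∃ z, Hom2.Cyc G X (l.length + 1) z := by
  obtain ⟨h1, h2, h3⟩ := h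
  rw [Pth, ← List.cons_append, List.isChain_append] at h1
  obtain ⟨h4, -, h5⟩ := h1
  have e : ∀ i (hi : i ≤ l.length), (x :: l).getD i x = (x :: l)[i]'(Nat.lt_succ_of_le hi) :=
    fun i hi => List.getD_eq_getElem _ _ _
  refine ⟨_, Hom2.Pth.cyc (w := fun i => ((x :: l).getD i x).1)
    ⟨fun i _ => Subtype.prop _, fun i hi j hj r => ?_, fun i hi => ?_⟩ h3 ?_⟩
  · have r' := Subtype.ext r
    rw [e i hi, e j hj] at r'
    exact (h2.getElem_inj_iff).1 r'
  · rw [e i hi.le, e (i + 1) hi]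
    exact List.isChain_iff_getElem.1 h4 i _
  · rw [e _ le_rfl]
    refine h5 _ ?_ x rfl
    rw [List.getLast?_eq_getElem?]
    exact List.getElem?_eq_getElem (Nat.lt_succ_self _)

end Pool.Agent.Lib.MP_7e4769_co.Sp
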