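import Pool.Agent.Lib.MP_7e4769_co.Sp.K4

set_option autoImplicit false
set_option linter.unusedSectionVars false

namespace Pool.Agent.Lib.MP_7e4769_co.Sp

open Finset

variable {V : Type} [Fintype V] [DecidableEq V] {G : SimpleGraph V} [DecidableRel G.Adj]

/-- a link that starts inside `C` stays inside when `C` has least degree 2 -/
theorem stay_in {U C : Finset V} (hC : C ⊆ U) (h2 : ∀ v ∈ C, 2 ≤ dg G C v) {z z' : V}
    {l : List V} (h : Link G U z l z') (h0 : fst l z' ∈ C) : (∀ t ∈ l, t ∈ C) ∧ z' ∈ C := by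
  refine h.stay h0 (fun t ht htC w hw ha => Or.inl ?_)
  by_contra hn
  have a1 := dg_lt hC hw hn ha
  have a2 := h2 t htC
  have a3 := (h.inn t ht).2
  omega

/-- kernel vertices of `U` in `C` that have degree below 3 in `C` send an edge out -/
theorem ports_le (hG : G.IsRegularOfDegree 3) {U C : Finset V} (hC : C ⊆ U) :
    ((Kn G U ∩ C) \ Kn G C).card ≤ cut G U C := by
  refine card_ports (fun a ha => (mem_inter.1 (mem_sdiff.1 ha).1).2) (fun a ha => ?_)
  obtain ⟨h1, h2⟩ := mem_sdiff.1 ha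
  obtain ⟨h3, h4⟩ := mem_inter.1 h1
  have h5 : dg G C a ≠ 3 := fun e => h2 (mem_Kn.2 ⟨h4, e⟩)
  obtain ⟨p, hp, hap⟩ := ex_out hG h5
  have _ := hC h4
  exact ⟨p, dg3_mem hG (mem_Kn.1 h3).2 hap, hp, hap⟩

theorem kbx_three {P : Finset V} (h : P.card ≤ 2) {a b d : V} (ha : a ∈ P) (hb : b ∈ P)
    (hd : d ∈ P) (hab : a ≠ b) (had : a ≠ d) : b = d := by
  by_contra hbd
  have := two_lt_card_iff.2 ⟨a, b, d, ha, hb, hd, hab, had, hbd⟩
  omega

theorem kbx_mem_Kp {U : Finset V} {v : V} : v ∈ Kp G U ↔ v ∈ Kn G U ∧ ¬ Dv G U v := by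
  simp only [Kp, mem_filter]

theorem kbx_Kn_up (hG : G.IsRegularOfDegree 3) {U C : Finset V} (hC : C ⊆ U) {v : V}
    (hv : v ∈ Kn G C) : v ∈ Kn G U := by
  obtain ⟨h1, h2⟩ := mem_Kn.1 hv
  have a1 := dg_mono (G := G) hC v
  have a2 := dg_le hG U v
  exact mem_Kn.2 ⟨hC h1, by omega⟩

/-- `u` has two neighbours in `C`; the links through them (`link_ex`) stay in `C` and end in
`Kn U ∩ C`, which has at most two elements, one of them `u`. -/
theorem kb_cyc {U C : Finset V} (hc : Ctx G U) (hC : C ⊆ U) (hy : Cyc G C)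
    (h2 : cut G U C ≤ 2) {u : V} (hu : u ∈ Kn G U) (huC : u ∈ C) : Dv G U u := by
  have hd : ∀ v ∈ C, 2 ≤ dg G C v := fun v hv => (hy v hv).ge
  have hP : ((Kn G U ∩ C) \ Kn G C).card ≤ 2 := (ports_le hc.cub hC).trans h2
  have hm : ∀ z, z ∈ Kn G U → z ∈ C → z ∈ (Kn G U ∩ C) \ Kn G C := by
    intro z h1 h3
    refine mem_sdiff.2 ⟨mem_inter.2 ⟨h1, h3⟩, fun h4 => ?_⟩
    have a1 := (mem_Kn.1 h4).2
    have a2 := hy z h3
    omega
  obtain ⟨w1, m1, a1, -⟩ := ex_other (hd u huC) u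
  obtain ⟨w2, m2, a2, n12⟩ := ex_other (hd u huC) w1
  obtain ⟨l1, z1, k1, e1⟩ := link_ex hc.cub hc.ec hu a1
  obtain ⟨l2, z2, k2, e2⟩ := link_ex hc.cub hc.ec hu a2
  have s1 := (stay_in hC hd k1 (e1 ▸ m1)).2
  have s2 := (stay_in hC hd k2 (e2 ▸ m2)).2
  have e : z1 = z2 :=
    kbx_three hP (hm u hu huC) (hm z1 k1.hz' s1) (hm z2 k2.hz' s2) k1.ne k2.ne
  subst e
  refine ⟨z1, l1, l2, k1, k2, fun e => n12 ?_⟩
  rw [← e1, ← e2, e]

/-- a link at `u` other than the edge `u v` ends in a port -/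
theorem kbx_end {U C : Finset V} (hc : Ctx G U) (hC : C ⊆ U) (he : EC2 G C) {u v : V}
    (hu : u ∈ Kn G C) (hv : v ∈ Kn G C) (h0 : Link G U u [] v)
    (hK : ∀ w ∈ Kn G C, w = u ∨ w = v) (hev : ∀ l, Link G C u l v → l.length % 2 = 0)
    {l : List V} {z : V} (h : Link G U u l z) (hn : (([] : List V), v) ≠ (l, z)) :
    z ∈ (Kn G U ∩ C) \ Kn G C := by
  have h1 : fst l z ∈ C := dg3_mem hc.cub (mem_Kn.1 hu).2 h.adj_fst
  obtain ⟨s1, s2⟩ := stay_in hC (fun w hw => he.two_le hw) h h1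
  refine mem_sdiff.2 ⟨mem_inter.2 ⟨h.hz', s2⟩, fun hz => ?_⟩
  rcases hK z hz with e | e
  · exact h.ne e.symm
  · subst e
    have hl : l ≠ [] := fun e => hn (by rw [e])
    have ev := hev l (h.restrict hC hu hv s1)
    obtain ⟨l3, x, l4, y, hD⟩ := dig_ex hc h h0 hl
    rcases (dig_type hc hD).1 with h3 | h3
    · omega
    · exact hl h3.1

/-- the two other links at `u` have different ends -/
theorem kbx_diff {U P : Finset V} (hc : Ctx G U) (hP : P.card ≤ 2) {u v p1 p2 q1 q2 : V}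
    {a1 a2 b1 b2 : List V} (su : Star G U u [] v a1 p1 a2 p2) (sv : Star G U v [] u b1 q1 b2 q2)
    (hv : v ∉ P) (m1 : p1 ∈ P) (n1 : q1 ∈ P) (n2 : q2 ∈ P) : p1 ≠ p2 := by
  intro e
  subst e
  have hn : a1 ≠ a2 := fun e => su.n23 (by rw [e])
  have hvp : v ≠ p1 := fun e => hv (e ▸ m1)
  obtain ⟨l3, x, l4, y, hD⟩ := dig_ex hc su.h2 su.h3 hn
  have hx : v = x := by
    rcases hD.su.all hc.cub su.h1 with h | h | h
    · exact absurd h.2 hvp
    · exact absurd h.2 hvp
    · exact h.2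
  subst hx
  have hq : ∀ b q, Link G U v b q → p1 ≠ q := by
    intro b q hb e
    subst e
    have hnd := hD.nd
    rcases hD.sv.all hc.cub hb.symm with h | h | h
    · exact su.h1.ne h.2.symm
    · exact su.h1.ne h.2.symm
    · rw [← h.2] at hnd
      simp at hnd
  have e : q1 = q2 := kbx_three hP m1 n1 n2 (hq _ _ sv.h2) (hq _ _ sv.h3)
  subst e
  exact dig_outer hc hD ⟨q1, b1, b2, sv.h2, sv.h3, fun e => sv.n23 (by rw [e])⟩

/-- Let `P = (Kn U ∩ C) \ Kn C`, at most two elements. The star at `u` is `([], v)` and two links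
that stay in `C` and end in `P` (`kbx_end`), at different vertices (`kbx_diff`). The same holds at
`v`. So `k4_none` applies. -/
theorem kb_theta {U C : Finset V} (hc : Ctx G U) (hC : C ⊆ U) (he : EC2 G C) (ht : Theta G C)
    (h2 : cut G U C ≤ 2) : False := by
  obtain ⟨u, v, hu, hv, huv, hK, hev⟩ := ht
  have hP : ((Kn G U ∩ C) \ Kn G C).card ≤ 2 := (ports_le hc.cub hC).trans h2
  have hu' := kbx_Kn_up hc.cub hC hu
  have hv' := kbx_Kn_up hc.cub hC hv
  have h0 : Link G U u [] v := link_nil hu' hv' huv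
  have h0' : Link G U v [] u := link_nil hv' hu' huv.symm
  have hK' : ∀ w ∈ Kn G C, w = v ∨ w = u := fun w hw => (hK w hw).symm
  have hev' : ∀ l, Link G C v l u → l.length % 2 = 0 := by
    intro l hl
    have := hev _ hl.symm
    rwa [List.length_reverse] at this
  obtain ⟨a1, p1, a2, p2, su⟩ := star_ex1 hc.cub hc.ec h0
  obtain ⟨b1, q1, b2, q2, sv⟩ := star_ex1 hc.cub hc.ec h0'
  have m1 := kbx_end hc hC he hu hv h0 hK hev su.h2 su.n12
  have m2 := kbx_end hc hC he hu hv h0 hK hev su.h3 su.n13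
  have n1 := kbx_end hc hC he hv hu h0' hK' hev' sv.h2 sv.n12
  have n2 := kbx_end hc hC he hv hu h0' hK' hev' sv.h3 sv.n13
  have nu : u ∉ (Kn G U ∩ C) \ Kn G C := fun h => (mem_sdiff.1 h).2 hu
  have nv : v ∉ (Kn G U ∩ C) \ Kn G C := fun h => (mem_sdiff.1 h).2 hv
  have dp : p1 ≠ p2 := kbx_diff hc hP su sv nv m1 n1 n2
  have dq : q1 ≠ q2 := kbx_diff hc hP sv su nu n1 m1 m2
  have v1 : v ≠ p1 := fun e => nv (e ▸ m1)
  have v2 : v ≠ p2 := fun e => nv (e ▸ m2)
  have hn : [u, v, p1, p2].Nodup := by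
    simp [h0.ne, su.h2.ne, su.h3.ne, v1, v2, dp]
  by_cases e1 : p1 = q1
  · subst e1
    have e2 : p2 = q2 := kbx_three hP m1 m2 n2 dp dq
    subst e2
    exact k4_none hc hn h0 su.h2 sv.h2.symm su.h3 sv.h3.symm
  · have e2 : p2 = q1 := kbx_three hP m1 m2 n1 dp e1
    subst e2
    have e3 : p1 = q2 := kbx_three hP m2 m1 n2 dp.symm dq
    subst e3
    exact k4_none hc hn h0 su.h2 sv.h3.symm su.h3 sv.h2.symm

theorem kbx_sub {U C : Finset V} :
    (Kp G U ∩ C).card ≤ ((Kn G U ∩ C) \ Kn G C).card + (Kn G C).card := by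
  refine le_trans (card_le_card (fun a ha => ?_)) (card_union_le _ _)
  obtain ⟨h1, h2⟩ := mem_inter.1 ha
  by_cases h3 : a ∈ Kn G C
  · exact mem_union_right _ h3
  · exact mem_union_left _ (mem_sdiff.2 ⟨mem_inter.2 ⟨(kbx_mem_Kp.1 h1).1, h2⟩, h3⟩)

theorem kbx_ec2 {U C : Finset V} (hc : Ctx G U) (hC : C ⊆ U) (hne : C ≠ U) (hn : C.Nonempty)
    (he : EC2 G C) (hg : ¬ Good G C) : (Kp G U ∩ C).card + 10 ≤ 5 * cut G U C := by
  have k2 : 2 ≤ cut G U C := hc.ec.2 C hC hn hne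
  have hnc : NC G C := by
    obtain ⟨a, ha, b, -, hb, hab⟩ := cut_pos (show 1 ≤ cut G U C by omega)
    have := dg_le_two_of_out hc.cub hb hab
    exact ⟨a, ha, by omega⟩
  have hlt : C.card < U.card := card_lt_card (LE.le.ssubset_of_ne hC hne)
  have p1 := ports_le hc.cub hC
  have p2 := kbx_sub (G := G) (U := U) (C := C)
  rcases hc.hU C hlt he hnc hg with hy | ht
  · have k0 : (Kn G C).card = 0 := by
      rw [card_eq_zero, eq_empty_iff_forall_notMem]
      intro a ha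
      have a1 := mem_Kn.1 ha
      have a2 := hy a a1.1
      omega
    by_cases h2 : cut G U C ≤ 2
    · have k1 : (Kp G U ∩ C).card = 0 := by
        rw [card_eq_zero, eq_empty_iff_forall_notMem]
        intro a ha
        obtain ⟨a1, a2⟩ := mem_inter.1 ha
        obtain ⟨a3, a4⟩ := kbx_mem_Kp.1 a1
        exact a4 (kb_cyc hc hC hy h2 a3 a2)
      omega
    · omega
  · by_cases h2 : cut G U C ≤ 2
    · exact (kb_theta hc hC he ht h2).elim
    · obtain ⟨u, v, -, -, -, hK, -⟩ := ht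
      have k0 : (Kn G C).card ≤ 2 := by
        refine le_trans (card_le_card (fun a ha => ?_)) (card_le_two (a := u) (b := v))
        rcases hK a ha with e | e <;> simp [e]
      omega

theorem kbx_one {U : Finset V} (hc : Ctx G U) {v : V} (hv : v ∈ U) :
    (Kp G U ∩ {v}).card + 10 ≤ 5 * cut G U {v} := by
  rw [cut_single]
  have a1 := hc.ec.two_le hv
  by_cases h : v ∈ Kp G U
  · have a2 := (mem_Kn.1 (kbx_mem_Kp.1 h).1).2
    have a3 : (Kp G U ∩ {v}).card ≤ 1 :=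
      le_trans (card_le_card inter_subset_right) (card_singleton v).le
    omega
  · rw [inter_singleton_of_notMem h, card_empty]
    omega

/-- Strong induction on `C`. One vertex: `cut_single`. A cut of size 1: `sides_bad`, `cut_split`.
`EC2`: `C` is not cubic because an edge leaves it, so `Bad`; `ports_le`, `kb_cyc`, `kb_theta`. -/
theorem kb_ctx {U : Finset V} (hc : Ctx G U) : KB G U := by
  intro C
  induction C using Finset.strongInduction with
  | H C ih =>
    intro hC hne hn hcn hg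
    by_cases h1 : C.card ≤ 1
    · have h2 : C.card = 1 := by
        have := card_pos.2 hn
        omega
      obtain ⟨v, rfl⟩ := card_eq_one.1 h2
      exact kbx_one hc (hC (mem_singleton_self v))
    by_cases he : EC2 G C
    · exact kbx_ec2 hc hC hne hn he hg
    obtain ⟨S, s1, s2, s3, s4⟩ := hcn.not_ec2 (by omega) he
    obtain ⟨c1, g1, c2, g2⟩ :=
      sides_bad hc.cub hc.hA (card_le_card hC) hcn hg s1 s2 s3 s4.le
    have t1 : S ⊂ C := LE.le.ssubset_of_ne s1 s3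
    have t2 : C \ S ⊂ C := sdiff_ssubset s1 s2
    have t3 : (C \ S).Nonempty := sdiff_nonempty.2 (fun e => s3 (Subset.antisymm s1 e))
    have u1 : ∀ T, T ⊂ C → T ≠ U := fun T hT e => hT.2 (e ▸ hC)
    have i1 := ih S t1 (s1.trans hC) (u1 S t1) s2 c1 g1
    have i2 := ih (C \ S) t2 (sdiff_subset.trans hC) (u1 _ t2) t3 c2 g2
    have i3 := cut_split (G := G) s1 hC
    have i4 : (Kp G U ∩ C).card ≤ (Kp G U ∩ S).card + (Kp G U ∩ (C \ S)).card := by
      refine le_trans (card_le_card (fun a ha => ?_)) (card_union_le _ _)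
      obtain ⟨a1, a2⟩ := mem_inter.1 ha
      by_cases a3 : a ∈ S
      · exact mem_union_left _ (mem_inter.2 ⟨a1, a3⟩)
      · exact mem_union_right _ (mem_inter.2 ⟨a1, mem_sdiff.2 ⟨a2, a3⟩⟩)
    omega

end Pool.Agent.Lib.MP_7e4769_co.Sp
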