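import Pool.Agent.Lib.MP_7e4769_co.Sp.NAf
import Pool.Agent.Lib.MP_7e4769_co.Sp.KBf

set_option autoImplicit false
set_option linter.unusedSectionVars false

namespace Pool.Agent.Lib.MP_7e4769_co.Sp

open Finset

variable {V : Type} [Fintype V] [DecidableEq V] {G : SimpleGraph V} [DecidableRel G.Adj]

/-- every digon vertex is the end of a link from a vertex of `Kp` (`dv_ex`, `dig_outer`), and a
vertex has three links (`star_ex0`, `Star.all`) -/
theorem kn_le {U : Finset V} (hc : Ctx G U) : (Kn G U).card ≤ 4 * (Kp G U).card := by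
  classical
  have h1 : Kn G U ⊆ (Kp G U).biUnion fun x => insert x (univ.filter fun z => ∃ l, Link G U x l z) := by
    intro z hz
    by_cases hd : Dv G U z
    · obtain ⟨v, l1, l3, x, l4, y, h⟩ := dv_ex hc hd
      exact mem_biUnion.2 ⟨x, mem_filter.2 ⟨h.su.h3.hz', dig_outer hc h⟩,
        mem_insert_of_mem (mem_filter.2 ⟨mem_univ _, _, h.su.h3.symm⟩)⟩
    · exact mem_biUnion.2 ⟨z, mem_filter.2 ⟨hz, hd⟩, mem_insert_self _ _⟩
  rw [mul_comm]
  refine (card_le_card h1).trans (card_biUnion_le_card_mul _ _ 4 fun x hx => ?_)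
  obtain ⟨l1, z1, l2, z2, l3, z3, s⟩ := star_ex0 hc.cub hc.ec (mem_filter.1 hx).1
  refine (card_le_card (t := {x, z1, z2, z3}) (insert_subset_insert _ fun z hz => ?_)).trans
    Finset.card_le_four
  obtain ⟨l, hl⟩ := (mem_filter.1 hz).2
  rcases s.all hc.cub hl with h | h | h <;> simp [h.2]

/-- `dig_move` gives `R`; `Kp U ⊆ insert x (Kp U ∩ R)`, so at most 6 elements; `pm_of_small`; the
long link at `x` is not `l3.reverse`, its vertices lie in `R` (`Link.disj`), `root2`. -/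
theorem no_dv {U : Finset V} (hc : Ctx G U) (u : V) : ¬ Dv G U u := by
  classical
  intro hd
  obtain ⟨v, l1, l3, x, l4, y, h⟩ := dv_ex hc hd
  obtain ⟨R, hR, hg, hcn, h3, hy⟩ := dig_move hc h
  have hRU : R ⊆ U := fun w hw => ((hR w).1 hw).1
  have hb := kb_ctx hc R hRU (fun e => ((hR u).1 (e ▸ h.su.h1.memU.1)).2.1 rfl) ⟨y, hy⟩ hcn hg
  have hdv : Dv G U v := ⟨u, _, _, h.sv.h1, h.sv.h2, fun e => h.sv.n12 (by rw [e])⟩
  have hs : Kp G U ⊆ insert x (Kp G U ∩ R) := fun w hw => by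
    have h1 := mem_filter.1 hw
    by_cases e : w = x
    · exact mem_insert.2 (Or.inl e)
    · exact mem_insert_of_mem (mem_inter.2 ⟨hw, (hR w).2 ⟨(mem_Kn.1 h1.1).1,
        fun e => h1.2 (e ▸ hd), fun e => h1.2 (e ▸ hdv), e, fun a => h.su.h1.notK a h1.1,
        fun a => h.su.h3.notK a h1.1, fun a => h.sv.h3.notK a h1.1⟩⟩)
  have h4 := (card_le_card hs).trans (card_insert_le _ _)
  have h5 := kn_le hc
  obtain ⟨l, z, hl, h2⟩ := pm_of_small hc.cub hc.sp hc.ec (na_ctx hc) (by omega) x h.su.h3.hz'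
  have nd := h.nd
  simp only [List.nodup_cons, List.mem_cons, not_or] at nd
  have hin : ∀ t ∈ l, t ∈ R := fun t ht => by
    have nk := hl.notK ht
    refine (hR t).2 ⟨(hl.inn t ht).1, fun e => nk (e ▸ h.su.h1.hz), fun e => nk (e ▸ h.su.h1.hz'),
      fun e => nk (e ▸ hl.hz), fun a => ?_, fun a => ?_, fun a => ?_⟩
    · rcases hl.disj h.su.h1 ht a with b | b
      · exact nd.1.2.1 b.1.symm
      · exact nd.2.1.1 b.1.symm
    · rcases hl.disj h.su.h3 ht a with b | b
      · exact nd.1.2.1 b.1.symm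
      · have := (dig_type0 hc h).2.1
        rw [b.2.1, List.length_reverse] at h2
        omega
    · rcases hl.disj h.sv.h3 ht a with b | b
      · exact nd.2.1.1 b.1.symm
      · exact nd.2.2.1.1 b.1
  obtain ⟨t, t', a1, a2, -, a3, a4⟩ := hl.long h2
  have b1 := dg_lt hRU hl.memU.1 (fun a => ((hR x).1 a).2.2.2.1 rfl) a3.symm
  have b2 := (hl.inn t a1).2
  exact hg (root2 hc.cub hc.hA (card_le_card hRU) hcn (hin t a1) (hin t' a2) a4 (by omega)
    ((dg_mono hRU t').trans (hl.inn t' a2).2.le))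

theorem kp_eq {U : Finset V} (hc : Ctx G U) : Kp G U = Kn G U := by
  classical
  exact filter_true_of_mem fun v _ => no_dv hc v

theorem kb' {U C : Finset V} (hc : Ctx G U) (hC : C ⊆ U) (hne : C ≠ U) (hn : C.Nonempty)
    (hcn : Conn G C) (hg : ¬ Good G C) : (Kn G U ∩ C).card + 10 ≤ 5 * cut G U C := by
  rw [← kp_eq hc]
  exact kb_ctx hc C hC hne hn hcn hg

theorem link_uniq {U : Finset V} (hc : Ctx G U) {z z' : V} {l m : List V} (h1 : Link G U z l z')
    (h2 : Link G U z m z') : l = m := by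
  by_contra hn
  exact no_dv hc z ⟨z', l, m, h1, h2, hn⟩

theorem Star.nodup {U : Finset V} (hc : Ctx G U) {z z1 z2 z3 : V} {l1 l2 l3 : List V}
    (h : Star G U z l1 z1 l2 z2 l3 z3) : [z, z1, z2, z3].Nodup := by
  have key : ∀ {l m : List V} {a b : V}, Link G U z l a → Link G U z m b → (l, a) ≠ (m, b) →
      a ≠ b := by
    rintro l m a b h1 h2 hn rfl
    exact hn (by rw [link_uniq hc h1 h2])
  simp [h.h1.ne, h.h2.ne, h.h3.ne, key h.h1 h.h2 h.n12, key h.h1 h.h3 h.n13, key h.h2 h.h3 h.n23]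

end Pool.Agent.Lib.MP_7e4769_co.Sp
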