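import Pool.Agent.Lib.MP_7e4769_co.Sp.CaseD

set_option autoImplicit false
set_option linter.unusedSectionVars false

namespace Pool.Agent.Lib.MP_7e4769_co.Sp

open Finset

variable {V : Type} [Fintype V] [DecidableEq V] {G : SimpleGraph V} [DecidableRel G.Adj]

theorem casel1_disj {U : Finset V} {z z' y y' : V} {l m : List V} (h1 : Link G U z l z')
    (h2 : Link G U y m y') (s : l.length ≤ 1) (g : 2 ≤ m.length) {t : V} (ht : t ∈ l) : t ∉ m :=
  fun ht' => by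
    rcases h1.disj h2 ht ht' with ⟨-, rfl, -⟩ | ⟨-, rfl, -⟩
    · omega
    · rw [List.length_reverse] at s
      omega

theorem casel1_short {U : Finset V} (hc : Ctx G U) {x y x1 x2 : V} {T a1 a2 : List V}
    (h : Star G U x T y a1 x1 a2 x2) (h2 : 2 ≤ T.length) : a1.length ≤ 1 ∧ a2.length ≤ 1 :=
  ⟨not_lt.1 fun a => h.n12 (na_ctx hc _ _ _ _ _ h.h1 h.h2 h2 a),
    not_lt.1 fun a => h.n13 (na_ctx hc _ _ _ _ _ h.h1 h.h3 h2 a)⟩

theorem casel1_add (hG : G.IsRegularOfDegree 3) {U A : Finset V} {x y z z' : V} {l T : List V}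
    (hT : Link G U x T y) (g : 2 ≤ T.length) (h : Link G U z l z') (h1 : l.length ≤ 1)
    (hz : z = x ∨ z = y) (hz' : z' ∈ A)
    (hA : Good G A ∧ ∀ w ∈ A, w ∈ U ∧ w ≠ x ∧ w ≠ y ∧ w ∉ T) :
    Good G (A ∪ l.toFinset) ∧ ∀ w ∈ A ∪ l.toFinset, w ∈ U ∧ w ≠ x ∧ w ≠ y ∧ w ∉ T := by
  refine ⟨add_short hG (fun w hw => (hA.2 w hw).1) h h1
    (fun a => hz.elim (hA.2 z a).2.1 (hA.2 z a).2.2.1) hz' hA.1, fun w hw => ?_⟩
  rcases mem_union.1 hw with hw | hw
  · exact hA.2 w hw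
  · rw [List.mem_toFinset] at hw
    exact ⟨(h.inn w hw).1, fun e => h.notK hw (e ▸ hT.hz), fun e => h.notK hw (e ▸ hT.hz'),
      casel1_disj h hT h1 g hw⟩

/-- Stars at `x`, `y` (`star_ex1`), short by `na_ctx`; `Emb0` for `nH` with
`κ = [x, y, x1, x2, y1, y2]`; `X = U \ pole`. If `X` is good add the four short links
(`add_short`) and use `m2`. A component `C` that is not good (`comp_ex`) has an edge to the pole, so
contains a kernel vertex, `kb'` gives cut at least 3, so `X \ C` has cut at most 1 (`cut_split`)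
and is empty. -/
theorem ls_ex {U : Finset V} (hc : Ctx G U) {x y : V} {T : List V} (h : Link G U x T y)
    (h2 : 2 ≤ T.length) :
    ∃ a1 x1 a2 x2 b1 y1 b2 y2 X, LS G U x T y a1 x1 a2 x2 b1 y1 b2 y2 X := by
  obtain ⟨a1, x1, a2, x2, sx⟩ := star_ex1 hc.cub hc.ec h
  obtain ⟨b1, y1, b2, y2, sy⟩ := star_ex1 hc.cub hc.ec h.symm
  obtain ⟨la1, la2⟩ := casel1_short hc sx h2
  obtain ⟨lb1, lb2⟩ := casel1_short hc sy (List.length_reverse.symm ▸ h2)
  have nx := sx.nodup hc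
  have ny := sy.nodup hc
  simp only [List.nodup_cons, List.mem_cons, not_or, List.not_mem_nil] at nx ny
  obtain ⟨⟨n1, n2, n3, -⟩, ⟨n4, n5, -⟩, ⟨n6, -⟩, -⟩ := nx
  obtain ⟨⟨m1, m2', m3, -⟩, ⟨m4, m5, -⟩, ⟨m6, -⟩, -⟩ := ny
  have hE : Emb0 G U nH (fun i => [x, y, x1, x2, y1, y2].getD i x)
      (fun e => [T, a1, a2, b1, b2].getD e []) := by
    refine ⟨fun i hi j hj e => ?_, fun e he => ?_, fun e he e' he' a b _ => ?_⟩
    · have hi' : i < 2 := hi
      have hj' : j < 6 := hj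
      interval_cases i <;> interval_cases j <;> first | rfl | exact absurd e ‹_›
    · have he' : e < 5 := he
      interval_cases e
      exacts [h, sx.h2, sx.h3, sy.h2, sy.h3]
    · have h5 : e < 5 := he
      have h6 : e' < 5 := he'
      interval_cases e <;> interval_cases e' <;>
        first | rfl | exact absurd a (by decide) | exact absurd b ‹_› | exact absurd b.symm ‹_›
  have hP : ∀ w, w ∈ pole nH (fun i => [x, y, x1, x2, y1, y2].getD i x)
      (fun e => [T, a1, a2, b1, b2].getD e []) ↔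
      w = x ∨ w = y ∨ w ∈ T ∨ w ∈ a1 ∨ w ∈ a2 ∨ w ∈ b1 ∨ w ∈ b2 := fun w => by
    rw [mem_pole, ← or_assoc]
    change (∃ i < 2, _) ∨ (∃ e < 5, _) ↔ _
    simp only [Nat.exists_lt_succ_left, Nat.not_lt_zero, false_and, exists_false, or_false]
    exact or_congr (or_congr eq_comm eq_comm) Iff.rfl
  have hs := hE.pole_sub nH_wf
  have mp : ∀ k, 2 ≤ k → k < 6 → _ ∈ U \ _ := fun k a b =>
    mem_sdiff.2 ⟨(mem_Kn.1 (hE.memK nH_wf b)).1, hE.port_notin nH_wf a b⟩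
  have m2x := mp 2 (by decide) (by decide)
  have m3x := mp 3 (by decide) (by decide)
  have m4x := mp 4 (by decide) (by decide)
  have m5x := mp 5 (by decide) (by decide)
  have ct := (cut_compl hs).trans_le (hE.pole_cut hc.cub nH_wf)
  have ed := fun v hv w hw (hw' : w ∉ U \ _) a => hE.pole_edge hc.cub nH_wf (a := w) (b := v)
    (not_not.1 fun b => hw' (mem_sdiff.2 ⟨hw, b⟩)) (mem_sdiff.1 hv).1 (mem_sdiff.1 hv).2 a
  have hX := fun w => (mem_sdiff (s := U) (a := w)).trans (and_congr_right' (hP w).not)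
  generalize U \ _ = X at m2x m3x m4x m5x ct ed hX
  simp only [not_or] at hX
  have hXU : X ⊆ U := fun w hw => ((hX w).1 hw).1
  have hxX : x ∉ X := fun a => ((hX x).1 a).2.1 rfl
  have ng : ¬Good G X := fun hg => by
    have g := casel1_add hc.cub h h2 sy.h3 lb2 (Or.inr rfl)
      (mem_union_left _ (mem_union_left _ (mem_union_left _ m5x)))
      (casel1_add hc.cub h h2 sy.h2 lb1 (Or.inr rfl) (mem_union_left _ (mem_union_left _ m4x))
        (casel1_add hc.cub h h2 sx.h3 la2 (Or.inl rfl) (mem_union_left _ m3x)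
          (casel1_add hc.cub h h2 sx.h2 la1 (Or.inl rfl) m2x ⟨hg, fun w hw =>
            have := (hX w).1 hw
            ⟨this.1, this.2.1, this.2.2.1, this.2.2.2.1⟩⟩)))
    refine hc.ng (m2 hc.cub h h2 (fun a => ?_) (fun w => ⟨g.2 w, fun a => ?_⟩) g.1)
    · rw [link_uniq hc h (link_nil h.hz h.hz' a)] at h2
      exact absurd h2 (by simp)
    · simp only [mem_union, List.mem_toFinset, hX]
      tauto
  refine ⟨a1, x1, a2, x2, b1, y1, b2, y2, X, sx, sy, h2, la1, la2, lb1, lb2, hX, m2x, m3x, m4x, m5x,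
    fun v hv w hw hw' a => ?_, ct, ng, ?_⟩
  · obtain ⟨e, he, a1, a2⟩ := ed v hv w hw hw' a.symm
    have he' : e < 5 := he
    interval_cases e
    exacts [absurd a1 (by decide), Or.inl a2, Or.inr (Or.inl a2), Or.inr (Or.inr (Or.inl a2)),
      Or.inr (Or.inr (Or.inr a2))]
  obtain ⟨C, c1, c2, c3, c4, c5⟩ := comp_ex ng
  have c6 : C ≠ U := fun e => hxX (c1 (e ▸ h.memU.1))
  obtain ⟨a, ha, b, hb, hb', hab⟩ := cut_pos (one_le_two.trans (hc.ec.2 C (c1.trans hXU) c2 c6))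
  obtain ⟨e, he, -, rfl, -⟩ := ed a (c1 ha) b hb
    (fun hbX => hb' (cut_eq_zero.1 c4 a ha b hbX hab)) hab.symm
  have c7 := card_pos.2 ⟨_, mem_inter.2 ⟨(hE.lk e he).hz', ha⟩⟩
  have c8 := kb' hc (c1.trans hXU) c6 c2 c3 c5
  have c9 := cut_split (G := G) c1 hXU
  have ct' : cut G U X ≤ 4 := ct
  rw [← c1.antisymm (sdiff_eq_empty_iff_subset.1 (not_nonempty_iff_eq_empty.1 fun hn => ?_))]
  · exact c3
  · have := hc.ec.2 _ (sdiff_subset.trans hXU) hn fun e => hxX (sdiff_subset (e ▸ h.memU.1))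
    omega

/-- `Kn U ⊆ {x, y} ∪ (Kn U ∩ X)`, at most 12 -/
theorem LS.pm {U X : Finset V} (hc : Ctx G U) {x y x1 x2 y1 y2 : V} {T a1 a2 b1 b2 : List V}
    (h : LS G U x T y a1 x1 a2 x2 b1 y1 b2 y2 X) : PM G U := by
  have hXU : X ⊆ U := fun w hw => ((h.mem w).1 hw).1
  have h1 := kb' hc hXU (fun e => ((h.mem x).1 (e ▸ h.sx.h1.memU.1)).2.1 rfl) ⟨x1, h.mx1⟩ h.cn h.ng
  have h2 := h.ct
  have h3 : Kn G U ⊆ insert x (insert y (Kn G U ∩ X)) := fun w hw => by
    rw [mem_insert, mem_insert, or_iff_not_imp_left, or_iff_not_imp_left]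
    exact fun a b => mem_inter.2 ⟨hw, (h.mem w).2 ⟨(mem_Kn.1 hw).1, a, b,
      fun c => h.sx.h1.notK c hw, fun c => h.sx.h2.notK c hw, fun c => h.sx.h3.notK c hw,
      fun c => h.sy.h2.notK c hw, fun c => h.sy.h3.notK c hw⟩⟩
  have h4 := card_le_card h3
  have h5 := card_insert_le x (insert y (Kn G U ∩ X))
  have h6 := card_insert_le y (Kn G U ∩ X)
  exact pm_of_small hc.cub hc.sp hc.ec (na_ctx hc) (by omega)

/-- long links other than `T` lie in `X` -/
theorem LS.long_mem {U X : Finset V} (hc : Ctx G U) {x y x1 x2 y1 y2 : V}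
    {T a1 a2 b1 b2 : List V} (h : LS G U x T y a1 x1 a2 x2 b1 y1 b2 y2 X) {z z' : V} {l : List V}
    (hl : Link G U z l z') (h2 : 2 ≤ l.length) (hz : z ∈ X) : ∀ t ∈ l, t ∈ X := by
  intro t ht
  have hz' := (h.mem z).1 hz
  refine (h.mem t).2 ⟨(hl.inn t ht).1, fun e => hl.notK ht (e ▸ h.sx.h1.hz),
    fun e => hl.notK ht (e ▸ h.sx.h1.hz'), fun c => ?_, fun c => casel1_disj h.sx.h2 hl h.la1 h2 c ht,
    fun c => casel1_disj h.sx.h3 hl h.la2 h2 c ht, fun c => casel1_disj h.sy.h2 hl h.lb1 h2 c ht,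
    fun c => casel1_disj h.sy.h3 hl h.lb2 h2 c ht⟩
  exact (hl.disj h.sx.h1 ht c).elim (fun e => hz'.2.1 e.1) fun e => hz'.2.2.1 e.1

/-- No common short neighbour `z`: it has two neighbours outside `X`, so degree at most 1 in `X`,
and the first vertex of its long link has degree at most 2: `root2`. -/
theorem no_lt {U : Finset V} (hc : Ctx G U) {x y z : V} (h : Lg G U x y) (h1 : Sh G U x z)
    (h2 : Sh G U y z) : False := by
  obtain ⟨T, hT, g⟩ := h
  obtain ⟨l, hl, s1⟩ := h1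
  obtain ⟨m, hm, s2⟩ := h2
  obtain ⟨a1, x1, a2, x2, b1, y1, b2, y2, X, h⟩ := ls_ex hc hT g
  have hXU : X ⊆ U := fun w hw => ((h.mem w).1 hw).1
  have key : ∀ u (l : List V), u ∉ X → (∀ t ∈ X, t ∉ l) → fst l.reverse u ∉ X := fun u l a b c =>
    (fst_mem_or l.reverse u).elim (fun d => b _ c (List.mem_reverse.1 d)) fun d => a (d.2 ▸ c)
  have p1 : z ∈ X ∧ fst l.reverse x ∉ X := by
    have hx : x ∉ X := fun a => ((h.mem x).1 a).2.1 rfl
    rcases h.sx.all hc.cub hl with ⟨rfl, -⟩ | ⟨rfl, rfl⟩ | ⟨rfl, rfl⟩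
    · omega
    · exact ⟨h.mx1, key _ _ hx fun t ht => ((h.mem t).1 ht).2.2.2.2.1⟩
    · exact ⟨h.mx2, key _ _ hx fun t ht => ((h.mem t).1 ht).2.2.2.2.2.1⟩
  have p2 : fst m.reverse y ∉ X := by
    have hy : y ∉ X := fun a => ((h.mem y).1 a).2.2.1 rfl
    rcases h.sy.all hc.cub hm with ⟨rfl, -⟩ | ⟨rfl, rfl⟩ | ⟨rfl, rfl⟩
    · rw [List.length_reverse] at s2
      omega
    · exact key _ _ hy fun t ht => ((h.mem t).1 ht).2.2.2.2.2.2.1
    · exact key _ _ hy fun t ht => ((h.mem t).1 ht).2.2.2.2.2.2.2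
  have d1 := dg_lt (subset_insert _ X) (mem_insert_self _ _) p1.2 hl.symm.adj_fst
  have d2 := dg_lt (subset_insert _ (insert (fst l.reverse x) X)) (mem_insert_self _ _)
    (fun a => (mem_insert.1 a).elim (fun e => hT.ne (Prod.mk.inj (hl.symm.uniq hm.symm e.symm)).2)
      p2) hm.symm.adj_fst
  have d3 := d2.trans (dg_le hc.cub _ z)
  obtain ⟨n, z', hn, g'⟩ := h.pm hc z hl.hz'
  obtain ⟨t, -, ht, -, -, a, -⟩ := hn.long g'
  exact h.ng (root2 hc.cub hc.hA (card_le_card hXU) h.cn p1.1 (h.long_mem hc hn g' p1.1 t ht) a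
    (by omega) ((dg_mono hXU t).trans (hn.inn t ht).2.le))

end Pool.Agent.Lib.MP_7e4769_co.Sp
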