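import Pool.Agent.Lib.MP_7e4769_co.Sp.CaseL1

set_option autoImplicit false
set_option linter.unusedSectionVars false

namespace Pool.Agent.Lib.MP_7e4769_co.Sp

open Finset

variable {V : Type} [Fintype V] [DecidableEq V] {G : SimpleGraph V} [DecidableRel G.Adj]

theorem casel2_fst {U W : Finset V} (hk : ∀ v ∈ Kn G U, v ∈ W)
    (hs : ∀ z l z', Link G U z l z' → l.length ≤ 1 → ∀ t ∈ l, t ∈ W) {z z' : V} {l : List V}
    (h : Link G U z l z') (h1 : l.length ≤ 1) : fst l z' ∈ W :=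
  (fst_mem_or l z').elim (hs z l z' h h1 _) fun e => e.2.symm ▸ hk z' h.hz'

/-- `W` = kernel vertices and vertices of links with one inner vertex; by `PM` and `NA` every
vertex of `W` has exactly two neighbours in `W`; a vertex of `U` outside `W` is on a long link -/
theorem w_ex {U : Finset V} (hc : Ctx G U) (hp : PM G U) (hK : (Kn G U).Nonempty) :
    ∃ W, W ⊆ U ∧ (∀ v ∈ W, dg G W v = 2) ∧ (∀ v ∈ Kn G U, v ∈ W) ∧
      (∀ z l z', Link G U z l z' → l.length ≤ 1 → ∀ t ∈ l, t ∈ W) ∧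
      ∀ t ∈ U, t ∉ W → ∃ z l z', Link G U z l z' ∧ 2 ≤ l.length ∧ t ∈ l := by
  classical
  have hk : ∀ v ∈ Kn G U, v ∈ U.filter (fun v => v ∈ Kn G U ∨ ∃ z z', Link G U z [v] z') :=
    fun v hv => mem_filter.2 ⟨(mem_Kn.1 hv).1, Or.inl hv⟩
  have hs : ∀ z l z', Link G U z l z' → l.length ≤ 1 → ∀ t ∈ l,
      t ∈ U.filter (fun v => v ∈ Kn G U ∨ ∃ z z', Link G U z [v] z') := by
    intro z l z' h h1 t ht
    match l, h, h1, ht with
    | [s], h, _, ht =>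
      obtain rfl := List.mem_singleton.1 ht
      exact mem_filter.2 ⟨(h.inn t ht).1, Or.inr ⟨z, z', h⟩⟩
  refine ⟨_, filter_subset _ _, fun v hv => ?_, hk, hs, fun t ht hW => ?_⟩
  · rcases (mem_filter.1 hv).2 with h | ⟨z, z', h⟩
    · obtain ⟨l1, z1, h1, g1⟩ := hp v h
      obtain ⟨l2, z2, l3, z3, s⟩ := star_ex1 hc.cub hc.ec h1
      have g2 : l2.length ≤ 1 := not_lt.1 fun g => s.n12 (na_ctx hc _ _ _ _ _ h1 s.h2 g1 g)
      have g3 : l3.length ≤ 1 := not_lt.1 fun g => s.n13 (na_ctx hc _ _ _ _ _ h1 s.h3 g1 g)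
      obtain ⟨t, -, ht, -, -, ha, -⟩ := h1.long g1
      refine le_antisymm (dg_le_two_of_out hc.cub (fun hW => ?_) ha) (two_le_dg
        (casel2_fst hk hs s.h2 g2) (casel2_fst hk hs s.h3 g3) s.h2.adj_fst s.h3.adj_fst
        s.fst_ne.2.2)
      rcases (mem_filter.1 hW).2 with e | ⟨y, y', e⟩
      · exact h1.notK ht e
      · rcases h1.disj e ht (List.mem_singleton_self t) with ⟨-, rfl, -⟩ | ⟨-, rfl, -⟩ <;>
          simp at g1
    · exact le_antisymm ((dg_mono (filter_subset _ _) v).trans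
        (h.inn v (List.mem_singleton_self v)).2.le)
        (two_le_dg (hk _ h.hz) (hk _ h.hz') h.one.1.symm h.one.2.1 h.ne)
  · obtain ⟨z, l, z', h, hl⟩ := on_link hc.cub hc.ec hK ht fun e => hW (hk t e)
    exact ⟨z, l, z', h, not_le.1 fun e => hW (hs z l z' h e t hl), hl⟩

theorem casel2_sub {U X : Finset V} {x y x1 x2 y1 y2 : V} {T a1 a2 b1 b2 : List V}
    (h : LS G U x T y a1 x1 a2 x2 b1 y1 b2 y2 X) : X ⊆ U := fun w hw => ((h.mem w).1 hw).1

theorem casel2_in {U X : Finset V} {x y x1 x2 y1 y2 : V} {T a1 a2 b1 b2 : List V}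
    (h : LS G U x T y a1 x1 a2 x2 b1 y1 b2 y2 X) {z z' t t' : V} {l : List V}
    (hl : Link G U z l z') (ht : t ∈ l) (ht' : t' ∈ l) (hX : t ∈ X) : t' ∈ X := by
  have k : ∀ {p q : V} {m : List V}, Link G U p m q → t ∉ m → t' ∉ m := fun hm e e' => by
    rcases hl.disj hm ht' e' with ⟨-, rfl, -⟩ | ⟨-, rfl, -⟩
    · exact e ht
    · exact e (List.mem_reverse.1 ht)
  obtain ⟨-, -, -, e1, e2, e3, e4, e5⟩ := (h.mem t).1 hX
  exact (h.mem t').2 ⟨(hl.inn t' ht').1, fun e => hl.notK ht' (e ▸ h.sx.h1.hz),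
    fun e => hl.notK ht' (e ▸ h.sy.h1.hz), k h.sx.h1 e1, k h.sx.h2 e2, k h.sx.h3 e3,
    k h.sy.h2 e4, k h.sy.h3 e5⟩

theorem casel2_three {U X S : Finset V} (hc : Ctx G U) {x y x1 x2 y1 y2 : V}
    {T a1 a2 b1 b2 : List V} (h : LS G U x T y a1 x1 a2 x2 b1 y1 b2 y2 X) (hS : S ⊆ X)
    (hne : S.Nonempty) (hcn : Conn G S) (hg : ¬ Good G S) (h1 : cut G X S ≤ 1) :
    3 ≤ cut G U S := by
  have hSU := hS.trans (casel2_sub h)
  have hn : S ≠ U := fun e => ((h.mem x).1 (hS (e ▸ h.sx.h1.memU.1))).2.1 rfl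
  have h2 := hc.ec.2 S hSU hne hn
  have h3 := kb' hc hSU hn hne hcn hg
  have h4 : cut G U S ≤ cut G X S + eb G S (U \ X) := by
    rw [cut, cut, ← eb_union_right S (disjoint_sdiff.mono_left sdiff_subset)]
    refine eb_mono Subset.rfl fun w hw => ?_
    simp only [mem_union, mem_sdiff] at hw ⊢
    tauto
  obtain ⟨a, ha, b, hb, hab⟩ := (one_le_eb (G := G) (A := S) (B := U \ X)).1 (by omega)
  have h5 : a ∈ Kn G U := by
    rcases h.edge a (hS ha) b (mem_sdiff.1 hb).1 (mem_sdiff.1 hb).2 hab with e | e | e | e <;>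
      rw [e.1]
    exacts [h.sx.h2.hz', h.sx.h3.hz', h.sy.h2.hz', h.sy.h3.hz']
  have h6 := card_pos.2 ⟨a, mem_inter.2 ⟨h5, ha⟩⟩
  omega

/-- A part `S` with cut 1 in `X`: both sides are connected and not good (`sides_bad`), each has a
second edge leaving it in `U`, which starts at a kernel vertex (`edge`), so `kb'` gives cuts at
least 3, with sum at most 6 (`cut_split`): both are 3. If an end of the cut edge is outside `W` it
lies on a long link, whose vertices are in `X`: `root3` (for `S` or `X \ S`). Otherwise `cut_even`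
contradicts 3. -/
theorem LS.ec2 {U X : Finset V} (hc : Ctx G U) {x y x1 x2 y1 y2 : V} {T a1 a2 b1 b2 : List V}
    (h : LS G U x T y a1 x1 a2 x2 b1 y1 b2 y2 X) : EC2 G X := by
  have hXU := casel2_sub h
  have hcd := card_le_card hXU
  have h12 : x1 ≠ x2 := by
    have := h.sx.nodup hc
    simp only [List.nodup_cons, List.mem_cons, not_or] at this
    exact this.2.2.1.1
  refine ⟨one_lt_card.2 ⟨x1, h.mx1, x2, h.mx2, h12⟩, fun S hS hne hne' => not_lt.1 fun h1 => ?_⟩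
  have h1 : cut G X S ≤ 1 := by omega
  have h1' := (cut_compl (G := G) hS).trans_le h1
  obtain ⟨c1, g1, c2, g2⟩ := sides_bad hc.cub hc.hA hcd h.cn h.ng hS hne hne' h1
  have k1 := casel2_three hc h hS hne c1 g1 h1
  have k2 := casel2_three hc h sdiff_subset
    (sdiff_nonempty.2 fun e => hne' (hS.antisymm e)) c2 g2 h1'
  have k3 := cut_split (G := G) hS hXU
  have k4 := h.ct
  obtain ⟨a, ha, b, hb, hbS, hab⟩ := cut_pos (h.cn S hS hne hne')
  obtain ⟨W, hW, w2, wk, ws, wl⟩ := w_ex hc (h.pm hc) ⟨x, h.sx.h1.hz⟩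
  have hr : ∀ S' ⊆ X, cut G X S' ≤ 1 → ∀ t ∈ S', ∀ w ∈ X, w ∉ S' → G.Adj t w → t ∈ W := by
    intro S' hS' e t ht w hw hwS htw
    by_contra htW
    obtain ⟨z, l, z', hl, l2, htl⟩ := wl t (hXU (hS' ht)) htW
    obtain ⟨t', ht', htt⟩ := hl.long_nb l2 htl
    exact h.ng (root3 hc.cub hc.hA hcd h.cn hS' e ht hw hwS htw
      (casel2_in h hl htl ht' (hS' ht)) htt ((dg_mono hXU t).trans (hl.inn t htl).2.le)
      ((dg_mono hXU t').trans (hl.inn t' ht').2.le))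
  have k5 := cut_even (G := G) (S := S) hW w2 fun a' ha' b' hb' hbS' hab' => by
    by_cases e : b' ∈ X
    · exact ⟨hr S hS h1 a' ha' b' e hbS' hab', hr _ sdiff_subset h1' b' (mem_sdiff.2 ⟨e, hbS'⟩)
        a' (hS ha') (fun e => (mem_sdiff.1 e).2 ha') hab'.symm⟩
    · rcases h.edge a' (hS ha') b' hb' e hab' with ⟨rfl, rfl⟩ | ⟨rfl, rfl⟩ | ⟨rfl, rfl⟩ | ⟨rfl, rfl⟩
      · exact ⟨wk _ h.sx.h2.hz', casel2_fst wk ws h.sx.h2.symm (by simpa using h.la1)⟩
      · exact ⟨wk _ h.sx.h3.hz', casel2_fst wk ws h.sx.h3.symm (by simpa using h.la2)⟩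
      · exact ⟨wk _ h.sy.h2.hz', casel2_fst wk ws h.sy.h2.symm (by simpa using h.lb1)⟩
      · exact ⟨wk _ h.sy.h3.hz', casel2_fst wk ws h.sy.h3.symm (by simpa using h.lb2)⟩
  omega

theorem LS.nodup {U X : Finset V} (hc : Ctx G U) {x y x1 x2 y1 y2 : V} {T a1 a2 b1 b2 : List V}
    (h : LS G U x T y a1 x1 a2 x2 b1 y1 b2 y2 X) : [x, y, x1, x2, y1, y2].Nodup := by
  have n1 := h.sx.nodup hc
  have n2 := h.sy.nodup hc
  have k : ∀ {a b : List V} {p q : V}, Link G U x a p → a.length ≤ 1 → Link G U y b q →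
      b.length ≤ 1 → p ≠ q := fun h1 g1 h2 g2 e =>
    no_lt hc ⟨T, h.sx.h1, h.lT⟩ ⟨_, h1, g1⟩ ⟨_, e ▸ h2, g2⟩
  have k1 := k h.sx.h2 h.la1 h.sy.h2 h.lb1
  have k2 := k h.sx.h2 h.la1 h.sy.h3 h.lb2
  have k3 := k h.sx.h3 h.la2 h.sy.h2 h.lb1
  have k4 := k h.sx.h3 h.la2 h.sy.h3 h.lb2
  simp only [List.nodup_cons, List.mem_cons, List.not_mem_nil, not_or, List.nodup_nil,
    not_false_eq_true, and_true] at n1 n2 ⊢
  tauto

theorem casel2_port (hG : G.IsRegularOfDegree 3) {U X : Finset V} {z z' : V} {l : List V}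
    (h : Link G U z l z') (hz : z ∉ X) (hl : ∀ t ∈ l, t ∉ X) : z' ∉ Kn G X := fun e => by
  have := dg_le_two_of_out hG (U := X) ((fst_mem_or l.reverse z).elim
    (fun e => hl _ (List.mem_reverse.1 e)) fun e => e.2.symm ▸ hz) h.symm.adj_fst
  rw [(mem_Kn.1 e).2] at this
  omega

/-- `X` is bad by `hU`; a kernel vertex of `U` in `X` has degree 3 in `X` or an edge out of `X` -/
theorem LS.kernel {U X : Finset V} (hc : Ctx G U) {x y x1 x2 y1 y2 : V} {T a1 a2 b1 b2 : List V}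
    (h : LS G U x T y a1 x1 a2 x2 b1 y1 b2 y2 X) :
    (∀ w ∈ Kn G U, w ∈ [x, y, x1, x2, y1, y2]) ∨
    ∃ u v, [x, y, x1, x2, y1, y2, u, v].Nodup ∧ Link G U u [] v ∧
      ∀ w ∈ Kn G U, w ∈ [x, y, x1, x2, y1, y2, u, v] := by
  have hXU := casel2_sub h
  have hx : x ∉ X := fun e => ((h.mem x).1 e).2.1 rfl
  have hy : y ∉ X := fun e => ((h.mem y).1 e).2.2.1 rfl
  have p1 := casel2_port hc.cub h.sx.h2 hx fun t ht e => ((h.mem t).1 e).2.2.2.2.1 ht
  have p2 := casel2_port hc.cub h.sx.h3 hx fun t ht e => ((h.mem t).1 e).2.2.2.2.2.1 ht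
  have p3 := casel2_port hc.cub h.sy.h2 hy fun t ht e => ((h.mem t).1 e).2.2.2.2.2.2.1 ht
  have p4 := casel2_port hc.cub h.sy.h3 hy fun t ht e => ((h.mem t).1 e).2.2.2.2.2.2.2 ht
  have hk : ∀ w ∈ Kn G U, w ∉ Kn G X → w ∈ [x, y, x1, x2, y1, y2] := by
    intro w hw hwX
    by_cases e1 : w = x
    · simp [e1]
    by_cases e2 : w = y
    · simp [e2]
    have e3 : w ∈ X := (h.mem w).2 ⟨(mem_Kn.1 hw).1, e1, e2, fun e => h.sx.h1.notK e hw,
      fun e => h.sx.h2.notK e hw, fun e => h.sx.h3.notK e hw, fun e => h.sy.h2.notK e hw,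
      fun e => h.sy.h3.notK e hw⟩
    obtain ⟨p, hp, hwp⟩ := ex_out hc.cub fun e => hwX (mem_Kn.2 ⟨e3, e⟩)
    rcases h.edge w e3 p (dg3_mem hc.cub (mem_Kn.1 hw).2 hwp) hp hwp with e | e | e | e <;>
      simp [e.1]
  have hKU : ∀ w ∈ Kn G X, w ∈ Kn G U := fun w hw => mem_Kn.2 ⟨hXU (mem_Kn.1 hw).1,
    le_antisymm (dg_le hc.cub U w) ((mem_Kn.1 hw).2.ge.trans (dg_mono hXU w))⟩
  rcases hc.hU X (card_lt_card ⟨hXU, fun e => hx (e h.sx.h1.memU.1)⟩) (h.ec2 hc)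
    ⟨x1, h.mx1, fun e => p1 (mem_Kn.2 ⟨h.mx1, e⟩)⟩ h.ng with hb | ⟨u, v, hu, hv, huv, hb, -⟩
  · refine Or.inl fun w hw => hk w hw fun e => ?_
    have := hb w (mem_Kn.1 e).1
    rw [(mem_Kn.1 e).2] at this
    omega
  · refine Or.inr ⟨u, v, ?_, link_nil (hKU u hu) (hKU v hv) huv, fun w hw => ?_⟩
    · have hn : ∀ w ∈ Kn G X, ∀ z ∈ [x, y, x1, x2, y1, y2], z ≠ w := by
        intro w hw z hz e
        subst e
        simp only [List.mem_cons, List.not_mem_nil, or_false] at hz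
        rcases hz with rfl | rfl | rfl | rfl | rfl | rfl
        exacts [hx (mem_Kn.1 hw).1, hy (mem_Kn.1 hw).1, p1 hw, p2 hw, p3 hw, p4 hw]
      refine (List.nodup_append (l₁ := [x, y, x1, x2, y1, y2]) (l₂ := [u, v])).2
        ⟨h.nodup hc, by simp [huv.ne], fun z hz w hw => hn w ?_ z hz⟩
      simp only [List.mem_cons, List.not_mem_nil, or_false] at hw
      rcases hw with rfl | rfl
      exacts [hu, hv]
    · by_cases e : w ∈ Kn G X
      · rcases hb w e with rfl | rfl <;> simp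
      · exact List.mem_append_left [u, v] (hk w hw e)

end Pool.Agent.Lib.MP_7e4769_co.Sp
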