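import Pool.Agent.Lib.MP_7e4769_co.Sp.Defs

set_option autoImplicit false
set_option linter.unusedSectionVars false

namespace Pool.Agent.Lib.MP_7e4769_co.Sp

open Finset

variable {V : Type} [Fintype V] [DecidableEq V] {G : SimpleGraph V} [DecidableRel G.Adj]

/-- two relations on a set `K`: `S` is 2-regular, `L` is a perfect matching, they are disjoint,
and no `L`-pair has a common `S`-neighbour -/
structure SL (K : V → Prop) (S L : V → V → Prop) : Prop where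
  ss : ∀ a b, S a b → S b a
  ls : ∀ a b, L a b → L b a
  sk : ∀ a b, S a b → K b
  lk : ∀ a b, L a b → K b
  si : ∀ a, ¬ S a a
  li : ∀ a, ¬ L a a
  sl : ∀ a b, S a b → ¬ L a b
  lf : ∀ a b c, L a b → L a c → b = c
  s2 : ∀ a b c d, S a b → S a c → S a d → b = c ∨ b = d ∨ c = d
  le : ∀ a, K a → ∃ b, L a b
  se : ∀ a b, S a b → ∃ c, c ≠ b ∧ S a c
  lt : ∀ a b c, L a b → S a c → S b c → False

theorem comb_nd6 {x y a b c d : V} (hn : [x, y, a, b, c, d].Nodup) : [x, y, a, b, d, c].Nodup :=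
  (List.Perm.nodup_iff ((((((List.Perm.swap d c []).cons b).cons a).cons y).cons x))).1 hn

/-- a vertex with two known neighbours has no third one -/
theorem SL.comb_no3 {K : V → Prop} {S L : V → V → Prop} (h : SL K S L) {a b c d : V}
    (h1 : S a b) (h2 : S a c) (h3 : S d a) (n1 : b ≠ c) (n2 : b ≠ d) (n3 : c ≠ d) : False := by
  rcases h.s2 _ _ _ _ h1 h2 (h.ss _ _ h3) with e | e | e
  exacts [n1 e, n2 e, n3 e]

theorem comb_core6 {K : V → Prop} {S L : V → V → Prop} (h : SL K S L) {x y x1 x2 p q : V}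
    (hn : [x, y, x1, x2, p, q].Nodup) (hK : ∀ w, K w → w ∈ [x, y, x1, x2, p, q])
    (h0 : L x y) (h1 : S x x1) (h2 : S x x2) (h3 : S y p) (h4 : S y q) (hp : L x1 p) :
    ∃ c d, [x, y, x1, x2, c, d].Nodup ∧ S y c ∧ S y d ∧
      ((S x1 x2 ∧ S c d ∧ L x1 c ∧ L x2 d) ∨ (S x1 c ∧ S x2 d ∧ L x1 d ∧ L x2 c)) := by
  have hn' := hn
  simp only [List.nodup_cons, List.mem_cons, List.not_mem_nil, or_false, not_or, List.nodup_nil,
    not_false_eq_true, and_true] at hn' hK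
  have hq : L x2 q := by
    obtain ⟨r, hr⟩ := h.le x2 (h.sk _ _ h2)
    rcases hK r (h.lk _ _ hr) with rfl | rfl | rfl | rfl | rfl | rfl
    · exact absurd (h.lf _ _ _ h0 (h.ls _ _ hr)) (by grind)
    · exact absurd (h.lf _ _ _ (h.ls _ _ h0) (h.ls _ _ hr)) (by grind)
    · exact (h.lt _ _ _ hr (h.ss _ _ h2) (h.ss _ _ h1)).elim
    · exact absurd hr (h.li _)
    · exact absurd (h.lf _ _ _ (h.ls _ _ hp) (h.ls _ _ hr)) (by grind)
    · exact hr
  obtain ⟨r, hr0, hr⟩ := h.se x1 x (h.ss _ _ h1)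
  rcases hK r (h.sk _ _ hr) with rfl | rfl | rfl | rfl | rfl | rfl
  · exact absurd rfl hr0
  · exact (h.comb_no3 h3 h4 hr (by grind) (by grind) (by grind)).elim
  · exact absurd hr (h.si _)
  · refine ⟨p, q, hn, h3, h4, Or.inl ⟨hr, ?_, hp, hq⟩⟩
    obtain ⟨s, hs0, hs⟩ := h.se p y (h.ss _ _ h3)
    rcases hK s (h.sk _ _ hs) with rfl | rfl | rfl | rfl | rfl | rfl
    · exact (h.comb_no3 h1 h2 hs (by grind) (by grind) (by grind)).elim
    · exact absurd rfl hs0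
    · exact absurd hp (h.sl _ _ (h.ss _ _ hs))
    · exact (h.comb_no3 (h.ss _ _ h2) (h.ss _ _ hr) hs (by grind) (by grind) (by grind)).elim
    · exact absurd hs (h.si _)
    · exact hs
  · exact absurd hp (h.sl _ _ hr)
  · refine ⟨r, p, comb_nd6 hn, h4, h3, Or.inr ⟨hr, ?_, hp, hq⟩⟩
    obtain ⟨s, hs0, hs⟩ := h.se x2 x (h.ss _ _ h2)
    rcases hK s (h.sk _ _ hs) with rfl | rfl | rfl | rfl | rfl | rfl
    · exact absurd rfl hs0
    · exact (h.comb_no3 h3 h4 hs (by grind) (by grind) (by grind)).elim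
    · exact (h.comb_no3 (h.ss _ _ h1) hr hs (by grind) (by grind) (by grind)).elim
    · exact absurd hs (h.si _)
    · exact hs
    · exact absurd hq (h.sl _ _ hs)

theorem comb6 {K : V → Prop} {S L : V → V → Prop} (h : SL K S L) {x y x1 x2 y1 y2 : V}
    (hn : [x, y, x1, x2, y1, y2].Nodup) (hK : ∀ w, K w → w ∈ [x, y, x1, x2, y1, y2])
    (h0 : L x y) (h1 : S x x1) (h2 : S x x2) (h3 : S y y1) (h4 : S y y2) :
    ∃ c d, [x, y, x1, x2, c, d].Nodup ∧ S y c ∧ S y d ∧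
      ((S x1 x2 ∧ S c d ∧ L x1 c ∧ L x2 d) ∨ (S x1 c ∧ S x2 d ∧ L x1 d ∧ L x2 c)) := by
  have hx1 : K x1 := h.sk _ _ h1
  obtain ⟨p, hp⟩ := h.le x1 hx1
  have hp' := hK p (h.lk _ _ hp)
  have hn' := hn
  simp only [List.nodup_cons, List.mem_cons, List.not_mem_nil, or_false, not_or, List.nodup_nil,
    not_false_eq_true, and_true] at hn' hp'
  rcases hp' with rfl | rfl | rfl | rfl | rfl | rfl
  · exact absurd (h.lf _ _ _ h0 (h.ls _ _ hp)) (by grind)
  · exact absurd (h.lf _ _ _ (h.ls _ _ h0) (h.ls _ _ hp)) (by grind)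
  · exact absurd hp (h.li _)
  · exact (h.lt _ _ _ hp (h.ss _ _ h1) (h.ss _ _ h2)).elim
  · exact comb_core6 h hn hK h0 h1 h2 h3 h4 hp
  · refine comb_core6 h (comb_nd6 hn) (fun w hw => ?_) h0 h1 h2 h4 h3 hp
    have := hK w hw
    simp only [List.mem_cons, List.not_mem_nil, or_false] at this ⊢
    tauto

theorem comb_pm {a b c d : V} (h : (a = c ∧ b = d) ∨ (a = d ∧ b = c)) : [a, b].Perm [c, d] := by
  rcases h with ⟨rfl, rfl⟩ | ⟨rfl, rfl⟩
  · exact List.Perm.refl _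
  · exact List.Perm.swap _ _ _

theorem SL.comb_last {K : V → Prop} {S L : V → V → Prop} (h : SL K S L) {a b c d e f r : V}
    (hr : L a r) (l2 : L b e) (l3 : L d f) (m : r = a ∨ r = b ∨ r = c ∨ r = d ∨ r = e ∨ r = f)
    (n1 : a ≠ e) (n2 : a ≠ f) (n3 : a ≠ b) (n4 : a ≠ d) : L a c := by
  rcases m with rfl | rfl | rfl | rfl | rfl | rfl
  · exact absurd hr (h.li _)
  · exact absurd (h.lf _ _ _ (h.ls _ _ hr) l2) n1
  · exact hr
  · exact absurd (h.lf _ _ _ (h.ls _ _ hr) l3) n2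
  · exact absurd (h.lf _ _ _ (h.ls _ _ hr) (h.ls _ _ l2)) n3
  · exact absurd (h.lf _ _ _ (h.ls _ _ hr) (h.ls _ _ l3)) n4

theorem comb_core8 {K : V → Prop} {S L : V → V → Prop} (h : SL K S L) {x y a b c d e f : V}
    (hn : [x, y, a, b, c, d, e, f].Nodup) (hK : ∀ w, K w → w ∈ [x, y, a, b, c, d, e, f])
    (h1 : S x a) (h2 : S x b) (h3 : S y c) (h4 : S y d) (h5 : S e f) (l2 : L b e) (l3 : L d f) :
    S b d ∧ ((S a e ∧ S c f) ∨ (S a f ∧ S c e)) := by
  simp only [List.nodup_cons, List.mem_cons, List.not_mem_nil, or_false, not_or, List.nodup_nil,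
    not_false_eq_true, and_true] at hn hK
  have he : S e a ∨ S e c := by
    obtain ⟨s, hs0, hs⟩ := h.se e f h5
    rcases hK s (h.sk _ _ hs) with rfl | rfl | rfl | rfl | rfl | rfl | rfl | rfl
    · exact (h.comb_no3 h1 h2 hs (by grind) (by grind) (by grind)).elim
    · exact (h.comb_no3 h3 h4 hs (by grind) (by grind) (by grind)).elim
    · exact Or.inl hs
    · exact absurd l2 (h.sl _ _ (h.ss _ _ hs))
    · exact Or.inr hs
    · exact (h.lt _ _ _ l3 (h.ss _ _ hs) (h.ss _ _ h5)).elim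
    · exact absurd hs (h.si _)
    · exact absurd rfl hs0
  have hf : S f a ∨ S f c := by
    obtain ⟨s, hs0, hs⟩ := h.se f e (h.ss _ _ h5)
    rcases hK s (h.sk _ _ hs) with rfl | rfl | rfl | rfl | rfl | rfl | rfl | rfl
    · exact (h.comb_no3 h1 h2 hs (by grind) (by grind) (by grind)).elim
    · exact (h.comb_no3 h3 h4 hs (by grind) (by grind) (by grind)).elim
    · exact Or.inl hs
    · exact (h.lt _ _ _ l2 (h.ss _ _ hs) h5).elim
    · exact Or.inr hs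
    · exact absurd l3 (h.sl _ _ (h.ss _ _ hs))
    · exact absurd rfl hs0
    · exact absurd hs (h.si _)
  have hef : (S a e ∧ S c f) ∨ (S a f ∧ S c e) := by
    rcases he with he | he <;> rcases hf with hf | hf
    · exact (h.comb_no3 (h.ss _ _ h1) (h.ss _ _ he) hf (by grind) (by grind) (by grind)).elim
    · exact Or.inl ⟨h.ss _ _ he, h.ss _ _ hf⟩
    · exact Or.inr ⟨h.ss _ _ hf, h.ss _ _ he⟩
    · exact (h.comb_no3 (h.ss _ _ h3) (h.ss _ _ he) hf (by grind) (by grind) (by grind)).elim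
  refine ⟨?_, hef⟩
  obtain ⟨s, hs0, hs⟩ := h.se b x (h.ss _ _ h2)
  rcases hK s (h.sk _ _ hs) with rfl | rfl | rfl | rfl | rfl | rfl | rfl | rfl
  · exact absurd rfl hs0
  · exact (h.comb_no3 h3 h4 hs (by grind) (by grind) (by grind)).elim
  · rcases hef with t | t <;>
      exact (h.comb_no3 (h.ss _ _ h1) t.1 hs (by grind) (by grind) (by grind)).elim
  · exact absurd hs (h.si _)
  · rcases hef with t | t <;>
      exact (h.comb_no3 (h.ss _ _ h3) t.2 hs (by grind) (by grind) (by grind)).elim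
  · exact hs
  · exact absurd l2 (h.sl _ _ hs)
  · exact (h.lt _ _ _ l2 hs h5).elim

theorem comb8 {K : V → Prop} {S L : V → V → Prop} (h : SL K S L) {x y x1 x2 y1 y2 u v : V}
    (hn : [x, y, x1, x2, y1, y2, u, v].Nodup)
    (hK : ∀ w, K w → w ∈ [x, y, x1, x2, y1, y2, u, v])
    (h0 : L x y) (h1 : S x x1) (h2 : S x x2) (h3 : S y y1) (h4 : S y y2) (h5 : S u v) :
    ∃ a b c d e f, [x, y, a, b, c, d, e, f].Nodup ∧ ((e = u ∧ f = v) ∨ (e = v ∧ f = u)) ∧
      S x a ∧ S x b ∧ S y c ∧ S y d ∧ S a e ∧ S c f ∧ S b d ∧ L a c ∧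
      ((L b f ∧ L d e) ∨ (L b e ∧ L d f)) := by
  have hn' := hn
  have hK' := hK
  simp only [List.nodup_cons, List.mem_cons, List.not_mem_nil, or_false, not_or, List.nodup_nil,
    not_false_eq_true, and_true] at hn' hK'
  have key : ∀ w, w ≠ x → w ≠ y → K w → ∃ r, L w r ∧
      (r = x1 ∨ r = x2 ∨ r = y1 ∨ r = y2 ∨ r = u ∨ r = v) := by
    intro w w1 w2 hw
    obtain ⟨r, hr⟩ := h.le w hw
    refine ⟨r, hr, ?_⟩
    rcases hK' r (h.lk _ _ hr) with rfl | rfl | e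
    · exact absurd (h.lf _ _ _ h0 (h.ls _ _ hr)).symm w2
    · exact absurd (h.lf _ _ _ (h.ls _ _ h0) (h.ls _ _ hr)).symm w1
    · exact e
  have nx : ¬ L x1 x2 := fun e => h.lt _ _ _ e (h.ss _ _ h1) (h.ss _ _ h2)
  have ny : ¬ L y1 y2 := fun e => h.lt _ _ _ e (h.ss _ _ h3) (h.ss _ _ h4)
  have nu : ¬ L u v := h.sl _ _ h5
  clear hK
  have hP : ∀ a b c d e f, ((a = x1 ∧ b = x2) ∨ (a = x2 ∧ b = x1)) →
      ((c = y1 ∧ d = y2) ∨ (c = y2 ∧ d = y1)) → ((e = u ∧ f = v) ∨ (e = v ∧ f = u)) →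
      [x, y, a, b, c, d, e, f].Perm [x, y, x1, x2, y1, y2, u, v] := fun a b c d e f c1 c2 c3 =>
    (((comb_pm c1).append ((comb_pm c2).append (comb_pm c3))).cons y).cons x
  have hN := fun a b c d e f c1 c2 c3 => (hP a b c d e f c1 c2 c3).nodup_iff.2 hn
  clear hn
  obtain ⟨⟨n01, n02, n03, n04, n05, n06, n07⟩, ⟨n12, n13, n14, n15, n16, n17⟩,
    ⟨n23, n24, n25, n26, n27⟩, ⟨n34, n35, n36, n37⟩, ⟨n45, n46, n47⟩, ⟨n56, n57⟩, n67⟩ := hn'
  obtain ⟨r1, a1, b1⟩ := key x1 (Ne.symm n02) (Ne.symm n12) (h.sk _ _ h1)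
  obtain ⟨r2, a2, b2⟩ := key x2 (Ne.symm n03) (Ne.symm n13) (h.sk _ _ h2)
  obtain ⟨r3, a3, b3⟩ := key y1 (Ne.symm n04) (Ne.symm n14) (h.sk _ _ h3)
  obtain ⟨r4, a4, b4⟩ := key y2 (Ne.symm n05) (Ne.symm n15) (h.sk _ _ h4)
  obtain ⟨r5, a5, b5⟩ := key u (Ne.symm n06) (Ne.symm n16) (h.sk _ _ (h.ss _ _ h5))
  obtain ⟨r6, a6, b6⟩ := key v (Ne.symm n07) (Ne.symm n17) (h.sk _ _ h5)
  have hcase : ∃ a b c d e f, ((a = x1 ∧ b = x2) ∨ (a = x2 ∧ b = x1)) ∧
      ((c = y1 ∧ d = y2) ∨ (c = y2 ∧ d = y1)) ∧ ((e = u ∧ f = v) ∨ (e = v ∧ f = u)) ∧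
      L a c ∧ L b e ∧ L d f := by
    have c5 : L x1 u ∨ L x2 u ∨ L y1 u ∨ L y2 u := by
      rcases b5 with e | e | e | e | e | e <;> rw [e] at a5
      exacts [Or.inl (h.ls _ _ a5), Or.inr (Or.inl (h.ls _ _ a5)),
        Or.inr (Or.inr (Or.inl (h.ls _ _ a5))), Or.inr (Or.inr (Or.inr (h.ls _ _ a5))),
        absurd a5 (h.li _), absurd a5 nu]
    have c6 : L x1 v ∨ L x2 v ∨ L y1 v ∨ L y2 v := by
      rcases b6 with e | e | e | e | e | e <;> rw [e] at a6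
      exacts [Or.inl (h.ls _ _ a6), Or.inr (Or.inl (h.ls _ _ a6)),
        Or.inr (Or.inr (Or.inl (h.ls _ _ a6))), Or.inr (Or.inr (Or.inr (h.ls _ _ a6))),
        absurd (h.ls _ _ a6) nu, absurd a6 (h.li _)]
    rcases c5 with c5 | c5 | c5 | c5 <;> rcases c6 with c6 | c6 | c6 | c6
    · exact absurd (h.lf _ _ _ c5 c6) n67
    · exact absurd (h.comb_last a3 c5 c6
          (by rcases b3 with e | e | e | e | e | e <;> simp only [e, true_or, or_true])
          n46 n47 (Ne.symm n24) (Ne.symm n34)) ny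
    · exact ⟨x2, x1, y2, y1, u, v, Or.inr ⟨rfl, rfl⟩, Or.inr ⟨rfl, rfl⟩, Or.inl ⟨rfl, rfl⟩,
        (h.comb_last a2 c5 c6
          (by rcases b2 with e | e | e | e | e | e <;> simp only [e, true_or, or_true])
          n36 n37 (Ne.symm n23) n34), c5, c6⟩
    · exact ⟨x2, x1, y1, y2, u, v, Or.inr ⟨rfl, rfl⟩, Or.inl ⟨rfl, rfl⟩, Or.inl ⟨rfl, rfl⟩,
        (h.comb_last a2 c5 c6
          (by rcases b2 with e | e | e | e | e | e <;> simp only [e, true_or, or_true])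
          n36 n37 (Ne.symm n23) n35), c5, c6⟩
    · exact absurd (h.comb_last a3 c5 c6
          (by rcases b3 with e | e | e | e | e | e <;> simp only [e, true_or, or_true])
          n46 n47 (Ne.symm n34) (Ne.symm n24)) ny
    · exact absurd (h.lf _ _ _ c5 c6) n67
    · exact ⟨x1, x2, y2, y1, u, v, Or.inl ⟨rfl, rfl⟩, Or.inr ⟨rfl, rfl⟩, Or.inl ⟨rfl, rfl⟩,
        (h.comb_last a1 c5 c6
          (by rcases b1 with e | e | e | e | e | e <;> simp only [e, true_or, or_true])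
          n26 n27 n23 n24), c5, c6⟩
    · exact ⟨x1, x2, y1, y2, u, v, Or.inl ⟨rfl, rfl⟩, Or.inl ⟨rfl, rfl⟩, Or.inl ⟨rfl, rfl⟩,
        (h.comb_last a1 c5 c6
          (by rcases b1 with e | e | e | e | e | e <;> simp only [e, true_or, or_true])
          n26 n27 n23 n25), c5, c6⟩
    · exact ⟨x2, x1, y2, y1, v, u, Or.inr ⟨rfl, rfl⟩, Or.inr ⟨rfl, rfl⟩, Or.inr ⟨rfl, rfl⟩,
        (h.comb_last a2 c6 c5
          (by rcases b2 with e | e | e | e | e | e <;> simp only [e, true_or, or_true])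
          n37 n36 (Ne.symm n23) n34), c6, c5⟩
    · exact ⟨x1, x2, y2, y1, v, u, Or.inl ⟨rfl, rfl⟩, Or.inr ⟨rfl, rfl⟩, Or.inr ⟨rfl, rfl⟩,
        (h.comb_last a1 c6 c5
          (by rcases b1 with e | e | e | e | e | e <;> simp only [e, true_or, or_true])
          n27 n26 n23 n24), c6, c5⟩
    · exact absurd (h.lf _ _ _ c5 c6) n67
    · exact absurd (h.comb_last a1 c5 c6
          (by rcases b1 with e | e | e | e | e | e <;> simp only [e, true_or, or_true])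
          n26 n27 n24 n25) nx
    · exact ⟨x2, x1, y1, y2, v, u, Or.inr ⟨rfl, rfl⟩, Or.inl ⟨rfl, rfl⟩, Or.inr ⟨rfl, rfl⟩,
        (h.comb_last a2 c6 c5
          (by rcases b2 with e | e | e | e | e | e <;> simp only [e, true_or, or_true])
          n37 n36 (Ne.symm n23) n35), c6, c5⟩
    · exact ⟨x1, x2, y1, y2, v, u, Or.inl ⟨rfl, rfl⟩, Or.inl ⟨rfl, rfl⟩, Or.inr ⟨rfl, rfl⟩,
        (h.comb_last a1 c6 c5
          (by rcases b1 with e | e | e | e | e | e <;> simp only [e, true_or, or_true])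
          n27 n26 n23 n25), c6, c5⟩
    · exact absurd (h.comb_last a1 c5 c6
          (by rcases b1 with e | e | e | e | e | e <;> simp only [e, true_or, or_true])
          n26 n27 n25 n24) nx
    · exact absurd (h.lf _ _ _ c5 c6) n67
  obtain ⟨a, b, c, d, e, f, c1, c2, c3, l1, l2, l3⟩ := hcase
  have hn2 := hN a b c d e f c1 c2 c3
  have hK2 : ∀ w, K w → w ∈ [x, y, a, b, c, d, e, f] := fun w hw =>
    (hP a b c d e f c1 c2 c3).mem_iff.2 (by
      simp only [List.mem_cons, List.not_mem_nil, or_false]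
      exact hK' w hw)
  have s1 : S x a := by rcases c1 with ⟨rfl, rfl⟩ | ⟨rfl, rfl⟩ <;> assumption
  have s2 : S x b := by rcases c1 with ⟨rfl, rfl⟩ | ⟨rfl, rfl⟩ <;> assumption
  have s3 : S y c := by rcases c2 with ⟨rfl, rfl⟩ | ⟨rfl, rfl⟩ <;> assumption
  have s4 : S y d := by rcases c2 with ⟨rfl, rfl⟩ | ⟨rfl, rfl⟩ <;> assumption
  have s5 : S e f := by
    have := h.ss _ _ h5
    rcases c3 with ⟨rfl, rfl⟩ | ⟨rfl, rfl⟩ <;> assumption
  obtain ⟨t1, t2 | t2⟩ := comb_core8 h hn2 hK2 s1 s2 s3 s4 s5 l2 l3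
  · exact ⟨a, b, c, d, e, f, hn2, c3, s1, s2, s3, s4, t2.1, t2.2, t1, l1, Or.inr ⟨l2, l3⟩⟩
  · refine ⟨a, b, c, d, f, e, ?_, c3.symm.imp And.symm And.symm, s1, s2, s3, s4, t2.1, t2.2, t1, l1, Or.inl ⟨l2, l3⟩⟩
    exact (List.Perm.nodup_iff
      (((((((List.Perm.swap f e []).cons d).cons c).cons b).cons a).cons y).cons x)).1 hn2

end Pool.Agent.Lib.MP_7e4769_co.Sp
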