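import Pool.Agent.Lib.MP_7e4769_co.Sp.CaseL2
import Pool.Agent.Lib.MP_7e4769_co.Sp.Comb
import Pool.Agent.Lib.MP_7e4769_co.Sp.TabC

set_option autoImplicit false
set_option linter.unusedSectionVars false

namespace Pool.Agent.Lib.MP_7e4769_co.Sp

open Finset

variable {V : Type} [Fintype V] [DecidableEq V] {G : SimpleGraph V} [DecidableRel G.Adj]

theorem sl_ctx {U : Finset V} (hc : Ctx G U) (hp : PM G U) :
    SL (fun v => v ∈ Kn G U) (Sh G U) (Lg G U) := by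
  refine ⟨fun _ _ => Sh.symm, fun _ _ => Lg.symm, fun _ _ ⟨_, h, _⟩ => h.hz',
    fun _ _ ⟨_, h, _⟩ => h.hz', fun _ ⟨_, h, _⟩ => h.ne rfl, fun _ ⟨_, h, _⟩ => h.ne rfl,
    fun _ _ ⟨l, h, k⟩ ⟨m, h', k'⟩ => ?_,
    fun _ _ _ ⟨_, h, k⟩ ⟨_, h', k'⟩ => congrArg Prod.snd (na_ctx hc _ _ _ _ _ h h' k k'),
    fun a b c d ⟨l1, h1, k1⟩ ⟨l2, h2, k2⟩ ⟨l3, h3, k3⟩ => ?_,
    fun a ha => let ⟨l, z, h⟩ := hp a ha; ⟨z, l, h⟩, fun a b ⟨l, h, k⟩ => ?_,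
    fun _ _ _ => no_lt hc⟩
  · obtain rfl := link_uniq hc h h'
    omega
  · by_contra hn
    obtain ⟨l, z, h, k⟩ := hp a h1.hz
    have := Star.all hc.cub ⟨h1, h2, h3, by grind, by grind, by grind⟩ h
    grind
  · obtain ⟨l2, z2, l3, z3, st⟩ := star_ex1 hc.cub hc.ec h
    have hn := st.nodup hc
    by_cases k2 : l2.length ≤ 1
    · exact ⟨z2, by grind, l2, st.h2, k2⟩
    by_cases k3 : l3.length ≤ 1
    · exact ⟨z3, by grind, l3, st.h3, k3⟩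
    exact (st.n23 (na_ctx hc _ _ _ _ _ st.h2 st.h3 (by omega) (by omega))).elim

theorem w_prism {U : Finset V} (hc : Ctx G U) {x y a b c d : V} (hn : [x, y, a, b, c, d].Nodup)
    (h0 : Lg G U x y) (h1 : Sh G U x a) (h2 : Sh G U x b) (h3 : Sh G U y c) (h4 : Sh G U y d)
    (h5 : Sh G U a b) (h6 : Sh G U c d) (h7 : Lg G U a c) (h8 : Lg G U b d) : False := by
  obtain ⟨l0, h0, k0⟩ := h0
  obtain ⟨l1, h1, k1⟩ := h1
  obtain ⟨l2, h2, k2⟩ := h2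
  obtain ⟨l3, h3, k3⟩ := h3
  obtain ⟨l4, h4, k4⟩ := h4
  obtain ⟨l5, h5, k5⟩ := h5
  obtain ⟨l6, h6, k6⟩ := h6
  obtain ⟨l7, h7, k7⟩ := h7
  obtain ⟨l8, h8, k8⟩ := h8
  refine hc.ng (Emb.closed hc.cub hc.ec nPri_wf (Emb.of_simple
    (κ := fun i => [x, y, a, b, c, d].getD i x)
    (lam := fun e => [l0, l1, l2, l3, l4, l5, l6, l7, l8].getD e []) nPri_wf (by decide)
    (inj_of_nodup hn x) fun e he => ?_) acc_prism (fun e he => ?_) rfl (by decide)) <;>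
    have he' : e < 9 := he <;> interval_cases e
  exacts [h0, h1, h2, h3, h4, h5, h6, h7, h8,
      ty_long k0, ty_short k1, ty_short k2, ty_short k3, ty_short k4, ty_short k5, ty_short
      k6, ty_long k7, ty_long k8]

theorem w_k33 {U : Finset V} (hc : Ctx G U) {x y a b c d : V} (hn : [x, y, a, b, c, d].Nodup)
    (h0 : Lg G U x y) (h1 : Sh G U x a) (h2 : Sh G U x b) (h3 : Sh G U y c) (h4 : Sh G U y d)
    (h5 : Sh G U a c) (h6 : Sh G U b d) (h7 : Lg G U a d) (h8 : Lg G U b c) : False := by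
  obtain ⟨l0, h0, k0⟩ := h0
  obtain ⟨l1, h1, k1⟩ := h1
  obtain ⟨l2, h2, k2⟩ := h2
  obtain ⟨l3, h3, k3⟩ := h3
  obtain ⟨l4, h4, k4⟩ := h4
  obtain ⟨l5, h5, k5⟩ := h5
  obtain ⟨l6, h6, k6⟩ := h6
  obtain ⟨l7, h7, k7⟩ := h7
  obtain ⟨l8, h8, k8⟩ := h8
  refine hc.ng (Emb.closed hc.cub hc.ec nK33_wf (Emb.of_simple
    (κ := fun i => [x, y, a, b, c, d].getD i x)
    (lam := fun e => [l0, l1, l2, l3, l4, l5, l6, l7, l8].getD e []) nK33_wf (by decide)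
    (inj_of_nodup hn x) fun e he => ?_) acc_k33 (fun e he => ?_) rfl (by decide)) <;>
    have he' : e < 9 := he <;> interval_cases e
  exacts [h0, h1, h2, h3, h4, h5, h6, h7, h8,
      ty_long k0, ty_short k1, ty_short k2, ty_short k3, ty_short k4, ty_short k5, ty_short
      k6, ty_long k7, ty_long k8]

theorem w_wag {U : Finset V} (hc : Ctx G U) {x y a b c d e f : V}
    (hn : [x, y, a, b, c, d, e, f].Nodup)
    (h0 : Lg G U x y) (h1 : Sh G U x a) (h2 : Sh G U x b) (h3 : Sh G U y c) (h4 : Sh G U y d)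
    (h5 : Link G U e [] f) (h6 : Sh G U a e) (h7 : Sh G U c f) (h8 : Sh G U b d)
    (h9 : Lg G U a c) (h10 : Lg G U b f) (h11 : Lg G U d e) : False := by
  obtain ⟨l0, h0, k0⟩ := h0
  obtain ⟨l1, h1, k1⟩ := h1
  obtain ⟨l2, h2, k2⟩ := h2
  obtain ⟨l3, h3, k3⟩ := h3
  obtain ⟨l4, h4, k4⟩ := h4
  obtain ⟨l6, h6, k6⟩ := h6
  obtain ⟨l7, h7, k7⟩ := h7
  obtain ⟨l8, h8, k8⟩ := h8
  obtain ⟨l9, h9, k9⟩ := h9
  obtain ⟨l10, h10, k10⟩ := h10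
  obtain ⟨l11, h11, k11⟩ := h11
  refine hc.ng (Emb.closed hc.cub hc.ec nWag_wf (Emb.of_simple
    (κ := fun i => [x, y, a, b, c, d, e, f].getD i x)
    (lam := fun j => [l0, l1, l2, l3, l4, [], l6, l7, l8, l9, l10, l11].getD j []) nWag_wf (by decide)
    (inj_of_nodup hn x) fun j he => ?_) acc_wag (fun j he => ?_) rfl (by decide)) <;>
    have he' : j < 12 := he <;> interval_cases j
  exacts [h0, h1, h2, h3, h4, h5, h6, h7, h8, h9, h10, h11,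
      ty_long k0, ty_short k1, ty_short k2, ty_short k3, ty_short k4, ty_zero rfl, ty_short
      k6, ty_short k7, ty_short k8, ty_long k9, ty_long k10, ty_long k11]

theorem w_cub {U : Finset V} (hc : Ctx G U) {x y a b c d e f : V}
    (hn : [x, y, a, b, c, d, e, f].Nodup)
    (h0 : Lg G U x y) (h1 : Sh G U x a) (h2 : Sh G U x b) (h3 : Sh G U y c) (h4 : Sh G U y d)
    (h5 : Link G U e [] f) (h6 : Sh G U a e) (h7 : Sh G U c f) (h8 : Sh G U b d)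
    (h9 : Lg G U a c) (h10 : Lg G U b e) (h11 : Lg G U d f) : False := by
  obtain ⟨l0, h0, k0⟩ := h0
  obtain ⟨l1, h1, k1⟩ := h1
  obtain ⟨l2, h2, k2⟩ := h2
  obtain ⟨l3, h3, k3⟩ := h3
  obtain ⟨l4, h4, k4⟩ := h4
  obtain ⟨l6, h6, k6⟩ := h6
  obtain ⟨l7, h7, k7⟩ := h7
  obtain ⟨l8, h8, k8⟩ := h8
  obtain ⟨l9, h9, k9⟩ := h9
  obtain ⟨l10, h10, k10⟩ := h10
  obtain ⟨l11, h11, k11⟩ := h11
  refine hc.ng (Emb.closed hc.cub hc.ec nCub_wf (Emb.of_simple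
    (κ := fun i => [x, y, a, b, c, d, e, f].getD i x)
    (lam := fun j => [l0, l1, l2, l3, l4, [], l6, l7, l8, l9, l10, l11].getD j []) nCub_wf (by decide)
    (inj_of_nodup hn x) fun j he => ?_) acc_cub (fun j he => ?_) rfl (by decide)) <;>
    have he' : j < 12 := he <;> interval_cases j
  exacts [h0, h1, h2, h3, h4, h5, h6, h7, h8, h9, h10, h11,
      ty_long k0, ty_short k1, ty_short k2, ty_short k3, ty_short k4, ty_zero rfl, ty_short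
      k6, ty_short k7, ty_short k8, ty_long k9, ty_long k10, ty_long k11]

theorem no_long {U : Finset V} (hc : Ctx G U) {x y : V} {T : List V} (h : Link G U x T y) :
    T.length ≤ 1 := by
  by_contra h2
  obtain ⟨a1, x1, a2, x2, b1, y1, b2, y2, X, k⟩ := ls_ex hc h (by omega)
  have sl := sl_ctx hc (k.pm hc)
  have h0 : Lg G U x y := ⟨T, h, k.lT⟩
  have h1 : Sh G U x x1 := ⟨_, k.sx.h2, k.la1⟩
  have h2 : Sh G U x x2 := ⟨_, k.sx.h3, k.la2⟩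
  have h3 : Sh G U y y1 := ⟨_, k.sy.h2, k.lb1⟩
  have h4 : Sh G U y y2 := ⟨_, k.sy.h3, k.lb2⟩
  rcases k.kernel hc with hK | ⟨u, v, hn, uv, hK⟩
  · obtain ⟨c, d, n, s1, s2, ⟨p, q, r, t⟩ | ⟨p, q, r, t⟩⟩ :=
      comb6 sl (k.nodup hc) hK h0 h1 h2 h3 h4
    exacts [w_prism hc n h0 h1 h2 s1 s2 p q r t, w_k33 hc n h0 h1 h2 s1 s2 p q r t]
  · obtain ⟨a, b, c, d, e, f, n, ef, s1, s2, s3, s4, s5, s6, s7, l1, l2⟩ :=
      comb8 sl hn hK h0 h1 h2 h3 h4 ⟨[], uv, by simp⟩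
    have hef : Link G U e [] f := by
      rcases ef with ⟨rfl, rfl⟩ | ⟨rfl, rfl⟩
      exacts [uv, uv.symm]
    exact l2.elim (fun l => w_wag hc n h0 s1 s2 s3 s4 hef s5 s6 s7 l1 l.1 l.2)
      fun l => w_cub hc n h0 s1 s2 s3 s4 hef s5 s6 s7 l1 l.1 l.2

end Pool.Agent.Lib.MP_7e4769_co.Sp
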