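import Pool.Agent.Lib.MP_7e4769_co.Sp.CaseD

set_option autoImplicit false
set_option linter.unusedSectionVars false

namespace Pool.Agent.Lib.MP_7e4769_co.Sp

open Finset

variable {V : Type} [Fintype V] [DecidableEq V] {G : SimpleGraph V} [DecidableRel G.Adj]

/-- no long link -/
def NL (G : SimpleGraph V) [DecidableRel G.Adj] (U : Finset V) : Prop :=
  ∀ x T y, Link G U x T y → T.length ≤ 1

/-- a vertex of degree 2 is a whole link -/
theorem t1_link {U : Finset V} (hc : Ctx G U) (hl : NL G U) (hK : (Kn G U).Nonempty) {t : V}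
    (ht : t ∈ U) (hk : t ∉ Kn G U) : ∃ z z', Link G U z [t] z' := by
  obtain ⟨z, l, z', h, hm⟩ := on_link hc.cub hc.ec hK ht hk
  have h1 := hl _ _ _ h
  rcases l with _ | ⟨x, _ | ⟨y, l⟩⟩
  · exact absurd hm List.not_mem_nil
  · rw [List.mem_singleton.1 hm]
    exact ⟨z, z', h⟩
  · simp only [List.length_cons] at h1
    omega

/-- `comp_ex`, `kb'`; `C` has at most 80 vertices: it is one vertex, or every vertex of it is a
kernel vertex or adjacent to one in `C` (`Conn.ex_adj`, `t1_link`, `card_le_four`); `sp_le` for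
`C ∪ D` and `cut_comp`. In the last part `t ∈ C` has its two neighbours in the kernel, so in `D`. -/
theorem small_trap {U D : Finset V} (hc : Ctx G U) (hl : NL G U) (hK : (Kn G U).Nonempty)
    (hD : D ⊆ U) (hn : D.Nonempty) (h1 : D.card ≤ 20) (h6 : cut G U D ≤ 6)
    (hg : ¬ Good G (U \ D)) :
    ∃ s k : ℕ, 2 ≤ s ∧ k + 10 ≤ 5 * s ∧ (Kn G U ∩ D).card + k + s ≤ cut G U D ∧
      (k = 0 → ∃ z t z', Link G U z [t] z' ∧ t ∉ D ∧ z ∈ D ∧ z' ∈ D) := by
  obtain ⟨C, hC, hCn, hcon, h0, hCg⟩ := comp_ex hg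
  have hCU : C ⊆ U := hC.trans sdiff_subset
  have hdis : Disjoint C D := disjoint_left.2 fun x hx => (mem_sdiff.1 (hC hx)).2
  have hne : C ≠ U := by
    obtain ⟨d, hd⟩ := hn
    intro e
    exact disjoint_left.1 hdis (e ▸ hD hd) hd
  have s2 := hc.ec.2 C hCU hCn hne
  have hkb := kb' hc hCU hne hCn hcon hCg
  have hcc := cut_comp hD hC h0
  have hcard : C.card ≤ 80 := by
    by_cases hone : C.card ≤ 1
    · omega
    · have h4 : C.card ≤ 4 * (Kn G U ∩ C).card := by
        refine card_le_four hc.cub fun b hb => ?_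
        by_cases hbk : b ∈ Kn G U
        · exact Or.inl (mem_inter.2 ⟨hbk, hb⟩)
        · obtain ⟨y, y', hy⟩ := t1_link hc hl hK (hCU hb) hbk
          obtain ⟨w, hw, hwb⟩ := exists_mem_ne (not_le.1 hone) b
          obtain ⟨x, hx, hbx⟩ := hcon.ex_adj hb hw hwb.symm
          refine Or.inr ⟨x, mem_inter.2 ⟨?_, hx⟩, hbx.symm⟩
          rcases hy.one.2.2 x (hCU hx) hbx with e | e
          · exact e ▸ hy.hz
          · exact e ▸ hy.hz'
      omega
  have hsp := sp_le hc.cub hc.ec (union_subset hCU hD)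
    (hc.sp _ ((card_union_le C D).trans (by omega)))
  rw [inter_union_distrib_left,
    card_union_of_disjoint (hdis.mono inter_subset_right inter_subset_right)] at hsp
  refine ⟨cut G U C, (Kn G U ∩ C).card, s2, hkb, by omega, fun hk0 => ?_⟩
  have hno : ∀ x ∈ Kn G U, x ∉ C := fun x hx hxC => by
    have : x ∈ Kn G U ∩ C := mem_inter.2 ⟨hx, hxC⟩
    rw [card_eq_zero.1 hk0] at this
    exact notMem_empty x this
  obtain ⟨t, ht⟩ := hCn
  obtain ⟨y, y', hy⟩ := t1_link hc hl hK (hCU ht) fun e => hno t e ht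
  have hin : ∀ x ∈ Kn G U, G.Adj t x → x ∈ D := fun x hx ha => by
    by_contra hxD
    exact hno x hx (cut_eq_zero.1 h0 t ht x (mem_sdiff.2 ⟨(mem_Kn.1 hx).1, hxD⟩) ha)
  exact ⟨y, t, y', hy, disjoint_left.1 hdis ht, hin y hy.hz hy.one.1.symm,
    hin y' hy.hz' hy.one.2.1⟩

theorem caseS_card {N : Net} (hw : N.WF) {κ : ℕ → V} {lam : ℕ → List V} (cl : ℕ → ℕ)
    (h : ∀ e < N.n, (lam e).length ≤ 1) : (del N κ lam cl).card ≤ N.p + N.n := by
  have hs : del N κ lam cl ⊆
      (range N.p).image κ ∪ (range N.n).biUnion (fun e => (lam e).toFinset) := by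
    intro w hw'
    rcases (mem_del hw).1 hw' with ⟨i, hi, -, e⟩ | ⟨e, he, hm⟩
    · exact mem_union_left _ (mem_image.2 ⟨i, mem_range.2 hi, e⟩)
    · exact mem_union_right _ (mem_biUnion.2 ⟨e, mem_range.2 he, List.mem_toFinset.2 hm⟩)
  refine (card_le_card hs).trans ((card_union_le _ _).trans (Nat.add_le_add ?_ ?_))
  · exact card_image_le.trans (card_range _).le
  · refine (card_biUnion_le_card_mul _ _ 1 fun e he => ?_).trans (by simp)
    exact (List.toFinset_card_le _).trans (h e (mem_range.1 he))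

theorem caseS_low {S : Finset V} {L : List V} (hn : L.Nodup) (h : ∀ x ∈ L, x ∈ S) :
    L.length ≤ S.card := by
  rw [← List.toFinset_card_of_nodup hn]
  exact card_le_card fun x hx => h x (List.mem_toFinset.1 hx)

/-- `acc_stCCC`, `Emb.good_C`, `small_trap`: `4 + k + s ≤ 6`; the link `[t]` joins two of
`z, z1, z2, z3` (its ends are kernel vertices in `D`), not `z` because `t ∉ D` (`Star.all`) -/
theorem star_case {U : Finset V} (hc : Ctx G U) (hl : NL G U) {z z1 z2 z3 : V}
    {l1 l2 l3 : List V} (h : Star G U z l1 z1 l2 z2 l3 z3) (h1 : l1.length = 1) :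
    Sh G U z1 z2 ∨ Sh G U z1 z3 ∨ Sh G U z2 z3 := by
  have hn := h.nodup hc
  have he := h.emb hn
  by_contra hcon
  simp only [not_or] at hcon
  obtain ⟨n12, n13, n23⟩ := hcon
  have k1 := h.h1.hz'
  have k2 := h.h2.hz'
  have k3 := h.h3.hz'
  have sh : ∀ {a b : V}, a ∈ Kn G U → b ∈ Kn G U → G.Adj a b → Sh G U a b :=
    fun ha hb hab => ⟨[], link_nil ha hb hab, Nat.zero_le _⟩
  have hg : ¬ Good G (U \ del nSt (fun i => [z, z1, z2, z3].getD i z)
      (fun e => [l1, l2, l3].getD e []) (cll [0, 1, 1, 1])) := fun hg => by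
    refine hc.ng (he.good_C hc.cub nSt_wf acc_stCCC ?_ ?_ hg)
    · intro e he
      have he' : e < 3 := he
      interval_cases e
      · exact ty_one h1
      · exact ty_short (hl _ _ _ h.h2)
      · exact ty_short (hl _ _ _ h.h3)
    · intro k hk k' hk' m m' _ _
      have e1 : k < 4 := hk
      have e2 : k' < 4 := hk'
      have e3 : 1 ≤ k := m
      have e4 : 1 ≤ k' := m'
      interval_cases k <;> interval_cases k'
      · exact G.irrefl
      · exact fun a => n12 (sh k1 k2 a)
      · exact fun a => n13 (sh k1 k3 a)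
      · exact fun a => n12 (sh k1 k2 a.symm)
      · exact G.irrefl
      · exact fun a => n23 (sh k2 k3 a)
      · exact fun a => n13 (sh k1 k3 a.symm)
      · exact fun a => n23 (sh k2 k3 a.symm)
      · exact G.irrefl
  have hcut := (he.del_cut hc.cub nSt_wf (cll [0, 1, 1, 1])).trans
    (show nSt.wt (cll [0, 1, 1, 1]) ≤ 6 by decide)
  have hsub := he.e0.del_sub nSt_wf (cll [0, 1, 1, 1])
  have hcard := caseS_card (κ := fun i => [z, z1, z2, z3].getD i z) nSt_wf (cll [0, 1, 1, 1])
    fun e he' => hl _ _ _ (he.e0.lk e he')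
  have hmem : ∀ w, w ∈ del nSt (fun i => [z, z1, z2, z3].getD i z)
      (fun e => [l1, l2, l3].getD e []) (cll [0, 1, 1, 1]) ↔
      (w = z ∨ w = z1 ∨ w = z2 ∨ w = z3) ∨ (w ∈ l1 ∨ w ∈ l2 ∨ w ∈ l3) := fun w => by
    rw [mem_del nSt_wf]
    refine or_congr ⟨?_, ?_⟩ ⟨?_, ?_⟩
    · rintro ⟨i, hi, -, e⟩
      have hi' : i < 4 := hi
      interval_cases i
      · exact Or.inl e.symm
      · exact Or.inr (Or.inl e.symm)
      · exact Or.inr (Or.inr (Or.inl e.symm))
      · exact Or.inr (Or.inr (Or.inr e.symm))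
    · rintro (e | e | e | e)
      · exact ⟨0, by decide, by decide, e.symm⟩
      · exact ⟨1, by decide, by decide, e.symm⟩
      · exact ⟨2, by decide, by decide, e.symm⟩
      · exact ⟨3, by decide, by decide, e.symm⟩
    · rintro ⟨i, hi, e⟩
      have hi' : i < 3 := hi
      interval_cases i
      · exact Or.inl e
      · exact Or.inr (Or.inl e)
      · exact Or.inr (Or.inr e)
    · rintro (e | e | e)
      · exact ⟨0, by decide, e⟩
      · exact ⟨1, by decide, e⟩
      · exact ⟨2, by decide, e⟩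
  have hcard' : nSt.p + nSt.n ≤ 20 := by decide
  generalize del nSt (fun i => [z, z1, z2, z3].getD i z)
      (fun e => [l1, l2, l3].getD e []) (cll [0, 1, 1, 1]) = D at hg hcut hsub hcard hmem
  have hlow : 4 ≤ (Kn G U ∩ D).card := caseS_low hn fun x hx => by
    simp only [List.mem_cons, List.not_mem_nil, or_false] at hx
    refine mem_inter.2 ⟨?_, (hmem x).2 (Or.inl hx)⟩
    rcases hx with e | e | e | e <;> rw [e]
    exacts [h.h1.hz, k1, k2, k3]
  obtain ⟨s, k, s2, hk, hsum, hlast⟩ := small_trap hc hl ⟨z, h.h1.hz⟩ hsub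
    ⟨z, (hmem z).2 (Or.inl (Or.inl rfl))⟩ (hcard.trans hcard') hcut hg
  obtain ⟨y, t, y', hy, htD, hyD, hyD'⟩ := hlast (by omega)
  have hz : ∀ x, ¬ Link G U z [t] x := fun x hx => by
    refine htD ((hmem t).2 (Or.inr ?_))
    rcases h.all hc.cub hx with e | e | e
    · exact Or.inl (e.1 ▸ List.mem_singleton_self t)
    · exact Or.inr (Or.inl (e.1 ▸ List.mem_singleton_self t))
    · exact Or.inr (Or.inr (e.1 ▸ List.mem_singleton_self t))
  have hend : ∀ x x', Link G U x [t] x' → x ∈ D → x = z1 ∨ x = z2 ∨ x = z3 := by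
    intro x x' hx hxD
    rcases (hmem x).1 hxD with (e | e) | e | e | e
    · exact absurd (e ▸ hx) (hz x')
    · exact e
    · exact absurd hx.hz (h.h1.notK e)
    · exact absurd hx.hz (h.h2.notK e)
    · exact absurd hx.hz (h.h3.notK e)
  have hs : Sh G U y y' := ⟨[t], hy, le_rfl⟩
  have hyy := hy.ne
  rcases hend y y' hy hyD with e | e | e <;>
    rcases hend y' y hy.symm hyD' with e' | e' | e' <;> subst e e'
  · exact hyy rfl
  · exact n12 hs
  · exact n13 hs
  · exact n12 hs.symm
  · exact hyy rfl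
  · exact n23 hs
  · exact n13 hs.symm
  · exact n23 hs.symm
  · exact hyy rfl

/-- `acc_tri1` or `acc_tri2`, `Emb.good_C`, `small_trap`: `5 + k + s ≤ 5` -/
theorem tri_case {U : Finset V} (hc : Ctx G U) (hl : NL G U) {q z o q' z' o' : V}
    {a b c : List V} (hn : [q, z, o, q', z', o'].Nodup) (ha : Link G U q a z)
    (hb : Link G U z b o) (hc' : Link G U o c q) (h1 : Link G U q [] q') (h2 : Link G U z [] z')
    (h3 : Link G U o [] o') (la : a.length = 1) (hbc : c = [] ∨ b.length = 1)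
    (hadj : ¬ G.Adj z' o') : False := by
  have he : Emb G U nTri (fun i => [q, z, o, q', z', o'].getD i q)
      (fun e => [a, b, c, [], [], []].getD e []) := by
    refine Emb.of_simple nTri_wf (by decide) (inj_of_nodup hn q) ?_
    intro e he
    have he' : e < 6 := he
    interval_cases e
    exacts [ha, hb, hc', h1, h2, h3]
  have hC : ∀ k < nTri.p, ∀ k' < nTri.p, nTri.m ≤ k → nTri.m ≤ k' →
      cll [0, 0, 0, 0, 1, 1] k = 1 → cll [0, 0, 0, 0, 1, 1] k' = 1 →
      ¬ G.Adj ([q, z, o, q', z', o'].getD k q) ([q, z, o, q', z', o'].getD k' q) := by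
    intro k hk k' hk' m m' c1 c2
    have e1 : k < 6 := hk
    have e2 : k' < 6 := hk'
    have e3 : 3 ≤ k := m
    have e4 : 3 ≤ k' := m'
    interval_cases k <;> interval_cases k'
    · exact G.irrefl
    · exact absurd c1 (by decide)
    · exact absurd c1 (by decide)
    · exact absurd c2 (by decide)
    · exact G.irrefl
    · exact hadj
    · exact absurd c2 (by decide)
    · exact fun e => hadj e.symm
    · exact G.irrefl
  have hg : ¬ Good G (U \ del nTri (fun i => [q, z, o, q', z', o'].getD i q)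
      (fun e => [a, b, c, [], [], []].getD e []) (cll [0, 0, 0, 0, 1, 1])) := fun hg => by
    rcases hbc with e | e
    · refine hc.ng (he.good_C hc.cub nTri_wf acc_tri1 ?_ hC hg)
      intro i hi
      have hi' : i < 6 := hi
      interval_cases i
      exacts [ty_one la, ty_short (hl _ _ _ hb), ty_zero e, ty_zero rfl, ty_zero rfl, ty_zero rfl]
    · refine hc.ng (he.good_C hc.cub nTri_wf acc_tri2 ?_ hC hg)
      intro i hi
      have hi' : i < 6 := hi
      interval_cases i
      exacts [ty_one la, ty_one e, ty_short (hl _ _ _ hc'), ty_zero rfl, ty_zero rfl, ty_zero rfl]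
  have hcut := (he.del_cut hc.cub nTri_wf (cll [0, 0, 0, 0, 1, 1])).trans
    (show nTri.wt (cll [0, 0, 0, 0, 1, 1]) ≤ 5 by decide)
  have hsub := he.e0.del_sub nTri_wf (cll [0, 0, 0, 0, 1, 1])
  have hcard := caseS_card (κ := fun i => [q, z, o, q', z', o'].getD i q) nTri_wf
    (cll [0, 0, 0, 0, 1, 1]) fun e he' => hl _ _ _ (he.e0.lk e he')
  have hmem : ∀ w ∈ [q, z, o, z', o'], w ∈ del nTri (fun i => [q, z, o, q', z', o'].getD i q)
      (fun e => [a, b, c, [], [], []].getD e []) (cll [0, 0, 0, 0, 1, 1]) := fun w hw => by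
    rw [mem_del nTri_wf]
    simp only [List.mem_cons, List.not_mem_nil, or_false] at hw
    rcases hw with e | e | e | e | e
    · exact Or.inl ⟨0, by decide, by decide, e.symm⟩
    · exact Or.inl ⟨1, by decide, by decide, e.symm⟩
    · exact Or.inl ⟨2, by decide, by decide, e.symm⟩
    · exact Or.inl ⟨4, by decide, by decide, e.symm⟩
    · exact Or.inl ⟨5, by decide, by decide, e.symm⟩
  have hcard' : nTri.p + nTri.n ≤ 20 := by decide
  generalize del nTri (fun i => [q, z, o, q', z', o'].getD i q)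
      (fun e => [a, b, c, [], [], []].getD e []) (cll [0, 0, 0, 0, 1, 1]) = D
    at hg hcut hsub hcard hmem
  have hn' : [q, z, o, z', o'].Nodup :=
    hn.sublist (((((List.Sublist.refl _).cons q').cons_cons o).cons_cons z).cons_cons q)
  have hlow : 5 ≤ (Kn G U ∩ D).card := caseS_low hn' fun x hx => by
    refine mem_inter.2 ⟨?_, hmem x hx⟩
    simp only [List.mem_cons, List.not_mem_nil, or_false] at hx
    rcases hx with e | e | e | e | e <;> rw [e]
    exacts [ha.hz, hb.hz, hc'.hz, h2.hz', h3.hz']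
  obtain ⟨s, k, s2, -, hsum, -⟩ := small_trap hc hl ⟨q, ha.hz⟩ hsub
    ⟨q, hmem q (by simp)⟩ (hcard.trans hcard') (by omega) hg
  omega

end Pool.Agent.Lib.MP_7e4769_co.Sp
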