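import Pool.Agent.Lib.MP_7e4769_co.Sp.CaseS

set_option autoImplicit false
set_option linter.unusedSectionVars false

namespace Pool.Agent.Lib.MP_7e4769_co.Sp

open Finset

variable {V : Type} [Fintype V] [DecidableEq V] {G : SimpleGraph V} [DecidableRel G.Adj]

theorem cs2_sh {U : Finset V} (hl : NL G U) {z z' : V} {l : List V} (h : Link G U z l z') :
    Sh G U z z' := ⟨l, h, hl _ _ _ h⟩

theorem cs2_ne {U : Finset V} {z z' : V} (h : Sh G U z z') : z ≠ z' := by
  obtain ⟨l, h, _⟩ := h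
  exact h.ne

/-- the end of a link with one inner vertex is on a triangle -/
theorem cs2_end {U : Finset V} (hc : Ctx G U) (hl : NL G U) {z z' : V} {l : List V}
    (h : Link G U z l z') (h1 : l.length = 1) :
    ∃ a b, Sh G U z a ∧ Sh G U z b ∧ Sh G U a b := by
  obtain ⟨l2, z2, l3, z3, hs⟩ := star_ex1 hc.cub hc.ec h
  rcases star_case hc hl hs h1 with h' | h' | h'
  · exact ⟨z', z2, cs2_sh hl hs.h1, cs2_sh hl hs.h2, h'⟩
  · exact ⟨z', z3, cs2_sh hl hs.h1, cs2_sh hl hs.h3, h'⟩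
  · exact ⟨z2, z3, cs2_sh hl hs.h2, cs2_sh hl hs.h3, h'⟩

/-- two triangles joined by a third neighbour -/
theorem cs2_two {U : Finset V} (hc : Ctx G U) {v a b d e f : V} (h1 : Sh G U v a)
    (h2 : Sh G U v b) (h3 : Sh G U a b) (h4 : Sh G U v d) (had : a ≠ d) (hbd : b ≠ d)
    (h5 : Sh G U d e) (h6 : Sh G U d f) (h7 : Sh G U e f) : False := by
  have hA : ({v, a, b, d, e, f} : Finset V).card ≤ 25 :=
    le_trans Finset.card_le_six (by norm_num)
  refine core_Sh hc.cub hc.sp hA ?_ (z := v) (a := a) (b := b) (d := d) (by simp) (by simp)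
    (by simp) (by simp) (cs2_ne h3) had hbd h1 h2 h4
  intro x hx
  simp only [mem_insert, mem_singleton] at hx
  rcases hx with hx | hx | hx | hx | hx | hx <;> rw [hx]
  · exact ⟨a, by simp, b, by simp, cs2_ne h3, h1, h2⟩
  · exact ⟨v, by simp, b, by simp, cs2_ne h2, h1.symm, h3⟩
  · exact ⟨v, by simp, a, by simp, cs2_ne h1, h2.symm, h3.symm⟩
  · exact ⟨e, by simp, f, by simp, cs2_ne h7, h5, h6⟩
  · exact ⟨d, by simp, f, by simp, cs2_ne h6, h5.symm, h7⟩
  · exact ⟨d, by simp, e, by simp, cs2_ne h5, h6.symm, h7.symm⟩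

/-- two outer vertices of a triangle are different and not joined -/
theorem cs2_out {U : Finset V} (hc : Ctx G U) {x y w y' w' : V} (h1 : Sh G U x y)
    (h2 : Sh G U y w) (h3 : Sh G U w x) (h4 : Sh G U y y') (h5 : Sh G U w w') (n1 : x ≠ y')
    (n2 : w ≠ y') (n3 : y ≠ w') (h : y' = w' ∨ Sh G U y' w') : False := by
  have hA : ({x, y, w, y', w'} : Finset V).card ≤ 25 :=
    le_trans Finset.card_le_five (by norm_num)
  refine core_Sh hc.cub hc.sp hA ?_ (z := y) (a := x) (b := w) (d := y') (by simp) (by simp)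
    (by simp) (by simp) (cs2_ne h3).symm n1 n2 h1.symm h2 h4
  intro p hp
  simp only [mem_insert, mem_singleton] at hp
  rcases hp with hp | hp | hp | hp | hp <;> rw [hp]
  · exact ⟨y, by simp, w, by simp, cs2_ne h2, h1, h3.symm⟩
  · exact ⟨x, by simp, w, by simp, (cs2_ne h3).symm, h1.symm, h2⟩
  · exact ⟨x, by simp, y, by simp, cs2_ne h1, h3, h2.symm⟩
  · rcases h with h | h
    · exact ⟨y, by simp, w, by simp, cs2_ne h2, h4.symm, by rw [h]; exact h5.symm⟩
    · exact ⟨y, by simp, w', by simp, n3, h4.symm, h⟩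
  · rcases h with h | h
    · exact ⟨y, by simp, w, by simp, cs2_ne h2, by rw [← h]; exact h4.symm, h5.symm⟩
    · exact ⟨w, by simp, y', by simp, n2, h5.symm, h.symm⟩

/-- a link with one inner vertex lies on a triangle -/
theorem cs2_tri {U : Finset V} (hc : Ctx G U) (hl : NL G U) {q z : V} {l : List V}
    (h : Link G U q l z) (h1 : l.length = 1) : ∃ o, Sh G U z o ∧ Sh G U o q := by
  obtain ⟨l2, z2, l3, z3, hs⟩ := star_ex1 hc.cub hc.ec h
  rcases star_case hc hl hs h1 with h' | h' | h'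
  · exact ⟨z2, h', (cs2_sh hl hs.h2).symm⟩
  · exact ⟨z3, h', (cs2_sh hl hs.h3).symm⟩
  · exfalso
    have hn := Star.nodup hc hs
    simp only [List.nodup_cons, List.mem_cons, List.not_mem_nil, or_false, not_or] at hn
    obtain ⟨e, f, h5, h6, h7⟩ := cs2_end hc hl h.symm (by simpa using h1)
    exact cs2_two hc (cs2_sh hl hs.h2) (cs2_sh hl hs.h3) h' (cs2_sh hl h)
      (Ne.symm hn.2.1.1) (Ne.symm hn.2.1.2) h5 h6 h7

/-- the third link at a vertex of a triangle is an edge -/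
theorem cs2_third {U : Finset V} (hc : Ctx G U) (hl : NL G U) {v a b : V} (h1 : Sh G U v a)
    (h2 : Sh G U v b) (h3 : Sh G U a b) :
    ∃ d, Link G U v [] d ∧ v ≠ d ∧ a ≠ d ∧ b ≠ d := by
  obtain ⟨l1, k1, s1⟩ := h1
  obtain ⟨l2, k2, s2⟩ := h2
  have hne : (l1, a) ≠ (l2, b) := fun h => cs2_ne h3 (congrArg Prod.snd h)
  obtain ⟨l3, d, hs⟩ := star_ex2 hc.cub hc.ec k1 k2 hne
  have hn := Star.nodup hc hs
  simp only [List.nodup_cons, List.mem_cons, List.not_mem_nil, or_false, not_or] at hn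
  have h3' := hl _ _ _ hs.h3
  have h0 : l3 = [] := by
    by_contra h0
    have hlen : l3.length = 1 := by
      have := List.length_pos_iff.mpr h0
      omega
    obtain ⟨e, f, h5, h6, h7⟩ := cs2_end hc hl hs.h3.symm (by simpa using hlen)
    exact cs2_two hc ⟨l1, k1, s1⟩ ⟨l2, k2, s2⟩ h3 (cs2_sh hl hs.h3) hn.2.1.2 hn.2.2.1 h5 h6 h7
  refine ⟨d, ?_, hn.1.2.2, hn.2.1.2, hn.2.2.1⟩
  have := hs.h3
  rwa [h0] at this

/-- Every end of a link `[t]` is on a triangle of the relation `Sh` (`star_case`). A vertex on a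
triangle whose third `Sh`-neighbour is on a triangle too is impossible (`core_Sh` on the union).
So for a link `q, [t], z` the triangle at `q` contains `z`: triangle `q, z, o`; the third links have
no inner vertex, the outer vertices differ from each other and `z'`, `o'` are not adjacent (all by
`core_Sh`). `tri_case`, for `(q, z)` or `(z, q)`. -/
theorem case_s {U : Finset V} (hc : Ctx G U) (hl : NL G U) (hK : (Kn G U).Nonempty) : False := by
  obtain ⟨t, ht, ht3⟩ := hc.nc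
  have hk : t ∉ Kn G U := fun h => ht3 (mem_Kn.mp h).2
  obtain ⟨q, z, ha⟩ := t1_link hc hl hK ht hk
  obtain ⟨o, hzo, hoq⟩ := cs2_tri hc hl ha rfl
  have hqz : Sh G U q z := cs2_sh hl ha
  obtain ⟨q', h1, q1, q2, q3⟩ := cs2_third hc hl hqz hoq.symm hzo
  obtain ⟨z', h2, z1, z2, z3⟩ := cs2_third hc hl hzo hqz.symm hoq
  obtain ⟨o', h3, o1, o2, o3⟩ := cs2_third hc hl hoq hzo.symm hqz
  have s1 := cs2_sh hl h1
  have s2 := cs2_sh hl h2
  have s3 := cs2_sh hl h3
  have e1 : ¬ (q' = z' ∨ Sh G U q' z') := fun h => cs2_out hc hoq hqz hzo s1 s2 q3 q2 z3 h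
  have e2 : ¬ (z' = o' ∨ Sh G U z' o') := fun h => cs2_out hc hqz hzo hoq s2 s3 z3 z2 o3 h
  have e3 : ¬ (o' = q' ∨ Sh G U o' q') := fun h => cs2_out hc hzo hoq hqz s3 s1 o3 o2 q3 h
  have n1 : q' ≠ z' := fun h => e1 (Or.inl h)
  have n2 : z' ≠ o' := fun h => e2 (Or.inl h)
  have n3 : o' ≠ q' := fun h => e3 (Or.inl h)
  have a2 : ¬ G.Adj z' o' := fun h => e2 (Or.inr (cs2_sh hl (link_nil h2.hz' h3.hz' h)))
  have a3 : ¬ G.Adj q' o' := fun h => e3 (Or.inr (cs2_sh hl (link_nil h3.hz' h1.hz' h.symm)))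
  have m1 := cs2_ne hqz
  have m2 := cs2_ne hzo
  have m3 := cs2_ne hoq
  obtain ⟨b, hb, sb⟩ := hzo
  obtain ⟨c, hc', sc⟩ := hoq
  by_cases hbc : c = [] ∨ b.length = 1
  · refine tri_case hc hl ?_ ha hb hc' h1 h2 h3 rfl hbc a2
    simp only [List.nodup_cons, List.mem_cons, List.not_mem_nil, or_false, not_or,
      List.nodup_nil, not_false_eq_true, and_true]
    exact ⟨⟨m1, m3.symm, q1, z3, o2⟩, ⟨m2, q2, z1, o3⟩, ⟨q3, z2, o1⟩, ⟨n1, n3.symm⟩, n2⟩
  · have hb0 : b = [] := by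
      have : b.length ≠ 1 := fun h => hbc (Or.inr h)
      exact List.length_eq_zero_iff.mp (by omega)
    refine tri_case hc hl ?_ ha.symm hc'.symm hb.symm h2 h1 h3 rfl (Or.inl (by simp [hb0])) a3
    simp only [List.nodup_cons, List.mem_cons, List.not_mem_nil, or_false, not_or,
      List.nodup_nil, not_false_eq_true, and_true]
    exact ⟨⟨m1.symm, m2, z1, q2, o3⟩, ⟨m3.symm, z3, q1, o2⟩, ⟨z2, q3, o1⟩, ⟨n1.symm, n2⟩, n3.symm⟩

end Pool.Agent.Lib.MP_7e4769_co.Sp
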