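import Pool.Agent.Lib.MP_7e4769_co.Sp.Defs

set_option autoImplicit false

namespace Pool.Agent.Lib.MP_7e4769_co.Sp

inductive Tr where
  | L (c : ℕ) : Tr
  | N (j mask : ℕ) (a b : Tr) : Tr

abbrev Val := Fin 4 × Fin 4 × Fin 4

def dig (c i : ℕ) : Fin 4 := Fin.ofNat 4 (c / 4 ^ i)

def sd (N : Net) (c e : ℕ) (b k : Bool) : Fin 4 :=
  dig c (N.m + 4 * e + (if b then 2 else 0) + (if k then 1 else 0))

def vchk (N : Net) (c i : ℕ) : Bool :=
  [false, true].all fun k0 => [false, true].all fun k1 => [false, true].all fun k2 =>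
    vok (dig c i) (sd N c (N.inc i 0).1 (N.inc i 0).2 k0) (sd N c (N.inc i 1).1 (N.inc i 1).2 k1)
      (sd N c (N.inc i 2).1 (N.inc i 2).2 k2)

def lchk (N : Net) (c e : ℕ) (v : Val) : Bool :=
  if N.dst e < N.m then
    [false, true].any fun k => [false, true].any fun k' =>
      compat v.1 (dig c (N.src e)) (sd N c e false k) (sd N c e true k') (dig c (N.dst e))
  else
    [false, true].any fun k => [0, 1, 2, 3].any fun r =>
      r != v.2.1 && r != v.2.2 && compat v.1 (dig c (N.src e)) (sd N c e false k) r v.2.1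

def code (v : Val) : ℕ := 16 * v.1.val + 4 * v.2.1.val + v.2.2.val

def chk (N : Net) : Tr → (ℕ → List Val) → Bool
  | Tr.L c, D => (List.range N.m).all (vchk N c) &&
      (List.range N.n).all fun e => (D e).all (lchk N c e)
  | Tr.N j mask a b, D =>
      chk N a (fun e => if e = j then (D e).filter (fun v => mask.testBit (code v)) else D e) &&
      chk N b (fun e => if e = j then (D e).filter (fun v => !mask.testBit (code v)) else D e)

def prs (k : ℕ) : List (Fin 4 × Fin 4) :=
  ([0, 1, 2, 3].flatMap fun c => [0, 1, 2, 3].map fun e => (c, e)).filter fun x => cls k x.1 x.2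

def mkD (N : Net) (T : ℕ → List (Fin 4)) (cl : ℕ → ℕ) (e : ℕ) : List Val :=
  if N.dst e < N.m then (T e).map fun t => (t, 0, 0)
  else (T e).flatMap fun t => (prs (cl (N.dst e))).map fun x => (t, x)

theorem chk_ex (N : Net) (val : ℕ → Val) : ∀ (t : Tr) (D : ℕ → List Val), chk N t D = true →
    (∀ e < N.n, val e ∈ D e) →
    ∃ c, (∀ i < N.m, vchk N c i = true) ∧ ∀ e < N.n, lchk N c e (val e) = true := by
  intro t
  induction t with
  | L c =>
    intro D h hv
    simp only [chk, Bool.and_eq_true, List.all_eq_true, List.mem_range] at h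
    exact ⟨c, h.1, fun e he => h.2 e he _ (hv e he)⟩
  | N j mask a b iha ihb =>
    intro D h hv
    simp only [chk, Bool.and_eq_true] at h
    by_cases hm : mask.testBit (code (val j)) = true
    · refine iha _ h.1 (fun e he => ?_)
      by_cases hj : e = j
      · subst hj; simp only [if_true, List.mem_filter]; exact ⟨hv e he, hm⟩
      · simp only [hj, if_false]; exact hv e he
    · refine ihb _ h.2 (fun e he => ?_)
      by_cases hj : e = j
      · subst hj; simp only [if_true, List.mem_filter]; exact ⟨hv e he, by simpa using hm⟩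
      · simp only [hj, if_false]; exact hv e he

theorem mem_prs (k : ℕ) (c e : Fin 4) (h : cls k c e = true) : (c, e) ∈ prs k := by
  unfold prs
  rw [List.mem_filter]
  refine ⟨?_, h⟩
  clear h
  revert c e
  decide

theorem acc_of_chk (N : Net) (T : ℕ → List (Fin 4)) (cl : ℕ → ℕ) (t : Tr) (hw : N.WF)
    (h : chk N t (mkD N T cl) = true) : N.Acc T cl := by
  classical
  intro tp pc pe htp hcl
  obtain ⟨c, hv, hl⟩ := chk_ex N
    (fun e => if N.dst e < N.m then (tp e, 0, 0) else (tp e, pc (N.dst e), pe (N.dst e))) t _ h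
    (by
      intro e he
      unfold mkD
      by_cases hd : N.dst e < N.m
      · simp only [hd, if_true, List.mem_map]; exact ⟨tp e, htp e he, rfl⟩
      · simp only [hd, if_false, List.mem_flatMap, List.mem_map]
        exact ⟨tp e, htp e he, (pc (N.dst e), pe (N.dst e)),
          mem_prs _ _ _ (hcl _ (hw.2.1 e he).2 (by omega)), rfl⟩)
  have key : ∀ e, ∃ x : Fin 4 × Fin 4, e < N.n →
      (∃ k, x.1 = sd N c e false k) ∧ (N.dst e < N.m → ∃ k, x.2 = sd N c e true k) ∧
      compat (tp e) (dig c (N.src e)) x.1 x.2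
        (if N.dst e < N.m then dig c (N.dst e) else pc (N.dst e)) = true ∧
      (N.m ≤ N.dst e → x.2 ≠ pc (N.dst e) ∧ x.2 ≠ pe (N.dst e)) := by
    intro e
    by_cases he : e < N.n
    · have h1 := hl e he
      unfold lchk at h1
      by_cases hd : N.dst e < N.m
      · simp only [hd, if_true, List.any_eq_true] at h1
        obtain ⟨k, -, k', -, h2⟩ := h1
        exact ⟨(sd N c e false k, sd N c e true k'), fun _ => ⟨⟨k, rfl⟩, fun _ => ⟨k', rfl⟩,
          by simpa only [hd, if_true] using h2, fun h3 => absurd hd (by omega)⟩⟩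
      · simp only [hd, if_false, List.any_eq_true, Bool.and_eq_true, bne_iff_ne] at h1
        obtain ⟨k, -, r, -, ⟨h2, h3⟩, h4⟩ := h1
        exact ⟨(sd N c e false k, r), fun _ => ⟨⟨k, rfl⟩, fun h5 => absurd h5 hd,
          by simpa only [hd, if_false] using h4, fun _ => ⟨h2, h3⟩⟩⟩
    · exact ⟨(0, 0), fun h1 => absurd h1 he⟩
  choose x hx using key
  refine ⟨fun i => if i < N.m then dig c i else pc i, fun e b => if b then (x e).2 else (x e).1,
    fun k hk => by simp only [show ¬ k < N.m by omega, if_false], fun e he => ?_, fun i hi => ?_,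
    fun e he hd => ?_⟩
  · have h1 := (hx e he).2.2.1
    simpa only [(hw.2.1 e he).1, if_true, Bool.false_eq_true, if_false] using h1
  · have h1 := hv i hi
    have side : ∀ j < 3, ∃ k, (if (N.inc i j).2 then (x (N.inc i j).1).2 else (x (N.inc i j).1).1)
        = sd N c (N.inc i j).1 (N.inc i j).2 k := by
      intro j hj
      obtain ⟨h2, h3⟩ := hw.2.2.1 i hi j hj
      cases hb : (N.inc i j).2 with
      | false => simpa only [Bool.false_eq_true, if_false] using (hx _ h2).1
      | true =>
        rw [hb] at h3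
        simp only [Net.en, if_true] at h3
        simpa only [if_true] using (hx _ h2).2.1 (by omega)
    obtain ⟨k0, e0⟩ := side 0 (by omega)
    obtain ⟨k1, e1⟩ := side 1 (by omega)
    obtain ⟨k2, e2⟩ := side 2 (by omega)
    simp only [hi, if_true]
    rw [e0, e1, e2]
    simp only [vchk, List.all_eq_true] at h1
    exact h1 k0 (by cases k0 <;> simp) k1 (by cases k1 <;> simp) k2 (by cases k2 <;> simp)
  · simpa only [if_true] using (hx e he).2.2.2 hd

end Pool.Agent.Lib.MP_7e4769_co.Sp
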