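import Pool.Agent.Lib.MP_7e4769_co.Sp.Start

set_option autoImplicit false
set_option linter.unusedSectionVars false

namespace Pool.Agent.Lib.MP_7e4769_co.Sp

open Finset

variable {V : Type} [Fintype V] [DecidableEq V] {G : SimpleGraph V} [DecidableRel G.Adj]

/-- a path from `x` down to `Z`; `d` is the vertex after `x`, `T` the vertices off `Z` -/
structure Tl (G : SimpleGraph V) [DecidableRel G.Adj] (Z : Finset V) (k : ℕ) (x d : V)
    (T : Finset V) : Prop where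
  near : ∀ y ∈ T, Near G Z k y
  off : ∀ y ∈ T, y ∉ Z
  mem : x ∈ T
  adj : G.Adj x d
  dm : d ∈ Z ∪ T
  two : ∀ y ∈ T, y ≠ x → 2 ≤ dg G (Z ∪ T) y
  bot : ∃ a ∈ Z, ∃ y ∈ T, G.Adj a y
  crd : T.card ≤ k

theorem Near.up {Z : Finset V} {k k' : ℕ} (h : k ≤ k') {a : V} (ha : Near G Z k a) :
    Near G Z k' a := by
  induction h with
  | refl => exact ha
  | step _ ih => exact Or.inl ih

theorem tl_one {Z : Finset V} {x d : V} (hx : x ∉ Z) (hd : d ∈ Z) (h : G.Adj x d) :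
    Tl G Z 1 x d {x} := by
  refine ⟨fun y hy => ?_, fun y hy => ?_, mem_singleton_self x, h, mem_union_left _ hd,
    fun y hy hyx => absurd (mem_singleton.1 hy) hyx, ⟨d, hd, x, mem_singleton_self x, h.symm⟩,
    (card_singleton x).le⟩
  · rw [mem_singleton.1 hy]
    exact Or.inr ⟨d, h, hd⟩
  · rw [mem_singleton.1 hy]
    exact hx

theorem Tl.step {Z T : Finset V} {k : ℕ} {y d x : V} (h : Tl G Z k y d T) (hx : x ∉ Z)
    (hT : x ∉ T) (ha : G.Adj x y) : Tl G Z (k + 1) x y (insert x T) := by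
  have hs : Z ∪ T ⊆ Z ∪ insert x T := union_subset_union_right (subset_insert x T)
  refine ⟨fun w hw => ?_, fun w hw => ?_, mem_insert_self x T, ha,
    mem_union_right _ (mem_insert_of_mem h.mem), fun w hw hwx => ?_, ?_,
    (card_insert_le x T).trans (Nat.succ_le_succ h.crd)⟩
  · rcases mem_insert.1 hw with e | e
    · rw [e]
      exact Or.inr ⟨y, ha, h.near y h.mem⟩
    · exact Or.inl (h.near w e)
  · rcases mem_insert.1 hw with e | e
    · rw [e]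
      exact hx
    · exact h.off w e
  · have hwT : w ∈ T := (mem_insert.1 hw).resolve_left hwx
    by_cases hwy : w = y
    · rw [hwy]
      refine two_le_dg (hs h.dm) (mem_union_right _ (mem_insert_self x T)) h.adj ha.symm ?_
      intro e
      rcases mem_union.1 h.dm with e' | e'
      · exact hx (e ▸ e')
      · exact hT (e ▸ e')
    · exact (h.two w hwT hwy).trans (dg_mono hs w)
  · obtain ⟨a, ha', b, hb, hab⟩ := h.bot
    exact ⟨a, ha', b, mem_insert_of_mem hb, hab⟩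

/-- `core` for `Z ∪ T ∪ T'`: the vertex of `Z` at the bottom has degree 3 -/
theorem ear {Z T T' : Finset V} (hc : Clean G Z) (hZ : ∀ a ∈ Z, 2 ≤ dg G Z a) {k k' : ℕ}
    (hk : k ≤ 3) (hk' : k' ≤ 3) {x d x' d' : V} (h : Tl G Z k x d T) (h' : Tl G Z k' x' d' T')
    (he : (x = x' ∧ d ≠ d') ∨ (G.Adj x x' ∧ x' ≠ d ∧ x ≠ d')) : False := by
  have s0 : Z ⊆ Z ∪ T ∪ T' := subset_union_left.trans subset_union_left
  have s1 : Z ∪ T ⊆ Z ∪ T ∪ T' := subset_union_left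
  have s2 : Z ∪ T' ⊆ Z ∪ T ∪ T' := union_subset s0 subset_union_right
  have mx : x ∈ Z ∪ T ∪ T' := s1 (mem_union_right _ h.mem)
  have mx' : x' ∈ Z ∪ T ∪ T' := s2 (mem_union_right _ h'.mem)
  have hs := hc (Z ∪ T ∪ T') (fun a ha => by
    rcases mem_union.1 ha with e | e
    · rcases mem_union.1 e with e | e
      · exact Near.up (Nat.zero_le 3) e
      · exact Near.up hk (h.near a e)
    · exact Near.up hk' (h'.near a e)) (by
    have e1 := card_union_le (Z ∪ T) T'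
    have e2 := card_union_le Z T
    have e3 := h.crd
    have e4 := h'.crd
    omega)
  have dx : 2 ≤ dg G (Z ∪ T ∪ T') x ∧ 2 ≤ dg G (Z ∪ T ∪ T') x' := by
    rcases he with ⟨e, hd⟩ | ⟨hxx, e1, e2⟩
    · have := two_le_dg (s1 h.dm) (s2 h'.dm) h.adj (e ▸ h'.adj) hd
      exact ⟨this, e ▸ this⟩
    · exact ⟨two_le_dg mx' (s1 h.dm) hxx h.adj e1, two_le_dg mx (s2 h'.dm) hxx.symm h'.adj e2⟩
  obtain ⟨a, ha, y, hy, hay⟩ := h.bot
  refine core hs (fun v hv => ?_) (s0 ha) ?_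
  · rcases mem_union.1 hv with e | e
    · rcases mem_union.1 e with e | e
      · exact (hZ v e).trans (dg_mono s0 v)
      · by_cases hvx : v = x
        · exact hvx ▸ dx.1
        · exact (h.two v e hvx).trans (dg_mono s1 v)
    · by_cases hvx : v = x'
      · exact hvx ▸ dx.2
      · exact (h'.two v e hvx).trans (dg_mono s2 v)
  · have h1 := dg_lt s0 (s1 (mem_union_right _ hy)) (h.off y hy) hay
    have h2 := hZ a ha
    omega

theorem clean_succ {m : ℕ} {z o : ℕ → V} (h : Cy G m z o) (i : ℕ) :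
    ∃ j, z (j + 1) = z i ∧ o (j + 1) = o i ∧ (j + 1) % 2 = i % 2 := by
  have hm := h.hm
  have e : i + 2 * m - 1 + 1 = i + 2 * m := by omega
  refine ⟨i + 2 * m - 1, ?_, ?_, by omega⟩
  · rw [e, h.per]
  · rw [e, h.oper]

theorem clean_par {m : ℕ} {z o : ℕ → V} (h : Cy G m z o) {i j : ℕ} (e : z i = z j) :
    i % 2 = j % 2 := by
  rw [← Nat.mod_mod_of_dvd i (dvd_mul_right 2 m), ← Nat.mod_mod_of_dvd j (dvd_mul_right 2 m),
    h.par e]

theorem Cy.two {m : ℕ} {z o : ℕ → V} (h : Cy G m z o) : ∀ a ∈ Zs m z, 2 ≤ dg G (Zs m z) a := by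
  intro a ha
  obtain ⟨i, rfl⟩ := h.mem_Zs.1 ha
  obtain ⟨j, e, -, -⟩ := clean_succ h i
  rw [← e]
  exact two_le_dg (h.mem_Zs.2 ⟨j, rfl⟩) (h.mem_Zs.2 ⟨j + 2, rfl⟩) (h.adj j).symm (h.adj (j + 1))
    (h.ne2 j)

/-- no chord: `core` for the cycle itself -/
theorem Cy.off {m : ℕ} {z o : ℕ → V} (h : Cy G m z o) (hc : Clean G (Zs m z)) (i : ℕ) :
    o i ∉ Zs m z := by
  intro ho
  obtain ⟨j, -, e, -⟩ := clean_succ h i
  rw [← e] at ho
  refine core (hc _ (fun a ha => Near.up (Nat.zero_le 3) ha) (by omega)) h.two (h.mem_Zs.2 ⟨j + 1, rfl⟩) ?_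
  exact three_le_dg (h.mem_Zs.2 ⟨j, rfl⟩) (h.mem_Zs.2 ⟨j + 2, rfl⟩) ho (h.adj j).symm
    (h.adj (j + 1)) (h.oadj (j + 1)) (h.ne2 j) (h.op j).symm (h.on (j + 1)).symm

theorem Cy.valid (hG : G.IsRegularOfDegree 3) {m : ℕ} {z o : ℕ → V} (h : Cy G m z o)
    (hc : Clean G (Zs m z)) : Valid G m z o := by
  have hz : ∀ i, z i ∈ Zs m z := fun i => h.mem_Zs.2 ⟨i, rfl⟩
  have t1 : ∀ i, Tl G (Zs m z) 1 (o i) (z i) {o i} := fun i =>
    tl_one (h.off hc i) (hz i) (h.oadj i).symm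
  have h3 : ∀ i j, ¬ G.Adj (o i) (o j) := fun i j ha =>
    ear hc h.two (by norm_num) (by norm_num) (t1 i) (t1 j)
      (Or.inr ⟨ha, fun e => h.off hc j (e ▸ hz i), fun e => h.off hc i (e ▸ hz j)⟩)
  have hJ : ∀ b ∈ Js G m z o,
      b ∉ Zs m z ∧ ∃ l, G.Adj b (o l) ∧ Tl G (Zs m z) 2 b (o l) (insert b {o l}) := by
    intro b hb
    obtain ⟨hbZ, w, hw, hbw⟩ := (mem_filter.1 hb).2
    obtain ⟨l, rfl⟩ := h.mem_Ws.1 hw
    exact ⟨hbZ, 2 * l + 1, hbw, (t1 _).step hbZ (fun e => hbw.ne (mem_singleton.1 e)) hbw⟩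
  have hZJ : ∀ i, ∀ b ∈ Js G m z o, ¬ G.Adj (z i) b := fun i b hb ha => by
    obtain ⟨hbZ, l, -, ht⟩ := hJ b hb
    exact ear hc h.two (by norm_num) (by norm_num) (tl_one hbZ (hz i) ha.symm) ht
      (Or.inl ⟨rfl, fun e => h.off hc l (e ▸ hz i)⟩)
  refine ⟨fun i => h.off hc _, fun i hi j hj e => ?_, fun i j => h3 _ _, fun a ha b hb hab => ?_⟩
  · by_contra hij
    refine ear hc h.two (by norm_num) (by norm_num) (t1 (2 * i + 1)) (t1 (2 * j + 1))
      (Or.inl ⟨e, fun e' => hij ?_⟩)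
    have := h.inj (2 * i + 1) (by omega) (2 * j + 1) (by omega) e'
    omega
  · rcases h.mem_Ss.1 ha with ⟨i, rfl⟩ | ha <;> rcases h.mem_Ss.1 hb with ⟨j, rfl⟩ | hb
    · obtain ⟨l, e, -, hl⟩ := clean_succ h (2 * i)
      rw [← e] at hab
      rcases h.nb hG l hab with e' | e' | e'
      · have := clean_par h e'
        omega
      · have := clean_par h e'
        omega
      · exact h.off hc _ (e' ▸ hz _)
    · exact hZJ _ b hb hab
    · exact hZJ _ a ha hab.symm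
    · obtain ⟨-, l, hl, ht⟩ := hJ a ha
      obtain ⟨-, l', hl', ht'⟩ := hJ b hb
      exact ear hc h.two (by norm_num) (by norm_num) ht ht'
        (Or.inr ⟨hab, fun e => h3 l l' (e ▸ hl'), fun e => h3 l' l (e ▸ hl)⟩)

/-- a vertex of the rest with a neighbour `d` outside the rest has a tail through `d` -/
theorem Cy.mark (hG : G.IsRegularOfDegree 3) {m : ℕ} {z o : ℕ → V} (h : Cy G m z o)
    (hc : Clean G (Zs m z)) {v d : V} (hv : v ∈ Rs G m z o) (hd : d ∉ Rs G m z o)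
    (ha : G.Adj v d) : ∃ k T, k ≤ 3 ∧ Tl G (Zs m z) k v d T := by
  have hz : ∀ i, z i ∈ Zs m z := fun i => h.mem_Zs.2 ⟨i, rfl⟩
  have hv' := (mem_sdiff.1 hv).2
  simp only [mem_union, not_or] at hv'
  obtain ⟨⟨hvZ, hvW⟩, hvJ⟩ := hv'
  have hd' : d ∈ Zs m z ∪ Ws m o ∪ Js G m z o := by
    by_contra e
    exact hd (mem_sdiff.2 ⟨mem_univ d, e⟩)
  rcases mem_union.1 hd' with e | e
  · rcases mem_union.1 e with e | e
    · exact ⟨1, {v}, by norm_num, tl_one hvZ e ha⟩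
    · exact absurd (mem_filter.2 ⟨mem_univ v, hvZ, d, e, ha⟩) hvJ
  · obtain ⟨hdZ, w, hw, hdw⟩ := (mem_filter.1 e).2
    obtain ⟨l, rfl⟩ := h.mem_Ws.1 hw
    have t1 := tl_one (h.off hc (2 * l + 1)) (hz (2 * l + 1)) (h.oadj (2 * l + 1)).symm
    have t2 := t1.step hdZ (fun e => hdw.ne (mem_singleton.1 e)) hdw
    refine ⟨3, _, le_rfl, t2.step hvZ (fun e => ?_) ha⟩
    rcases mem_insert.1 e with e | e
    · exact ha.ne e
    · exact hvW (mem_singleton.1 e ▸ hw)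

theorem Cy.rest2 (hG : G.IsRegularOfDegree 3) {m : ℕ} {z o : ℕ → V} (h : Cy G m z o)
    (hc : Clean G (Zs m z)) : ∀ v ∈ Rs G m z o, 2 ≤ dg G (Rs G m z o) v := by
  intro v hv
  by_contra h1
  have h3 := dg_sdiff (G := G) (subset_univ (Rs G m z o)) v
  rw [dg_univ hG] at h3
  have h2 : 2 ≤ dg G (univ \ Rs G m z o) v := by omega
  obtain ⟨d, hd, ha, -⟩ := ex_other h2 v
  obtain ⟨d', hd', ha', hdd⟩ := ex_other h2 d
  obtain ⟨k, T, hk, ht⟩ := h.mark hG hc hv (mem_sdiff.1 hd).2 ha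
  obtain ⟨k', T', hk', ht'⟩ := h.mark hG hc hv (mem_sdiff.1 hd').2 ha'
  exact ear hc h.two hk hk' ht ht' (Or.inl ⟨rfl, hdd.symm⟩)

theorem Cy.rest3 (hG : G.IsRegularOfDegree 3) {m : ℕ} {z o : ℕ → V} (h : Cy G m z o)
    (hc : Clean G (Zs m z)) : ∀ a ∈ Rs G m z o, ∀ b ∈ Rs G m z o, G.Adj a b →
      dg G (Rs G m z o) a = 3 ∨ dg G (Rs G m z o) b = 3 := by
  intro a ha b hb hab
  by_contra h1
  rw [not_or] at h1
  obtain ⟨p, hp, hap⟩ := ex_out hG h1.1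
  obtain ⟨p', hp', hbp⟩ := ex_out hG h1.2
  obtain ⟨k, T, hk, ht⟩ := h.mark hG hc ha hp hap
  obtain ⟨k', T', hk', ht'⟩ := h.mark hG hc hb hp' hbp
  exact ear hc h.two hk hk' ht ht'
    (Or.inr ⟨hab, fun e => hp (e ▸ hb), fun e => hp' (e ▸ ha)⟩)

end Pool.Agent.Lib.MP_7e4769_co.Sp
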