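import Pool.Agent.Lib.MP_7e4769_co.Sp.Cut

set_option autoImplicit false
set_option linter.unusedSectionVars false

namespace Pool.Agent.Lib.MP_7e4769_co.Sp

open Finset

variable {V : Type} [Fintype V] [DecidableEq V] {G : SimpleGraph V} [DecidableRel G.Adj]

theorem ok_congr {c c' : V → Fin 4} {v : V} (h0 : c' v = c v) (h : ∀ w, G.Adj v w → c' w = c w)
    (hc : ok G c v) : ok G c' v := by
  refine ⟨fun w hw => ?_, ?_⟩
  · rw [h w hw, h0]
    exact hc.1 w hw
  · rw [image_congr (g := c) fun w hw => h w (by simpa using hw)]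
    exact hc.2

/-- the neighbourhood is `{a, b, d}` by `nbrs_all`; then a finite check on four colours -/
theorem ok_iff (hG : G.IsRegularOfDegree 3) {c : V → Fin 4} {v a b d : V} (h1 : G.Adj v a)
    (h2 : G.Adj v b) (h3 : G.Adj v d) (hab : a ≠ b) (had : a ≠ d) (hbd : b ≠ d) :
    ok G c v ↔ vok (c v) (c a) (c b) (c d) = true := by
  have e : G.neighborFinset v = {a, b, d} := by
    ext w
    simp only [SimpleGraph.mem_neighborFinset, mem_insert, mem_singleton]
    exact ⟨nbrs_all hG h1 h2 h3 hab had hbd w, by rintro (rfl | rfl | rfl) <;> assumption⟩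
  have key : ∀ x a b d : Fin 4, ((a ≠ x ∧ b ≠ x ∧ d ≠ x) ∧ ({a, b, d} : Finset (Fin 4)).card = 2) ↔
      vok x a b d = true := by decide
  rw [ok, e, image_insert, image_insert, image_singleton, ← key]
  refine and_congr_left fun _ => ⟨fun h => ⟨h a h1, h b h2, h d h3⟩, fun h w hw => ?_⟩
  rcases nbrs_all hG h1 h2 h3 hab had hbd w hw with rfl | rfl | rfl
  exacts [h.1, h.2.1, h.2.2]

theorem col_st (hG : G.IsRegularOfDegree 3) {c : V → Fin 4} {w p a b : V} {e : Fin 4}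
    (hp : G.Adj w p) (ha : G.Adj w a) (hb : G.Adj w b) (hab : a ≠ b) (hap : a ≠ p) (hbp : b ≠ p)
    (he : e ≠ c w) (h : ∀ y, y ≠ c w → y ≠ e → vok (c w) y (c a) (c b) = true) : St G c w p e := by
  refine ⟨he, fun c' h1 h2 h3 h4 => ?_⟩
  rw [ok_iff hG hp ha hb hap.symm hbp.symm hab, h2, h1 a ha hap, h1 b hb hbp]
  exact h _ h3 h4

theorem st_free (hG : G.IsRegularOfDegree 3) {c : V → Fin 4} {w p : V} (hp : G.Adj w p)
    (h : ∀ x, G.Adj w x → x ≠ p → c x ≠ c w) : ∃ e, St G c w p e := by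
  have key : ∀ x a b : Fin 4, a ≠ x → b ≠ x →
      ∃ e, e ≠ x ∧ ∀ y, y ≠ x → y ≠ e → vok x y a b = true := by decide
  obtain ⟨a, b, ha, hb, hab, hap, hbp⟩ := nbrs_of1 hG (v := w) p
  obtain ⟨e, h1, h2⟩ := key _ _ _ (h a ha hap) (h b hb hbp)
  exact ⟨e, col_st hG hp ha hb hab hap hbp h1 h2⟩

theorem st_ok (hG : G.IsRegularOfDegree 3) {c : V → Fin 4} {w p : V} (hp : G.Adj w p)
    (h : ok G c w) (h3 : c p = 3) : ∃ e, St G c w p e ∧ c w ≠ 3 ∧ e ≠ 3 := by
  have key : ∀ x a b : Fin 4, vok x 3 a b = true →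
      ∃ e, e ≠ x ∧ (∀ y, y ≠ x → y ≠ e → vok x y a b = true) ∧ x ≠ 3 ∧ e ≠ 3 := by decide
  obtain ⟨a, b, ha, hb, hab, hap, hbp⟩ := nbrs_of1 hG (v := w) p
  rw [ok_iff hG hp ha hb hap.symm hbp.symm hab, h3] at h
  obtain ⟨e, h1, h2, h4⟩ := key _ _ _ h
  exact ⟨e, col_st hG hp ha hb hab hap hbp h1 h2, h4⟩

theorem ok_perm (π : Equiv.Perm (Fin 4)) {c : V → Fin 4} {v : V} (h : ok G c v) :
    ok G (fun x => π (c x)) v := by
  refine ⟨fun w hw => π.injective.ne (h.1 w hw), ?_⟩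
  rw [← h.2, ← card_image_of_injective (image c _) π.injective, image_image]
  rfl

theorem good_empty : Good G (∅ : Finset V) := by
  exact ⟨fun _ => 3, fun _ _ => rfl, fun v hv => absurd hv (notMem_empty v)⟩

theorem good_union {A B : Finset V} (hd : Disjoint A B) (h0 : eb G A B = 0) (hA : Good G A)
    (hB : Good G B) : Good G (A ∪ B) := by
  obtain ⟨a, a1, a2⟩ := hA
  obtain ⟨b, b1, b2⟩ := hB
  rw [eb_eq_zero] at h0
  refine ⟨fun v => if v ∈ A then a v else b v, fun v hv => ?_, fun v hv => ?_⟩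
  · rw [notMem_union] at hv
    exact (if_neg hv.1).trans (b1 v hv.2)
  rcases mem_union.1 hv with hv | hv
  · refine ok_congr (if_pos hv) (fun w hw => ?_) (a2 v hv)
    split_ifs with h
    · rfl
    · rw [a1 w h, b1 w fun h' => h0 v hv w h' hw]
  · exact ok_congr (if_neg (disjoint_right.1 hd hv))
      (fun w hw => if_neg fun h => h0 w h v hv hw.symm) (b2 v hv)

theorem Good.free {C : Finset V} (h : Good G C) {w p : V} (hw : w ∈ C) : Free G C w p := by
  obtain ⟨c, h1, h2⟩ := h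
  exact ⟨c, h1, fun v hv _ => h2 v hv, fun x hx _ => (h2 w hw).1 x hx⟩

theorem free_single (w p : V) : Free G {w} w p := by
  refine ⟨fun v => if v = w then 0 else 3, fun v hv => if_neg (notMem_singleton.1 hv),
    fun v hv h => (h (mem_singleton.1 hv)).elim, fun x hx _ => ?_⟩
  simp only [hx.ne', if_true, if_false]
  decide

/-- colour `w` with 3 -/
theorem free_of_erase {C : Finset V} {w p : V} (h : Good G (C.erase w))
    (hn : ∀ x, G.Adj w x → x ≠ p → x ∈ C) : Free G C w p := by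
  obtain ⟨c, h1, h2⟩ := h
  exact ⟨c, fun v hv => h1 v fun h => hv (mem_of_mem_erase h),
    fun v hv hw => h2 v (mem_erase.2 ⟨hw, hv⟩),
    fun x hx hp => ((h2 x (mem_erase.2 ⟨hx.ne', hn x hx hp⟩)).1 w hx.symm).symm⟩

end Pool.Agent.Lib.MP_7e4769_co.Sp
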