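import Pool.Agent.Lib.MP_7e4769_co.Sp.Cut

set_option autoImplicit false
set_option linter.unusedSectionVars false

namespace Pool.Agent.Lib.MP_7e4769_co.Sp

open Finset

variable {V : Type} [Fintype V] [DecidableEq V] {G : SimpleGraph V} [DecidableRel G.Adj]

/-- adjacent ordered pairs in `A` against edges inside `A` -/
theorem eb_self (A : Finset V) :
    eb G A A = 2 * {e ∈ G.edgeSet | ∀ v ∈ e, v ∈ A}.ncard := by
  classical
  let H : SimpleGraph V := ⟨fun a b => G.Adj a b ∧ a ∈ A ∧ b ∈ A,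
    ⟨fun _ _ h => ⟨h.1.symm, h.2.2, h.2.1⟩⟩, ⟨fun _ h => G.irrefl h.1⟩⟩
  have e : {e ∈ G.edgeSet | ∀ v ∈ e, v ∈ A} = H.edgeFinset := by
    ext e
    induction e using Sym2.ind with
    | _ a b => simp [H]
  rw [e, Set.ncard_coe_finset, H.two_mul_card_edgeFinset, eb_eq_card]
  congr 1
  ext ⟨a, b⟩
  simp [H, and_comm]

/-- `z i = p.getVert (i % p.length)`, `o i` the third neighbour (`nbrs_of2`) -/
theorem cy_of_cycle (hG : G.IsRegularOfDegree 3) {v : V} (p : G.Walk v v) (hp : p.IsCycle)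
    (he : Even p.length) : ∃ m z o, Cy G m z o ∧ ∀ a, a ∈ Zs m z ↔ a ∈ p.support := by
  obtain ⟨m, hm⟩ := he
  have h3 := hp.three_le_length
  have hL : p.length = 2 * m := by omega
  choose f h1 h2 h4 using fun w a b => nbrs_of2 hG (v := w) a b
  obtain ⟨z, hz⟩ : ∃ z : ℕ → V, z = fun i => p.getVert (i % (2 * m)) := ⟨_, rfl⟩
  have per : ∀ i, z (i + 2 * m) = z i := fun i => by simp [hz]
  refine ⟨m, z, fun i => f (z i) (z (i + 1)) (z (i + (2 * m - 1))), ⟨by omega, fun i => ?_, per,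
    fun i hi j hj e => ?_, fun i => h1 _ _ _, fun i => ?_, fun i => h2 _ _ _, fun i => ?_⟩,
    fun a => ?_⟩
  · have hi := Nat.mod_lt i (show 0 < 2 * m by omega)
    have h := p.adj_getVert_succ (hi.trans_eq hL.symm)
    rw [hz]
    dsimp only
    rw [← Nat.mod_add_mod]
    rcases (Nat.succ_le_of_lt hi).eq_or_lt with e | e
    · rw [show i % (2 * m) + 1 = p.length by omega, p.getVert_length] at h
      rwa [show i % (2 * m) + 1 = 2 * m from e, Nat.mod_self, p.getVert_zero]
    · rwa [Nat.mod_eq_of_lt (a := _ + 1) e]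
  · rw [hz] at e
    dsimp only at e
    rw [Nat.mod_eq_of_lt hi, Nat.mod_eq_of_lt hj] at e
    exact hp.getVert_injOn' (show i ≤ _ by omega) (show j ≤ _ by omega) e
  · rw [per, Nat.add_right_comm i _ 1, per, Nat.add_right_comm i, per]
  · have h := h4 (z (i + 1)) (z (i + 1 + 1)) (z (i + 1 + (2 * m - 1)))
    rwa [← per i, show i + 2 * m = i + 1 + (2 * m - 1) by omega]
  · rw [Zs, mem_image, SimpleGraph.Walk.mem_support_iff_exists_getVert, hz]
    constructor
    · rintro ⟨i, -, rfl⟩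
      exact ⟨_, rfl, (Nat.mod_lt i (by omega)).le.trans hL.ge⟩
    · rintro ⟨i, rfl, hi⟩
      rcases hi.eq_or_lt with rfl | hi
      · exact ⟨0, mem_range.2 (by omega), by simp⟩
      · exact ⟨i, mem_range.2 (by omega), congrArg _ (Nat.mod_eq_of_lt (by omega))⟩

theorem near_dist (hc : G.Connected) {Z : Finset V} {k : ℕ} {a : V} (h : Near G Z k a) :
    ∃ x ∈ Z, G.dist a x ≤ k := by
  induction k generalizing a with
  | zero => exact ⟨a, h, by simp⟩
  | succ k ih =>
    rcases h with h | ⟨b, hb, h⟩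
    · obtain ⟨x, hx, h'⟩ := ih h
      exact ⟨x, hx, by omega⟩
    · obtain ⟨x, hx, h'⟩ := ih h
      have h1 := hc.dist_triangle (u := a) (v := b) (w := x)
      rw [SimpleGraph.dist_eq_one_iff_adj.2 hb] at h1
      exact ⟨x, hx, by omega⟩

end Pool.Agent.Lib.MP_7e4769_co.Sp
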