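import Pool.Agent.Lib.MP_7e4769_co.Sp.LinkEx

set_option autoImplicit false
set_option linter.unusedSectionVars false

namespace Pool.Agent.Lib.MP_7e4769_co.Sp

open Finset

variable {V : Type} [Fintype V] [DecidableEq V] {G : SimpleGraph V} [DecidableRel G.Adj]

/-- Let `A'` be `A` together with the vertices `t` such that `[t]` is a link between two vertices
of `A`; it has at most 100 vertices (`card_le_four`); first vertices of short links with both ends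
in `A` lie in `A'`; use `core`. -/
theorem core_K (hG : G.IsRegularOfDegree 3) (hs : Sparse G 100) {U A : Finset V}
    (hA : A.card ≤ 25)
    (h2 : ∀ z ∈ A, ∃ l1 z1 l2 z2, Link G U z l1 z1 ∧ Link G U z l2 z2 ∧ (l1, z1) ≠ (l2, z2) ∧
      l1.length ≤ 1 ∧ l2.length ≤ 1 ∧ z1 ∈ A ∧ z2 ∈ A)
    {z z1 z2 z3 : V} {l1 l2 l3 : List V} (hz : z ∈ A) (h : Star G U z l1 z1 l2 z2 l3 z3)
    (s1 : l1.length ≤ 1) (s2 : l2.length ≤ 1) (s3 : l3.length ≤ 1) (m1 : z1 ∈ A) (m2 : z2 ∈ A)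
    (m3 : z3 ∈ A) : False := by
  classical
  set B := A ∪ univ.filter fun t => ∃ a ∈ A, ∃ b ∈ A, Link G U a [t] b with hB
  have hAB : A ⊆ B := subset_union_left
  have key : ∀ {y y' : V} {l : List V}, Link G U y l y' → l.length ≤ 1 → y ∈ A → y' ∈ A →
      fst l y' ∈ B := by
    intro y y' l hl h1 hy hy'
    match l, hl, h1 with
    | [], _, _ => exact hAB hy'
    | [t], hl, _ => exact mem_union_right _ (mem_filter.2 ⟨mem_univ _, y, hy, y', hy', hl⟩)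
  have hc : B.card ≤ 4 * A.card := card_le_four hG fun b hb => by
    rcases mem_union.1 hb with hb | hb
    · exact Or.inl hb
    · obtain ⟨a, ha, a', -, hl⟩ := (mem_filter.1 hb).2
      exact Or.inr ⟨a, ha, hl.one.1⟩
  refine core (hs B (by omega)) (fun v hv => ?_) (hAB hz)
    (three_le_dg (key h.h1 s1 hz m1) (key h.h2 s2 hz m2) (key h.h3 s3 hz m3) h.h1.adj_fst
      h.h2.adj_fst h.h3.adj_fst h.fst_ne.1 h.fst_ne.2.1 h.fst_ne.2.2)
  rcases mem_union.1 hv with hv | hv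
  · obtain ⟨k1, y1, k2, y2, a1, a2, a3, a4, a5, a6, a7⟩ := h2 v hv
    exact two_le_dg (key a1 a4 hv a6) (key a2 a5 hv a7) a1.adj_fst a2.adj_fst
      fun e => a3 (a1.uniq a2 e)
  · obtain ⟨a, ha, a', ha', hl⟩ := (mem_filter.1 hv).2
    exact two_le_dg (hAB ha) (hAB ha') hl.one.1.symm hl.one.2.1 hl.ne

theorem core_Sh (hG : G.IsRegularOfDegree 3) (hs : Sparse G 100) {U A : Finset V}
    (hA : A.card ≤ 25) (h2 : ∀ z ∈ A, ∃ a ∈ A, ∃ b ∈ A, a ≠ b ∧ Sh G U z a ∧ Sh G U z b)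
    {z a b d : V} (hz : z ∈ A) (ha : a ∈ A) (hb : b ∈ A) (hd : d ∈ A) (hab : a ≠ b) (had : a ≠ d)
    (hbd : b ≠ d) (h1 : Sh G U z a) (h2 : Sh G U z b) (h3 : Sh G U z d) : False := by
  have h0 := ‹∀ z ∈ A, ∃ a ∈ A, ∃ b ∈ A, a ≠ b ∧ Sh G U z a ∧ Sh G U z b›
  obtain ⟨l1, a1, b1⟩ := h1
  obtain ⟨l2, a2, b2⟩ := h2
  obtain ⟨l3, a3, b3⟩ := h3
  refine core_K hG hs hA (fun y hy => ?_) hz ⟨a1, a2, a3, fun e => hab (Prod.mk.inj e).2,
    fun e => had (Prod.mk.inj e).2, fun e => hbd (Prod.mk.inj e).2⟩ b1 b2 b3 ha hb hd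
  obtain ⟨p, hp, q, hq, hpq, ⟨k1, c1, d1⟩, k2, c2, d2⟩ := h0 y hy
  exact ⟨k1, p, k2, q, c1, c2, fun e => hpq (Prod.mk.inj e).2, d1, d2, hp, hq⟩

theorem Sh.symm {U : Finset V} {a b : V} (h : Sh G U a b) : Sh G U b a := by
  obtain ⟨l, h1, h2⟩ := h
  exact ⟨l.reverse, h1.symm, by rwa [List.length_reverse]⟩

theorem Lg.symm {U : Finset V} {a b : V} (h : Lg G U a b) : Lg G U b a := by
  obtain ⟨l, h1, h2⟩ := h
  exact ⟨l.reverse, h1.symm, by rwa [List.length_reverse]⟩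

/-- `core_K` with `A = Kn U`: by `NA` at most one of the three links at a vertex is long -/
theorem pm_of_small (hG : G.IsRegularOfDegree 3) (hs : Sparse G 100) {U : Finset V}
    (he : EC2 G U) (hna : NA G U) (hK : (Kn G U).card ≤ 25) : PM G U := by
  intro z hz
  by_contra hn
  have sh : ∀ {l : List V} {z' : V}, Link G U z l z' → l.length ≤ 1 := fun {l z'} hl =>
    Nat.lt_succ_iff.1 (not_le.1 fun h => hn ⟨l, z', hl, h⟩)
  obtain ⟨l1, z1, l2, z2, l3, z3, h⟩ := star_ex0 hG he hz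
  refine core_K (U := U) hG hs hK (fun y hy => ?_) hz h (sh h.h1) (sh h.h2) (sh h.h3) h.h1.hz'
    h.h2.hz' h.h3.hz'
  obtain ⟨k1, y1, k2, y2, k3, y3, s⟩ := star_ex0 hG he hy
  have n12 := fun a b => s.n12 (hna _ _ _ _ _ s.h1 s.h2 a b)
  have n13 := fun a b => s.n13 (hna _ _ _ _ _ s.h1 s.h3 a b)
  have n23 := fun a b => s.n23 (hna _ _ _ _ _ s.h2 s.h3 a b)
  by_cases c1 : 2 ≤ k1.length
  · exact ⟨k2, y2, k3, y3, s.h2, s.h3, s.n23, Nat.lt_succ_iff.1 (not_le.1 (n12 c1)),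
      Nat.lt_succ_iff.1 (not_le.1 (n13 c1)), s.h2.hz', s.h3.hz'⟩
  by_cases c2 : 2 ≤ k2.length
  · exact ⟨k1, y1, k3, y3, s.h1, s.h3, s.n13, by omega, Nat.lt_succ_iff.1 (not_le.1 (n23 c2)),
      s.h1.hz', s.h3.hz'⟩
  · exact ⟨k1, y1, k2, y2, s.h1, s.h2, s.n12, by omega, by omega, s.h1.hz', s.h2.hz'⟩

theorem core_two {P : Finset V} {u v : V} {l m : List V} (h1 : Link G P u l v)
    (h2 : Link G P u m v) (hn : l ≠ m) (a1 : 2 ≤ l.length) (a2 : 2 ≤ m.length) (f : V) :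
    ∃ a ∈ P, ∃ b ∈ P, G.Adj a b ∧ dg G P a = 2 ∧ dg G P b = 2 ∧ a ≠ f ∧ b ≠ f := by
  have key : ∀ {k : List V}, Link G P u k v → 2 ≤ k.length → f ∉ k →
      ∃ a ∈ P, ∃ b ∈ P, G.Adj a b ∧ dg G P a = 2 ∧ dg G P b = 2 ∧ a ≠ f ∧ b ≠ f := by
    intro k hk hl hf
    obtain ⟨t, t', b1, b2, -, -, b3⟩ := hk.long hl
    exact ⟨t, (hk.inn t b1).1, t', (hk.inn t' b2).1, b3, (hk.inn t b1).2, (hk.inn t' b2).2,
      fun e => hf (e ▸ b1), fun e => hf (e ▸ b2)⟩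
  by_cases hf : f ∈ l
  · refine key h2 a2 fun hf' => ?_
    rcases h1.disj h2 hf hf' with h | h
    · exact hn h.2.1
    · exact h1.ne h.1
  · exact key h1 a1 hf

/-- two adjacent vertices of degree 2 that avoid `f`. Cycle: a vertex other than `f` has two
neighbours. Theta: the star at `u` has three links to `v`, at most one is empty, the others have
even length, so are long, and they are disjoint (`Link.disj`; `Link.long`). -/
theorem Bad.pair (hG : G.IsRegularOfDegree 3) {P : Finset V} (he : EC2 G P) (hb : Bad G P)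
    (f : V) : ∃ a ∈ P, ∃ b ∈ P, G.Adj a b ∧ dg G P a = 2 ∧ dg G P b = 2 ∧ a ≠ f ∧ b ≠ f := by
  rcases hb with hb | ⟨u, v, hu, -, -, hK, hev⟩
  · obtain ⟨a, ha, haf⟩ := exists_mem_ne (he.1 : 1 < P.card) f
    obtain ⟨b, hb', hab, hbf⟩ := ex_other (hb a ha).ge f
    exact ⟨a, ha, b, hb', hab, hb a ha, hb b hb', haf, hbf⟩
  · obtain ⟨l1, z1, l2, z2, l3, z3, s⟩ := star_ex0 hG he hu
    obtain rfl := (hK z1 s.h1.hz').resolve_left s.h1.ne.symm
    obtain rfl := (hK z2 s.h2.hz').resolve_left s.h2.ne.symm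
    obtain rfl := (hK z3 s.h3.hz').resolve_left s.h3.ne.symm
    have n12 : l1 ≠ l2 := fun e => s.n12 (by rw [e])
    have n13 : l1 ≠ l3 := fun e => s.n13 (by rw [e])
    have n23 : l2 ≠ l3 := fun e => s.n23 (by rw [e])
    have lg : ∀ {l : List V}, Link G P u l z3 → l ≠ [] → 2 ≤ l.length := fun {l} hl h => by
      have := hev l hl
      have := List.length_pos_iff.2 h
      omega
    by_cases c1 : l1 = []
    · exact core_two s.h2 s.h3 n23 (lg s.h2 (c1 ▸ n12.symm)) (lg s.h3 (c1 ▸ n13.symm)) f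
    by_cases c2 : l2 = []
    · exact core_two s.h1 s.h3 n13 (lg s.h1 c1) (lg s.h3 (c2 ▸ n23.symm)) f
    · exact core_two s.h1 s.h2 n12 (lg s.h1 c1) (lg s.h2 c2) f

end Pool.Agent.Lib.MP_7e4769_co.Sp
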