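import Pool.Agent.Lib.MP_7e4769_co.Sp.Deg

set_option autoImplicit false
set_option linter.unusedSectionVars false

namespace Pool.Agent.Lib.MP_7e4769_co.Sp

open Finset

variable {V : Type} [Fintype V] [DecidableEq V] {G : SimpleGraph V} [DecidableRel G.Adj]

theorem cut_self (U : Finset V) : cut G U U = 0 := by
  unfold cut
  exact eb_eq_zero.2 (fun a _ b hb => by simp at hb)

theorem cut_compl {U S : Finset V} (h : S ⊆ U) : cut G U (U \ S) = cut G U S := by
  unfold cut
  rw [Finset.sdiff_sdiff_eq_self h, eb_comm]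

theorem cut_single {U : Finset V} (v : V) : cut G U {v} = dg G U v := by
  unfold cut
  rw [eb_single]
  refine dg_congr (fun w hw => ?_)
  have hne : w ≠ v := (G.ne_of_adj hw).symm
  simp [hne]

theorem cut_eq_zero {U S : Finset V} :
    cut G U S = 0 ↔ ∀ a ∈ S, ∀ b ∈ U, G.Adj a b → b ∈ S := by
  unfold cut
  rw [eb_eq_zero]
  constructor
  · intro h a ha b hb hab
    by_contra hn
    exact h a ha b (mem_sdiff.2 ⟨hb, hn⟩) hab
  · intro h a ha b hb hab
    exact (mem_sdiff.1 hb).2 (h a ha b (mem_sdiff.1 hb).1 hab)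

theorem sum_dg {U A : Finset V} (h : A ⊆ U) :
    ∑ v ∈ A, dg G U v = eb G A A + cut G U A := by
  unfold cut eb
  rw [← sum_add_distrib]
  exact sum_congr rfl (fun v _ => dg_sdiff h v)

/-- `U \ S` splits into `C \ S` and `U \ C` -/
theorem cut_split {U C S : Finset V} (h1 : S ⊆ C) (h2 : C ⊆ U) :
    cut G U S + cut G U (C \ S) = cut G U C + 2 * cut G C S := by
  have d1 : Disjoint (C \ S) (U \ C) := by
    rw [disjoint_left]; intro a ha hb; exact (mem_sdiff.1 hb).2 (mem_sdiff.1 ha).1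
  have d2 : Disjoint S (U \ C) := by
    rw [disjoint_left]; intro a ha hb; exact (mem_sdiff.1 hb).2 (h1 ha)
  have d3 : Disjoint S (C \ S) := disjoint_sdiff
  have e1 : U \ S = (C \ S) ∪ (U \ C) := by
    ext a
    have := @h1 a
    have := @h2 a
    simp only [mem_sdiff, mem_union]
    tauto
  have e2 : U \ (C \ S) = S ∪ (U \ C) := by
    ext a
    have := @h1 a
    have := @h2 a
    simp only [mem_sdiff, mem_union]
    tauto
  have e3 : eb G C (U \ C) = eb G S (U \ C) + eb G (C \ S) (U \ C) := by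
    rw [← eb_union_left d3, union_sdiff_of_subset h1]
  unfold cut
  rw [e1, e2, e3, eb_union_right _ d1, eb_union_right _ d2, eb_comm (C \ S) S]
  omega

/-- a part `C` of `U \ D` with no edge to the rest of `U \ D` -/
theorem cut_comp {U D C : Finset V} (hD : D ⊆ U) (hC : C ⊆ U \ D) (h0 : cut G (U \ D) C = 0) :
    cut G U (C ∪ D) + cut G U C = cut G U D := by
  have hCU : ∀ a, a ∈ C → a ∈ U ∧ a ∉ D := fun a ha => mem_sdiff.1 (hC ha)
  have d1 : Disjoint C D := by
    rw [disjoint_left]; intro a ha hb; exact (hCU a ha).2 hb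
  have d2 : Disjoint D ((U \ D) \ C) := by
    rw [disjoint_left]; intro a ha hb; exact (mem_sdiff.1 (mem_sdiff.1 hb).1).2 ha
  have d3 : Disjoint C ((U \ D) \ C) := disjoint_sdiff
  have e1 : U \ (C ∪ D) = (U \ D) \ C := by
    ext a
    simp only [mem_sdiff, mem_union]
    tauto
  have e2 : U \ C = D ∪ ((U \ D) \ C) := by
    ext a
    have := hCU a
    have := @hD a
    simp only [mem_sdiff, mem_union]
    tauto
  have e3 : eb G D (U \ D) = eb G D C + eb G D ((U \ D) \ C) := by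
    rw [← eb_union_right _ d3, union_sdiff_of_subset hC]
  unfold cut at h0 ⊢
  rw [e1, e2, e3, eb_union_left d1, eb_union_right _ d2, h0, eb_comm D C]
  omega

theorem cut_le_one {U S : Finset V} {a b : V}
    (h : ∀ a' ∈ S, ∀ b' ∈ U, b' ∉ S → G.Adj a' b' → a' = a ∧ b' = b) : cut G U S ≤ 1 := by
  unfold cut
  exact eb_le_one (a := a) (b := b)
    (fun a' ha b' hb hab => h a' ha b' (mem_sdiff.1 hb).1 (mem_sdiff.1 hb).2 hab)

theorem cut_one_uniq {U S : Finset V} {a b : V} (h : cut G U S ≤ 1) (ha : a ∈ S) (hb : b ∈ U)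
    (hb' : b ∉ S) (hab : G.Adj a b) :
    ∀ a' ∈ S, ∀ b' ∈ U, b' ∉ S → G.Adj a' b' → a' = a ∧ b' = b := by
  intro a' ha' b' hb1 hb2 hab'
  exact eb_one_uniq h ha (mem_sdiff.2 ⟨hb, hb'⟩) hab a' ha' b' (mem_sdiff.2 ⟨hb1, hb2⟩) hab'

theorem cut_pos {U S : Finset V} (h : 1 ≤ cut G U S) :
    ∃ a ∈ S, ∃ b ∈ U, b ∉ S ∧ G.Adj a b := by
  obtain ⟨a, ha, b, hb, hab⟩ := one_le_eb.1 h
  exact ⟨a, ha, b, (mem_sdiff.1 hb).1, (mem_sdiff.1 hb).2, hab⟩

/-- the vertices of `C` that send an edge to `U \ C` -/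
theorem card_ports {U C P : Finset V} (hP : P ⊆ C)
    (h : ∀ a ∈ P, ∃ b ∈ U, b ∉ C ∧ G.Adj a b) : P.card ≤ cut G U C := by
  have h1 : P.card ≤ eb G P (U \ C) := by
    unfold eb
    rw [card_eq_sum_ones]
    refine sum_le_sum (fun a ha => ?_)
    obtain ⟨b, hb, hb', hab⟩ := h a ha
    exact one_le_dg.2 ⟨b, mem_sdiff.2 ⟨hb, hb'⟩, hab⟩
  exact h1.trans (eb_mono hP Subset.rfl)

theorem EC2.conn {C : Finset V} (h : EC2 G C) : Conn G C := by
  intro S h1 h2 h3
  have := h.2 S h1 h2 h3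
  omega

theorem EC2.two_le {C : Finset V} (h : EC2 G C) {v : V} (hv : v ∈ C) : 2 ≤ dg G C v := by
  rw [← cut_single]
  refine h.2 {v} (singleton_subset_iff.2 hv) (singleton_nonempty v) ?_
  intro e
  have := h.1
  rw [← e, card_singleton] at this
  omega

theorem EC2.dg_eq (hG : G.IsRegularOfDegree 3) {C : Finset V} (h : EC2 G C) {v : V} (hv : v ∈ C)
    (hk : v ∉ Kn G C) : dg G C v = 2 := by
  have h1 := h.two_le hv
  have h2 := dg_le hG C v
  have h3 : dg G C v ≠ 3 := fun e => hk (mem_Kn.2 ⟨hv, e⟩)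
  omega

theorem conn_single (v : V) : Conn G {v} := by
  intro S h1 h2 h3
  exact absurd (h2.subset_singleton_iff.1 h1) h3

/-- in a connected set with two vertices every vertex has a neighbour -/
theorem Conn.ex_adj {C : Finset V} (h : Conn G C) {v w : V} (hv : v ∈ C) (hw : w ∈ C)
    (hvw : v ≠ w) : ∃ x ∈ C, G.Adj v x := by
  have h1 := h {v} (singleton_subset_iff.2 hv) (singleton_nonempty v) (by
    intro e
    rw [← e, mem_singleton] at hw
    exact hvw hw.symm)
  rw [cut_single] at h1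
  exact one_le_dg.1 h1

/-- a nonempty closed part of a connected set is everything -/
theorem Conn.eq_of_closed {C S : Finset V} (h : Conn G C) (hS : S ⊆ C) (hn : S.Nonempty)
    (hc : ∀ a ∈ S, ∀ b ∈ C, G.Adj a b → b ∈ S) : S = C := by
  by_contra hne
  have h1 := h S hS hn hne
  rw [cut_eq_zero.2 hc] at h1
  omega

theorem cutx_parts {C S T : Finset V} (hT : T ⊆ S) (hS : S ⊆ C) (hn : T.Nonempty)
    (hne : T ≠ S) : T ≠ C ∧ (S \ T).Nonempty ∧ S \ T ≠ C := by
  refine ⟨fun e => hne (Subset.antisymm hT (e ▸ hS)),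
    sdiff_nonempty.2 (fun e => hne (Subset.antisymm hT e)), fun e => ?_⟩
  obtain ⟨a, ha⟩ := hn
  have h1 : a ∈ S \ T := e ▸ hS (hT ha)
  exact (mem_sdiff.1 h1).2 ha

/-- If `T` splits off `S` with no edge, `cut C T + cut C (S \ T) = cut C S ≤ 1` by `cut_split`,
but both parts are nonempty proper parts of `C`. -/
theorem Conn.side {C S : Finset V} (h : Conn G C) (hS : S ⊆ C) (h1 : cut G C S ≤ 1) :
    Conn G S := by
  intro T hT hn hne
  by_contra hlt
  have h0 : cut G S T = 0 := by omega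
  have hs := cut_split (G := G) hT hS
  obtain ⟨n1, n2, n3⟩ := cutx_parts hT hS hn hne
  have a1 := h T (hT.trans hS) hn n1
  have a2 := h (S \ T) (sdiff_subset.trans hS) n2 n3
  omega

/-- same argument: both parts have cut at least 2 in `U`, the sum is `cut U (U \ D) ≤ 3` -/
theorem EC2.conn_sdiff {U D : Finset V} (h : EC2 G U) (hD : D ⊆ U) (h3 : cut G U D ≤ 3) :
    Conn G (U \ D) := by
  intro T hT hn hne
  by_contra hlt
  have h0 : cut G (U \ D) T = 0 := by omega
  have hs := cut_split (G := G) hT (sdiff_subset : U \ D ⊆ U)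
  rw [cut_compl hD] at hs
  obtain ⟨n1, n2, n3⟩ := cutx_parts hT (sdiff_subset : U \ D ⊆ U) hn hne
  have a1 := h.2 T (hT.trans sdiff_subset) hn n1
  have a2 := h.2 ((U \ D) \ T) (sdiff_subset.trans sdiff_subset) n2 n3
  omega

theorem Conn.not_ec2 {C : Finset V} (h : Conn G C) (h2 : 2 ≤ C.card) (hn : ¬ EC2 G C) :
    ∃ S, S ⊆ C ∧ S.Nonempty ∧ S ≠ C ∧ cut G C S = 1 := by
  by_contra hno
  refine hn ⟨h2, fun S h1 h3 h4 => ?_⟩
  have a1 := h S h1 h3 h4
  by_contra hlt
  exact hno ⟨S, h1, h3, h4, by omega⟩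

/-- Take `P` of least size among nonempty parts with cut at most 1 (`C` itself is one); a part `S`
of `P` with `cut P S ≤ 1` gives `cut C S + cut C (P \ S) ≤ 3` by `cut_split`. -/
theorem min_end {C : Finset V} (hn : C.Nonempty) (h2 : ∀ v ∈ C, 2 ≤ dg G C v) :
    ∃ P, P ⊆ C ∧ cut G C P ≤ 1 ∧ EC2 G P := by
  obtain ⟨P, hP, hmin⟩ := exists_min_image
    (C.powerset.filter (fun P => P.Nonempty ∧ cut G C P ≤ 1)) card
    ⟨C, mem_filter.2 ⟨mem_powerset.2 Subset.rfl, hn, by rw [cut_self]; omega⟩⟩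
  obtain ⟨hP1, hP2, hP3⟩ := mem_filter.1 hP
  have hPC : P ⊆ C := mem_powerset.1 hP1
  refine ⟨P, hPC, hP3, ?_, ?_⟩
  · by_contra hlt
    have h1 : P.card = 1 := by
      have := hP2.card_pos
      omega
    obtain ⟨v, rfl⟩ := card_eq_one.1 h1
    rw [cut_single] at hP3
    have := h2 v (singleton_subset_iff.1 hPC)
    omega
  · intro S hS hSn hne
    by_contra hlt
    have hs := cut_split (G := G) hS hPC
    have hss : S ⊂ P := Finset.ssubset_iff_subset_ne.2 ⟨hS, hne⟩
    have n2 : (P \ S).Nonempty := sdiff_nonempty.2 (fun e => hne (Subset.antisymm hS e))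
    have c1 : S.card < P.card := card_lt_card hss
    have c2 : (P \ S).card < P.card := by
      rw [card_sdiff_of_subset hS]
      have := hSn.card_pos
      omega
    rcases le_or_gt (cut G C S) 1 with a | a
    · have := hmin S (mem_filter.2 ⟨mem_powerset.2 (hS.trans hPC), hSn, a⟩)
      omega
    · have := hmin (P \ S) (mem_filter.2
        ⟨mem_powerset.2 (sdiff_subset.trans hPC), n2, by omega⟩)
      omega

/-- `∑ dg U v = 2 * #A + #(K ∩ A)` over `A`, and `sum_dg` -/
theorem sp_le (hG : G.IsRegularOfDegree 3) {U A : Finset V} (h : EC2 G U) (hA : A ⊆ U)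
    (hs : eb G A A ≤ 2 * A.card) : (Kn G U ∩ A).card ≤ cut G U A := by
  have h1 := sum_dg (G := G) hA
  have h2 : ∑ v ∈ A, dg G U v = ∑ v ∈ A, (2 + if v ∈ Kn G U then 1 else 0) := by
    refine sum_congr rfl (fun v hv => ?_)
    by_cases hk : v ∈ Kn G U
    · rw [if_pos hk, (mem_Kn.1 hk).2]
    · rw [if_neg hk, h.dg_eq hG (hA hv) hk]
  rw [sum_add_distrib, sum_const, smul_eq_mul, ← card_filter, filter_mem_eq_inter,
    inter_comm] at h2
  omega

theorem core {A : Finset V} (hs : eb G A A ≤ 2 * A.card) (h2 : ∀ v ∈ A, 2 ≤ dg G A v) {z : V}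
    (hz : z ∈ A) (h3 : 3 ≤ dg G A z) : False := by
  have h1 : ∑ _v ∈ A, 2 < ∑ v ∈ A, dg G A v := sum_lt_sum h2 ⟨z, hz, by omega⟩
  rw [sum_const, smul_eq_mul] at h1
  unfold eb at hs
  omega

/-- Two edges at most leave `D`, and `x` outside `D` has two neighbours in `D` and degree 3:
then exactly one edge leaves `insert x D`. -/
theorem EC2.no_two {U D : Finset V} (h : EC2 G U) (hD : D ⊆ U) (h2 : cut G U D ≤ 2) {x : V}
    (hx : x ∈ Kn G U) (hxD : x ∉ D) (hd : 2 ≤ dg G D x) : False := by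
  obtain ⟨hxU, hx3⟩ := mem_Kn.1 hx
  have hsub : insert x D ⊆ U := insert_subset hxU hD
  have hs := cut_split (G := G) (subset_insert x D) hsub
  have e1 : insert x D \ D = {x} := by
    ext a
    simp only [mem_sdiff, mem_insert, mem_singleton]
    constructor
    · tauto
    · rintro rfl
      exact ⟨Or.inl rfl, hxD⟩
  have e2 : cut G (insert x D) D = dg G D x := by
    unfold cut
    rw [e1, eb_comm, eb_single]
  have e3 : dg G D x ≤ cut G U D := by
    rw [← eb_single, eb_comm]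
    exact eb_mono Subset.rfl (singleton_subset_iff.2 (mem_sdiff.2 ⟨hxU, hxD⟩))
  rw [e1, e2, cut_single, hx3] at hs
  by_cases he : insert x D = U
  · rw [he, cut_self] at hs
    omega
  · have := h.2 _ hsub (insert_nonempty x D) he
    omega

/-- parity: every vertex of `W` has exactly two neighbours in `W`, and all edges from `S` to
`U \ S` join two vertices of `W`. Count `∑ v ∈ S ∩ W, dg W v`. -/
theorem cut_even {U W S : Finset V} (hW : W ⊆ U) (h2 : ∀ v ∈ W, dg G W v = 2)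
    (h : ∀ a ∈ S, ∀ b ∈ U, b ∉ S → G.Adj a b → a ∈ W ∧ b ∈ W) : cut G U S % 2 = 0 := by
  have h1 := sum_dg (G := G) (inter_subset_right : S ∩ W ⊆ W)
  have h3 : ∑ v ∈ S ∩ W, dg G W v = ∑ _v ∈ S ∩ W, 2 :=
    sum_congr rfl (fun v hv => h2 v (mem_inter.1 hv).2)
  rw [sum_const, smul_eq_mul] at h3
  have h4 := eb_even (G := G) (S ∩ W)
  have h5 : cut G W (S ∩ W) = cut G U S := by
    unfold cut
    apply le_antisymm
    · refine eb_mono inter_subset_left (fun b hb => ?_)
      obtain ⟨b1, b2⟩ := mem_sdiff.1 hb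
      exact mem_sdiff.2 ⟨hW b1, fun e => b2 (mem_inter.2 ⟨e, b1⟩)⟩
    · rw [eb_eq_card (S ∩ W)]
      refine eb_le_card _ (fun a ha b hb hab => ?_)
      obtain ⟨b1, b2⟩ := mem_sdiff.1 hb
      obtain ⟨c1, c2⟩ := h a ha b b1 b2 hab
      exact mem_filter.2 ⟨mem_product.2 ⟨mem_inter.2 ⟨ha, c1⟩,
        mem_sdiff.2 ⟨c2, fun e => b2 (mem_inter.1 e).1⟩⟩, hab⟩
  omega

/-- a connected graph -/
theorem conn_univ (h : G.Connected) : Conn G univ := by
  intro S _ hn hne
  by_contra hlt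
  have h0 : cut G univ S = 0 := by omega
  have hc := cut_eq_zero.1 h0
  obtain ⟨a, ha⟩ := hn
  refine hne (eq_univ_iff_forall.2 (fun b => ?_))
  obtain ⟨w⟩ := h.preconnected a b
  induction w with
  | nil => exact ha
  | cons hadj _ ih => exact ih (hc _ ha _ (mem_univ _) hadj)

end Pool.Agent.Lib.MP_7e4769_co.Sp
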