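import Pool.Agent.Lib.MP_7e4769_co.Sp.Defs

set_option autoImplicit false
set_option linter.unusedSectionVars false

namespace Pool.Agent.Lib.MP_7e4769_co.Sp

open Finset

variable {V : Type} [Fintype V] [DecidableEq V] {G : SimpleGraph V} [DecidableRel G.Adj]

theorem dp_step : ∀ a r b x y : ZMod 3, y ≠ a + r - b - x →
    ∃ z, z ≠ a ∧ z ≠ r - x ∧ z + y + b ≠ 0 := by decide

theorem dp_base : ∀ b x y : ZMod 3, y ≠ -b - x → x + y + b ≠ 0 := by decide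

theorem dp_start : ∀ a r : ZMod 3, ∃ x, x ≠ a ∧ x ≠ r - x := by decide

theorem dp_chain (a b : ℕ → ZMod 3) (k : ℕ) : ∃ r, ∀ x y, y ≠ r - x →
    ∃ s : ℕ → ZMod 3, s 0 = x ∧ s (k + 1) = y ∧ (∀ i, 0 < i → i < k + 1 → s i ≠ a i) ∧
      ∀ i < k + 1, s i + s (i + 1) + b i ≠ 0 := by
  induction k with
  | zero =>
    refine ⟨-b 0, fun x y h => ⟨fun i => if i = 0 then x else y, rfl, rfl,
      fun i h1 h2 => by omega, fun i hi => ?_⟩⟩
    obtain rfl : i = 0 := by omega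
    exact dp_base _ _ _ h
  | succ k ih =>
    obtain ⟨r, hr⟩ := ih
    refine ⟨a (k + 1) + r - b (k + 1), fun x y h => ?_⟩
    obtain ⟨z, z1, z2, z3⟩ := dp_step _ _ _ _ _ h
    obtain ⟨s, s0, s1, s2, s3⟩ := hr x z z2
    refine ⟨fun i => if i = k + 2 then y else s i, (if_neg (by omega)).trans s0, if_pos rfl,
      fun i h1 h2 => ?_, fun i hi => ?_⟩
    · simp only [if_neg (show i ≠ k + 2 by omega)]
      by_cases e : i = k + 1
      · rwa [e, s1]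
      · exact s2 i h1 (by omega)
    · simp only [if_neg (show i ≠ k + 2 by omega)]
      by_cases e : i = k + 1
      · rwa [if_pos (by omega), e, s1]
      · rw [if_neg (by omega)]
        exact s3 i (by omega)

/-- For every `k ≥ 1` there is `r` such that any `x`, `y` with `y ≠ r - x` are joined by a chain
`s 0 = x, ..., s k = y` (induction: `r` becomes `a k + r - b k`). Then take `x ≠ a 0` with
`x ≠ r - x`. -/
theorem dp_cycle (m : ℕ) (hm : 0 < m) (a b : ℕ → ZMod 3) :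
    ∃ s : ℕ → ZMod 3, s m = s 0 ∧ (∀ i < m, s i ≠ a i) ∧ ∀ i < m, s i + s (i + 1) + b i ≠ 0 := by
  obtain ⟨k, rfl⟩ : ∃ k, m = k + 1 := ⟨m - 1, by omega⟩
  obtain ⟨r, hr⟩ := dp_chain a b k
  obtain ⟨x, x1, x2⟩ := dp_start (a 0) r
  obtain ⟨s, s0, s1, s2, s3⟩ := hr x x x2
  refine ⟨s, s1.trans s0.symm, fun i hi => ?_, s3⟩
  rcases Nat.eq_zero_or_pos i with rfl | h
  · rwa [s0]
  · exact s2 i h hi

theorem dp_c1 : ∀ x : Fin 3, Fin.castSucc x ≠ (3 : Fin 4) := by decide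

theorem dp_c2 : ∀ (x : ZMod 3) (z : Fin 4), z ≠ 3 → x ≠ (z.val : ZMod 3) →
    Fin.castSucc (n := 3) x ≠ z := by decide

theorem dp_c3 : ∀ (x y : ZMod 3) (z : Fin 4), z ≠ 3 → x + y + (z.val : ZMod 3) ≠ 0 →
    vok 3 (Fin.castSucc (n := 3) x) (Fin.castSucc (n := 3) y) z = true := by decide

/-- the same on colours: `a i`, `b i` finite -/
theorem dp_fin (m : ℕ) (hm : 0 < m) (a b : ℕ → Fin 4) (ha : ∀ i, a i ≠ 3) (hb : ∀ i, b i ≠ 3) :
    ∃ s : ℕ → Fin 4, s m = s 0 ∧ (∀ i, s i ≠ 3) ∧ (∀ i < m, s i ≠ a i) ∧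
      ∀ i < m, vok 3 (s i) (s (i + 1)) (b i) = true := by
  obtain ⟨s, s0, s1, s2⟩ := dp_cycle m hm (fun i => ((a i).val : ZMod 3))
    (fun i => ((b i).val : ZMod 3))
  exact ⟨fun i => Fin.castSucc (n := 3) (s i), congrArg (Fin.castSucc (n := 3)) s0,
    fun i => dp_c1 _, fun i hi => dp_c2 _ _ (ha i) (s1 i hi),
    fun i hi => dp_c3 _ _ _ (hb i) (s2 i hi)⟩

end Pool.Agent.Lib.MP_7e4769_co.Sp
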