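import Mathlib

set_option autoImplicit false

namespace Pool.Agent.Lib.MP_7e4769_co.Sp

open Finset

variable {V : Type} [Fintype V] [DecidableEq V] (G : SimpleGraph V) [DecidableRel G.Adj]

/-- `v` is properly coloured and sees exactly two colours. Colour `3` plays the role of infinity. -/
def ok (c : V → Fin 4) (v : V) : Prop :=
  (∀ w, G.Adj v w → c w ≠ c v) ∧ ((G.neighborFinset v).image c).card = 2

/-- a colouring that is `3` outside `U` and satisfies every vertex of `U` -/
def Good (U : Finset V) : Prop :=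
  ∃ c : V → Fin 4, (∀ v, v ∉ U → c v = 3) ∧ ∀ v ∈ U, ok G c v

/-- as `Good`, but at `w` only properness is asked, and not towards `p` -/
def Free (U : Finset V) (w p : V) : Prop :=
  ∃ c : V → Fin 4, (∀ v, v ∉ U → c v = 3) ∧ (∀ v ∈ U, v ≠ w → ok G c v) ∧
    ∀ x, G.Adj w x → x ≠ p → c x ≠ c w

/-- state of `w` towards its neighbour `p`: every colour of `p` outside `{c w, e}` satisfies `w` -/
def St (c : V → Fin 4) (w p : V) (e : Fin 4) : Prop :=
  e ≠ c w ∧ ∀ c' : V → Fin 4, (∀ x, G.Adj w x → x ≠ p → c' x = c x) → c' w = c w →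
    c' p ≠ c w → c' p ≠ e → ok G c' w

/-- degree of `v` into `U` -/
def dg (U : Finset V) (v : V) : ℕ := (U.filter (G.Adj v)).card

/-- number of pairs `(a, b)` in `A × B` that are adjacent -/
def eb (A B : Finset V) : ℕ := ∑ a ∈ A, dg G B a

/-- number of edges from `S` to the rest of `U` -/
def cut (U S : Finset V) : ℕ := eb G S (U \ S)

def Conn (C : Finset V) : Prop := ∀ S, S ⊆ C → S.Nonempty → S ≠ C → 1 ≤ cut G C S

def EC2 (C : Finset V) : Prop :=
  2 ≤ C.card ∧ ∀ S, S ⊆ C → S.Nonempty → S ≠ C → 2 ≤ cut G C S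

/-- not cubic -/
def NC (C : Finset V) : Prop := ∃ v ∈ C, dg G C v ≠ 3

/-- kernel: vertices of degree 3 in `U` -/
def Kn (U : Finset V) : Finset V := U.filter (fun v => dg G U v = 3)

/-- a link of `U`: a path between two different kernel vertices through vertices of degree 2 -/
structure Link (U : Finset V) (z : V) (l : List V) (z' : V) : Prop where
  hz : z ∈ Kn G U
  hz' : z' ∈ Kn G U
  inn : ∀ t ∈ l, t ∈ U ∧ dg G U t = 2
  ch : List.IsChain G.Adj (z :: (l ++ [z']))
  nd : (z :: (l ++ [z'])).Nodup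

/-- the three links at `z` -/
structure Star (U : Finset V) (z : V) (l1 : List V) (z1 : V) (l2 : List V) (z2 : V)
    (l3 : List V) (z3 : V) : Prop where
  h1 : Link G U z l1 z1
  h2 : Link G U z l2 z2
  h3 : Link G U z l3 z3
  n12 : (l1, z1) ≠ (l2, z2)
  n13 : (l1, z1) ≠ (l3, z3)
  n23 : (l2, z2) ≠ (l3, z3)

/-- the vertex after the start of the path `l ++ [z']` -/
def fst (l : List V) (z' : V) : V := l.headD z'

/-- joined by a short link -/
def Sh (U : Finset V) (z z' : V) : Prop := ∃ l, Link G U z l z' ∧ l.length ≤ 1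

/-- joined by a long link -/
def Lg (U : Finset V) (z z' : V) : Prop := ∃ l, Link G U z l z' ∧ 2 ≤ l.length

/-- two links `l1`, `l2` from `u` to `v`, third links `l3` from `u` to `x`, `l4` from `v` to `y` -/
structure Dig (U : Finset V) (u v : V) (l1 l2 l3 : List V) (x : V) (l4 : List V) (y : V) :
    Prop where
  su : Star G U u l1 v l2 v l3 x
  sv : Star G U v l1.reverse u l2.reverse u l4 y
  nd : [u, v, x, y].Nodup

/-- type of a link: 0, 1, 2 (even, at least 2), 3 (odd, at least 3) -/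
def ty (l : List V) : Fin 4 :=
  if l.length = 0 then 0 else if l.length = 1 then 1 else if l.length % 2 = 0 then 2 else 3

def Cyc (U : Finset V) : Prop := ∀ v ∈ U, dg G U v = 2

def Theta (U : Finset V) : Prop :=
  ∃ u v, u ∈ Kn G U ∧ v ∈ Kn G U ∧ G.Adj u v ∧ (∀ w ∈ Kn G U, w = u ∨ w = v) ∧
    ∀ l, Link G U u l v → l.length % 2 = 0

def Bad (U : Finset V) : Prop := Cyc G U ∨ Theta G U

/-- every set of at most `N` vertices spans at most as many edges as vertices -/
def Sparse (N : ℕ) : Prop := ∀ A : Finset V, A.card ≤ N → eb G A A ≤ 2 * A.card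

/-- statement (U) below size `n` -/
def HU (n : ℕ) : Prop :=
  ∀ C : Finset V, C.card < n → EC2 G C → NC G C → ¬ Good G C → Bad G C

/-- statement (A) below size `n` -/
def HA (n : ℕ) : Prop :=
  ∀ C : Finset V, C.card < n → Conn G C → ∀ w p, w ∈ C → p ∉ C → G.Adj w p → Free G C w p

/-- a minimal counterexample to (U) -/
structure Ctx (U : Finset V) : Prop where
  cub : G.IsRegularOfDegree 3
  sp : Sparse G 100
  ec : EC2 G U
  nc : NC G U
  ng : ¬ Good G U
  hU : HU G U.card
  hA : HA G U.card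
  /-- no three links between two kernel vertices -/
  nt : ∀ u v l1 l2 l3, ¬ Star G U u l1 v l2 v l3 v

/-- `u` lies on a digon: two different links with the same ends -/
def Dv (U : Finset V) (u : V) : Prop :=
  ∃ v l1 l2, Link G U u l1 v ∧ Link G U u l2 v ∧ l1 ≠ l2

open Classical in
/-- kernel vertices on no digon -/
noncomputable def Kp (U : Finset V) : Finset V := (Kn G U).filter (fun v => ¬ Dv G U v)

/-- no kernel vertex has two long links -/
def NA (U : Finset V) : Prop :=
  ∀ z l1 z1 l2 z2, Link G U z l1 z1 → Link G U z l2 z2 → 2 ≤ l1.length → 2 ≤ l2.length →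
    (l1, z1) = (l2, z2)

/-- every kernel vertex has a long link -/
def PM (U : Finset V) : Prop := ∀ z ∈ Kn G U, ∃ l z', Link G U z l z' ∧ 2 ≤ l.length

/-- kernel bound -/
def KB (U : Finset V) : Prop :=
  ∀ C, C ⊆ U → C ≠ U → C.Nonempty → Conn G C → ¬ Good G C →
    (Kp G U ∩ C).card + 10 ≤ 5 * cut G U C

/-- the set-up of a long link `T` from `x` to `y`; `X` is what is left of `U` without `x`, `y`
and the five links -/
structure LS (U : Finset V) (x : V) (T : List V) (y : V) (a1 : List V) (x1 : V) (a2 : List V)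
    (x2 : V) (b1 : List V) (y1 : V) (b2 : List V) (y2 : V) (X : Finset V) : Prop where
  sx : Star G U x T y a1 x1 a2 x2
  sy : Star G U y T.reverse x b1 y1 b2 y2
  lT : 2 ≤ T.length
  la1 : a1.length ≤ 1
  la2 : a2.length ≤ 1
  lb1 : b1.length ≤ 1
  lb2 : b2.length ≤ 1
  mem : ∀ w, w ∈ X ↔ w ∈ U ∧ w ≠ x ∧ w ≠ y ∧ w ∉ T ∧ w ∉ a1 ∧ w ∉ a2 ∧ w ∉ b1 ∧ w ∉ b2
  mx1 : x1 ∈ X
  mx2 : x2 ∈ X
  my1 : y1 ∈ X
  my2 : y2 ∈ X
  edge : ∀ v ∈ X, ∀ w ∈ U, w ∉ X → G.Adj v w →
    (v = x1 ∧ w = fst a1.reverse x) ∨ (v = x2 ∧ w = fst a2.reverse x) ∨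
    (v = y1 ∧ w = fst b1.reverse y) ∨ (v = y2 ∧ w = fst b2.reverse y)
  ct : cut G U X ≤ 4
  ng : ¬ Good G X
  cn : Conn G X

/-- a closed walk `z 0, z 1, ...` of period `2 * m` that is a cycle, with third neighbours `o` -/
structure Cy (m : ℕ) (z o : ℕ → V) : Prop where
  hm : 2 ≤ m
  adj : ∀ i, G.Adj (z i) (z (i + 1))
  per : ∀ i, z (i + 2 * m) = z i
  inj : ∀ i < 2 * m, ∀ j < 2 * m, z i = z j → i = j
  oadj : ∀ i, G.Adj (z i) (o i)
  oper : ∀ i, o (i + 2 * m) = o i
  on : ∀ i, o i ≠ z (i + 1)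
  op : ∀ i, o (i + 1) ≠ z i

/-- vertices of the cycle -/
def Zs (m : ℕ) (z : ℕ → V) : Finset V := (range (2 * m)).image z

/-- third neighbours of the odd positions -/
def Ws (m : ℕ) (o : ℕ → V) : Finset V := (range m).image (fun i => o (2 * i + 1))

/-- neighbours of `Ws` off the cycle -/
def Js (m : ℕ) (z o : ℕ → V) : Finset V :=
  univ.filter (fun v => v ∉ Zs m z ∧ ∃ w ∈ Ws m o, G.Adj v w)

/-- the vertices that get colour 3 -/
def Ss (m : ℕ) (z o : ℕ → V) : Finset V := (range m).image (fun i => z (2 * i)) ∪ Js G m z o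

/-- the rest -/
def Rs (m : ℕ) (z o : ℕ → V) : Finset V := univ \ (Zs m z ∪ Ws m o ∪ Js G m z o)

/-- the start is valid -/
structure Valid (m : ℕ) (z o : ℕ → V) : Prop where
  h1 : ∀ i, o (2 * i + 1) ∉ Zs m z
  h2 : ∀ i < m, ∀ j < m, o (2 * i + 1) = o (2 * j + 1) → i = j
  h3 : ∀ i j, ¬ G.Adj (o (2 * i + 1)) (o (2 * j + 1))
  h4 : ∀ a ∈ Ss G m z o, ∀ b ∈ Ss G m z o, ¬ G.Adj a b

/-- within distance `k` of `Z` -/
def Near (Z : Finset V) : ℕ → V → Prop
  | 0, a => a ∈ Z
  | k + 1, a => Near Z k a ∨ ∃ b, G.Adj a b ∧ Near Z k b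

/-- every small set within distance 3 of `Z` spans at most as many edges as vertices -/
def Clean (Z : Finset V) : Prop :=
  ∀ A : Finset V, (∀ a ∈ A, Near G Z 3 a) → A.card ≤ Z.card + 6 → eb G A A ≤ 2 * A.card

/-! ### finite nets -/

/-- a link of type `t` can be filled when its ends have colours `a`, `b` and see `s`, `r` -/
def compat (t a s r b : Fin 4) : Bool :=
  if t = 0 then s == b && r == a && a != b
  else if t = 1 then
    s == r && s != 3 && s != a && s != b && ((a == b && a != 3) || ((a == 3) != (b == 3)))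
  else if t = 2 then s != 3 && r != 3 && s != r && (a == 3 || a == r) && (b == 3 || b == s)
  else s == r && s != 3 && a != s && b != s && (a == 3 || b == 3 || a == b)

/-- a vertex of colour `a` that sees `x`, `y`, `z` is satisfied -/
def vok (a x y z : Fin 4) : Bool :=
  x != a && y != a && z != a && ((x == y && y != z) || (x == z && x != y) || (y == z && x != y))

/-- classes of states: 0 = A, 1 = C, otherwise G -/
def cls (k : ℕ) (c e : Fin 4) : Bool :=
  if k = 0 then c != 3 && e != 3 && c != e else if k = 1 then c == 3 && e != 3 else c != e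

/-- vertices `0..m-1` are inner, `m..p-1` are ports; links `0..n-1`; `inc i j` is the `j`-th
link end at the inner vertex `i` (`false` = source end, `true` = target end) -/
structure Net where
  m : ℕ
  p : ℕ
  n : ℕ
  src : ℕ → ℕ
  dst : ℕ → ℕ
  inc : ℕ → ℕ → ℕ × Bool

/-- the net vertex at the end `b` of link `e` -/
def Net.en (N : Net) (e : ℕ) (b : Bool) : ℕ := if b then N.dst e else N.src e

def Net.WF (N : Net) : Prop :=
  N.m ≤ N.p ∧ (∀ e < N.n, N.src e < N.m ∧ N.dst e < N.p) ∧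
  (∀ i < N.m, ∀ j < 3, (N.inc i j).1 < N.n ∧ N.en (N.inc i j).1 (N.inc i j).2 = i) ∧
  (∀ i < N.m, ∀ j < 3, ∀ j' < 3, N.inc i j = N.inc i j' → j = j') ∧
  (∀ k < N.p, N.m ≤ k → ∃ e < N.n, N.dst e = k) ∧
  (∀ e < N.n, ∀ e' < N.n, N.m ≤ N.dst e → N.dst e = N.dst e' → e = e') ∧
  (∀ e < N.n, ∀ e' < N.n, ¬ (N.src e = N.dst e' ∧ N.dst e = N.src e'))

instance (N : Net) : Decidable N.WF :=
  @instDecidableAnd _ _ inferInstance <| @instDecidableAnd _ _ inferInstance <|
  @instDecidableAnd _ _ inferInstance <| @instDecidableAnd _ _ inferInstance <|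
  @instDecidableAnd _ _ inferInstance <| @instDecidableAnd _ _ inferInstance inferInstance

/-- the net accepts the offer `cl` for all link types allowed by `T` -/
def Net.Acc (N : Net) (T : ℕ → List (Fin 4)) (cl : ℕ → ℕ) : Prop :=
  ∀ tp pc pe : ℕ → Fin 4, (∀ e < N.n, tp e ∈ T e) →
    (∀ k < N.p, N.m ≤ k → cls (cl k) (pc k) (pe k) = true) →
    ∃ col : ℕ → Fin 4, ∃ s : ℕ → Bool → Fin 4, (∀ k, N.m ≤ k → col k = pc k) ∧
      (∀ e < N.n, compat (tp e) (col (N.src e)) (s e false) (s e true) (col (N.dst e)) = true) ∧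
      (∀ i < N.m, vok (col i) (s (N.inc i 0).1 (N.inc i 0).2) (s (N.inc i 1).1 (N.inc i 1).2)
        (s (N.inc i 2).1 (N.inc i 2).2) = true) ∧
      ∀ e < N.n, N.m ≤ N.dst e → s e true ≠ pc (N.dst e) ∧ s e true ≠ pe (N.dst e)

/-- the net `N` sits in `U` with vertices `κ` and links `lam`; ports may coincide -/
structure Emb0 (U : Finset V) (N : Net) (κ : ℕ → V) (lam : ℕ → List V) : Prop where
  inj : ∀ i < N.m, ∀ j < N.p, κ i = κ j → i = j
  lk : ∀ e < N.n, Link G U (κ (N.src e)) (lam e) (κ (N.dst e))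
  ne : ∀ e < N.n, ∀ e' < N.n, N.src e = N.src e' → κ (N.dst e) = κ (N.dst e') →
    lam e = lam e' → e = e'

/-- the same with pairwise different ports -/
structure Emb (U : Finset V) (N : Net) (κ : ℕ → V) (lam : ℕ → List V) : Prop where
  e0 : Emb0 G U N κ lam
  pinj : ∀ i < N.p, ∀ j < N.p, κ i = κ j → i = j

/-- inner vertices and all link vertices -/
def pole (N : Net) (κ : ℕ → V) (lam : ℕ → List V) : Finset V :=
  (range N.m).image κ ∪ (range N.n).biUnion (fun e => (lam e).toFinset)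

/-- the deleted set: the pole and the ports of class C -/
def del (N : Net) (κ : ℕ → V) (lam : ℕ → List V) (cl : ℕ → ℕ) : Finset V :=
  pole N κ lam ∪ ((range N.p).filter (fun i => N.m ≤ i ∧ cl i = 1)).image κ

/-- bound for the number of edges leaving the deleted set -/
def Net.wt (N : Net) (cl : ℕ → ℕ) : ℕ :=
  ∑ i ∈ range N.p, if i < N.m then 0 else if cl i = 1 then 2 else 1

/-- net from a list of links -/
def mkNet (m p : ℕ) (L : List (ℕ × ℕ)) (I : List (List (ℕ × Bool))) : Net :=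
  ⟨m, p, L.length, fun e => (L.getD e (0, 0)).1, fun e => (L.getD e (0, 0)).2,
    fun i j => (I.getD i []).getD j (0, false)⟩

end Pool.Agent.Lib.MP_7e4769_co.Sp
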