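import Pool.Agent.Lib.MP_7e4769_co.Sp.Defs

set_option autoImplicit false
set_option linter.unusedSectionVars false

namespace Pool.Agent.Lib.MP_7e4769_co.Sp

open Finset

variable {V : Type} [Fintype V] [DecidableEq V] {G : SimpleGraph V} [DecidableRel G.Adj]

theorem mem_Kn {U : Finset V} {v : V} : v ∈ Kn G U ↔ v ∈ U ∧ dg G U v = 3 := by
  simp [Kn]

theorem dg_univ (hG : G.IsRegularOfDegree 3) (v : V) : dg G univ v = 3 := by
  have h := hG.degree_eq v
  rw [← SimpleGraph.card_neighborFinset_eq_degree, SimpleGraph.neighborFinset_eq_filter] at h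
  exact h

theorem dg_mono {A B : Finset V} (h : A ⊆ B) (v : V) : dg G A v ≤ dg G B v := by
  exact card_le_card (filter_subset_filter _ h)

theorem dg_le (hG : G.IsRegularOfDegree 3) (U : Finset V) (v : V) : dg G U v ≤ 3 := by
  exact (dg_mono (subset_univ U) v).trans (dg_univ hG v).le

theorem dg_union {A B : Finset V} (h : Disjoint A B) (v : V) :
    dg G (A ∪ B) v = dg G A v + dg G B v := by
  unfold dg
  rw [filter_union, card_union_of_disjoint (disjoint_filter_filter h)]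

theorem dg_sdiff {U S : Finset V} (h : S ⊆ U) (v : V) :
    dg G U v = dg G S v + dg G (U \ S) v := by
  rw [← dg_union disjoint_sdiff, union_sdiff_of_subset h]

theorem dg_congr {A B : Finset V} {v : V} (h : ∀ w, G.Adj v w → (w ∈ A ↔ w ∈ B)) :
    dg G A v = dg G B v := by
  unfold dg
  congr 1
  ext w
  simp only [mem_filter]
  exact ⟨fun x => ⟨(h w x.2).1 x.1, x.2⟩, fun x => ⟨(h w x.2).2 x.1, x.2⟩⟩

theorem one_le_dg {U : Finset V} {v : V} : 1 ≤ dg G U v ↔ ∃ w ∈ U, G.Adj v w := by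
  unfold dg
  rw [Nat.succ_le_iff, card_pos, filter_nonempty_iff]

theorem dg_eq_zero {U : Finset V} {v : V} : dg G U v = 0 ↔ ∀ w ∈ U, ¬ G.Adj v w := by
  unfold dg
  rw [card_eq_zero, filter_eq_empty_iff]

theorem two_le_dg {U : Finset V} {v a b : V} (ha : a ∈ U) (hb : b ∈ U) (h1 : G.Adj v a)
    (h2 : G.Adj v b) (hab : a ≠ b) : 2 ≤ dg G U v := by
  have hs : ({a, b} : Finset V) ⊆ U.filter (G.Adj v) := by
    intro w hw
    simp only [mem_insert, mem_singleton] at hw
    rcases hw with rfl | rfl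
    · exact mem_filter.2 ⟨ha, h1⟩
    · exact mem_filter.2 ⟨hb, h2⟩
  have := card_le_card hs
  rwa [card_pair hab] at this

theorem three_le_dg {U : Finset V} {v a b d : V} (ha : a ∈ U) (hb : b ∈ U) (hd : d ∈ U)
    (h1 : G.Adj v a) (h2 : G.Adj v b) (h3 : G.Adj v d) (hab : a ≠ b) (had : a ≠ d)
    (hbd : b ≠ d) : 3 ≤ dg G U v := by
  have hs : ({a, b, d} : Finset V) ⊆ U.filter (G.Adj v) := by
    intro w hw
    simp only [mem_insert, mem_singleton] at hw
    rcases hw with rfl | rfl | rfl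
    · exact mem_filter.2 ⟨ha, h1⟩
    · exact mem_filter.2 ⟨hb, h2⟩
    · exact mem_filter.2 ⟨hd, h3⟩
  have := card_le_card hs
  rwa [card_eq_three.2 ⟨a, b, d, hab, had, hbd, rfl⟩] at this

theorem dg_le_one {U : Finset V} {v a : V} (h : ∀ w ∈ U, G.Adj v w → w = a) :
    dg G U v ≤ 1 := by
  have hs : U.filter (G.Adj v) ⊆ {a} := by
    intro w hw
    rw [mem_filter] at hw
    exact mem_singleton.2 (h w hw.1 hw.2)
  have := card_le_card hs
  rwa [card_singleton] at this

theorem dg_le_two {U : Finset V} {v a b : V} (h : ∀ w ∈ U, G.Adj v w → w = a ∨ w = b) :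
    dg G U v ≤ 2 := by
  have hs : U.filter (G.Adj v) ⊆ {a, b} := by
    intro w hw
    rw [mem_filter] at hw
    simpa using h w hw.1 hw.2
  exact (card_le_card hs).trans card_le_two

/-- a second neighbour -/
theorem ex_other {U : Finset V} {v : V} (h : 2 ≤ dg G U v) (a : V) :
    ∃ b ∈ U, G.Adj v b ∧ b ≠ a := by
  by_contra hn
  have : dg G U v ≤ 1 := dg_le_one (a := a) fun w hw hvw => by
    by_contra hne
    exact hn ⟨w, hw, hvw, hne⟩
  omega

/-- a third neighbour -/
theorem ex_third {U : Finset V} {v : V} (h : 3 ≤ dg G U v) (a b : V) :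
    ∃ d ∈ U, G.Adj v d ∧ d ≠ a ∧ d ≠ b := by
  by_contra hn
  have : dg G U v ≤ 2 := dg_le_two (a := a) (b := b) fun w hw hvw => by
    by_contra hne
    exact hn ⟨w, hw, hvw, fun e => hne (Or.inl e), fun e => hne (Or.inr e)⟩
  omega

theorem dg_two_all {U : Finset V} {v a b : V} (h : dg G U v ≤ 2) (ha : a ∈ U) (hb : b ∈ U)
    (h1 : G.Adj v a) (h2 : G.Adj v b) (hab : a ≠ b) :
    ∀ w ∈ U, G.Adj v w → w = a ∨ w = b := by
  intro w hw hvw
  by_contra hne
  have := three_le_dg ha hb hw h1 h2 hvw hab (fun e => hne (Or.inl e.symm))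
    (fun e => hne (Or.inr e.symm))
  omega

theorem dg_one_all {U : Finset V} {v a : V} (h : dg G U v ≤ 1) (ha : a ∈ U) (h1 : G.Adj v a) :
    ∀ w ∈ U, G.Adj v w → w = a := by
  intro w hw hvw
  by_contra hne
  have := two_le_dg ha hw h1 hvw (fun e => hne e.symm)
  omega

/-- removing a neighbour lowers the degree -/
theorem dg_lt {A B : Finset V} {v p : V} (h : A ⊆ B) (hp : p ∈ B) (hpA : p ∉ A)
    (ha : G.Adj v p) : dg G A v + 1 ≤ dg G B v := by
  refine card_lt_card ((ssubset_iff_of_subset (filter_subset_filter _ h)).2 ⟨p, ?_, ?_⟩)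
  · exact mem_filter.2 ⟨hp, ha⟩
  · exact fun x => hpA (mem_filter.1 x).1

theorem dg_le_two_of_out (hG : G.IsRegularOfDegree 3) {U : Finset V} {v p : V} (hp : p ∉ U)
    (h : G.Adj v p) : dg G U v ≤ 2 := by
  have h1 := dg_lt (subset_univ U) (mem_univ p) hp h
  have h2 := dg_univ hG v
  omega

theorem dg3_mem (hG : G.IsRegularOfDegree 3) {U : Finset V} {v w : V} (h : dg G U v = 3)
    (ha : G.Adj v w) : w ∈ U := by
  by_contra hn
  have := dg_le_two_of_out hG hn ha
  omega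

theorem ex_out (hG : G.IsRegularOfDegree 3) {U : Finset V} {v : V} (h : dg G U v ≠ 3) :
    ∃ p, p ∉ U ∧ G.Adj v p := by
  by_contra hn
  apply h
  rw [← dg_univ hG v]
  refine dg_congr fun w hw => ⟨fun _ => mem_univ w, fun _ => ?_⟩
  by_contra hw'
  exact hn ⟨w, hw', hw⟩

theorem nbrs_all (hG : G.IsRegularOfDegree 3) {v a b d : V} (h1 : G.Adj v a) (h2 : G.Adj v b)
    (h3 : G.Adj v d) (hab : a ≠ b) (had : a ≠ d) (hbd : b ≠ d) :
    ∀ w, G.Adj v w → w = a ∨ w = b ∨ w = d := by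
  intro w hw
  by_contra hne
  have h4 := three_le_dg (U := univ.erase w) (G := G)
    (mem_erase.2 ⟨fun e => hne (Or.inl e.symm), mem_univ a⟩)
    (mem_erase.2 ⟨fun e => hne (Or.inr (Or.inl e.symm)), mem_univ b⟩)
    (mem_erase.2 ⟨fun e => hne (Or.inr (Or.inr e.symm)), mem_univ d⟩) h1 h2 h3 hab had hbd
  have h5 := dg_le_two_of_out hG (U := univ.erase w) (notMem_erase w univ) hw
  omega

theorem nbrs_of2 (hG : G.IsRegularOfDegree 3) {v : V} (a b : V) :
    ∃ d, G.Adj v d ∧ d ≠ a ∧ d ≠ b := by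
  obtain ⟨d, _, h⟩ := ex_third (dg_univ hG v).ge a b
  exact ⟨d, h⟩

theorem nbrs_of1 (hG : G.IsRegularOfDegree 3) {v : V} (p : V) :
    ∃ a b, G.Adj v a ∧ G.Adj v b ∧ a ≠ b ∧ a ≠ p ∧ b ≠ p := by
  obtain ⟨a, h1, h2, _⟩ := nbrs_of2 hG (v := v) p p
  obtain ⟨b, h3, h4, h5⟩ := nbrs_of2 hG (v := v) p a
  exact ⟨a, b, h1, h3, h5.symm, h2, h4⟩

theorem eb_eq_card (A B : Finset V) :
    eb G A B = ((A ×ˢ B).filter (fun x => G.Adj x.1 x.2)).card := by
  unfold eb dg
  rw [card_filter, sum_product]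
  exact sum_congr rfl fun a _ => card_filter _ _

theorem eb_comm (A B : Finset V) : eb G A B = eb G B A := by
  unfold eb dg
  simp only [card_filter]
  rw [sum_comm]
  exact sum_congr rfl fun a _ => sum_congr rfl fun b _ => if_congr (G.adj_comm _ _) rfl rfl

theorem eb_union_left {A A' : Finset V} (h : Disjoint A A') (B : Finset V) :
    eb G (A ∪ A') B = eb G A B + eb G A' B := by
  exact sum_union h

theorem eb_union_right (A : Finset V) {B B' : Finset V} (h : Disjoint B B') :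
    eb G A (B ∪ B') = eb G A B + eb G A B' := by
  unfold eb
  rw [← sum_add_distrib]
  exact sum_congr rfl fun a _ => dg_union h a

theorem eb_mono {A A' B B' : Finset V} (h : A ⊆ A') (h' : B ⊆ B') : eb G A B ≤ eb G A' B' := by
  exact (sum_le_sum fun a _ => dg_mono h' a).trans (sum_le_sum_of_subset h)

theorem eb_single (v : V) (B : Finset V) : eb G {v} B = dg G B v := by
  exact sum_singleton _ _

/-- the pairs come in twos, `(a, b)` and `(b, a)` -/
theorem eb_even (A : Finset V) : eb G A A % 2 = 0 := by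
  induction A using Finset.induction_on with
  | empty => simp [eb]
  | insert a A ha ih =>
    have hd : Disjoint ({a} : Finset V) A := disjoint_singleton_left.2 ha
    have h0 : dg G {a} a = 0 := dg_eq_zero.2 fun w hw => by
      rw [mem_singleton.1 hw]
      exact G.irrefl
    rw [insert_eq, eb_union_left hd, eb_union_right _ hd, eb_union_right _ hd, eb_comm A {a},
      eb_single, h0]
    omega

theorem one_le_eb {A B : Finset V} : 1 ≤ eb G A B ↔ ∃ a ∈ A, ∃ b ∈ B, G.Adj a b := by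
  rw [eb_eq_card, Nat.succ_le_iff, card_pos, filter_nonempty_iff]
  constructor
  · rintro ⟨x, hx, h⟩
    exact ⟨x.1, (mem_product.1 hx).1, x.2, (mem_product.1 hx).2, h⟩
  · rintro ⟨a, ha, b, hb, h⟩
    exact ⟨(a, b), mem_product.2 ⟨ha, hb⟩, h⟩

theorem eb_eq_zero {A B : Finset V} : eb G A B = 0 ↔ ∀ a ∈ A, ∀ b ∈ B, ¬ G.Adj a b := by
  constructor
  · intro h a ha b hb hab
    have := one_le_eb.2 ⟨a, ha, b, hb, hab⟩
    omega
  · intro h
    by_contra hn
    obtain ⟨a, ha, b, hb, hab⟩ := (one_le_eb (G := G) (A := A) (B := B)).1 (by omega)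
    exact h a ha b hb hab

theorem eb_le_card {A B : Finset V} (P : Finset (V × V))
    (h : ∀ a ∈ A, ∀ b ∈ B, G.Adj a b → (a, b) ∈ P) : eb G A B ≤ P.card := by
  rw [eb_eq_card]
  refine card_le_card fun x hx => ?_
  rw [mem_filter, mem_product] at hx
  exact h x.1 hx.1.1 x.2 hx.1.2 hx.2

theorem card_le_eb {A B : Finset V} (P : Finset (V × V))
    (h : ∀ x ∈ P, x.1 ∈ A ∧ x.2 ∈ B ∧ G.Adj x.1 x.2) : P.card ≤ eb G A B := by
  rw [eb_eq_card]
  refine card_le_card fun x hx => ?_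
  rw [mem_filter, mem_product]
  exact ⟨⟨(h x hx).1, (h x hx).2.1⟩, (h x hx).2.2⟩

theorem eb_le_one {A B : Finset V} {a b : V}
    (h : ∀ a' ∈ A, ∀ b' ∈ B, G.Adj a' b' → a' = a ∧ b' = b) : eb G A B ≤ 1 := by
  have := eb_le_card (G := G) (A := A) (B := B) {(a, b)} fun a' ha b' hb hab => by
    obtain ⟨rfl, rfl⟩ := h a' ha b' hb hab
    exact mem_singleton_self _
  rwa [card_singleton] at this

theorem eb_one_uniq {A B : Finset V} {a b : V} (h : eb G A B ≤ 1) (ha : a ∈ A) (hb : b ∈ B)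
    (hab : G.Adj a b) : ∀ a' ∈ A, ∀ b' ∈ B, G.Adj a' b' → a' = a ∧ b' = b := by
  intro a' ha' b' hb' hab'
  by_contra hne
  have hp : (a, b) ≠ (a', b') := fun e =>
    hne ⟨(Prod.mk.inj e).1.symm, (Prod.mk.inj e).2.symm⟩
  have := card_le_eb (G := G) (A := A) (B := B) {(a, b), (a', b')} fun x hx => by
    simp only [mem_insert, mem_singleton] at hx
    rcases hx with rfl | rfl
    · exact ⟨ha, hb, hab⟩
    · exact ⟨ha', hb', hab'⟩
  rw [card_pair hp] at this
  omega

/-- closed neighbourhood -/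
theorem card_le_four (hG : G.IsRegularOfDegree 3) {A B : Finset V}
    (h : ∀ b ∈ B, b ∈ A ∨ ∃ a ∈ A, G.Adj a b) : B.card ≤ 4 * A.card := by
  have hs : B ⊆ A ∪ A.biUnion fun a => univ.filter (G.Adj a) := by
    intro b hb
    rcases h b hb with h1 | ⟨a, ha, hab⟩
    · exact mem_union_left _ h1
    · exact mem_union_right _ (mem_biUnion.2 ⟨a, ha, mem_filter.2 ⟨mem_univ b, hab⟩⟩)
  have h1 : (A.biUnion fun a => univ.filter (G.Adj a)).card ≤ A.card * 3 :=
    card_biUnion_le_card_mul _ _ 3 fun a _ => (dg_univ hG a).le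
  have h2 := (card_le_card hs).trans (card_union_le _ _)
  omega

end Pool.Agent.Lib.MP_7e4769_co.Sp
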