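import Pool.Agent.Lib.MP_7e4769_co.Sp.Glue

set_option autoImplicit false
set_option linter.unusedSectionVars false

namespace Pool.Agent.Lib.MP_7e4769_co.Sp

open Finset

variable {V : Type} [Fintype V] [DecidableEq V] {G : SimpleGraph V} [DecidableRel G.Adj]

/-- cut 0: `A = C`. Cut 1: the other side is connected (`Conn.side`, `cut_compl`) and smaller,
so `hA` gives `Free`; then `glue_good`. -/
theorem end_good (hG : G.IsRegularOfDegree 3) {n : ℕ} (hA : HA G n) {C A : Finset V}
    (hn : C.card ≤ n) (hC : Conn G C) (hs : A ⊆ C) (hne : A.Nonempty) (hg : Good G A)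
    (h1 : cut G C A ≤ 1) : Good G C := by
  by_cases e : A = C
  · exact e ▸ hg
  obtain ⟨a, ha, b, hb, hbA, hab⟩ := cut_pos (hC A hs hne e)
  have haB : a ∉ C \ A := fun h => (mem_sdiff.1 h).2 ha
  have hbB : b ∈ C \ A := mem_sdiff.2 ⟨hb, hbA⟩
  have hf := hA (C \ A) ((card_lt_card ⟨sdiff_subset, fun h => haB (h (hs ha))⟩).trans_le hn)
    (hC.side sdiff_subset ((cut_compl hs).trans_le h1)) b a hbB haB hab.symm
  rw [← union_sdiff_of_subset hs]
  exact glue_good hG disjoint_sdiff ha hbB hab (fun a' ha' b' hb' =>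
    cut_one_uniq h1 ha hb hbA hab a' ha' b' (mem_sdiff.1 hb').1 (mem_sdiff.1 hb').2) hg hf

/-- `A = {t, t'}` -/
theorem root2 (hG : G.IsRegularOfDegree 3) {n : ℕ} (hA : HA G n) {C : Finset V}
    (hn : C.card ≤ n) (hC : Conn G C) {t t' : V} (ht : t ∈ C) (ht' : t' ∈ C) (h : G.Adj t t')
    (h1 : dg G C t ≤ 1) (h2 : dg G C t' ≤ 2) : Good G C := by
  refine end_good hG hA hn hC (insert_subset ht (singleton_subset_iff.2 ht'))
    (insert_nonempty _ _) (good_edge hG h) ?_
  have e1 := dg_lt (A := C \ {t, t'}) sdiff_subset ht' (by simp) h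
  have e2 := dg_lt (A := C \ {t, t'}) sdiff_subset ht (by simp) h.symm
  rw [cut, eb, sum_pair h.ne]
  omega

/-- If `w = t'` use `root2` in `insert t' S` (roles `t'`, `t`; this set has cut at most 1, or is
all of `C`), otherwise `t' ∈ S` and use `root2` in `S`; then `end_good`. -/
theorem root3 (hG : G.IsRegularOfDegree 3) {n : ℕ} (hA : HA G n) {C S : Finset V}
    (hn : C.card ≤ n) (hC : Conn G C) (hS : S ⊆ C) (h1 : cut G C S ≤ 1) {t t' w : V}
    (ht : t ∈ S) (hw : w ∈ C) (hwS : w ∉ S) (htw : G.Adj t w) (ht' : t' ∈ C) (h : G.Adj t t')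
    (d1 : dg G C t ≤ 2) (d2 : dg G C t' ≤ 2) : Good G C := by
  have hu := cut_one_uniq h1 ht hw hwS htw
  by_cases e : t' = w
  · subst e
    have hs : insert t' S ⊆ C := insert_subset hw hS
    have h2 : cut G C (insert t' S) ≤ 1 := by
      have e1 := dg_lt (A := C \ insert t' S) sdiff_subset (hS ht) (by simp [ht]) h.symm
      have e2 : eb G S (C \ insert t' S) = 0 := eb_eq_zero.2 fun a ha b hb hab => by
        rw [mem_sdiff, mem_insert, not_or] at hb
        exact hb.2.1 (hu a ha b hb.1 hb.2.2 hab).2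
      rw [eb] at e2
      rw [cut, eb, sum_insert hwS, e2]
      omega
    refine end_good hG hA hn hC hs (insert_nonempty _ _) (root2 hG hA
      ((card_le_card hs).trans hn) (hC.side hs h2) (mem_insert_self _ _) (mem_insert_of_mem ht)
      h.symm (dg_le_one (a := t) fun x hx hx' => ?_) ((dg_mono hs t).trans d1)) h2
    exact (hu x ((mem_insert.1 hx).resolve_left hx'.ne') t' hw hwS hx'.symm).1
  · have h2 : t' ∈ S := by_contra fun h2 => e (hu t ht t' ht' h2 h).2
    have h3 := dg_lt hS hw hwS htw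
    exact end_good hG hA hn hC hS ⟨t, ht⟩ (root2 hG hA ((card_le_card hS).trans hn)
      (hC.side hS h1) ht h2 h (by omega) ((dg_mono hS t').trans d2)) h1

/-- both sides of a cut of size 1 in a connected set that is not good -/
theorem sides_bad (hG : G.IsRegularOfDegree 3) {n : ℕ} (hA : HA G n) {C S : Finset V}
    (hn : C.card ≤ n) (hC : Conn G C) (hg : ¬ Good G C) (hS : S ⊆ C) (hne : S.Nonempty)
    (hne' : S ≠ C) (h1 : cut G C S ≤ 1) :
    Conn G S ∧ ¬ Good G S ∧ Conn G (C \ S) ∧ ¬ Good G (C \ S) := by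
  have h2 := (cut_compl (G := G) hS).trans_le h1
  exact ⟨hC.side hS h1, fun h => hg (end_good hG hA hn hC hS hne h h1), hC.side sdiff_subset h2,
    fun h => hg (end_good hG hA hn hC sdiff_subset
      (sdiff_nonempty.2 fun e => hne' (hS.antisymm e)) h h2)⟩

/-- `C.erase w` is connected (`EC2.conn_sdiff` with `D = {w}`); a neighbour `t` of `w` has degree
at most 1 there, `t'` is its other neighbour; `root2`, `free_of_erase`. -/
theorem cyc_free (hG : G.IsRegularOfDegree 3) {n : ℕ} (hA : HA G n) {C : Finset V}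
    (hn : C.card ≤ n) (he : EC2 G C) (hc : Cyc G C) {w p : V} (hw : w ∈ C) (hp : p ∉ C)
    (h : G.Adj w p) : Free G C w p := by
  have hs := erase_subset w C
  obtain ⟨t, ht, hwt, -⟩ := ex_other (hc w hw).ge w
  obtain ⟨t', ht', htt, hne⟩ := ex_other (hc t ht).ge w
  have h1 : Conn G (C.erase w) := by
    rw [← sdiff_singleton_eq_erase]
    exact he.conn_sdiff (singleton_subset_iff.2 hw) (by rw [cut_single, hc w hw]; omega)
  have h2 := dg_lt hs hw (notMem_erase w C) hwt.symm
  rw [hc t ht] at h2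
  refine free_of_erase (root2 hG hA ((card_le_card hs).trans hn) h1 (mem_erase.2 ⟨hwt.ne', ht⟩)
    (mem_erase.2 ⟨hne, ht'⟩) htt (by omega) ((dg_mono hs t').trans (hc t' ht').le))
    fun x hx hxp => by_contra fun hxC => ?_
  have h3 := dg_lt (subset_insert p C) (mem_insert_self p C) hp h
  have h4 := dg_le_two_of_out hG (U := insert p C) (by simp [hxp, hxC]) hx
  rw [hc w hw] at h3
  omega

end Pool.Agent.Lib.MP_7e4769_co.Sp
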