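import Pool.Agent.Lib.MP_7e4769_co.Sp.NetG
import Pool.Agent.Lib.MP_7e4769_co.Sp.TabA
import Pool.Agent.Lib.MP_7e4769_co.Sp.End

set_option autoImplicit false
set_option linter.unusedSectionVars false

namespace Pool.Agent.Lib.MP_7e4769_co.Sp

open Finset

variable {V : Type} [Fintype V] [DecidableEq V] {G : SimpleGraph V} [DecidableRel G.Adj]

theorem dig_th_emb {U : Finset V} {u v : V} {l1 l2 l3 : List V}
    (h : Star G U u l1 v l2 v l3 v) :
    Emb G U nTh (fun i => [u, v].getD i u) (fun e => [l1, l2, l3].getD e []) := by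
  have hn : [u, v].Nodup := by simpa using h.h1.ne
  have n12 : l1 ≠ l2 := fun e => h.n12 (by rw [e])
  have n13 : l1 ≠ l3 := fun e => h.n13 (by rw [e])
  have n23 : l2 ≠ l3 := fun e => h.n23 (by rw [e])
  refine ⟨⟨inj_of_nodup hn u, ?_, ?_⟩, inj_of_nodup hn u⟩
  · intro e he
    have he' : e < 3 := he
    interval_cases e
    · exact h.h1
    · exact h.h2
    · exact h.h3
  · intro e he e' he' _ _ c
    have h1 : e < 3 := he
    have h2 : e' < 3 := he'
    interval_cases e <;> interval_cases e'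
    · rfl
    · exact absurd c n12
    · exact absurd c n13
    · exact absurd c n12.symm
    · rfl
    · exact absurd c n23
    · exact absurd c n13.symm
    · exact absurd c n23.symm
    · rfl

theorem dig_th1 (hG : G.IsRegularOfDegree 3) {U : Finset V} (he : EC2 G U) {u v : V}
    {l2 l3 : List V} (h : Star G U u [] v l2 v l3 v) (ho : l2.length % 2 = 1) : Good G U := by
  refine Emb.closed hG he nTh_wf (dig_th_emb h) acc_th2 ?_ rfl (by decide)
  intro e he
  have he' : e < 3 := he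
  interval_cases e
  · exact ty_zero rfl
  · exact ty_odd ho
  · exact ty_pos fun e => h.n13 (by rw [show l3 = [] from e])

theorem dig_th0 (hG : G.IsRegularOfDegree 3) {U : Finset V} (he : EC2 G U) {u v : V}
    {l2 l3 : List V} (h : Star G U u [] v l2 v l3 v) : Good G U ∨ Theta G U := by
  by_cases h2 : l2.length % 2 = 1
  · exact Or.inl (dig_th1 hG he h h2)
  by_cases h3 : l3.length % 2 = 1
  · exact Or.inl (dig_th1 hG he h.s23 h3)
  refine Or.inr ⟨u, v, h.h1.hz, h.h1.hz', h.h1.adj_fst, fun w hw => ?_, fun l hl => ?_⟩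
  · have hp := Emb0.closed_eq hG he nTh_wf (dig_th_emb h).e0 rfl (by decide)
    have hwU : w ∈ U := (mem_Kn.1 hw).1
    rw [← hp, mem_pole] at hwU
    rcases hwU with ⟨i, hi, e⟩ | ⟨e, hi, hm⟩
    · have hi' : i < 2 := hi
      interval_cases i
      · exact Or.inl e.symm
      · exact Or.inr e.symm
    · exact absurd hw (((dig_th_emb h).e0.lk e hi).notK hm)
  · rcases h.all hG hl with ⟨rfl, _⟩ | ⟨rfl, _⟩ | ⟨rfl, _⟩
    · rfl
    · omega
    · omega

/-- Net `nTh` with `κ = [u, v]`. If all three links are nonempty use `acc_th1`. Otherwise put the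
empty one first (`Star.s12`, `Star.s23`); the other two are nonempty; if one is odd put it second
and use `acc_th2`; else `Theta`: the kernel is `{u, v}` by `Emb0.closed_eq`, links by `Star.all`. -/
theorem theta_case (hG : G.IsRegularOfDegree 3) {U : Finset V} (he : EC2 G U) {u v : V}
    {l1 l2 l3 : List V} (h : Star G U u l1 v l2 v l3 v) : Good G U ∨ Theta G U := by
  by_cases h1 : l1 = []
  · subst h1
    exact dig_th0 hG he h
  by_cases h2 : l2 = []
  · subst h2
    exact dig_th0 hG he h.s12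
  by_cases h3 : l3 = []
  · subst h3
    exact dig_th0 hG he h.s23.s12
  refine Or.inl (Emb.closed hG he nTh_wf (dig_th_emb h) acc_th1 ?_ rfl (by decide))
  intro e he
  have he' : e < 3 := he
  interval_cases e
  · exact ty_pos h1
  · exact ty_pos h2
  · exact ty_pos h3

theorem Dig.symm {U : Finset V} {u v x y : V} {l1 l2 l3 l4 : List V}
    (h : Dig G U u v l1 l2 l3 x l4 y) : Dig G U v u l1.reverse l2.reverse l4 y l3 x := by
  refine ⟨h.sv, by simpa using h.su, ?_⟩
  have hn := h.nd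
  simp only [List.nodup_cons, List.mem_cons, List.not_mem_nil, or_false, not_or,
    not_false_eq_true, List.nodup_nil, and_true] at hn ⊢
  exact ⟨⟨Ne.symm hn.1.1, hn.2.1.2, hn.2.1.1⟩, ⟨hn.1.2.2, hn.1.2.1⟩, Ne.symm hn.2.2⟩

theorem Dig.swap {U : Finset V} {u v x y : V} {l1 l2 l3 l4 : List V}
    (h : Dig G U u v l1 l2 l3 x l4 y) : Dig G U u v l2 l1 l3 x l4 y := by
  exact ⟨h.su.s12, h.sv.s12, h.nd⟩

theorem dig_emb0 {U : Finset V} {u v x y : V} {l1 l2 l3 l4 : List V}
    (su : Star G U u l1 v l2 v l3 x) (sv : Star G U v l1.reverse u l2.reverse u l4 y)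
    (hvx : v ≠ x) (huy : u ≠ y) :
    Emb0 G U nDg (fun i => [u, v, x, y].getD i u) (fun e => [l1, l2, l3, l4].getD e []) := by
  have huv : u ≠ v := su.h1.ne
  have hux : u ≠ x := su.h3.ne
  have hvy : v ≠ y := sv.h3.ne
  have n12 : l1 ≠ l2 := fun e => su.n12 (by rw [e])
  refine ⟨?_, ?_, ?_⟩
  · intro i hi j hj e
    have hi' : i < 2 := hi
    have hj' : j < 4 := hj
    interval_cases i <;> interval_cases j
    · rfl
    · exact absurd e huv
    · exact absurd e hux
    · exact absurd e huy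
    · exact absurd e huv.symm
    · rfl
    · exact absurd e hvx
    · exact absurd e hvy
  · intro e he
    have he' : e < 4 := he
    interval_cases e
    · exact su.h1
    · exact su.h2
    · exact su.h3
    · exact sv.h3
  · intro e he e' he' a b c
    have h1 : e < 4 := he
    have h2 : e' < 4 := he'
    interval_cases e <;> interval_cases e'
    · rfl
    · exact absurd c n12
    · exact absurd b hvx
    · exact absurd a (by decide)
    · exact absurd c n12.symm
    · rfl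
    · exact absurd b hvx
    · exact absurd a (by decide)
    · exact absurd b hvx.symm
    · exact absurd b hvx.symm
    · rfl
    · exact absurd a (by decide)
    · exact absurd a (by decide)
    · exact absurd a (by decide)
    · exact absurd a (by decide)
    · rfl

theorem dig_nd {u v x y : V} (h : [u, v, x, y].Nodup) :
    u ≠ v ∧ u ≠ x ∧ u ≠ y ∧ v ≠ x ∧ v ≠ y ∧ x ≠ y := by
  simp only [List.nodup_cons, List.mem_cons, List.not_mem_nil, or_false, not_or,
    not_false_eq_true, List.nodup_nil, and_true] at h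
  exact ⟨h.1.1, h.1.2.1, h.1.2.2, h.2.1.1, h.2.1.2, h.2.2⟩

/-- `star_ex2` at `u` and at `v`; `x ≠ v` and `y ≠ u` by `nt`; `x ≠ y` by `Emb0.two` for `nDg` -/
theorem dig_ex {U : Finset V} (hc : Ctx G U) {u v : V} {l1 l2 : List V} (h1 : Link G U u l1 v)
    (h2 : Link G U u l2 v) (hn : l1 ≠ l2) : ∃ l3 x l4 y, Dig G U u v l1 l2 l3 x l4 y := by
  obtain ⟨l3, x, su⟩ := star_ex2 hc.cub hc.ec h1 h2 fun e => hn (Prod.mk.inj e).1
  obtain ⟨l4, y, sv⟩ := star_ex2 hc.cub hc.ec h1.symm h2.symm fun e =>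
    hn (List.reverse_injective (Prod.mk.inj e).1)
  have hvx : v ≠ x := by
    rintro rfl
    exact hc.nt _ _ _ _ _ su
  have huy : u ≠ y := by
    rintro rfl
    exact hc.nt _ _ _ _ _ sv
  have hE := Emb0.two hc.cub hc.ec nDg_wf (dig_emb0 su sv hvx huy) rfl
  have hxy : x ≠ y := fun e => absurd (hE.pinj 2 (by decide) 3 (by decide) e) (by decide)
  refine ⟨l3, x, l4, y, su, sv, ?_⟩
  simp [h1.ne, su.h3.ne, sv.h3.ne, hvx, huy, hxy]

theorem Dig.emb {U : Finset V} {u v x y : V} {l1 l2 l3 l4 : List V}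
    (h : Dig G U u v l1 l2 l3 x l4 y) :
    Emb G U nDg (fun i => [u, v, x, y].getD i u) (fun e => [l1, l2, l3, l4].getD e []) := by
  exact ⟨dig_emb0 h.su h.sv (dig_nd h.nd).2.2.2.1 (dig_nd h.nd).2.2.1, inj_of_nodup h.nd u⟩

theorem dig_ty {l1 l2 l3 l4 : List V} {A B C D : List (Fin 4)} (a : ty l1 ∈ A) (b : ty l2 ∈ B)
    (c : ty l3 ∈ C) (d : ty l4 ∈ D) :
    ∀ e < nDg.n, ty ((fun e => [l1, l2, l3, l4].getD e []) e) ∈ tyl [A, B, C, D] e := by
  intro e he
  have he' : e < 4 := he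
  interval_cases e
  · exact a
  · exact b
  · exact c
  · exact d

theorem dig_hC (c : ℕ) {d : ℕ} (hd : d ≠ 1) : ∀ k < nDg.p, ∀ k' < nDg.p, nDg.m ≤ k → nDg.m ≤ k' →
    cll [0, 0, c, d] k = 1 → cll [0, 0, c, d] k' = 1 → k = k' := by
  intro k hk k' hk' m1 m2 c1 c2
  have h1 : k < 4 := hk
  have h2 : k' < 4 := hk'
  have h3 : 2 ≤ k := m1
  have h4 : 2 ≤ k' := m2
  interval_cases k <;> interval_cases k'
  · rfl
  · exact absurd c2 hd
  · exact absurd c1 hd
  · rfl

theorem dig_CG {U : Finset V} (hc : Ctx G U) {u v x y : V} {l1 l2 l3 l4 : List V}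
    (h : Dig G U u v l1 l2 l3 x l4 y) {A B C D : List (Fin 4)}
    (ha : nDg.Acc (tyl [A, B, C, D]) (cll [0, 0, 1, 2])) (a : ty l1 ∈ A) (b : ty l2 ∈ B)
    (c : ty l3 ∈ C) (d : ty l4 ∈ D) : False :=
  hc.ng (Emb.good_G3 hc.cub hc.ec hc.hA nDg_wf h.emb ha (dig_ty a b c d)
    (dig_hC 1 (by decide)) (g := 3) (by decide) (by decide) rfl (by decide))

/-- With `l2 = []` (so `l1 ≠ []`): if `l3` is long `acc_dgCG1`, if `l4` is long the same after
`Dig.symm`; if `l1` is even and `l3 = []` `acc_dgCG3` (or `l4 = []`, after `symm`), else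
`acc_dgCG4`. All by `Emb.good_G3` with `g = 3`. -/
theorem dig_type0 {U : Finset V} (hc : Ctx G U) {u v x y : V} {l1 l3 l4 : List V}
    (h : Dig G U u v l1 [] l3 x l4 y) :
    l1.length % 2 = 1 ∧ l3.length ≤ 1 ∧ l4.length ≤ 1 := by
  have h1 : l1 ≠ [] := fun e => h.su.n12 (by rw [e])
  have h1' : l1.reverse ≠ [] := by simpa using h1
  have a3 : l3.length ≤ 1 := by
    by_contra hn
    exact dig_CG hc h acc_dgCG1 (ty_pos h1) (ty_zero rfl) (ty_long (by omega)) (ty_any _)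
  have a4 : l4.length ≤ 1 := by
    by_contra hn
    exact dig_CG hc h.symm acc_dgCG1 (ty_pos h1') (ty_zero rfl) (ty_long (by omega)) (ty_any _)
  refine ⟨?_, a3, a4⟩
  by_contra hn
  have hev : l1.length % 2 = 0 := by omega
  by_cases h3 : l3 = []
  · exact dig_CG hc h acc_dgCG3 (ty_two h1 hev) (ty_zero rfl) (ty_zero h3) (ty_any _)
  by_cases h4 : l4 = []
  · exact dig_CG hc h.symm acc_dgCG3 (ty_two h1' (by simpa using hev)) (ty_zero rfl) (ty_zero h4)
      (ty_any _)
  have b3 := List.length_pos_iff.2 h3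
  have b4 := List.length_pos_iff.2 h4
  exact dig_CG hc h acc_dgCG4 (ty_two h1 hev) (ty_zero rfl) (ty_one (by omega))
    (ty_one (by omega))

/-- both nonempty: `acc_dgAG` -/
theorem dig_type {U : Finset V} (hc : Ctx G U) {u v x y : V} {l1 l2 l3 l4 : List V}
    (h : Dig G U u v l1 l2 l3 x l4 y) :
    ((l2 = [] ∧ l1.length % 2 = 1) ∨ (l1 = [] ∧ l2.length % 2 = 1)) ∧
      l3.length ≤ 1 ∧ l4.length ≤ 1 := by
  by_cases h2 : l2 = []
  · subst h2
    obtain ⟨a, b, c⟩ := dig_type0 hc h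
    exact ⟨Or.inl ⟨rfl, a⟩, b, c⟩
  by_cases h1 : l1 = []
  · subst h1
    obtain ⟨a, b, c⟩ := dig_type0 hc h.swap
    exact ⟨Or.inr ⟨rfl, a⟩, b, c⟩
  exact absurd (Emb.good_G3 hc.cub hc.ec hc.hA nDg_wf h.emb acc_dgAG
    (dig_ty (ty_pos h1) (ty_pos h2) (ty_any _) (ty_any _)) (dig_hC 0 (by decide)) (g := 3)
    (by decide) (by decide) rfl (by decide)) hc.ng

/-- `R = U \ del` for `acc_dgCA` (`Emb.good_C`, `Emb.del_cut`, `EC2.conn_sdiff`, `cut_compl`) -/
theorem dig_move {U : Finset V} (hc : Ctx G U) {u v x y : V} {l1 l3 l4 : List V}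
    (h : Dig G U u v l1 [] l3 x l4 y) :
    ∃ R : Finset V, (∀ w, w ∈ R ↔ w ∈ U ∧ w ≠ u ∧ w ≠ v ∧ w ≠ x ∧ w ∉ l1 ∧ w ∉ l3 ∧ w ∉ l4) ∧
      ¬ Good G R ∧ Conn G R ∧ cut G U R ≤ 3 ∧ y ∈ R := by
  obtain ⟨a, b, c⟩ := dig_type0 hc h
  have hs := h.emb.e0.del_sub nDg_wf (cll [0, 0, 1, 0])
  have h3 := (h.emb.del_cut hc.cub nDg_wf (cll [0, 0, 1, 0])).trans
    (show nDg.wt (cll [0, 0, 1, 0]) ≤ 3 by decide)
  refine ⟨_, fun w => ?_, fun hg => hc.ng (Emb.good_C hc.cub nDg_wf h.emb acc_dgCA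
    (dig_ty (ty_odd a) (ty_zero rfl) (ty_short b) (ty_short c)) ?_ hg),
    hc.ec.conn_sdiff hs h3, (cut_compl hs).trans_le h3,
    h.emb.port_mem nDg_wf (k := 3) (by decide) (by decide) (by decide)⟩
  · rw [mem_sdiff, mem_del nDg_wf]
    refine and_congr_right fun _ => ⟨fun hn => ?_, ?_⟩
    · exact ⟨fun e => hn (Or.inl ⟨0, by decide, by decide, e.symm⟩),
        fun e => hn (Or.inl ⟨1, by decide, by decide, e.symm⟩),
        fun e => hn (Or.inl ⟨2, by decide, by decide, e.symm⟩),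
        fun e => hn (Or.inr ⟨0, by decide, e⟩), fun e => hn (Or.inr ⟨2, by decide, e⟩),
        fun e => hn (Or.inr ⟨3, by decide, e⟩)⟩
    · rintro ⟨n1, n2, n3, n4, n5, n6⟩ (⟨i, hi, hj, e⟩ | ⟨e, hi, hm⟩)
      · have hi' : i < 4 := hi
        interval_cases i
        · exact n1 e.symm
        · exact n2 e.symm
        · exact n3 e.symm
        · exact absurd hj (by decide)
      · have hi' : e < 4 := hi
        interval_cases e
        · exact n4 hm
        · exact absurd hm List.not_mem_nil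
        · exact n5 hm
        · exact n6 hm
  · intro k hk k' hk' m1 m2 c1 c2
    rw [dig_hC 1 (by decide) k hk k' hk' m1 m2 c1 c2]
    exact G.irrefl

/-- a digon in normal form through a given vertex -/
theorem dv_ex {U : Finset V} (hc : Ctx G U) {u : V} (h : Dv G U u) :
    ∃ v l1 l3 x l4 y, Dig G U u v l1 [] l3 x l4 y := by
  obtain ⟨v, l1, l2, h1, h2, hn⟩ := h
  obtain ⟨l3, x, l4, y, d⟩ := dig_ex hc h1 h2 hn
  rcases (dig_type hc d).1 with ⟨rfl, _⟩ | ⟨rfl, _⟩
  · exact ⟨v, l1, l3, x, l4, y, d⟩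
  · exact ⟨v, l2, l3, x, l4, y, d.swap⟩

theorem dig_outer0 {U : Finset V} (hc : Ctx G U) {u v x y : V} {l1 l3 l4 : List V}
    (h : Dig G U u v l1 [] l3 x l4 y) : ¬ Dv G U x := by
  intro hx
  obtain ⟨x', m1, m3, a, m4, b, g⟩ := dv_ex hc hx
  obtain ⟨_, hux, _, hvx, _, hxy⟩ := dig_nd h.nd
  obtain ⟨R, hR, hng, hcn, _, _⟩ := dig_move hc h
  have hsub : R ⊆ U := fun w hw => ((hR w).1 hw).1
  have hxR : x ∉ R := fun hw => ((hR x).1 hw).2.2.2.1 rfl
  have hxU : x ∈ U := g.su.h1.memU.1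
  have hux' : u ≠ x' := by
    rintro rfl
    rcases h.su.all hc.cub g.sv.h1 with ⟨_, e⟩ | ⟨_, e⟩ | ⟨e1, _⟩
    · exact hvx e.symm
    · exact hvx e.symm
    rcases h.su.all hc.cub g.sv.h2 with ⟨_, e⟩ | ⟨_, e⟩ | ⟨e2, _⟩
    · exact hvx e.symm
    · exact hvx e.symm
    exact g.sv.n12 (by rw [e1, e2])
  have hvx' : v ≠ x' := by
    rintro rfl
    rcases h.sv.all hc.cub g.sv.h2 with ⟨_, e⟩ | ⟨_, e⟩ | ⟨_, e⟩
    · exact hux e.symm
    · exact hux e.symm
    · exact hxy e
  have hm : ∀ t ∈ m1, t ∈ R := by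
    intro t ht
    have hk := g.su.h1.notK ht
    refine (hR t).2 ⟨(g.su.h1.inn t ht).1, fun e => hk (e ▸ h.su.h1.hz),
      fun e => hk (e ▸ h.su.h1.hz'), fun e => hk (e ▸ g.su.h1.hz), fun e => ?_, fun e => ?_,
      fun e => ?_⟩
    · rcases h.su.h1.disj g.su.h1 e ht with ⟨e, _⟩ | ⟨e, _⟩
      · exact hux e
      · exact hux' e
    · rcases h.su.h3.disj g.su.h1 e ht with ⟨e, _⟩ | ⟨e, _⟩
      · exact hux e
      · exact hux' e
    · rcases h.sv.h3.disj g.su.h1 e ht with ⟨e, _⟩ | ⟨e, _⟩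
      · exact hvx e
      · exact hvx' e
  have hx'R : x' ∈ R :=
    (hR x').2 ⟨g.su.h1.memU.2, hux'.symm, hvx'.symm, g.su.h1.ne.symm,
      fun e => h.su.h1.notK e g.su.h1.hz', fun e => h.su.h3.notK e g.su.h1.hz',
      fun e => h.sv.h3.notK e g.su.h1.hz'⟩
  have hne : m1 ≠ [] := fun e => g.su.n12 (by rw [e])
  obtain ⟨t, m, rfl⟩ := List.exists_cons_of_ne_nil hne
  have hsp := Link.split (a := []) g.su.h1
  have ht : t ∈ t :: m := List.mem_cons_self
  have d1 := dg_lt hsub hxU hxR hsp.1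
  rw [(g.su.h1.inn t ht).2] at d1
  refine hng (root2 hc.cub hc.hA (card_le_card hsub) hcn (hm t ht) ?_ hsp.2.1 (by omega) ?_)
  · rcases fst_mem_or m x' with e | ⟨_, e⟩
    · exact hm _ (List.mem_cons_of_mem _ e)
    · rw [e]
      exact hx'R
  · rcases fst_mem_or m x' with e | ⟨_, e⟩
    · exact (dg_mono hsub _).trans (g.su.h1.inn _ (List.mem_cons_of_mem _ e)).2.le
    · rw [e]
      exact dg_le_two_of_out hc.cub hxR g.sv.h2.adj_fst

/-- Suppose `x` is on a digon `x, x'` with links `m1` (odd) and `[]` (`dv_ex`, `dig_type0`). Then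
`x' ≠ u, v` (`Star.all`), the vertices of `m1` and `x'` lie in `R` of `dig_move` (`Link.disj`); the
first vertex `t` of `m1` has degree at most 1 in `R` and the next vertex (on `m1`, or `x'`, which is
adjacent to `x ∉ R`) has degree at most 2: `root2`. -/
theorem dig_outer {U : Finset V} (hc : Ctx G U) {u v x y : V} {l1 l2 l3 l4 : List V}
    (h : Dig G U u v l1 l2 l3 x l4 y) : ¬ Dv G U x := by
  rcases (dig_type hc h).1 with ⟨rfl, _⟩ | ⟨rfl, _⟩
  · exact dig_outer0 hc h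
  · exact dig_outer0 hc h.swap

end Pool.Agent.Lib.MP_7e4769_co.Sp
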