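import Pool.Agent.Lib.MP_7e4769_co.Sp.Col

set_option autoImplicit false
set_option linter.unusedSectionVars false

namespace Pool.Agent.Lib.MP_7e4769_co.Sp

open Finset

variable {V : Type} [Fintype V] [DecidableEq V] {G : SimpleGraph V} [DecidableRel G.Adj]

theorem glue_perm : ∀ x e g d : Fin 4, d ≠ 3 → g ≠ 3 → g ≠ d → e ≠ x →
    ∃ i j k l : Fin 4, (Equiv.swap i j * Equiv.swap k l) 3 = 3 ∧
      ((Equiv.swap i j * Equiv.swap k l) x = 3 ∨ (Equiv.swap i j * Equiv.swap k l) x = d) ∧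
      (Equiv.swap i j * Equiv.swap k l) x ≠ g ∧ (Equiv.swap i j * Equiv.swap k l) e ≠ g := by
  decide +kernel

/-- The common core of both gluing lemmas. `ca` colours `A`, `cb` colours `B`; `a` has a finite
colour `g`, and any colour of `b` in `{3, d}` is fine for `a`. The state `(cb b, e)` of `b`
(`st_free`) is moved by a permutation fixing 3 so that the colour of `b` is 3 or `d` and `g` is
outside the state (finite check). -/
theorem glue_core (hG : G.IsRegularOfDegree 3) {A B : Finset V} (hd : Disjoint A B) {a b : V}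
    (ha : a ∈ A) (hb : b ∈ B) (hab : G.Adj a b)
    (h1 : ∀ a' ∈ A, ∀ b' ∈ B, G.Adj a' b' → a' = a ∧ b' = b)
    (ca : V → Fin 4) (hca : ∀ v, v ∉ A → ca v = 3) (d : Fin 4) (hd3 : d ≠ 3) (hg : ca a ≠ 3)
    (hgd : ca a ≠ d) (hB : Free G B b a) :
    ∃ c : V → Fin 4, (∀ v, v ∉ B → c v = ca v) ∧ (c b = 3 ∨ c b = d) ∧ ∀ v ∈ B, ok G c v := by
  obtain ⟨cb, h0, h2, h3⟩ := hB
  obtain ⟨e, he, hs⟩ := st_free hG hab.symm h3
  obtain ⟨i, j, k, l, p⟩ := glue_perm (cb b) e (ca a) d hd3 hg hgd he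
  generalize Equiv.swap i j * Equiv.swap k l = π at p
  obtain ⟨p3, px, pg, pe⟩ := p
  have haB : a ∉ B := disjoint_left.1 hd ha
  have key : ∀ v ∈ B, ∀ w, G.Adj v w → w ≠ a →
      (if w ∈ B then π (cb w) else ca w) = π (cb w) := fun v hv w hw hwa => by
    split_ifs with k
    · rfl
    · rw [h0 w k, p3, hca w fun k' => hwa (h1 w k' v hv hw.symm).1]
  refine ⟨fun v => if v ∈ B then π (cb v) else ca v, fun v hv => if_neg hv,
    by simpa [hb] using px, fun v hv => ?_⟩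
  by_cases hvb : v = b
  · subst hvb
    refine ok_congr (by simp) (by simp) (ok_perm π (hs
      (fun x => π.symm (if x ∈ B then π (cb x) else ca x)) (fun x hx hxa => ?_) (by simp [hv])
      ?_ ?_))
    · rw [key v hv x hx hxa, π.symm_apply_apply]
    · rw [if_neg haB, Ne, π.symm_apply_eq]; exact pg.symm
    · rw [if_neg haB, Ne, π.symm_apply_eq]; exact pe.symm
  · exact ok_congr (if_pos hv) (fun w hw => key v hv w hw fun k =>
      hvb (h1 a ha v hv (k ▸ hw.symm)).2) (ok_perm π (h2 v hv hvb))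

theorem glue_aux (hG : G.IsRegularOfDegree 3) {A B : Finset V} (hd : Disjoint A B) {a b : V}
    (ha : a ∈ A) (hb : b ∈ B) (hab : G.Adj a b)
    (h1 : ∀ a' ∈ A, ∀ b' ∈ B, G.Adj a' b' → a' = a ∧ b' = b)
    (ca : V → Fin 4) (hca : ∀ v, v ∉ A → ca v = 3) (hg : ca a ≠ 3) {e : Fin 4} (he : e ≠ 3)
    (hB : Free G B b a) :
    ∃ c : V → Fin 4, (∀ v, v ∉ B → c v = ca v) ∧ c b ≠ ca a ∧ c b ≠ e ∧ (∀ v ∈ B, ok G c v) ∧
      ∀ v ∈ A, v ≠ a → ok G ca v → ok G c v := by
  obtain ⟨d, d3, dg, de⟩ :=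
    (by decide : ∀ g e : Fin 4, ∃ d : Fin 4, d ≠ 3 ∧ g ≠ d ∧ d ≠ e) (ca a) e
  obtain ⟨c, c1, c2, c3⟩ := glue_core hG hd ha hb hab h1 ca hca d d3 hg dg hB
  refine ⟨c, c1, ?_, ?_, c3, fun v hv hva => ok_congr (c1 v (disjoint_left.1 hd hv))
    fun w hw => c1 w fun k => hva (h1 v hv w k hw).1⟩ <;> rcases c2 with k | k <;> rw [k]
  exacts [hg.symm, dg.symm, he.symm, de]

/-- `st_ok` at `a` gives `e`; `d` is the finite colour different from `ca a` and `e` -/
theorem glue_good (hG : G.IsRegularOfDegree 3) {A B : Finset V} (hd : Disjoint A B) {a b : V}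
    (ha : a ∈ A) (hb : b ∈ B) (hab : G.Adj a b)
    (h1 : ∀ a' ∈ A, ∀ b' ∈ B, G.Adj a' b' → a' = a ∧ b' = b)
    (hA : Good G A) (hB : Free G B b a) : Good G (A ∪ B) := by
  obtain ⟨ca, h0, h2⟩ := hA
  obtain ⟨e, hs, hg, he⟩ := st_ok hG hab (h2 a ha) (h0 b (disjoint_right.1 hd hb))
  obtain ⟨c, c1, c2, c3, c4, c5⟩ := glue_aux hG hd ha hb hab h1 ca h0 hg he hB
  refine ⟨c, fun v hv => by rw [c1 v (by grind), h0 v (by grind)], fun v hv => ?_⟩
  rcases mem_union.1 hv with k | k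
  · by_cases hva : v = a
    · exact hva ▸ hs.2 c (fun x hx hxb => c1 x fun k' => hxb (h1 a ha x k' hx).2)
        (c1 a (disjoint_left.1 hd ha)) c2 c3
    · exact c5 v k hva (h2 v k)
  · exact c4 v k

/-- if `w = a`, then `a` is finite because `b ≠ p` has colour 3 in the colouring of `A` -/
theorem glue_free (hG : G.IsRegularOfDegree 3) {A B : Finset V} (hd : Disjoint A B) {a b : V}
    (ha : a ∈ A) (hb : b ∈ B) (hab : G.Adj a b)
    (h1 : ∀ a' ∈ A, ∀ b' ∈ B, G.Adj a' b' → a' = a ∧ b' = b) {w p : V} (hw : w ∈ A)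
    (hp : p ∉ B) (hA : Free G A w p) (hB : Free G B b a) : Free G (A ∪ B) w p := by
  obtain ⟨ca, h0, h2, h3⟩ := hA
  have hb3 := h0 b (disjoint_right.1 hd hb)
  by_cases hwa : w = a
  · subst hwa
    have hg : ca w ≠ 3 := hb3 ▸ (h3 b hab fun k => hp (k ▸ hb)).symm
    obtain ⟨c, c1, c2, -, c4, c5⟩ := glue_aux hG hd ha hb hab h1 ca h0 hg hg hB
    refine ⟨c, fun v hv => by rw [c1 v (by grind), h0 v (by grind)], fun v hv hvw =>
      (mem_union.1 hv).elim (fun k => c5 v k hvw (h2 v k hvw)) (c4 v), fun x hx hxp => ?_⟩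
    rw [c1 w (disjoint_left.1 hd ha)]
    by_cases k : x ∈ B
    · rwa [(h1 w ha x k hx).2]
    · rw [c1 x k]; exact h3 x hx hxp
  · obtain ⟨e, hs, hg, he⟩ := st_ok hG hab (h2 a ha (Ne.symm hwa)) hb3
    obtain ⟨c, c1, c2, c3, c4, c5⟩ := glue_aux hG hd ha hb hab h1 ca h0 hg he hB
    refine ⟨c, fun v hv => by rw [c1 v (by grind), h0 v (by grind)], fun v hv hvw => ?_,
      fun x hx hxp => ?_⟩
    · rcases mem_union.1 hv with k | k
      · by_cases hva : v = a
        · exact hva ▸ hs.2 c (fun x hx hxb => c1 x fun k' => hxb (h1 a ha x k' hx).2)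
            (c1 a (disjoint_left.1 hd ha)) c2 c3
        · exact c5 v k hva (h2 v k hvw)
      · exact c4 v k
    · rw [c1 w (disjoint_left.1 hd hw), c1 x fun k => hwa (h1 w hw x k hx).1]
      exact h3 x hx hxp

theorem good_edge (hG : G.IsRegularOfDegree 3) {t t' : V} (h : G.Adj t t') :
    Good G {t, t'} := by
  obtain ⟨a, b, a1, b1, ab, a2, b2⟩ := nbrs_of1 hG (v := t) t'
  obtain ⟨x, y, x1, y1, xy, x2, y2⟩ := nbrs_of1 hG (v := t') t
  refine ⟨fun v => if v = t then 0 else if v = t' then 1 else 3, fun v hv => by grind,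
    fun v hv => ?_⟩
  rcases mem_insert.1 hv with rfl | k
  · rw [ok_iff hG h a1 b1 a2.symm b2.symm ab]
    simp only [h.ne', a1.ne', b1.ne', a2, b2, if_true, if_false]
    rfl
  · rw [mem_singleton.1 k, ok_iff hG h.symm x1 y1 x2.symm y2.symm xy]
    simp only [h.ne', x1.ne', y1.ne', x2, y2, if_true, if_false]
    rfl

theorem add_leaf (hG : G.IsRegularOfDegree 3) {A : Finset V} {t a : V} (hA : Good G A)
    (ht : t ∉ A) (ha : a ∈ A) (h : G.Adj t a) (h1 : ∀ x ∈ A, G.Adj t x → x = a) :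
    Good G (insert t A) := by
  rw [insert_eq, union_comm]
  exact glue_good hG (disjoint_singleton_right.2 ht) ha (mem_singleton_self t) h.symm
    (fun x hx y hy k => ⟨h1 x hx (mem_singleton.1 hy ▸ k.symm), mem_singleton.1 hy⟩) hA
    (free_single t a)

/-- strong induction on `X`: if `X` is not connected split it and use `good_union`; a closed
part of a closed part is closed -/
theorem comp_ex {X : Finset V} (h : ¬ Good G X) :
    ∃ C, C ⊆ X ∧ C.Nonempty ∧ Conn G C ∧ cut G X C = 0 ∧ ¬ Good G C := by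
  induction X using Finset.strongInduction with
  | H X ih =>
  by_cases hc : Conn G X
  · exact ⟨X, Subset.rfl, nonempty_iff_ne_empty.2 fun e => h (e ▸ good_empty), hc, cut_self X, h⟩
  simp only [Conn, not_forall, not_le, Nat.lt_one_iff] at hc
  obtain ⟨S, hS, hn, hne, h0⟩ := hc
  obtain ⟨T, hT, t0, tg⟩ : ∃ T, T ⊂ X ∧ cut G X T = 0 ∧ ¬ Good G T := by
    by_cases k : Good G S
    · refine ⟨X \ S, sdiff_ssubset hS hn, (cut_compl hS).trans h0, fun k' => h ?_⟩
      rw [← union_sdiff_of_subset hS]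
      exact good_union disjoint_sdiff h0 k k'
    · exact ⟨S, hS.ssubset_of_ne hne, h0, k⟩
  obtain ⟨C, c1, c2, c3, c4, c5⟩ := ih T hT tg
  exact ⟨C, c1.trans hT.subset, c2, c3, cut_eq_zero.2 fun a ha b hb k =>
    cut_eq_zero.1 c4 a ha b (cut_eq_zero.1 t0 a (c1 ha) b hb k) k, c5⟩

end Pool.Agent.Lib.MP_7e4769_co.Sp
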