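import Pool.Agent.Lib.MP_7e4769_co.Sp.Link
import Pool.Agent.Lib.MP_7e4769_co.Sp.Glue

set_option autoImplicit false
set_option linter.unusedSectionVars false

namespace Pool.Agent.Lib.MP_7e4769_co.Sp

open Finset

variable {V : Type} [Fintype V] [DecidableEq V] {G : SimpleGraph V} [DecidableRel G.Adj]

theorem fill_idx {l A B : List V} {t : V} (hn : l.Nodup) (h : l = A ++ t :: B) :
    l.idxOf t = A.length := by
  subst h
  have : t ∉ A := fun ht => (List.nodup_append.1 hn).2.2 t ht t List.mem_cons_self rfl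
  rw [List.idxOf_append_of_notMem this, List.idxOf_cons_self, Nat.add_zero]

theorem fill_mid : ∀ s β : Fin 4, s ≠ 3 → β ≠ 3 → s ≠ β → vok s β β 3 = true := by decide

theorem fill_alt (hG : G.IsRegularOfDegree 3) {U : Finset V} {z z' : V} {l : List V}
    (h : Link G U z l z') {s β : Fin 4} (hs : s ≠ 3) (hβ : β ≠ 3) (hsβ : s ≠ β) {c : V → Fin 4}
    (hc : ∀ A t B, l = A ++ t :: B → c t = if A.length % 2 = 0 then s else β)
    (h3 : ∀ v, v ∉ U → c v = 3) (h1 : l.length = 1 → vok s (c z) (c z') 3 = true)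
    (h2 : 2 ≤ l.length → vok s (c z) β 3 = true)
    (h4 : 2 ≤ l.length → l.length % 2 = 0 → vok β s (c z') 3 = true)
    (h5 : 2 ≤ l.length → l.length % 2 = 1 → vok s β (c z') 3 = true) :
    ∀ t ∈ l, ok G c t := by
  intro t ht
  have hd := (h.inn t ht).2
  obtain ⟨A, B, e⟩ := List.append_of_mem ht
  obtain ⟨p, hp, hpa⟩ := ex_out hG (U := U) (v := t) (by omega)
  obtain ⟨a1, a2, a3, a4, a5, -⟩ := Link.split (e ▸ h : Link G U z (A ++ t :: B) z')
  rw [ok_iff hG a1 a2 hpa a3 (fun x => hp (x ▸ a4)) (fun x => hp (x ▸ a5)), h3 p hp,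
    hc A t B e]
  have hl : l.length = A.length + B.length + 1 := by
    rw [e, List.length_append, List.length_cons]
    omega
  rcases List.eq_nil_or_concat' A with rfl | ⟨A', u, rfl⟩
  · rcases B with _ | ⟨w, B'⟩
    · exact h1 hl
    · have := hc [t] w B' e
      simp only [List.length_cons, List.length_nil] at this hl
      simp only [List.reverse_nil, fst_nil, fst_cons, this]
      exact h2 (by omega)
  · have hu := hc A' u (t :: B) (by rw [e, List.append_assoc]; rfl)
    have e1 : fst (A' ++ [u]).reverse z = u := by simp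
    have e2 : (A' ++ [u]).length = A'.length + 1 := by simp
    rw [e1, hu, e2]
    rw [e2] at hl
    rcases B with _ | ⟨w, B'⟩
    · simp only [List.length_nil] at hl
      rw [fst_nil]
      rcases Nat.mod_two_eq_zero_or_one A'.length with q | q
      · rw [if_neg (by omega), if_pos q]
        exact h4 (by omega) (by omega)
      · rw [if_pos (by omega), if_neg (by omega)]
        exact h5 (by omega) (by omega)
    · have hw := hc (A' ++ [u] ++ [t]) w B' (by rw [e]; simp)
      have e3 : (A' ++ [u] ++ [t]).length = A'.length + 2 := by simp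
      rw [fst_cons, hw, e3]
      rcases Nat.mod_two_eq_zero_or_one A'.length with q | q
      · rw [if_neg (by omega), if_pos q, if_pos (by omega)]
        exact fill_mid _ _ hβ hs hsβ.symm
      · rw [if_pos (by omega), if_neg (by omega), if_neg (by omega)]
        exact fill_mid _ _ hs hβ hsβ

theorem fill_t0 : ∀ a s r b : Fin 4, compat 0 a s r b = true → b = s ∧ a = r := by decide

theorem fill_t1 : ∀ a s r b : Fin 4, compat 1 a s r b = true →
    ∃ β, s ≠ 3 ∧ β ≠ 3 ∧ s ≠ β ∧ s = r ∧ vok s a b 3 = true := by decide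

theorem fill_t2 : ∀ a s r b : Fin 4, compat 2 a s r b = true →
    s ≠ 3 ∧ r ≠ 3 ∧ s ≠ r ∧ vok s a r 3 = true ∧ vok r s b 3 = true := by decide

theorem fill_t3 : ∀ a s r b : Fin 4, compat 3 a s r b = true →
    ∃ β, s ≠ 3 ∧ β ≠ 3 ∧ s ≠ β ∧ s = r ∧ vok s a β 3 = true ∧ vok s β b 3 = true := by decide

theorem fill_gen (hG : G.IsRegularOfDegree 3) {U : Finset V} {z z' : V} {l : List V}
    (h : Link G U z l z') {a s r b β : Fin 4} (h0 : 1 ≤ l.length) (hs : s ≠ 3) (hβ : β ≠ 3)
    (hsβ : s ≠ β) (hr : r = if l.length % 2 = 0 then β else s)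
    (h1 : l.length = 1 → vok s a b 3 = true) (h2 : 2 ≤ l.length → vok s a β 3 = true)
    (h4 : 2 ≤ l.length → l.length % 2 = 0 → vok β s b 3 = true)
    (h5 : 2 ≤ l.length → l.length % 2 = 1 → vok s β b 3 = true) :
    ∃ f : V → Fin 4, ∀ c : V → Fin 4, (∀ t ∈ l, c t = f t) → c z = a → c z' = b →
      (∀ v, v ∉ U → c v = 3) →
      (∀ t ∈ l, ok G c t) ∧ c (fst l z') = s ∧ c (fst l.reverse z) = r := by
  have hn : l.Nodup := (List.nodup_append.1 (List.nodup_cons.1 h.nd).2).1
  refine ⟨fun t => if l.idxOf t % 2 = 0 then s else β, fun c hf ha hb h3 => ?_⟩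
  have hc : ∀ A t B, l = A ++ t :: B → c t = if A.length % 2 = 0 then s else β := by
    intro A t B e
    rw [hf t (by rw [e]; simp), ← fill_idx hn e]
  subst ha hb
  refine ⟨fill_alt hG h hs hβ hsβ hc h3 h1 h2 h4 h5, ?_, ?_⟩
  · rcases l with _ | ⟨t, B⟩
    · simp at h0
    · exact hc [] t B rfl
  · rcases List.eq_nil_or_concat' l with rfl | ⟨A, u, rfl⟩
    · simp at h0
    · have e1 : fst (A ++ [u]).reverse z = u := by simp
      have e2 : (A ++ [u]).length = A.length + 1 := by simp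
      rw [e1, hc A u [] rfl, hr, e2]
      rcases Nat.mod_two_eq_zero_or_one A.length with q | q
      · rw [if_pos q, if_neg (by omega)]
      · rw [if_neg (by omega), if_pos (by omega)]

/-- Inner vertices get the colours `s, β, s, β, ...` with `β = r` for type 2; every inner vertex
has its two neighbours on the path (`Link.split`) and a third one outside `U` (`ex_out`). -/
theorem link_fill (hG : G.IsRegularOfDegree 3) {U : Finset V} {z z' : V} {l : List V}
    (h : Link G U z l z') {a s r b : Fin 4} (hc : compat (ty l) a s r b = true) :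
    ∃ f : V → Fin 4, ∀ c : V → Fin 4, (∀ t ∈ l, c t = f t) → c z = a → c z' = b →
      (∀ v, v ∉ U → c v = 3) →
      (∀ t ∈ l, ok G c t) ∧ c (fst l z') = s ∧ c (fst l.reverse z) = r := by
  unfold ty at hc
  split_ifs at hc with q0 q1 q2
  · obtain rfl := List.length_eq_zero_iff.1 q0
    obtain ⟨rfl, rfl⟩ := fill_t0 _ _ _ _ hc
    exact ⟨fun _ => 0, fun c _ ha hb _ => ⟨fun t ht => absurd ht List.not_mem_nil, hb, ha⟩⟩
  · obtain ⟨β, k1, k2, k3, rfl, k5⟩ := fill_t1 _ _ _ _ hc
    exact fill_gen hG h (by omega) k1 k2 k3 (if_neg (by omega)).symm (fun _ => k5)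
      (fun _ => by omega) (fun _ => by omega) (fun _ => by omega)
  · obtain ⟨k1, k2, k3, k4, k5⟩ := fill_t2 _ _ _ _ hc
    exact fill_gen hG h (by omega) k1 k2 k3 (if_pos q2).symm (fun _ => by omega)
      (fun _ => k4) (fun _ _ => k5) (fun _ _ => by omega)
  · obtain ⟨β, k1, k2, k3, rfl, k5, k6⟩ := fill_t3 _ _ _ _ hc
    exact fill_gen hG h (by omega) k1 k2 k3 (if_neg q2).symm (fun _ => by omega)
      (fun _ => k5) (fun _ _ => by omega) (fun _ _ => k6)

theorem fill_pick : ∀ t e e' : Fin 4, t = 2 ∨ t = 3 → ∃ s r, compat t 3 s r 3 = true ∧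
    s ≠ 3 ∧ s ≠ e ∧ r ≠ 3 ∧ r ≠ e' := by decide

theorem fill_end (hG : G.IsRegularOfDegree 3) {U X : Finset V} {x y : V} {l : List V}
    (h : Link G U x l y) (hxy : ¬ G.Adj x y)
    (hX : ∀ w, w ∈ X ↔ w ∈ U ∧ w ≠ x ∧ w ≠ y ∧ w ∉ l) {c : V → Fin 4}
    (hk : ∀ v ∈ X, ok G c v) :
    (∀ w, G.Adj x w → w ≠ fst l y → w ∉ l) ∧ ∃ e, St G c x (fst l y) e := by
  have h1 : ∀ w, G.Adj x w → w ≠ fst l y → w ∉ l := fun w hw hn hl => by
    rcases h.nb hl h.memU.1 hw.symm with q | q | q
    · exact h.notK q h.hz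
    · exact hn q.2
    · exact h.ne q.1
  refine ⟨h1, st_free hG h.adj_fst fun w hw hn => ?_⟩
  exact ((hk w ((hX w).2 ⟨dg3_mem hG (mem_Kn.1 h.hz).2 hw, hw.ne', fun q => hxy (q ▸ hw),
    h1 w hw hn⟩)).1 x hw.symm).symm

/-- Move M2: both ends of a long link get colour 3. The other neighbours of `x` lie in the
remainder (`Link.nb`, `hxy` and the fact that only the first inner vertex is adjacent to `x`), so
they are finite and `st_free` gives states `(3, e)`, `(3, e')`; choose `s ≠ e`, `r ≠ e'` finite,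
different for type 2, equal for type 3. -/
theorem m2 (hG : G.IsRegularOfDegree 3) {U X : Finset V} {x y : V} {l : List V}
    (h : Link G U x l y) (h2 : 2 ≤ l.length) (hxy : ¬ G.Adj x y)
    (hX : ∀ w, w ∈ X ↔ w ∈ U ∧ w ≠ x ∧ w ≠ y ∧ w ∉ l) (hg : Good G X) : Good G U := by
  obtain ⟨c₀, h3, hk⟩ := hg
  obtain ⟨n1, e, -, he⟩ := fill_end hG h hxy hX hk
  obtain ⟨n2, e', -, he'⟩ := fill_end hG h.symm (fun q => hxy q.symm)
    (fun w => by rw [hX w, List.mem_reverse]; tauto) hk
  obtain ⟨s, r, hc, s3, se, r3, re⟩ := fill_pick (ty l) e e' (by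
    unfold ty
    rw [if_neg (by omega), if_neg (by omega)]
    split_ifs
    · exact Or.inl rfl
    · exact Or.inr rfl)
  obtain ⟨f, hf⟩ := link_fill hG h hc
  have hx : x ∉ l := fun q => h.notK q h.hz
  have hy : y ∉ l := fun q => h.notK q h.hz'
  have cx : c₀ x = 3 := h3 x fun q => ((hX x).1 q).2.1 rfl
  have cy : c₀ y = 3 := h3 y fun q => ((hX y).1 q).2.2.1 rfl
  have ho : ∀ v, v ∉ U → (if v ∈ l then f v else c₀ v) = 3 := fun v hv => by
    rw [if_neg fun q => hv (h.inn v q).1]
    exact h3 v fun q => hv ((hX v).1 q).1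
  obtain ⟨k1, k2, k3⟩ := hf (fun v => if v ∈ l then f v else c₀ v) (fun t ht => if_pos ht)
    ((if_neg hx).trans cx) ((if_neg hy).trans cy) ho
  refine ⟨fun v => if v ∈ l then f v else c₀ v, ho, fun v hv => ?_⟩
  by_cases q : v ∈ l
  · exact k1 v q
  by_cases q1 : v = x
  · subst q1
    exact he _ (fun w hw hn => if_neg (n1 w hw hn)) (if_neg hx) (by rw [k2, cx]; exact s3)
      (by rw [k2]; exact se)
  by_cases q2 : v = y
  · subst q2
    exact he' _ (fun w hw hn => if_neg fun q' => n2 w hw hn (List.mem_reverse.2 q')) (if_neg hy)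
      (by rw [k3, cy]; exact r3) (by rw [k3]; exact re)
  refine ok_congr (if_neg q) (fun w hw => if_neg fun q' => ?_) (hk v ((hX v).2 ⟨hv, q1, q2, q⟩))
  rcases h.nb q' hv hw.symm with u | u | u
  · exact q u
  · exact q1 u.1
  · exact q2 u.1

/-- adding the inner vertex of a short link whose end `z'` is in `A` and whose end `z` is not -/
theorem add_short (hG : G.IsRegularOfDegree 3) {U A : Finset V} (hA : A ⊆ U) {z z' : V}
    {l : List V} (h : Link G U z l z') (h1 : l.length ≤ 1) (hz : z ∉ A) (hz' : z' ∈ A)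
    (hg : Good G A) : Good G (A ∪ l.toFinset) := by
  rcases l with _ | ⟨t, _ | ⟨u, l⟩⟩
  · simpa using hg
  · have e : A ∪ [t].toFinset = insert t A := by
      ext v
      simp
    rw [e]
    by_cases ht : t ∈ A
    · rwa [insert_eq_of_mem ht]
    · obtain ⟨-, a2, a3⟩ := h.one
      exact add_leaf hG hg ht hz' a2 fun w hw ha => (a3 w (hA hw) ha).resolve_left
        fun q => hz (q ▸ hw)
  · simp only [List.length_cons] at h1
    omega

end Pool.Agent.Lib.MP_7e4769_co.Sp
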