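import Pool.Agent.Lib.MP_7e4769_co.Sp.End
import Pool.Agent.Lib.MP_7e4769_co.Sp.Core

set_option autoImplicit false
set_option linter.unusedSectionVars false

namespace Pool.Agent.Lib.MP_7e4769_co.Sp

open Finset

variable {V : Type} [Fintype V] [DecidableEq V] {G : SimpleGraph V} [DecidableRel G.Adj]

/-- `comp_ex` gives `C`, degrees in `C` and in `R` agree; `min_end` gives `P`, not good by
`end_good`, not cubic because `G` is connected and `R` is not everything; `Bad.pair` with `f` the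
end in `P` of the only edge from `P` to `C \ P`, if there is one. -/
theorem rest_good (hG : G.IsRegularOfDegree 3) (hU : ∀ n, HU G n) (hA : ∀ n, HA G n)
    (hc : Conn G univ) {R : Finset V} (hR : R ≠ univ) (h2 : ∀ v ∈ R, 2 ≤ dg G R v)
    (h3 : ∀ a ∈ R, ∀ b ∈ R, G.Adj a b → dg G R a = 3 ∨ dg G R b = 3) : Good G R := by
  by_contra hng
  obtain ⟨C, hCR, hCn, hCc, hC0, hCg⟩ := comp_ex hng
  have hcl := cut_eq_zero.1 hC0
  have hdg : ∀ v ∈ C, dg G C v = dg G R v := fun v hv =>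
    dg_congr fun w hw => ⟨fun h => hCR h, fun h => hcl v hv w h hw⟩
  obtain ⟨P, hPC, hP1, hPe⟩ := min_end (G := G) hCn (fun v hv => by
    rw [hdg v hv]; exact h2 v (hCR hv))
  have hPn : P.Nonempty := card_pos.1 (lt_of_lt_of_le (by norm_num) hPe.1)
  have hPg : ¬ Good G P := fun hg => hCg (end_good hG (hA C.card) le_rfl hCc hPC hPn hg hP1)
  have hnc : NC G P := by
    by_contra hn
    have h3' : ∀ v ∈ P, dg G P v = 3 := fun v hv => by
      by_contra h
      exact hn ⟨v, hv, h⟩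
    have hPu : P = univ := hc.eq_of_closed (subset_univ P) hPn
      (fun a ha b _ hab => dg3_mem hG (h3' a ha) hab)
    exact hR (univ_subset_iff.1 (hPu ▸ hPC.trans hCR))
  have hb : Bad G P := hU (P.card + 1) P (Nat.lt_succ_self _) hPe hnc hPg
  have hf : ∃ f : V, ∀ a ∈ P, a ≠ f → ∀ b ∈ C, G.Adj a b → b ∈ P := by
    by_cases he : ∃ a ∈ P, ∃ b ∈ C, b ∉ P ∧ G.Adj a b
    · obtain ⟨f, hfP, g, hgC, hgP, hfg⟩ := he
      refine ⟨f, fun a ha haf b hb' hab => ?_⟩
      by_contra hbP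
      exact haf (cut_one_uniq hP1 hfP hgC hgP hfg a ha b hb' hbP hab).1
    · obtain ⟨f, _⟩ := hPn
      refine ⟨f, fun a ha _ b hb' hab => ?_⟩
      by_contra hbP
      exact he ⟨a, ha, b, hb', hbP, hab⟩
  obtain ⟨f, hf⟩ := hf
  obtain ⟨a, ha, b, hb', hab, da, db, haf, hbf⟩ := Bad.pair hG hPe hb f
  have key : ∀ x ∈ P, x ≠ f → dg G P x = dg G R x := fun x hx hxf => by
    rw [← hdg x (hPC hx)]
    exact dg_congr fun w hw => ⟨fun h => hPC h, fun h => hf x hx hxf w h hw⟩
  have ea := key a ha haf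
  have eb' := key b hb' hbf
  rcases h3 a (hCR (hPC ha)) b (hCR (hPC hb')) hab with h | h <;> omega

end Pool.Agent.Lib.MP_7e4769_co.Sp
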