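import Pool.Agent.Lib.MP_7e4769_co.Sp.Start

set_option autoImplicit false
set_option linter.unusedSectionVars false

namespace Pool.Agent.Lib.MP_7e4769_co.Sp

open Finset

variable {V : Type} [Fintype V] [DecidableEq V] {G : SimpleGraph V} [DecidableRel G.Adj]

theorem st2_cong {m : ℕ} {z o : ℕ → V} (h : Cy G m z o) {i j : ℕ} (e : i ≡ j [MOD 2 * m]) :
    z i = z j := by
  rw [← (h.mod i).1, ← (h.mod j).1, e]

theorem st2_form {m : ℕ} {z o : ℕ → V} (h : Cy G m z o) {v : V} (hv : v ∈ Zs m z) :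
    ∃ i < m, v = z (2 * i + 1) ∨ v = z (2 * i + 2) := by
  obtain ⟨k, hk, rfl⟩ := mem_image.1 hv
  rw [mem_range] at hk
  rcases Nat.eq_zero_or_pos k with rfl | h0
  · refine ⟨m - 1, by omega, Or.inr ?_⟩
    rw [show 2 * (m - 1) + 2 = 0 + 2 * m by omega, h.per]
  · refine ⟨(k - 1) / 2, by omega, ?_⟩
    rcases Nat.mod_two_eq_zero_or_one k with e | e
    · exact Or.inr (congrArg z (by omega))
    · exact Or.inl (congrArg z (by omega))

theorem st2_par {m : ℕ} {z o : ℕ → V} (h : Cy G m z o) (i j : ℕ) : z (2 * i + 1) ≠ z (2 * j) := by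
  intro e
  have h1 : (2 * i + 1) % 2 = 2 * j % 2 := Nat.ModEq.of_mul_right m (h.par e)
  omega

theorem st2_vok : ∀ a b : Fin 4, a ≠ 3 → b ≠ 3 → b ≠ a →
    vok a b 3 3 = true ∧ vok b 3 3 a = true := by
  decide

/-- Colour the rest, then `Ws` by `greedy`, then the odd positions by `dp_fin` with
`a i = c (o (2 * i + 1))`, `b i = c (o (2 * i + 2))`. -/
theorem start_good (hG : G.IsRegularOfDegree 3) {m : ℕ} {z o : ℕ → V} (h : Cy G m z o)
    (hv : Valid G m z o) (hg : Good G (Rs G m z o)) : ∃ c : V → Fin 4, ∀ v, ok G c v := by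
  classical
  obtain ⟨c0, h0, hR⟩ := hg
  have mR : ∀ v, v ∈ Rs G m z o ↔ v ∉ Zs m z ∧ v ∉ Ws m o ∧ v ∉ Js G m z o := fun v => by
    simp [Rs, not_or]
  have mJ : ∀ v, v ∈ Js G m z o ↔ v ∉ Zs m z ∧ ∃ w ∈ Ws m o, G.Adj v w := fun v => by
    simp only [Js, mem_filter, mem_univ, true_and]
  have zZ : ∀ i, z i ∈ Zs m z := fun i => h.mem_Zs.2 ⟨i, rfl⟩
  have oW : ∀ i, o (2 * i + 1) ∈ Ws m o := fun i => h.mem_Ws.2 ⟨i, rfl⟩
  have zS : ∀ i, z (2 * i) ∈ Ss G m z o := fun i => h.mem_Ss.2 (Or.inl ⟨i, rfl⟩)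
  have JS : ∀ v ∈ Js G m z o, v ∈ Ss G m z o := fun v a => h.mem_Ss.2 (Or.inr a)
  have WZ : ∀ w ∈ Ws m o, w ∉ Zs m z := fun w a => by
    obtain ⟨i, rfl⟩ := h.mem_Ws.1 a
    exact hv.h1 i
  have WJ : ∀ w ∈ Ws m o, w ∉ Js G m z o := fun w a b => by
    obtain ⟨i, rfl⟩ := h.mem_Ws.1 a
    obtain ⟨-, w', a', b'⟩ := (mJ _).1 b
    obtain ⟨j, rfl⟩ := h.mem_Ws.1 a'
    exact hv.h3 i j b'
  have odd : ∀ i x, G.Adj (z (2 * i + 1)) x → x ∉ Zs m z → x = o (2 * i + 1) := fun i x a b => by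
    rcases h.nb hG (2 * i) a with e | e | e
    · exact absurd (e ▸ zZ _) b
    · exact absurd (e ▸ zZ _) b
    · exact e
  have fin : ∀ y ∈ Ss G m z o, ∀ x ∈ Rs G m z o, G.Adj y x → c0 x ≠ 3 := fun y hy x hx a e => by
    refine (hR x hx).1 y a.symm ((h0 y fun b => ?_).trans e.symm)
    rcases h.mem_Ss.1 hy with ⟨i, rfl⟩ | d
    · exact ((mR _).1 b).1 (zZ _)
    · exact ((mR _).1 b).2.2 d
  obtain ⟨c1, k1, k2, k3⟩ := greedy hG (W := Ws m o) (J := Js G m z o) c0 WJ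
    (fun w a => by
      obtain ⟨i, rfl⟩ := h.mem_Ws.1 a
      exact dg_le_two_of_out hG (fun b => ((mJ _).1 b).1 (zZ _)) (h.oadj _).symm)
    (fun j a => h0 j fun b => ((mR _).1 b).2.2 a)
    (fun j a x b d => by
      refine fin j (JS j a) x ((mR x).2 ⟨fun e => ?_, d, fun e => hv.h4 j (JS j a) x (JS x e) b⟩) b
      obtain ⟨i, -, rfl | rfl⟩ := st2_form h e
      · exact WJ _ (odd i j b.symm ((mJ _).1 a).1 ▸ oW i) a
      · exact hv.h4 j (JS j a) _ (zS (i + 1)) b)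
    fun j a => ((mJ _).1 a).2
  have eZ : ∀ i, o (2 * i + 2) ∉ Zs m z := fun i a => by
    have b := h.oadj (2 * i + 2)
    obtain ⟨l, -, e | e⟩ := st2_form h a
    · rw [e] at b
      rcases h.nb hG (2 * l) b.symm with d | d | d
      · exact h.on (2 * i + 2) (e.trans (st2_cong h (Nat.ModEq.add_right 1 (h.par d).symm)))
      · exact h.op (2 * i + 1) (e.trans (st2_cong h
          (Nat.ModEq.add_right_cancel' 1 (h.par d).symm)))
      · exact hv.h1 l (d ▸ zZ _)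
    · exact hv.h4 _ (zS (i + 1)) _ (zS (l + 1)) (e ▸ b)
  obtain ⟨s, s1, s2, s3, s4⟩ := dp_fin m (by have := h.hm; omega) (fun i => c1 (o (2 * i + 1)))
    (fun i => c1 (o (2 * i + 2))) (fun i => k2 _ (oW i)) fun i => by
      by_cases a : o (2 * i + 2) ∈ Ws m o
      · exact k2 _ a
      · have b := h.oadj (2 * i + 2)
        exact (k1 _ a).trans_ne (fin _ (zS (i + 1)) _ ((mR _).2 ⟨eZ i, a,
          fun e => hv.h4 _ (zS (i + 1)) _ (JS _ e) b⟩) b)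
  obtain ⟨c, q1, q2⟩ : ∃ c : V → Fin 4, (∀ i < m, c (z (2 * i + 1)) = s i) ∧
      ∀ v, (∀ i, z (2 * i + 1) ≠ v) → c v = c1 v := by
    refine ⟨fun v => if a : ∃ i < m, z (2 * i + 1) = v then s a.choose else c1 v,
      fun i hi => ?_, fun v a => dif_neg fun ⟨i, _, b⟩ => a i b⟩
    have a : ∃ j < m, z (2 * j + 1) = z (2 * i + 1) := ⟨i, hi, rfl⟩
    have b := h.inj _ (by have := a.choose_spec.1; omega) _ (by omega) a.choose_spec.2
    exact (dif_pos a).trans (congrArg s (by omega))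
  have q3 : ∀ v, v ∉ Zs m z → c v = c1 v := fun v a => q2 v fun i e => a (e ▸ zZ _)
  have q4 : ∀ v ∈ Ss G m z o, c v = c0 v ∧ c v = 3 := fun v a => by
    have e : c v = c0 v ∧ v ∉ Rs G m z o := by
      rcases h.mem_Ss.1 a with ⟨i, rfl⟩ | d
      · exact ⟨(q2 _ fun j => st2_par h j i).trans (k1 _ fun b => WZ _ b (zZ _)),
          fun b => ((mR _).1 b).1 (zZ _)⟩
      · exact ⟨(q3 _ ((mJ _).1 d).1).trans (k1 _ fun b => WJ _ b d), fun b => ((mR _).1 b).2.2 d⟩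
    exact ⟨e.1, e.1.trans (h0 v e.2)⟩
  have q5 : ∀ v ∈ Rs G m z o, c v = c0 v := fun v a =>
    (q3 v ((mR v).1 a).1).trans (k1 v ((mR v).1 a).2.1)
  refine ⟨c, fun v => ?_⟩
  by_cases hZ : v ∈ Zs m z
  · obtain ⟨i, hi, rfl | rfl⟩ := st2_form h hZ
    · rw [ok_iff hG (h.adj (2 * i)).symm (h.adj (2 * i + 1)) (h.oadj _) (h.ne2 _) (h.op _).symm
        (h.on _).symm, q1 i hi, (q4 _ (zS i)).2, (q4 (z (2 * i + 1 + 1)) (zS (i + 1))).2,
        q3 _ (hv.h1 i)]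
      exact (st2_vok _ _ (k2 _ (oW i)) (s2 i) (s3 i hi)).2
    · have e : c (z (2 * i + 2 + 1)) = s (i + 1) := by
        rcases (Nat.succ_le_of_lt hi).eq_or_lt with e | e
        · rw [show 2 * i + 2 + 1 = 2 * 0 + 1 + 2 * m by omega, h.per, q1 0 (by omega), ← s1, ← e]
        · exact q1 (i + 1) e
      rw [ok_iff hG (h.adj (2 * i + 1)).symm (h.adj (2 * i + 2)) (h.oadj _) (h.ne2 _) (h.op _).symm
        (h.on _).symm, q1 i hi, e, (q4 (z (2 * i + 1 + 1)) (zS (i + 1))).2, q3 _ (eZ i)]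
      exact s4 i hi
  by_cases hW : v ∈ Ws m o
  · obtain ⟨i, hi, rfl⟩ := mem_image.1 hW
    rw [mem_range] at hi
    have key : ∀ x, G.Adj (o (2 * i + 1)) x → x ≠ z (2 * i + 1) → c x = 3 := fun x a b => by
      by_cases d : x ∈ Zs m z
      · obtain ⟨l, hl, rfl | rfl⟩ := st2_form h d
        · exact absurd (by rw [hv.h2 i hi l hl (odd l _ a.symm hZ)]) b
        · exact (q4 _ (zS (l + 1))).2
      · exact (q4 _ (JS _ ((mJ _).2 ⟨d, _, hW, a.symm⟩))).2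
    obtain ⟨a, b, a1, a2, a3, a4, a5⟩ := nbrs_of1 hG (v := o (2 * i + 1)) (z (2 * i + 1))
    rw [ok_iff hG (h.oadj _).symm a1 a2 a4.symm a5.symm a3, q1 i hi, key a a1 a4, key b a2 a5,
      q3 _ hZ]
    exact (st2_vok _ _ (k2 _ hW) (s2 i) (s3 i hi)).1
  by_cases hJ : v ∈ Js G m z o
  · refine ok_congr (q3 v hZ) (fun w a => q2 w fun i e => hW ?_) (k3 v hJ)
    rw [odd i v (e ▸ a.symm) hZ]
    exact oW i
  · have a := (mR v).2 ⟨hZ, hW, hJ⟩
    refine ok_congr (q5 v a) (fun w b => ?_) (hR v a)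
    by_cases d : w ∈ Rs G m z o
    · exact q5 w d
    · exact (q4 w (h.rest_nb hG a d b)).1

end Pool.Agent.Lib.MP_7e4769_co.Sp
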