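import Pool.Agent.Lib.MP_7e4769_co.Sp.Main
import Pool.Agent.Lib.MP_7e4769_co.Sp.Rest
import Pool.Agent.Lib.MP_7e4769_co.Sp.Clean
import Pool.Agent.Lib.MP_7e4769_co.Sp.Conv
import Pool.Agent.Lib.MP_7e4769_co.Sp.Start2

set_option autoImplicit false
set_option linter.unusedSectionVars false

namespace Pool.Agent.Lib.MP_7e4769_co.Sp

open Finset

variable {V : Type} [Fintype V] [DecidableEq V] {G : SimpleGraph V} [DecidableRel G.Adj]

theorem clean_good (hG : G.IsRegularOfDegree 3) (hc : G.Connected) (hs : Sparse G 100) {m : ℕ}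
    {z o : ℕ → V} (h : Cy G m z o) (hcl : Clean G (Zs m z)) : ∃ c : V → Fin 4, ∀ v, ok G c v := by
  refine start_good hG h (h.valid hG hcl) (rest_good hG (hU_all hG hs) (hA_all hG hs)
    (conn_univ hc) ?_ (h.rest2 hG hcl) (h.rest3 hG hcl))
  intro h1
  have h2 : z 0 ∈ Rs G m z o := h1 ▸ mem_univ _
  have h3 : z 0 ∈ Zs m z := h.mem_Zs.2 ⟨0, rfl⟩
  simp only [Rs, mem_sdiff, mem_union] at h2
  exact h2.2 (Or.inl (Or.inl h3))

theorem sparse_clean (hG : G.IsRegularOfDegree 3) (hc : G.Connected)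
    (hs : ∀ A : Finset V, A.card ≤ 100 → {e ∈ G.edgeSet | ∀ v ∈ e, v ∈ A}.ncard ≤ A.card)
    {v : V} (p : G.Walk v v) (hp : p.IsCycle) (he : Even p.length)
    (hcl : ∀ A : Finset V, (∀ a ∈ A, ∃ x ∈ p.support, G.dist a x ≤ 3) →
      {e ∈ G.edgeSet | ∀ v ∈ e, v ∈ A}.ncard ≤ A.card) :
    ∃ c : V → Fin 4, (∀ u v : V, G.Adj u v → c u ≠ c v) ∧
      ∀ v : V, ((G.neighborFinset v).image c).card = 2 := by
  obtain ⟨m, z, o, h, hz⟩ := cy_of_cycle hG p hp he
  obtain ⟨c, h1⟩ := clean_good hG hc (fun A hA => by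
    rw [eb_self]; have := hs A hA; omega) h (fun A hA _ => by
    rw [eb_self]
    have := hcl A (fun a ha => by
      obtain ⟨x, hx, h2⟩ := near_dist hc (hA a ha)
      exact ⟨x, (hz x).1 hx, h2⟩)
    omega)
  exact ⟨c, fun u v huv => ((h1 u).1 v huv).symm, fun v => (h1 v).2⟩

end Pool.Agent.Lib.MP_7e4769_co.Sp
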