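import Pool.Agent.Lib.MP_7e4769_co.Sp.Dig
import Pool.Agent.Lib.MP_7e4769_co.Sp.TabB

set_option autoImplicit false
set_option linter.unusedSectionVars false

namespace Pool.Agent.Lib.MP_7e4769_co.Sp

open Finset

variable {V : Type} [Fintype V] [DecidableEq V] {G : SimpleGraph V} [DecidableRel G.Adj]

theorem k4_third {U : Finset V} (hc : Ctx G U) {u v p1 p2 : V} {a b c d : List V}
    (hn : [u, v, p1, p2].Nodup) (h0 : Link G U u [] v) (ha : Link G U u a p1)
    (hb : Link G U p1 b v) (hc' : Link G U u c p2) (hd : Link G U p2 d v) :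
    ∃ e x, Star G U p1 a.reverse u b v e x ∧ u ≠ x ∧ v ≠ x := by
  simp only [List.nodup_cons, List.mem_cons, List.not_mem_nil, not_or, or_false] at hn
  obtain ⟨⟨n1, n2, n3⟩, ⟨n4, n5⟩, n6, -⟩ := hn
  have su : Star G U u [] v a p1 c p2 := ⟨h0, ha, hc', fun h => n4 (congrArg Prod.snd h),
    fun h => n5 (congrArg Prod.snd h), fun h => n6 (congrArg Prod.snd h)⟩
  have sv : Star G U v [] u b.reverse p1 d.reverse p2 := ⟨h0.symm, hb.symm, hd.symm,
    fun h => n2 (congrArg Prod.snd h), fun h => n3 (congrArg Prod.snd h),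
    fun h => n6 (congrArg Prod.snd h)⟩
  obtain ⟨e, x, s⟩ := star_ex2 hc.cub hc.ec ha.symm hb fun h => n1 (congrArg Prod.snd h)
  refine ⟨e, x, s, fun h => ?_, fun h => ?_⟩
  · subst h
    rcases su.all hc.cub s.h3.symm with h | h | h
    · exact n4 h.2.symm
    · exact s.n13 (by rw [← h.1, List.reverse_reverse])
    · exact n6 h.2
  · subst h
    rcases sv.all hc.cub s.h3.symm with h | h | h
    · exact n2 h.2.symm
    · exact s.n23 (by rw [List.reverse_injective h.1])
    · exact n6 h.2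

/-- Third link `(e1, x1)` at `p1` by `star_ex2`; `x1 ≠ u, v` by `Star.all` at `u`, `v`. If
`x1 = p2`: net `nK4c`, `acc_k4c`, `Emb.closed`. Otherwise third link `(e2, x2)` at `p2`, net `nK4m`,
`Emb0.two`, `acc_k4m`, `Emb.good_G3` with `g = 5`. -/
theorem k4_long {U : Finset V} (hc : Ctx G U) {u v p1 p2 : V} {a b c d : List V}
    (hn : [u, v, p1, p2].Nodup) (h0 : Link G U u [] v) (ha : Link G U u a p1)
    (hb : Link G U p1 b v) (hc' : Link G U u c p2) (hd : Link G U p2 d v) (hl : 2 ≤ a.length) :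
    False := by
  have hn' : [u, v, p2, p1].Nodup := (List.Perm.cons _ (List.Perm.cons _
    (List.Perm.swap _ _ _))).nodup_iff.1 hn
  obtain ⟨e1, x1, s1, a1, a2⟩ := k4_third hc hn h0 ha hb hc' hd
  by_cases hx : x1 = p2
  · subst hx
    refine hc.ng (Emb.closed hc.cub hc.ec (κ := fun i => [u, v, p1, x1].getD i u)
      (lam := fun e => [[], a, b, c, d, e1].getD e []) nK4c_wf
      (Emb.of_simple nK4c_wf (by decide) (inj_of_nodup hn u) fun e he => ?_) acc_k4c
      (fun e he => ?_) rfl (by decide))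
    · have he' : e < 6 := he
      interval_cases e
      exacts [h0, ha, hb, hc', hd, s1.h3]
    · have he' : e < 6 := he
      interval_cases e
      exacts [ty_zero rfl, ty_long hl, ty_any _, ty_any _, ty_any _, ty_any _]
  obtain ⟨e2, x2, s2, b1, b2⟩ := k4_third hc hn' h0 hc' hd ha hb
  have a3 := s1.h3.ne
  have b3 := s2.h3.ne
  simp only [List.nodup_cons, List.mem_cons, List.not_mem_nil, not_or, or_false] at hn
  obtain ⟨⟨n1, n2, n3⟩, ⟨n4, n5⟩, n6, -⟩ := hn
  have b4 : p1 ≠ x2 := fun h => by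
    subst h
    rcases s1.all hc.cub s2.h3.symm with h | h | h
    exacts [n3 h.2.symm, n5 h.2.symm, hx h.2.symm]
  have hi : ∀ i < 4, ∀ j < 6, [u, v, p1, p2, x1, x2].getD i u = [u, v, p1, p2, x1, x2].getD j u →
      i = j := fun i hi j hj h => by
    interval_cases i <;> interval_cases j <;> first
      | rfl
      | exact absurd h (by assumption)
      | exact absurd h.symm (by assumption)
  have hs : ∀ e < 7, ∀ e' < 7, nK4m.src e = nK4m.src e' → nK4m.dst e < 6 ∧ nK4m.dst e' < 6 ∧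
      (nK4m.dst e = nK4m.dst e' → e = e') ∧ (e = e' ∨ nK4m.dst e < 4 ∨ nK4m.dst e' < 4) :=
    fun e he e' he' => by interval_cases e <;> interval_cases e' <;> decide
  have hC : ∀ k < 6, cll [0, 0, 0, 0, 0, 2] k ≠ 1 := by decide
  refine hc.ng (Emb.good_G3 hc.cub hc.ec hc.hA (κ := fun i => [u, v, p1, p2, x1, x2].getD i u)
    (lam := fun e => [[], a, b, c, d, e1, e2].getD e []) nK4m_wf
    (Emb0.two hc.cub hc.ec nK4m_wf ⟨hi, fun e he => ?_, fun e he e' he' h1 h2 _ => ?_⟩ rfl) acc_k4m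
    (fun e he => ?_) (fun k hk _ _ _ _ h => absurd h (hC k hk)) (g := 5) (by decide) (by decide) rfl (by decide))
  · have he' : e < 7 := he
    interval_cases e
    exacts [h0, ha, hb, hc', hd, s1.h3, s2.h3]
  · obtain ⟨k1, k2, k3, h | h | h⟩ := hs e he e' he' h1
    exacts [h, k3 (hi _ h _ k2 h2), k3 (hi _ h _ k1 h2.symm).symm]
  · have he' : e < 7 := he
    interval_cases e
    exacts [ty_zero rfl, ty_long hl, ty_any _, ty_any _, ty_any _, ty_any _, ty_any _]

/-- `k4_long` in four positions, else `core_Sh` -/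
theorem k4_none {U : Finset V} (hc : Ctx G U) {u v p1 p2 : V} {a b c d : List V}
    (hn : [u, v, p1, p2].Nodup) (h0 : Link G U u [] v) (ha : Link G U u a p1)
    (hb : Link G U p1 b v) (hc' : Link G U u c p2) (hd : Link G U p2 d v) : False := by
  have q1 : [u, v, p2, p1].Nodup := (List.Perm.cons _ (List.Perm.cons _
    (List.Perm.swap _ _ _))).nodup_iff.1 hn
  have q2 : [v, u, p1, p2].Nodup := (List.Perm.swap _ _ _).nodup_iff.1 hn
  have q3 : [v, u, p2, p1].Nodup := (List.Perm.swap _ _ _).nodup_iff.1 q1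
  have h0' : Link G U v [] u := h0.symm
  have la : a.length ≤ 1 := by
    by_contra h
    exact k4_long hc hn h0 ha hb hc' hd (by omega)
  have lc : c.length ≤ 1 := by
    by_contra h
    exact k4_long hc q1 h0 hc' hd ha hb (by omega)
  have lb : b.length ≤ 1 := by
    by_contra h
    exact k4_long hc q2 h0' hb.symm ha.symm hd.symm hc'.symm (by rw [List.length_reverse]; omega)
  have ld : d.length ≤ 1 := by
    by_contra h
    exact k4_long hc q3 h0' hd.symm hc'.symm hb.symm ha.symm (by rw [List.length_reverse]; omega)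
  have s0 : Sh G U u v := ⟨_, h0, by simp⟩
  have sa : Sh G U u p1 := ⟨_, ha, la⟩
  have sb : Sh G U p1 v := ⟨_, hb, lb⟩
  have sc : Sh G U u p2 := ⟨_, hc', lc⟩
  have sd : Sh G U p2 v := ⟨_, hd, ld⟩
  simp only [List.nodup_cons, List.mem_cons, List.not_mem_nil, not_or, or_false] at hn
  obtain ⟨⟨n1, n2, n3⟩, ⟨n4, n5⟩, n6, -⟩ := hn
  refine core_Sh hc.cub hc.sp (A := {u, v, p1, p2}) (Finset.card_le_four.trans (by norm_num))
    (fun z hz => ?_) (by simp) (by simp) (by simp) (by simp) n4 n5 n6 s0 sa sc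
  simp only [mem_insert, mem_singleton] at hz
  rcases hz with rfl | rfl | rfl | rfl
  · exact ⟨p1, by simp, p2, by simp, n6, sa, sc⟩
  · exact ⟨p1, by simp, p2, by simp, n6, sb.symm, sd.symm⟩
  · exact ⟨u, by simp, v, by simp, n1, sa.symm, sb⟩
  · exact ⟨u, by simp, v, by simp, n1, sc.symm, sd⟩

end Pool.Agent.Lib.MP_7e4769_co.Sp
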