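import Pool.Agent.Lib.MP_7e4769_co.Sp.Link

set_option autoImplicit false
set_option linter.unusedSectionVars false

namespace Pool.Agent.Lib.MP_7e4769_co.Sp

open Finset

variable {V : Type} [Fintype V] [DecidableEq V] {G : SimpleGraph V} [DecidableRel G.Adj]

theorem linkex_closed (hG : G.IsRegularOfDegree 3) {U S : Finset V} (he : EC2 G U) (hS : S ⊆ U)
    {z : V} (hz : z ∈ Kn G U) (hzS : z ∈ S) (h1 : 1 ≤ dg G S z)
    (h2 : ∀ v ∈ S, v ≠ z → dg G U v = 2 ∧ 2 ≤ dg G S v) : False := by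
  have e1 := sum_dg (G := G) hS
  have e2 := eb_even (G := G) S
  have e3 := dg_le hG S z
  have e4 : ∑ v ∈ S.erase z, dg G U v = (S.erase z).card * 2 :=
    sum_const_nat fun v hv => (h2 v (mem_of_mem_erase hv) (ne_of_mem_erase hv)).1
  have e5 : ∑ v ∈ S.erase z, dg G S v = (S.erase z).card * 2 := sum_const_nat fun v hv => by
    have := h2 v (mem_of_mem_erase hv) (ne_of_mem_erase hv)
    have := dg_mono (G := G) hS v
    omega
  have e6 : dg G S z + _ = eb G S S := add_sum_erase S (dg G S) hzS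
  have e7 := add_sum_erase S (dg G U) hzS
  have e8 := (mem_Kn.1 hz).2
  have e9 := he.2 S hS ⟨z, hzS⟩ fun h => by
    have : cut G U S = 0 := h ▸ cut_self S
    omega
  omega

theorem linkex_walk (hG : G.IsRegularOfDegree 3) {U : Finset V} (he : EC2 G U) {z : V}
    (hz : z ∈ Kn G U) (n : ℕ) : ∀ (S : Finset V) (p t : V), Sᶜ.card ≤ n → S ⊆ U → z ∈ S → p ∈ S →
      t ∈ U → t ∉ S → G.Adj p t → 1 ≤ dg G (insert t S) z →
      (∀ v ∈ S, v ≠ z → dg G U v = 2 ∧ 2 ≤ dg G (insert t S) v) →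
      ∃ l z', z' ∈ Kn G U ∧ (∀ s ∈ l, s ∈ U ∧ dg G U s = 2) ∧
        List.IsChain G.Adj (p :: (l ++ [z'])) ∧ (l ++ [z']).Nodup ∧ (∀ s ∈ l ++ [z'], s ∉ S) ∧
        fst l z' = t := by
  induction n with
  | zero =>
    intro S p t hn _ _ _ _ ht
    exact absurd (card_pos.2 ⟨t, mem_compl.2 ht⟩) (by omega)
  | succ n ih =>
    intro S p t hn hS hzS hp htU ht ha h1 h2
    by_cases hk : t ∈ Kn G U
    · exact ⟨[], t, hk, by simp, by simpa using ha, by simp, by simpa using ht, rfl⟩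
    have h3 := he.dg_eq hG htU hk
    obtain ⟨x, hx, hax, hxp⟩ := ex_other h3.ge p
    have hS' : insert t S ⊆ U := insert_subset htU hS
    by_cases hxS : x ∈ S
    · refine (linkex_closed hG he hS' hz (mem_insert_of_mem hzS) h1 fun v hv hvz => ?_).elim
      rcases mem_insert.1 hv with rfl | hv
      · exact ⟨h3, two_le_dg (mem_insert_of_mem hxS) (mem_insert_of_mem hp) hax ha.symm hxp⟩
      · exact h2 v hv hvz
    obtain ⟨l, z', a1, a2, a3, a4, a5, a6⟩ := ih (insert t S) t x (by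
        rw [compl_insert, card_erase_of_mem (mem_compl.2 ht)]
        omega) hS' (mem_insert_of_mem hzS) (mem_insert_self _ _) hx
      (fun h => (mem_insert.1 h).elim hax.ne' hxS) hax
      (h1.trans (dg_mono (subset_insert _ _) z)) fun v hv hvz => by
        rcases mem_insert.1 hv with rfl | hv
        · exact ⟨h3, two_le_dg (mem_insert_self _ _) (mem_insert_of_mem (mem_insert_of_mem hp)) hax
            ha.symm hxp⟩
        · exact ⟨(h2 v hv hvz).1, (h2 v hv hvz).2.trans (dg_mono (subset_insert _ _) v)⟩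
    refine ⟨t :: l, z', a1, List.forall_mem_cons.2 ⟨⟨htU, h3⟩, a2⟩, .cons_cons ha a3,
      List.nodup_cons.2 ⟨fun h => a5 t h (mem_insert_self _ _), a4⟩,
      List.forall_mem_cons.2 ⟨ht, fun s hs h => a5 s hs (mem_insert_of_mem h)⟩, rfl⟩

/-- walk from `z` through `w` along vertices of degree 2; a loop at `z` would leave one edge -/
theorem link_ex (hG : G.IsRegularOfDegree 3) {U : Finset V} (he : EC2 G U) {z w : V}
    (hz : z ∈ Kn G U) (h : G.Adj z w) : ∃ l z', Link G U z l z' ∧ fst l z' = w := by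
  obtain ⟨h1, h2⟩ := mem_Kn.1 hz
  obtain ⟨l, z', a1, a2, a3, a4, a5, a6⟩ := linkex_walk hG he hz _ {z} z w le_rfl
    (singleton_subset_iff.2 h1) (mem_singleton_self z) (mem_singleton_self z) (dg3_mem hG h2 h)
    (notMem_singleton.2 h.ne') h (one_le_dg.2 ⟨w, mem_insert_self _ _, h⟩)
    fun v hv hvz => (hvz (mem_singleton.1 hv)).elim
  exact ⟨l, z', ⟨hz, a1, a2, a3, List.nodup_cons.2 ⟨fun h => a5 z h (mem_singleton_self z), a4⟩⟩, a6⟩

/-- the kernel together with all vertices on links is closed in `U` (`link_ex`, `Link.nb`) -/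
theorem on_link (hG : G.IsRegularOfDegree 3) {U : Finset V} (he : EC2 G U)
    (hK : (Kn G U).Nonempty) {t : V} (ht : t ∈ U) (hk : t ∉ Kn G U) :
    ∃ z l z', Link G U z l z' ∧ t ∈ l := by
  classical
  obtain ⟨k, hk'⟩ := hK
  have h := he.conn.eq_of_closed
    (filter_subset (fun t => t ∈ Kn G U ∨ ∃ z l z', Link G U z l z' ∧ t ∈ l) U)
    ⟨k, mem_filter.2 ⟨(mem_Kn.1 hk').1, Or.inl hk'⟩⟩ fun a ha b hb hab => mem_filter.2 ⟨hb, by
      rcases (mem_filter.1 ha).2 with h | ⟨z, l, z', h, hl⟩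
      · obtain ⟨l, z', h1, rfl⟩ := link_ex hG he h hab
        rcases fst_mem_or l z' with h2 | h2
        · exact Or.inr ⟨a, l, z', h1, h2⟩
        · exact Or.inl (h2.2.symm ▸ h1.hz')
      · rcases h.nb hl hb hab with h2 | h2 | h2
        · exact Or.inr ⟨z, l, z', h, h2⟩
        · exact Or.inl (h2.1.symm ▸ h.hz)
        · exact Or.inl (h2.1.symm ▸ h.hz')⟩
  rw [← h] at ht
  exact (mem_filter.1 ht).2.resolve_left hk

theorem Star.s12 {U : Finset V} {z z1 z2 z3 : V} {l1 l2 l3 : List V}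
    (h : Star G U z l1 z1 l2 z2 l3 z3) : Star G U z l2 z2 l1 z1 l3 z3 := by
  exact ⟨h.h2, h.h1, h.h3, h.n12.symm, h.n23, h.n13⟩

theorem Star.s23 {U : Finset V} {z z1 z2 z3 : V} {l1 l2 l3 : List V}
    (h : Star G U z l1 z1 l2 z2 l3 z3) : Star G U z l1 z1 l3 z3 l2 z2 := by
  exact ⟨h.h1, h.h3, h.h2, h.n13, h.n12, h.n23.symm⟩

theorem Star.fst_ne {U : Finset V} {z z1 z2 z3 : V} {l1 l2 l3 : List V}
    (h : Star G U z l1 z1 l2 z2 l3 z3) :
    fst l1 z1 ≠ fst l2 z2 ∧ fst l1 z1 ≠ fst l3 z3 ∧ fst l2 z2 ≠ fst l3 z3 := by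
  exact ⟨mt (h.h1.uniq h.h2) h.n12, mt (h.h1.uniq h.h3) h.n13, mt (h.h2.uniq h.h3) h.n23⟩

theorem Star.nb (hG : G.IsRegularOfDegree 3) {U : Finset V} {z z1 z2 z3 : V} {l1 l2 l3 : List V}
    (h : Star G U z l1 z1 l2 z2 l3 z3) {w : V} (hw : G.Adj z w) :
    w = fst l1 z1 ∨ w = fst l2 z2 ∨ w = fst l3 z3 := by
  exact nbrs_all hG h.h1.adj_fst h.h2.adj_fst h.h3.adj_fst h.fst_ne.1 h.fst_ne.2.1 h.fst_ne.2.2 w hw

theorem Star.all (hG : G.IsRegularOfDegree 3) {U : Finset V} {z z1 z2 z3 : V} {l1 l2 l3 : List V}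
    (h : Star G U z l1 z1 l2 z2 l3 z3) {l : List V} {z' : V} (hl : Link G U z l z') :
    (l = l1 ∧ z' = z1) ∨ (l = l2 ∧ z' = z2) ∨ (l = l3 ∧ z' = z3) := by
  exact (h.nb hG hl.adj_fst).imp (fun e => Prod.mk.inj (hl.uniq h.h1 e))
    (Or.imp (fun e => Prod.mk.inj (hl.uniq h.h2 e)) fun e => Prod.mk.inj (hl.uniq h.h3 e))

theorem star_ex2 (hG : G.IsRegularOfDegree 3) {U : Finset V} (he : EC2 G U) {z z1 z2 : V}
    {l1 l2 : List V} (h1 : Link G U z l1 z1) (h2 : Link G U z l2 z2) (hn : (l1, z1) ≠ (l2, z2)) :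
    ∃ l3 z3, Star G U z l1 z1 l2 z2 l3 z3 := by
  obtain ⟨d, hd, a1, a2⟩ := nbrs_of2 hG (v := z) (fst l1 z1) (fst l2 z2)
  obtain ⟨l3, z3, h3, rfl⟩ := link_ex hG he h1.hz hd
  refine ⟨l3, z3, h1, h2, h3, hn, fun e => a1 ?_, fun e => a2 ?_⟩ <;>
    rw [(Prod.mk.inj e).1, (Prod.mk.inj e).2]

theorem star_ex1 (hG : G.IsRegularOfDegree 3) {U : Finset V} (he : EC2 G U) {z z1 : V}
    {l1 : List V} (h1 : Link G U z l1 z1) : ∃ l2 z2 l3 z3, Star G U z l1 z1 l2 z2 l3 z3 := by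
  obtain ⟨d, hd, a1, -⟩ := nbrs_of2 hG (v := z) (fst l1 z1) z
  obtain ⟨l2, z2, h2, rfl⟩ := link_ex hG he h1.hz hd
  exact ⟨l2, z2, star_ex2 hG he h1 h2 fun e => a1 (by rw [(Prod.mk.inj e).1, (Prod.mk.inj e).2])⟩

theorem star_ex0 (hG : G.IsRegularOfDegree 3) {U : Finset V} (he : EC2 G U) {z : V}
    (hz : z ∈ Kn G U) : ∃ l1 z1 l2 z2 l3 z3, Star G U z l1 z1 l2 z2 l3 z3 := by
  obtain ⟨d, hd, -⟩ := nbrs_of2 hG (v := z) z z
  obtain ⟨l1, z1, h1, -⟩ := link_ex hG he hz hd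
  exact ⟨l1, z1, star_ex1 hG he h1⟩

end Pool.Agent.Lib.MP_7e4769_co.Sp
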