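import Pool.Agent.Lib.MP_7e4769_co.Sp.End
import Pool.Agent.Lib.MP_7e4769_co.Sp.LinkEx
import Pool.Agent.Lib.MP_7e4769_co.Sp.Fill

set_option autoImplicit false
set_option linter.unusedSectionVars false

namespace Pool.Agent.Lib.MP_7e4769_co.Sp

open Finset

variable {V : Type} [Fintype V] [DecidableEq V] {G : SimpleGraph V} [DecidableRel G.Adj]

theorem lemA_long (hG : G.IsRegularOfDegree 3) {n : ℕ} (hA : HA G n) {C : Finset V}
    (hn : C.card ≤ n) (he : EC2 G C) {w p z z' t t' : V} {a b : List V}
    (hl : Link G C z (a ++ w :: t :: t' :: b) z') (hp : p ∉ C) (h : G.Adj w p) :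
    Free G C w p := by
  obtain ⟨s1, s2, s3, s4, s5, -⟩ := hl.split
  have hl' : Link G C z ((a ++ [w]) ++ t :: (t' :: b)) z' := by simpa using hl
  obtain ⟨-, r2, -, -, -, -⟩ := hl'.split
  rw [fst_cons] at s2 s3 s5 r2
  have hwC := hl.inn w (by simp)
  have htC := hl.inn t (by simp)
  have htC' := hl.inn t' (by simp)
  have hwt' : t' ≠ w := by
    have hnd := hl.nd
    simp only [List.nodup_cons, List.nodup_append, List.mem_append, List.mem_cons] at hnd
    intro e
    exact hnd.2.1.2.1.1 (Or.inr (Or.inl e.symm))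
  have hcon : Conn G (C.erase w) := by
    rw [← sdiff_singleton_eq_erase]
    refine he.conn_sdiff (by simpa using hwC.1) ?_
    rw [cut_single, hwC.2]
    norm_num
  have hgood : Good G (C.erase w) := by
    refine root2 hG hA ((card_erase_le).trans hn) hcon (t := t) (t' := t')
      (mem_erase.2 ⟨s2.ne', htC.1⟩) (mem_erase.2 ⟨hwt', htC'.1⟩) r2 ?_ ?_
    · have := dg_lt (G := G) (erase_subset w C) hwC.1 (notMem_erase w C) s2.symm
      omega
    · have := dg_mono (G := G) (erase_subset w C) t'
      omega
  refine free_of_erase hgood fun x hx hxp => ?_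
  rcases nbrs_all hG s1 s2 h s3 (fun e => hp (e ▸ s4)) (fun e => hp (e ▸ s5)) x hx with e | e | e
  · exact e ▸ s4
  · exact e ▸ s5
  · exact absurd e hxp

theorem lemA_short (hG : G.IsRegularOfDegree 3) {C : Finset V} {u v w t p : V} {l : List V}
    (h1 : Link G C u [w, t] v) (h2 : Link G C u l v) (hty : ty l = 2) (hne : [w, t] ≠ l)
    (huv : G.Adj u v) (hall : ∀ x ∈ C, x = u ∨ x = v ∨ x = w ∨ x = t ∨ x ∈ l) (hp : p ∉ C)
    (h : G.Adj w p) : Free G C w p := by
  have hl0 : l ≠ [] := by
    rintro rfl
    exact absurd hty (by simp [ty])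
  have hdis : ∀ x ∈ [w, t], x ∉ l := fun x hx hx' => by
    rcases h1.disj h2 hx hx' with e | e
    · exact hne e.2.1
    · exact huv.ne e.1
  have hwl : w ∉ l := hdis w (by simp)
  have htl : t ∉ l := hdis t (by simp)
  have hul : u ∉ l := fun e => h2.notK e h2.hz
  have hvl : v ∉ l := fun e => h2.notK e h2.hz'
  have hwC := h1.inn w (by simp)
  have htC := h1.inn t (by simp)
  have hch := h1.ch
  simp only [List.cons_append, List.nil_append, List.isChain_cons_cons] at hch
  obtain ⟨huw, hwt, htv, -⟩ := hch
  have hnd := h1.nd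
  simp only [List.cons_append, List.nil_append, List.nodup_cons, List.mem_cons,
    List.not_mem_nil, or_false, not_or] at hnd
  obtain ⟨⟨-, hut, -⟩, ⟨-, hwv⟩, -⟩ := hnd
  have hf1 : fst l v ∈ l := by
    rcases fst_mem_or l v with e | e
    · exact e
    · exact absurd e.1 hl0
  have hf2 : fst l.reverse u ∈ l := by
    rcases fst_mem_or l.reverse u with e | e
    · exact List.mem_reverse.1 e
    · exact absurd (List.reverse_eq_nil_iff.1 e.1) hl0
  obtain ⟨f, hf⟩ := link_fill hG h2 (a := 0) (s := 1) (r := 0) (b := 1) (by rw [hty]; decide)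
  let c : V → Fin 4 := fun x =>
    if x = u then 0 else if x = v then 1 else if x = t then 2 else if x ∈ l then f x else 3
  have cu : c u = 0 := if_pos rfl
  have cv : c v = 1 := by simp only [c, if_neg huv.ne', if_true]
  have ct : c t = 2 := by simp only [c, if_neg (Ne.symm hut), if_neg htv.ne, if_true]
  have cw : c w = 3 := by
    simp only [c, if_neg huw.ne', if_neg hwv, if_neg hwt.ne, if_neg hwl]
  have cl : ∀ x ∈ l, c x = f x := fun x hx => by
    have e1 : x ≠ u := fun e => hul (e ▸ hx)
    have e2 : x ≠ v := fun e => hvl (e ▸ hx)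
    have e3 : x ≠ t := fun e => htl (e ▸ hx)
    simp only [c, if_neg e1, if_neg e2, if_neg e3, if_pos hx]
  have cout : ∀ x, x ∉ C → c x = 3 := fun x hx => by
    have e1 : x ≠ u := fun e => hx (e ▸ h1.memU.1)
    have e2 : x ≠ v := fun e => hx (e ▸ h1.memU.2)
    have e3 : x ≠ t := fun e => hx (e ▸ htC.1)
    have e4 : x ∉ l := fun e => hx (h2.inn x e).1
    simp only [c, if_neg e1, if_neg e2, if_neg e3, if_neg e4]
  obtain ⟨g1, g2, g3⟩ := hf c cl cu cv cout
  refine ⟨c, cout, fun x hx hxw => ?_, fun x hx hxp => ?_⟩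
  · rcases hall x hx with e | e | e | e | e
    · subst e
      rw [ok_iff hG huv h2.adj_fst huw (fun e => hvl (e ▸ hf1)) (Ne.symm hwv)
        (fun e => hwl (e ▸ hf1)), cu, cv, g2, cw]
      decide
    · subst e
      rw [ok_iff hG huv.symm h2.symm.adj_fst htv.symm (fun e => hul (e ▸ hf2)) hut
        (fun e => htl (e ▸ hf2)), cu, cv, g3, ct]
      decide
    · exact absurd e hxw
    · subst e
      obtain ⟨q, hq, hq'⟩ := ex_out hG (U := C) (v := x) (by rw [htC.2]; norm_num)
      rw [ok_iff hG hwt.symm htv hq' hwv (fun e => hq (e ▸ hwC.1))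
        (fun e => hq (e ▸ h1.memU.2)), ct, cw, cv, cout q hq]
      decide
    · exact g1 x e
  · rcases nbrs_all hG huw.symm hwt h hut (fun e => hp (e ▸ h1.memU.1))
      (fun e => hp (e ▸ htC.1)) x hx with e | e | e
    · rw [e, cu, cw]; decide
    · rw [e, ct, cw]; decide
    · exact absurd e hxp

theorem lemA_on (hG : G.IsRegularOfDegree 3) {C : Finset V} (he : EC2 G C) {u v : V}
    (hu : u ∈ Kn G C) (hK : ∀ w ∈ Kn G C, w = u ∨ w = v) {x : V} (hx : x ∈ C)
    (hk : x ∉ Kn G C) : ∃ l, Link G C u l v ∧ x ∈ l := by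
  obtain ⟨z, l, z', hl, hxl⟩ := on_link hG he ⟨u, hu⟩ hx hk
  rcases hK z hl.hz with e | e <;> rcases hK z' hl.hz' with e' | e'
  · exact absurd (e.trans e'.symm) hl.ne
  · subst e e'
    exact ⟨l, hl, hxl⟩
  · subst e e'
    exact ⟨l.reverse, hl.symm, List.mem_reverse.2 hxl⟩
  · exact absurd (e.trans e'.symm) hl.ne

/-- `w` has degree 2, so lies on a link `l1` from `u` to `v` (`on_link`, `Link.symm`); the star at
`u` is `l1`, `[]`, `l2` with `l2` nonempty and even. Write `l1 = a ++ w :: b`. If `a` or `b` has two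
vertices use `root2` in `C.erase w` and `free_of_erase`. Otherwise `l1 = [w, t]` or `[t, w]`: colour
`u, v, t, w` with `0, 1, 2, 3` and fill `l2` with `link_fill` (`compat 2 0 1 0 1`); every vertex of
`C` is `u`, `v` or on `l1`, `l2` (`on_link`, `Star.all`). -/
theorem theta_free (hG : G.IsRegularOfDegree 3) {n : ℕ} (hA : HA G n) {C : Finset V}
    (hn : C.card ≤ n) (he : EC2 G C) (hc : Theta G C) {w p : V} (hw : w ∈ C) (hp : p ∉ C)
    (h : G.Adj w p) : Free G C w p := by
  obtain ⟨u, v, hu, hv, huv, hK, hev⟩ := hc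
  have hwK : w ∉ Kn G C := fun e => by
    have h1 := (mem_Kn.1 e).2
    have h2 := dg_le_two_of_out hG hp h
    omega
  obtain ⟨l1, h1, hw1⟩ := lemA_on hG he hu hK hw hwK
  have h0 : Link G C u [] v := link_nil hu hv huv
  obtain ⟨l2, z, hs⟩ := star_ex2 hG he h1 h0 (fun e => by
    have e1 : l1 = [] := congrArg Prod.fst e
    rw [e1] at hw1
    exact List.not_mem_nil hw1)
  have hz : z = v := (hK z hs.h3.hz').resolve_left hs.h3.ne.symm
  subst hz
  have h2 := hs.h3
  have hl2 : l2 ≠ [] := fun e => hs.n23 (by rw [e])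
  have hne : l1 ≠ l2 := fun e => hs.n13 (by rw [e])
  have hty : ty l2 = 2 := by
    have e1 := hev l2 h2
    have e2 : l2.length ≠ 0 := fun e => hl2 (List.length_eq_zero_iff.1 e)
    have e3 : l2.length ≠ 1 := by omega
    simp only [ty, if_neg e2, if_neg e3, if_pos e1]
  have hall : ∀ x ∈ C, x = u ∨ x = z ∨ x ∈ l1 ∨ x ∈ l2 := fun x hx => by
    by_cases hk : x ∈ Kn G C
    · rcases hK x hk with e | e
      · exact Or.inl e
      · exact Or.inr (Or.inl e)
    · obtain ⟨m, hm, hxm⟩ := lemA_on hG he hu hK hx hk
      rcases hs.all hG hm with e | e | e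
      · exact Or.inr (Or.inr (Or.inl (e.1 ▸ hxm)))
      · rw [e.1] at hxm
        exact absurd hxm List.not_mem_nil
      · exact Or.inr (Or.inr (Or.inr (e.1 ▸ hxm)))
  have e1 := hev l1 h1
  obtain ⟨a, b, rfl⟩ := List.append_of_mem hw1
  rcases b with _ | ⟨t, _ | ⟨t', b⟩⟩
  · have h1' := h1.symm
    rw [List.reverse_append, List.reverse_cons, List.reverse_nil, List.nil_append,
      List.singleton_append] at h1'
    have hlen : a.reverse.length = a.length := List.length_reverse
    have hmem : ∀ x, x ∈ a ↔ x ∈ a.reverse := fun x => List.mem_reverse.symm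
    have hne' : w :: a.reverse ≠ l2.reverse := fun e => hne (by
      rw [← List.reverse_reverse l2, ← e]
      simp)
    simp only [List.length_append, List.length_cons, List.length_nil] at e1
    generalize a.reverse = r at h1' hlen hmem hne'
    rcases r with _ | ⟨t, _ | ⟨t', r⟩⟩
    · simp only [List.length_nil] at hlen
      omega
    · refine lemA_short hG h1' h2.symm (by rw [ty_reverse, hty]) hne' huv.symm ?_ hp h
      intro x hx
      rcases hall x hx with e | e | e | e
      · exact Or.inr (Or.inl e)
      · exact Or.inl e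
      · rcases List.mem_append.1 e with e | e
        · exact Or.inr (Or.inr (Or.inr (Or.inl (List.mem_singleton.1 ((hmem x).1 e)))))
        · exact Or.inr (Or.inr (Or.inl (List.mem_singleton.1 e)))
      · exact Or.inr (Or.inr (Or.inr (Or.inr (List.mem_reverse.2 e))))
    · exact lemA_long hG hA hn he (a := []) h1' hp h
  · rcases a with _ | ⟨s, a⟩
    · refine lemA_short hG h1 h2 hty hne huv ?_ hp h
      intro x hx
      rcases hall x hx with e | e | e | e
      · exact Or.inl e
      · exact Or.inr (Or.inl e)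
      · rcases List.mem_cons.1 e with e | e
        · exact Or.inr (Or.inr (Or.inl e))
        · exact Or.inr (Or.inr (Or.inr (Or.inl (List.mem_singleton.1 e))))
      · exact Or.inr (Or.inr (Or.inr (Or.inr e)))
    · have h1' := h1.symm
      have e2 : (s :: a ++ [w, t]).reverse = [t] ++ w :: (s :: a).reverse := by simp
      rw [e2] at h1'
      have hlen : (s :: a).reverse.length = a.length + 1 := by simp
      simp only [List.length_append, List.length_cons, List.length_nil] at e1
      generalize (s :: a).reverse = r at h1' hlen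
      rcases r with _ | ⟨x, _ | ⟨x', r⟩⟩
      · simp only [List.length_nil] at hlen
        omega
      · simp only [List.length_cons, List.length_nil] at hlen
        omega
      · exact lemA_long hG hA hn he h1' hp h
  · exact lemA_long hG hA hn he h1 hp h

/-- Induction on `k ≤ n` for `HA G k`. For `C` of size `k`: one vertex (`free_single`); a cut of
size 1 (`Conn.not_ec2`; take the side that contains `w`, `Conn.side`, `glue_free`); or `EC2`
(`Good.free`, or `hU` and `cyc_free`, `theta_free`). -/
theorem hA_of_hU (hG : G.IsRegularOfDegree 3) {n : ℕ} (hU : HU G n) : HA G n := by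
  have key : ∀ k, k ≤ n → HA G k := by
    intro k
    induction k with
    | zero => exact fun _ C hC => absurd hC (Nat.not_lt_zero _)
    | succ k ih =>
      intro hk C hC hcon w p hw hp h
      have hA := ih (by omega)
      have hCk : C.card ≤ k := by omega
      by_cases h2 : 2 ≤ C.card
      swap
      · have e : C = {w} := by
          refine eq_singleton_iff_unique_mem.2 ⟨hw, fun x hx => ?_⟩
          exact card_le_one.1 (by omega) x hx w hw
        rw [e]
        exact free_single w p
      by_cases he : EC2 G C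
      · by_cases hg : Good G C
        · exact hg.free hw
        · have hnc : NC G C := ⟨w, hw, by have := dg_le_two_of_out hG hp h; omega⟩
          rcases hU C (by omega) he hnc hg with hb | hb
          · exact cyc_free hG hA hCk he hb hw hp h
          · exact theta_free hG hA hCk he hb hw hp h
      · have side : ∀ A, A ⊆ C → w ∈ A → A ≠ C → cut G C A = 1 → Free G C w p := by
          intro A hAC hwA hne h1
          obtain ⟨a, ha, b, hb, hbA, hab⟩ := cut_pos h1.ge
          have hbB : b ∈ C \ A := mem_sdiff.2 ⟨hb, hbA⟩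
          have c1 : A.card < C.card := card_lt_card ⟨hAC, fun e => hbA (e hb)⟩
          have c2 : (C \ A).card < C.card :=
            card_lt_card ⟨sdiff_subset, fun e => (mem_sdiff.1 (e (hAC ha))).2 ha⟩
          have f1 := hA A (by omega) (hcon.side hAC h1.le) w p hwA (fun e => hp (hAC e)) h
          have f2 := hA (C \ A) (by omega)
            (hcon.side sdiff_subset (by rw [cut_compl hAC]; exact h1.le)) b a hbB
            (fun e => (mem_sdiff.1 e).2 ha) hab.symm
          have f3 := glue_free hG disjoint_sdiff ha hbB hab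
            (fun a' ha' b' hb' h' => cut_one_uniq h1.le ha hb hbA hab a' ha' b'
              (mem_sdiff.1 hb').1 (mem_sdiff.1 hb').2 h') hwA
            (fun e => hp (mem_sdiff.1 e).1) f1 f2
          rwa [union_sdiff_of_subset hAC] at f3
        obtain ⟨S, hS, hSn, hSC, h1⟩ := hcon.not_ec2 h2 he
        by_cases hwS : w ∈ S
        · exact side S hS hwS hSC h1
        · refine side (C \ S) sdiff_subset (mem_sdiff.2 ⟨hw, hwS⟩) (fun e => ?_)
            (by rw [cut_compl hS]; exact h1)
          obtain ⟨x, hx⟩ := hSn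
          have : x ∈ C \ S := by rw [e]; exact hS hx
          exact (mem_sdiff.1 this).2 hx
  exact key n le_rfl

end Pool.Agent.Lib.MP_7e4769_co.Sp
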