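import Pool.Agent.Lib.MP_7e4769_co.Sp.Cut

set_option autoImplicit false
set_option linter.unusedSectionVars false

namespace Pool.Agent.Lib.MP_7e4769_co.Sp

open Finset

variable {V : Type} [Fintype V] [DecidableEq V] {G : SimpleGraph V} [DecidableRel G.Adj]

@[simp] theorem fst_nil (z : V) : fst ([] : List V) z = z := rfl

@[simp] theorem fst_cons (t : V) (l : List V) (z : V) : fst (t :: l) z = t := rfl

theorem fst_mem_or (l : List V) (z : V) : fst l z ∈ l ∨ (l = [] ∧ fst l z = z) := by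
  cases l <;> simp

@[simp] theorem ty_reverse (l : List V) : ty l.reverse = ty l := by
  simp [ty]

theorem lk_fst_snoc (l : List V) (s z : V) : fst (l ++ [s]) z = fst l s := by
  cases l <;> rfl

theorem lk_fst_mem (l : List V) (z : V) : fst l z ∈ l ++ [z] := by
  cases l <;> simp

/-- a path in `U` through vertices of degree 2 -/
structure LkP (G : SimpleGraph V) [DecidableRel G.Adj] (U : Finset V) (z : V) (l : List V)
    (z' : V) : Prop where
  hz : z ∈ U
  hz' : z' ∈ U
  inn : ∀ t ∈ l, t ∈ U ∧ dg G U t = 2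
  ch : List.IsChain G.Adj (z :: (l ++ [z']))
  nd : (z :: (l ++ [z'])).Nodup

theorem Link.pth {U : Finset V} {z z' : V} {l : List V} (h : Link G U z l z') : LkP G U z l z' :=
  ⟨(mem_Kn.1 h.hz).1, (mem_Kn.1 h.hz').1, h.inn, h.ch, h.nd⟩

theorem LkP.symm {U : Finset V} {z z' : V} {l : List V} (h : LkP G U z l z') :
    LkP G U z' l.reverse z := by
  have e : z' :: (l.reverse ++ [z]) = (z :: (l ++ [z'])).reverse := by simp
  exact ⟨h.hz', h.hz, fun t ht => h.inn t (List.mem_reverse.1 ht),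
    e ▸ List.isChain_reverse.2 (h.ch.imp fun _ _ h => h.symm), e ▸ List.nodup_reverse.2 h.nd⟩

theorem LkP.tail {U : Finset V} {z z' t : V} {l : List V} (h : LkP G U z (t :: l) z') :
    LkP G U t l z' :=
  ⟨(h.inn t (by simp)).1, h.hz', fun x hx => h.inn x (by simp [hx]), h.ch.tail, h.nd.of_cons⟩

theorem LkP.suf {U : Finset V} {z z' t : V} {a b : List V} (h : LkP G U z (a ++ t :: b) z') :
    LkP G U t b z' := by
  induction a generalizing z with
  | nil => exact h.tail
  | cons s a ih => exact ih h.tail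

theorem LkP.pre {U : Finset V} {z z' t : V} {a b : List V} (h : LkP G U z (a ++ t :: b) z') :
    LkP G U t a.reverse z :=
  LkP.suf (a := b.reverse) (z := z') (by simpa using h.symm)

theorem LkP.adj {U : Finset V} {z z' : V} {l : List V} (h : LkP G U z l z') :
    G.Adj z (fst l z') := by
  cases l <;> exact (List.isChain_cons_cons.1 h.ch).1

theorem LkP.mem {U : Finset V} {z z' : V} {l : List V} (h : LkP G U z l z') : fst l z' ∈ U := by
  cases l with
  | nil => exact h.hz'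
  | cons t l => exact h.tail.hz

theorem LkP.ne {U : Finset V} {z z' t : V} {l : List V} (h : LkP G U z (t :: l) z') :
    z ≠ fst l z' := fun e =>
  (List.nodup_cons.1 h.nd).1 (List.mem_cons_of_mem _ (e ▸ lk_fst_mem l z'))

theorem LkP.split {U : Finset V} {z z' t : V} {a b : List V} (h : LkP G U z (a ++ t :: b) z') :
    fst a.reverse z ≠ fst b z' ∧
      ∀ w ∈ U, G.Adj t w → w = fst a.reverse z ∨ w = fst b z' := by
  have hn : fst a.reverse z ≠ fst b z' := by
    induction a generalizing z with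
    | nil => exact h.ne
    | cons s a ih => rw [List.reverse_cons, lk_fst_snoc]; exact ih h.tail
  exact ⟨hn, dg_two_all (h.inn t (by simp)).2.le h.pre.mem h.suf.mem h.pre.adj h.suf.adj hn⟩

theorem LkP.uniq {U : Finset V} {z z1 z2 : V} {l1 l2 : List V} (h1 : LkP G U z l1 z1)
    (h2 : LkP G U z l2 z2) (k1 : z1 ∈ Kn G U) (k2 : z2 ∈ Kn G U) (h : fst l1 z1 = fst l2 z2) :
    l1 = l2 ∧ z1 = z2 := by
  have d1 := (mem_Kn.1 k1).2
  have d2 := (mem_Kn.1 k2).2
  induction l1 generalizing z l2 with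
  | nil =>
    cases l2 with
    | nil => exact ⟨rfl, h⟩
    | cons t b =>
      obtain rfl : z1 = t := h
      have := (h2.inn z1 (by simp)).2
      omega
  | cons t a ih =>
    cases l2 with
    | nil =>
      obtain rfl : t = z2 := h
      have := (h1.inn t (by simp)).2
      omega
    | cons s b =>
      obtain rfl : t = s := h
      have := ih h1.tail h2.tail
        (((LkP.split (a := []) h2).2 _ h1.tail.mem h1.tail.adj).resolve_left h1.ne.symm)
      exact ⟨by rw [this.1], this.2⟩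

theorem Link.symm {U : Finset V} {z z' : V} {l : List V} (h : Link G U z l z') :
    Link G U z' l.reverse z :=
  ⟨h.hz', h.hz, h.pth.symm.inn, h.pth.symm.ch, h.pth.symm.nd⟩

theorem Link.ne {U : Finset V} {z z' : V} {l : List V} (h : Link G U z l z') : z ≠ z' :=
  fun e => (List.nodup_cons.1 h.nd).1 (by simp [e])

theorem Link.memU {U : Finset V} {z z' : V} {l : List V} (h : Link G U z l z') :
    z ∈ U ∧ z' ∈ U :=
  ⟨h.pth.hz, h.pth.hz'⟩

theorem Link.adj_fst {U : Finset V} {z z' : V} {l : List V} (h : Link G U z l z') :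
    G.Adj z (fst l z') :=
  h.pth.adj

theorem Link.fst_mem {U : Finset V} {z z' : V} {l : List V} (h : Link G U z l z') :
    fst l z' ∈ U :=
  h.pth.mem

theorem Link.notK {U : Finset V} {z z' : V} {l : List V} (h : Link G U z l z') {t : V}
    (ht : t ∈ l) : t ∉ Kn G U :=
  fun k => by have := (mem_Kn.1 k).2; have := (h.inn t ht).2; omega

theorem link_nil {U : Finset V} {z z' : V} (hz : z ∈ Kn G U) (hz' : z' ∈ Kn G U)
    (h : G.Adj z z') : Link G U z [] z' :=
  ⟨hz, hz', by simp, by simpa using h, by simpa using h.ne⟩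

/-- the two neighbours in `U` of an inner vertex -/
theorem Link.split {U : Finset V} {z z' : V} {a b : List V} {t : V}
    (h : Link G U z (a ++ t :: b) z') :
    G.Adj t (fst a.reverse z) ∧ G.Adj t (fst b z') ∧ fst a.reverse z ≠ fst b z' ∧
      fst a.reverse z ∈ U ∧ fst b z' ∈ U ∧
      ∀ w ∈ U, G.Adj t w → w = fst a.reverse z ∨ w = fst b z' :=
  ⟨h.pth.pre.adj, h.pth.suf.adj, h.pth.split.1, h.pth.pre.mem, h.pth.suf.mem, h.pth.split.2⟩

theorem Link.nb {U : Finset V} {z z' : V} {l : List V} (h : Link G U z l z') {t w : V}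
    (ht : t ∈ l) (hw : w ∈ U) (ha : G.Adj t w) :
    w ∈ l ∨ (w = z ∧ t = fst l z') ∨ (w = z' ∧ t = fst l.reverse z) := by
  obtain ⟨a, b, rfl⟩ := List.append_of_mem ht
  rcases h.pth.split.2 w hw ha with rfl | rfl
  · rcases fst_mem_or a.reverse z with k | ⟨k, k'⟩
    · exact Or.inl (List.mem_append_left _ (List.mem_reverse.1 k))
    · obtain rfl := List.reverse_eq_nil_iff.1 k
      exact Or.inr (Or.inl ⟨rfl, rfl⟩)
  · rcases fst_mem_or b z' with k | ⟨rfl, k'⟩
    · exact Or.inl (by simp [k])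
    · exact Or.inr (Or.inr ⟨rfl, by simp⟩)

theorem Link.dg2 {U S : Finset V} {z z' : V} {l : List V} (h : Link G U z l z') {t : V}
    (ht : t ∈ l) (hz : z ∈ S) (hz' : z' ∈ S) (hl : ∀ x ∈ l, x ∈ S) : 2 ≤ dg G S t := by
  obtain ⟨a, b, rfl⟩ := List.append_of_mem ht
  refine two_le_dg ?_ ?_ h.pth.pre.adj h.pth.suf.adj h.pth.split.1
  · rcases fst_mem_or a.reverse z with k | ⟨-, k⟩
    · exact hl _ (List.mem_append_left _ (List.mem_reverse.1 k))
    · rwa [k]
  · rcases fst_mem_or b z' with k | ⟨-, k⟩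
    · exact hl _ (by simp [k])
    · rwa [k]

theorem Link.uniq {U : Finset V} {z z1 z2 : V} {l1 l2 : List V} (h1 : Link G U z l1 z1)
    (h2 : Link G U z l2 z2) (h : fst l1 z1 = fst l2 z2) : (l1, z1) = (l2, z2) :=
  Prod.ext_iff.2 (h1.pth.uniq h2.pth h1.hz' h2.hz' h)

theorem Link.disj {U : Finset V} {z z' y y' : V} {l m : List V} (h1 : Link G U z l z')
    (h2 : Link G U y m y') {t : V} (ht : t ∈ l) (ht' : t ∈ m) :
    (z = y ∧ l = m ∧ z' = y') ∨ (z = y' ∧ l = m.reverse ∧ z' = y) := by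
  obtain ⟨a, b, rfl⟩ := List.append_of_mem ht
  obtain ⟨c, d, rfl⟩ := List.append_of_mem ht'
  have p := h1.pth
  have q := h2.pth
  have n := p.split.1
  rcases q.split.2 _ p.pre.mem p.pre.adj with e | e <;>
    rcases q.split.2 _ p.suf.mem p.suf.adj with e' | e'
  · exact (n (e.trans e'.symm)).elim
  · obtain ⟨k, rfl⟩ := p.pre.uniq q.pre h1.hz h2.hz e
    obtain ⟨rfl, rfl⟩ := p.suf.uniq q.suf h1.hz' h2.hz' e'
    exact Or.inl ⟨rfl, by rw [List.reverse_injective k], rfl⟩
  · obtain ⟨rfl, rfl⟩ := p.pre.uniq q.suf h1.hz h2.hz' e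
    obtain ⟨rfl, rfl⟩ := p.suf.uniq q.pre h1.hz' h2.hz e'
    exact Or.inr ⟨rfl, by simp, rfl⟩
  · exact (n (e.trans e'.symm)).elim

theorem Link.stay {U S : Finset V} {z z' : V} {l : List V} (h : Link G U z l z')
    (h0 : fst l z' ∈ S) (hS : ∀ t ∈ l, t ∈ S → ∀ w ∈ U, G.Adj t w → w ∈ S ∨ w = z) :
    (∀ t ∈ l, t ∈ S) ∧ z' ∈ S := by
  have hn := (List.nodup_cons.1 h.nd).1
  obtain ⟨s, p⟩ : ∃ s, LkP G U s l z' := ⟨z, h.pth⟩
  clear h
  induction l generalizing s with
  | nil => exact ⟨by simp, h0⟩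
  | cons t b ih =>
    have := ih ((hS t (by simp) h0 _ p.tail.mem p.tail.adj).resolve_right fun e =>
      hn (List.mem_cons_of_mem _ (e ▸ lk_fst_mem b z'))) (fun x hx => hS x (by simp [hx]))
      (fun k => hn (List.mem_cons_of_mem _ k)) t p.tail
    exact ⟨List.forall_mem_cons.2 ⟨h0, this.1⟩, this.2⟩

theorem Link.restrict {U C : Finset V} (hC : C ⊆ U) {z z' : V} {l : List V}
    (h : Link G U z l z') (hz : z ∈ Kn G C) (hz' : z' ∈ Kn G C) (hl : ∀ t ∈ l, t ∈ C) :
    Link G C z l z' :=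
  ⟨hz, hz', fun t ht => ⟨hl t ht, ((dg_mono hC t).trans (h.inn t ht).2.le).antisymm
    (h.dg2 ht (mem_Kn.1 hz).1 (mem_Kn.1 hz').1 hl)⟩, h.ch, h.nd⟩

/-- the first two inner vertices of a long link -/
theorem Link.long {U : Finset V} {z z' : V} {l : List V} (h : Link G U z l z')
    (h2 : 2 ≤ l.length) : ∃ t t', t ∈ l ∧ t' ∈ l ∧ t = fst l z' ∧ G.Adj z t ∧ G.Adj t t' := by
  match l, h, h2 with
  | t :: t' :: r, h, _ => exact ⟨t, t', by simp, by simp, rfl, h.pth.adj, h.pth.tail.adj⟩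

/-- an inner vertex of a long link has a neighbour on the link -/
theorem Link.long_nb {U : Finset V} {z z' : V} {l : List V} (h : Link G U z l z')
    (h2 : 2 ≤ l.length) {t : V} (ht : t ∈ l) : ∃ t' ∈ l, G.Adj t t' := by
  obtain ⟨a, b, rfl⟩ := List.append_of_mem ht
  rcases fst_mem_or a.reverse z with k | ⟨k, -⟩
  · exact ⟨_, List.mem_append_left _ (List.mem_reverse.1 k), h.pth.pre.adj⟩
  · rcases fst_mem_or b z' with k' | ⟨rfl, -⟩
    · exact ⟨_, by simp [k'], h.pth.suf.adj⟩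
    · simp [List.reverse_eq_nil_iff.1 k] at h2

theorem Link.one {U : Finset V} {z z' t : V} (h : Link G U z [t] z') :
    G.Adj z t ∧ G.Adj t z' ∧ ∀ w ∈ U, G.Adj t w → w = z ∨ w = z' :=
  ⟨h.pth.adj, h.pth.tail.adj, (LkP.split (a := []) h.pth).2⟩

end Pool.Agent.Lib.MP_7e4769_co.Sp
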