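import Pool.Agent.Lib.MP_7e4769_co.Sp.CaseL3
import Pool.Agent.Lib.MP_7e4769_co.Sp.CaseS2
import Pool.Agent.Lib.MP_7e4769_co.Sp.LemA

set_option autoImplicit false
set_option linter.unusedSectionVars false

namespace Pool.Agent.Lib.MP_7e4769_co.Sp

open Finset

variable {V : Type} [Fintype V] [DecidableEq V] {G : SimpleGraph V} [DecidableRel G.Adj]

theorem hU_all (hG : G.IsRegularOfDegree 3) (hs : Sparse G 100) (n : ℕ) : HU G n := by
  induction n with
  | zero => intro C hC; omega
  | succ n ih =>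
    intro U hU he hn hg
    by_cases hlt : U.card < n
    · exact ih U hlt he hn hg
    have hn' : U.card = n := by omega
    by_cases hK : (Kn G U).Nonempty
    · by_cases ht : ∃ u v l1 l2 l3, Star G U u l1 v l2 v l3 v
      · obtain ⟨u, v, l1, l2, l3, h⟩ := ht
        rcases theta_case hG he h with h1 | h1
        · exact absurd h1 hg
        · exact Or.inr h1
      · have hc : Ctx G U := ⟨hG, hs, he, hn, hg, hn' ▸ ih, hn' ▸ hA_of_hU hG ih,
          fun u v l1 l2 l3 h => ht ⟨u, v, l1, l2, l3, h⟩⟩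
        exact (case_s hc (fun x T y h => no_long hc h) hK).elim
    · exact Or.inl fun v hv => he.dg_eq hG hv fun h => hK ⟨v, h⟩

theorem hA_all (hG : G.IsRegularOfDegree 3) (hs : Sparse G 100) (n : ℕ) : HA G n :=
  hA_of_hU hG (hU_all hG hs n)

end Pool.Agent.Lib.MP_7e4769_co.Sp
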