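import Pool.Agent.Lib.MP_7e4769_co.Sp.Dig

set_option autoImplicit false
set_option linter.unusedSectionVars false

namespace Pool.Agent.Lib.MP_7e4769_co.Sp

open Finset

variable {V : Type} [Fintype V] [DecidableEq V] {G : SimpleGraph V} [DecidableRel G.Adj]

theorem Star.emb {U : Finset V} {z z1 z2 z3 : V} {l1 l2 l3 : List V}
    (h : Star G U z l1 z1 l2 z2 l3 z3) (hn : [z, z1, z2, z3].Nodup) :
    Emb G U nSt (fun i => [z, z1, z2, z3].getD i z) (fun e => [l1, l2, l3].getD e []) := by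
  refine Emb.of_simple nSt_wf (by decide) (inj_of_nodup hn z) fun e he => ?_
  have he' : e < 3 := he
  interval_cases e
  exacts [h.h1, h.h2, h.h3]

theorem naf_one (hG : G.IsRegularOfDegree 3) {U T : Finset V} (he : EC2 G U) (hT : T ⊆ U)
    (hn : T.Nonempty) {x p : V} (hx : x ∈ Kn G U) (hxT : x ∉ T) (hp : p ∉ T) (ha : G.Adj x p)
    (h : ∀ a ∈ T, ∀ b ∈ U, b ∉ T → G.Adj a b → b = x) : False := by
  have h1 : cut G U T ≤ dg G T x := by
    rw [← eb_single, eb_comm]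
    refine sum_le_sum fun a haT => card_le_card fun b hb => ?_
    rw [mem_filter, mem_sdiff] at hb
    exact mem_filter.2 ⟨mem_singleton.2 (h a haT b hb.1.1 hb.1.2 hb.2), hb.2⟩
  exact he.no_two hT (h1.trans (dg_le_two_of_out hG hp ha)) hx hxT
    ((he.2 T hT hn fun e => hxT (e ▸ (mem_Kn.1 hx).1)).trans h1)

/-- Let `Q = U \ pole` (connected, three edges leave the pole, `Emb0.pole_edge` says from where).
By `acc_stCGA` and `Emb.good_G`, `Q.erase z1` is not connected. So it has a closed part `S`;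
neither `S` nor its complement `S'` in `Q.erase z1` misses both `z2` and `z3`: otherwise all edges
from that part to the rest of `U` (at least 2) go to `z1`, which has a third neighbour in the pole,
so `insert z1` of that part has cut at most 1 in `U`. -/
theorem na_sep {U : Finset V} (hc : Ctx G U) {z z1 z2 z3 : V} {l1 l2 l3 : List V}
    (h : Star G U z l1 z1 l2 z2 l3 z3) (hn : [z, z1, z2, z3].Nodup) (h1 : 2 ≤ l1.length)
    (h2 : 2 ≤ l2.length) {Q : Finset V}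
    (hQ : ∀ w, w ∈ Q ↔ w ∈ U ∧ w ≠ z ∧ w ∉ l1 ∧ w ∉ l2 ∧ w ∉ l3) :
    Conn G Q ∧ ∃ S, S ⊆ Q ∧ z1 ∉ S ∧ z2 ∉ S ∧ z3 ∈ S ∧
      ∀ a ∈ S, ∀ b ∈ Q, G.Adj a b → b ∈ S ∨ b = z1 := by
  have hE := h.emb hn
  have hP : ∀ w, w ∈ pole nSt (fun i => [z, z1, z2, z3].getD i z)
      (fun e => [l1, l2, l3].getD e []) ↔ w = z ∨ w ∈ l1 ∨ w ∈ l2 ∨ w ∈ l3 := fun w => by
    rw [mem_pole]
    refine or_congr ⟨?_, fun e => ⟨0, zero_lt_one, e.symm⟩⟩ ⟨?_, ?_⟩
    · rintro ⟨i, hi, rfl⟩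
      rw [Nat.lt_one_iff.1 hi]
      rfl
    · rintro ⟨e, he, hw⟩
      have he' : e < 3 := he
      interval_cases e
      exacts [Or.inl hw, Or.inr (Or.inl hw), Or.inr (Or.inr hw)]
    · rintro (hw | hw | hw)
      exacts [⟨0, by decide, hw⟩, ⟨1, by decide, hw⟩, ⟨2, by decide, hw⟩]
  have eQ : Q = U \ _ := ext fun w => (hQ w).trans (by rw [mem_sdiff, hP, not_or, not_or, not_or])
  have hQU : Q ⊆ U := eQ ▸ sdiff_subset
  refine ⟨eQ ▸ hc.ec.conn_sdiff (hE.e0.pole_sub nSt_wf) (hE.e0.pole_cut hc.cub nSt_wf), ?_⟩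
  have eR : U \ del nSt (fun i => [z, z1, z2, z3].getD i z) (fun e => [l1, l2, l3].getD e [])
      (cll [0, 1, 2, 0]) = Q.erase z1 := by
    rw [eQ, del, show (range nSt.p).filter (fun i => nSt.m ≤ i ∧ cll [0, 1, 2, 0] i = 1) = {1} by
      decide, image_singleton, ← sdiff_singleton_eq_erase]
    exact (sdiff_sdiff _ _ _).symm
  have hnc : ¬Conn G (Q.erase z1) := fun hC => hc.ng (hE.good_G hc.cub hc.hA nSt_wf acc_stCGA
    (fun e he => by
      have he' : e < 3 := he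
      interval_cases e
      exacts [ty_long h1, ty_long h2, ty_any _])
    (fun k hk k' hk' a b c d => by
      rw [(by decide : ∀ k < nSt.p, ∀ k' < nSt.p, cll [0, 1, 2, 0] k = 1 → cll [0, 1, 2, 0] k' = 1 →
        k = k') k hk k' hk' c d]
      exact G.irrefl)
    (g := 2) (by decide) (by decide) rfl (eR ▸ hC))
  have key : ∀ T ⊆ Q.erase z1, T.Nonempty → cut G (Q.erase z1) T = 0 → z2 ∉ T → z3 ∈ T := by
    intro T hT hne h0 a2
    by_contra a3
    have a1 : z1 ∉ T := fun a => notMem_erase z1 Q (hT a)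
    have hTQ := hT.trans (erase_subset _ _)
    refine naf_one hc.cub hc.ec (hTQ.trans hQU) hne h.h1.hz' a1 (fun a => ?_) h.h1.symm.adj_fst
      fun a ha b hb hbT hab => ?_
    · obtain ⟨-, b1, b2, -⟩ := (hQ _).1 (hTQ a)
      rcases fst_mem_or l1.reverse z with b | b
      exacts [b2 (List.mem_reverse.1 b), b1 b.2]
    by_contra hb1
    by_cases hbQ : b ∈ Q
    · exact hbT (cut_eq_zero.1 h0 a ha b (mem_erase.2 ⟨hb1, hbQ⟩) hab)
    have b1 := mem_sdiff.1 (eQ ▸ hTQ ha)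
    rw [eQ, mem_sdiff, not_and, not_not] at hbQ
    obtain ⟨e, he, -, b2, -⟩ := hE.e0.pole_edge hc.cub nSt_wf (hbQ hb) b1.1 b1.2 hab.symm
    have he' : e < 3 := he
    interval_cases e
    exacts [a1 ((show a = z1 from b2) ▸ ha), a2 ((show a = z2 from b2) ▸ ha),
      a3 ((show a = z3 from b2) ▸ ha)]
  have fin : ∀ T ⊆ Q.erase z1, T.Nonempty → cut G (Q.erase z1) T = 0 → z2 ∉ T →
      ∃ S, S ⊆ Q ∧ z1 ∉ S ∧ z2 ∉ S ∧ z3 ∈ S ∧ ∀ a ∈ S, ∀ b ∈ Q, G.Adj a b → b ∈ S ∨ b = z1 :=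
    fun T hT hne h0 a2 => ⟨T, hT.trans (erase_subset _ _), fun a => notMem_erase z1 Q (hT a), a2,
      key T hT hne h0 a2, fun a ha b hb hab => or_iff_not_imp_right.2 fun hb1 =>
        cut_eq_zero.1 h0 a ha b (mem_erase.2 ⟨hb1, hb⟩) hab⟩
  simp only [Conn, not_forall, not_le, Nat.lt_one_iff] at hnc
  obtain ⟨S, s1, s2, s3, s4⟩ := hnc
  by_cases a2 : z2 ∈ S
  · exact fin _ sdiff_subset (sdiff_nonempty.2 fun a => s3 (s1.antisymm a))
      ((cut_compl s1).trans s4) (notMem_sdiff_of_mem_right a2)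
  · exact fin S s1 s2 s4 a2

/-- A vertex with two long links is on no digon (`dv_ex`, `dig_type0`, `Star.all`), so the three
ends differ. `na_sep` twice (second time after `Star.s12`) gives `S` and `S'`; `S ∩ S'` contains
`z3`, misses `z1`, `z2`, and is closed in `Q`. -/
theorem na_ctx {U : Finset V} (hc : Ctx G U) : NA G U := by
  intro z l1 z1 l2 z2 h1 h2 g1 g2
  by_contra hn
  obtain ⟨l3, z3, h⟩ := star_ex2 hc.cub hc.ec h1 h2 hn
  have hD : ¬Dv G U z := fun hD => by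
    obtain ⟨v, m1, m3, x, m4, y, d⟩ := dv_ex hc hD
    have d3 := (dig_type0 hc d).2.1
    have key : ∀ l z', Link G U z l z' → 2 ≤ l.length → (l, z') = (m1, v) := fun l z' a b => by
      rcases d.su.all hc.cub a with ⟨rfl, rfl⟩ | ⟨rfl, -⟩ | ⟨rfl, -⟩
      · rfl
      · exact absurd b (by simp)
      · omega
    exact hn ((key _ _ h1 g1).trans (key _ _ h2 g2).symm)
  have hne : ∀ {l l' y y'}, Link G U z l y → Link G U z l' y' → (l, y) ≠ (l', y') → y ≠ y' := by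
    rintro l l' y y' a b c rfl
    exact hD ⟨y, l, l', a, b, fun e => c (e ▸ rfl)⟩
  have n12 := hne h1 h2 hn
  have n13 := hne h1 h.h3 h.n13
  have n23 := hne h2 h.h3 h.n23
  obtain ⟨hC, S, s0, s1, s2, s3, s4⟩ := na_sep hc h
    (by simp [h1.ne, h2.ne, h.h3.ne, n12, n13, n23]) g1 g2 fun w => mem_filter
  obtain ⟨-, T, -, -, t1, t3, t4⟩ := na_sep hc h.s12
    (by simp [h1.ne, h2.ne, h.h3.ne, n12.symm, n13, n23]) g2 g1
    (Q := U.filter fun w => w ≠ z ∧ w ∉ l1 ∧ w ∉ l2 ∧ w ∉ l3) fun w => by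
      rw [mem_filter, and_left_comm (a := w ∉ l1)]
  have e := hC.eq_of_closed (inter_subset_left.trans s0) ⟨z3, mem_inter.2 ⟨s3, t3⟩⟩
    fun a ha b hb hab => by
      rcases s4 a (mem_inter.1 ha).1 b hb hab with b1 | rfl <;>
        rcases t4 a (mem_inter.1 ha).2 b hb hab with b2 | b2
      exacts [mem_inter.2 ⟨b1, b2⟩, (s2 (b2 ▸ b1)).elim, (t1 b2).elim, (n12 b2).elim]
  refine s1 (mem_inter.1 (e.ge (mem_filter.2 ⟨h1.memU.2, h1.ne.symm, fun a => h1.notK a h1.hz',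
    fun a => h2.notK a h1.hz', fun a => h.h3.notK a h1.hz'⟩))).1

end Pool.Agent.Lib.MP_7e4769_co.Sp
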