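import Pool.Agent.Lib.MP_7e4769_co.Sp.Core
import Pool.Agent.Lib.MP_7e4769_co.Sp.Fill

set_option autoImplicit false
set_option linter.unusedSectionVars false

namespace Pool.Agent.Lib.MP_7e4769_co.Sp

open Finset

variable {V : Type} [Fintype V] [DecidableEq V] {G : SimpleGraph V} [DecidableRel G.Adj]

theorem inj_of_nodup {L : List V} (h : L.Nodup) (d : V) :
    ∀ i < L.length, ∀ j < L.length, L.getD i d = L.getD j d → i = j := by
  intro i hi j hj e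
  rw [List.getD_eq_getElem _ _ hi, List.getD_eq_getElem _ _ hj] at e
  exact h.getElem_inj_iff.1 e

/-- for nets without parallel links -/
theorem Emb.of_simple {U : Finset V} {N : Net} {κ : ℕ → V} {lam : ℕ → List V} (hw : N.WF)
    (hs : ∀ e < N.n, ∀ e' < N.n, N.src e = N.src e' → N.dst e = N.dst e' → e = e')
    (hi : ∀ i < N.p, ∀ j < N.p, κ i = κ j → i = j)
    (hl : ∀ e < N.n, Link G U (κ (N.src e)) (lam e) (κ (N.dst e))) : Emb G U N κ lam := by
  refine ⟨⟨fun i h1 j h2 => hi i (h1.trans_le hw.1) j h2, hl, fun e he e' he' h1 h2 _ => ?_⟩, hi⟩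
  exact hs e he e' he' h1 (hi _ (hw.2.1 e he).2 _ (hw.2.1 e' he').2 h2)

theorem mem_pole {N : Net} {κ : ℕ → V} {lam : ℕ → List V} {w : V} :
    w ∈ pole N κ lam ↔ (∃ i < N.m, κ i = w) ∨ ∃ e < N.n, w ∈ lam e := by
  simp [pole]

theorem mem_del {N : Net} (hw : N.WF) {κ : ℕ → V} {lam : ℕ → List V} {cl : ℕ → ℕ} {w : V} :
    w ∈ del N κ lam cl ↔ (∃ i < N.p, (i < N.m ∨ cl i = 1) ∧ κ i = w) ∨ ∃ e < N.n, w ∈ lam e := by
  rw [del, mem_union, mem_pole, mem_image]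
  constructor
  · rintro ((⟨i, h1, h2⟩ | h1) | ⟨i, h1, h2⟩)
    · exact Or.inl ⟨i, h1.trans_le hw.1, Or.inl h1, h2⟩
    · exact Or.inr h1
    · rw [mem_filter, mem_range] at h1
      exact Or.inl ⟨i, h1.1, Or.inr h1.2.2, h2⟩
  · rintro (⟨i, h1, h2, h3⟩ | h1)
    · by_cases h4 : i < N.m
      · exact Or.inl (Or.inl ⟨i, h4, h3⟩)
      · exact Or.inr ⟨i, mem_filter.2 ⟨mem_range.2 h1, not_lt.1 h4, h2.resolve_left h4⟩, h3⟩
    · exact Or.inl (Or.inr h1)

/-- the link end `x`, read from that end -/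
def net_l (lam : ℕ → List V) (x : ℕ × Bool) : List V :=
  if x.2 then (lam x.1).reverse else lam x.1

theorem net_link {U : Finset V} {N : Net} {κ : ℕ → V} {lam : ℕ → List V}
    (h : Emb0 G U N κ lam) {x : ℕ × Bool} (hx : x.1 < N.n) :
    Link G U (κ (N.en x.1 x.2)) (net_l lam x) (κ (N.en x.1 (!x.2))) := by
  obtain ⟨e, _ | _⟩ := x
  · exact h.lk e hx
  · exact (h.lk e hx).symm

theorem net_ne {U : Finset V} {N : Net} {κ : ℕ → V} {lam : ℕ → List V} (hw : N.WF)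
    (h : Emb0 G U N κ lam) {x y : ℕ × Bool} (hx : x.1 < N.n) (hy : y.1 < N.n)
    (h1 : N.en x.1 x.2 = N.en y.1 y.2)
    (h2 : (net_l lam x, κ (N.en x.1 (!x.2))) = (net_l lam y, κ (N.en y.1 (!y.2)))) : x = y := by
  obtain ⟨h3, h4⟩ := Prod.mk.inj h2
  have a1 := hw.2.1 _ hx
  have a2 := hw.2.1 _ hy
  obtain ⟨e, _ | _⟩ := x <;> obtain ⟨e', _ | _⟩ := y
  · rw [h.ne e hx e' hy h1 h4 h3]
  · exact absurd ⟨h1, (h.inj _ a2.1 _ a1.2 h4.symm).symm⟩ (hw.2.2.2.2.2.2 e hx e' hy)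
  · exact absurd ⟨h1.symm, (h.inj _ a1.1 _ a2.2 h4).symm⟩ (hw.2.2.2.2.2.2 e' hy e hx)
  · rw [h.ne e hx e' hy (h.inj _ a1.1 _ (a2.1.trans_le hw.1) h4) (congrArg κ h1)
      (List.reverse_injective h3)]

theorem net_nb (hG : G.IsRegularOfDegree 3) {U : Finset V} {N : Net} {κ : ℕ → V}
    {lam : ℕ → List V} (hw : N.WF) (h : Emb0 G U N κ lam) {i : ℕ} (hi : i < N.m) {b : V}
    (hab : G.Adj (κ i) b) : ∃ x : ℕ × Bool, x.1 < N.n ∧ N.en x.1 x.2 = i ∧
      b = fst (net_l lam x) (κ (N.en x.1 (!x.2))) := by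
  have a := hw.2.2.1 i hi
  have l : ∀ j < 3, Link G U (κ i) (net_l lam (N.inc i j))
      (κ (N.en (N.inc i j).1 (!(N.inc i j).2))) := fun j hj => by
    have h1 := net_link h (a j hj).1
    rwa [(a j hj).2] at h1
  have n : ∀ j < 3, ∀ j' < 3, j ≠ j' →
      (net_l lam (N.inc i j), κ (N.en (N.inc i j).1 (!(N.inc i j).2))) ≠
        (net_l lam (N.inc i j'), κ (N.en (N.inc i j').1 (!(N.inc i j').2))) :=
    fun j hj j' hj' hn h1 => hn (hw.2.2.2.1 i hi j hj j' hj'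
      (net_ne hw h (a j hj).1 (a j' hj').1 ((a j hj).2.trans (a j' hj').2.symm) h1))
  have s := Star.nb hG ⟨l 0 (by omega), l 1 (by omega), l 2 (by omega),
    n 0 (by omega) 1 (by omega) (by omega), n 0 (by omega) 2 (by omega) (by omega),
    n 1 (by omega) 2 (by omega) (by omega)⟩ hab
  rcases s with s | s | s
  · exact ⟨_, (a 0 (by omega)).1, (a 0 (by omega)).2, s⟩
  · exact ⟨_, (a 1 (by omega)).1, (a 1 (by omega)).2, s⟩
  · exact ⟨_, (a 2 (by omega)).1, (a 2 (by omega)).2, s⟩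

theorem net_last {N : Net} (hw : N.WF) (κ : ℕ → V) (lam : ℕ → List V) {e : ℕ} (he : e < N.n) :
    fst (lam e).reverse (κ (N.src e)) ∈ pole N κ lam := by
  rcases fst_mem_or (lam e).reverse (κ (N.src e)) with h1 | h1
  · exact mem_pole.2 (Or.inr ⟨e, he, List.mem_reverse.1 h1⟩)
  · exact mem_pole.2 (Or.inl ⟨_, (hw.2.1 e he).1, h1.2.symm⟩)

theorem Emb0.memK {U : Finset V} {N : Net} {κ : ℕ → V} {lam : ℕ → List V} (hw : N.WF)
    (h : Emb0 G U N κ lam) {i : ℕ} (hi : i < N.p) : κ i ∈ Kn G U := by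
  by_cases h1 : i < N.m
  · have a := hw.2.2.1 i h1 0 (by omega)
    have h2 := (net_link h a.1).hz
    rwa [a.2] at h2
  · obtain ⟨e, he, rfl⟩ := hw.2.2.2.2.1 i hi (not_lt.1 h1)
    exact (h.lk e he).hz'

theorem Emb0.pole_sub {U : Finset V} {N : Net} {κ : ℕ → V} {lam : ℕ → List V} (hw : N.WF)
    (h : Emb0 G U N κ lam) : pole N κ lam ⊆ U := by
  intro w hw'
  rcases mem_pole.1 hw' with ⟨i, h1, rfl⟩ | ⟨e, he, h1⟩
  · exact (mem_Kn.1 (h.memK hw (h1.trans_le hw.1))).1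
  · exact ((h.lk e he).inn w h1).1

theorem Emb0.del_sub {U : Finset V} {N : Net} {κ : ℕ → V} {lam : ℕ → List V} (hw : N.WF)
    (h : Emb0 G U N κ lam) (cl : ℕ → ℕ) : del N κ lam cl ⊆ U := by
  intro w hw'
  rcases (mem_del hw).1 hw' with ⟨i, h1, -, rfl⟩ | ⟨e, he, h1⟩
  · exact (mem_Kn.1 (h.memK hw h1)).1
  · exact ((h.lk e he).inn w h1).1

theorem Emb0.port_notin {U : Finset V} {N : Net} {κ : ℕ → V} {lam : ℕ → List V} (hw : N.WF)
    (h : Emb0 G U N κ lam) {k : ℕ} (hk : N.m ≤ k) (hk' : k < N.p) : κ k ∉ pole N κ lam := by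
  intro h1
  rcases mem_pole.1 h1 with ⟨i, h2, h3⟩ | ⟨e, he, h2⟩
  · have := h.inj i h2 k hk' h3
    omega
  · exact (h.lk e he).notK h2 (h.memK hw hk')

theorem Emb0.pole_edge (hG : G.IsRegularOfDegree 3) {U : Finset V} {N : Net} {κ : ℕ → V}
    {lam : ℕ → List V} (hw : N.WF) (h : Emb0 G U N κ lam) {a b : V} (ha : a ∈ pole N κ lam)
    (hb : b ∈ U) (hb' : b ∉ pole N κ lam) (hab : G.Adj a b) :
    ∃ e < N.n, N.m ≤ N.dst e ∧ b = κ (N.dst e) ∧ a = fst (lam e).reverse (κ (N.src e)) := by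
  have out : ∀ e, b = κ (N.dst e) → N.m ≤ N.dst e := fun e h1 =>
    not_lt.1 fun h2 => hb' (mem_pole.2 (Or.inl ⟨_, h2, h1.symm⟩))
  rcases mem_pole.1 ha with ⟨i, h1, rfl⟩ | ⟨e, he, h1⟩
  · obtain ⟨⟨e, c⟩, he, h2, h3⟩ := net_nb hG hw h h1 hab
    cases c
    · rcases fst_mem_or (lam e) (κ (N.dst e)) with h4 | h4
      · exact absurd (mem_pole.2 (Or.inr ⟨e, he, h3 ▸ h4⟩)) hb'
      · have h5 : b = κ (N.dst e) := h3.trans h4.2
        refine ⟨e, he, out e h5, h5, ?_⟩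
        rw [h4.1, ← h2]
        rfl
    · exact absurd (h3 ▸ net_last hw κ lam he) hb'
  · rcases (h.lk e he).nb h1 hb hab with h2 | h2 | h2
    · exact absurd (mem_pole.2 (Or.inr ⟨e, he, h2⟩)) hb'
    · exact absurd (mem_pole.2 (Or.inl ⟨_, (hw.2.1 e he).1, h2.1.symm⟩)) hb'
    · exact ⟨e, he, out e h2.1, h2⟩

theorem net_cnt (hG : G.IsRegularOfDegree 3) {U : Finset V} {N : Net} {κ : ℕ → V}
    {lam : ℕ → List V} (hw : N.WF) (h : Emb0 G U N κ lam) {B : Finset V} {F : Finset ℕ}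
    (hB : ∀ b ∈ B, b ∈ U ∧ b ∉ pole N κ lam)
    (hF : ∀ k, N.m ≤ k → k < N.p → κ k ∈ B → k ∈ F) : eb G (pole N κ lam) B ≤ F.card := by
  refine (eb_le_card (((range N.n).filter fun e => N.m ≤ N.dst e ∧ N.dst e ∈ F).image
    fun e => (fst (lam e).reverse (κ (N.src e)), κ (N.dst e))) fun a ha b hb hab => ?_).trans
    (card_image_le.trans (card_le_card_of_injOn N.dst (fun e he => ?_) fun e he e' he' h1 => ?_))
  · obtain ⟨e, he, h1, h2, h3⟩ := h.pole_edge hG hw ha (hB b hb).1 (hB b hb).2 hab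
    exact mem_image.2 ⟨e, mem_filter.2 ⟨mem_range.2 he, h1, hF _ h1 (hw.2.1 e he).2 (h2 ▸ hb)⟩,
      by rw [← h2, ← h3]⟩
  · exact (mem_filter.1 (mem_coe.1 he)).2.2
  · have a1 := mem_filter.1 (mem_coe.1 he)
    have a2 := mem_filter.1 (mem_coe.1 he')
    exact hw.2.2.2.2.2.1 e (mem_range.1 a1.1) e' (mem_range.1 a2.1) a1.2.1 h1

theorem Emb0.pole_cut (hG : G.IsRegularOfDegree 3) {U : Finset V} {N : Net} {κ : ℕ → V}
    {lam : ℕ → List V} (hw : N.WF) (h : Emb0 G U N κ lam) :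
    cut G U (pole N κ lam) ≤ N.p - N.m := by
  rw [← Nat.card_Ico]
  exact net_cnt hG hw h (fun b hb => mem_sdiff.1 hb) fun k h1 h2 _ => mem_Ico.2 ⟨h1, h2⟩

/-- two ports cannot coincide -/
theorem Emb0.two (hG : G.IsRegularOfDegree 3) {U : Finset V} (he : EC2 G U) {N : Net} {κ : ℕ → V}
    {lam : ℕ → List V} (hw : N.WF) (h : Emb0 G U N κ lam) (h2 : N.p = N.m + 2) :
    Emb G U N κ lam := by
  refine ⟨h, fun i hi j hj hij => ?_⟩
  by_cases h3 : i < N.m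
  · exact h.inj i h3 j hj hij
  by_cases h4 : j < N.m
  · exact (h.inj j h4 i hi hij.symm).symm
  by_contra hn
  obtain ⟨e, a1, rfl⟩ := hw.2.2.2.2.1 i hi (not_lt.1 h3)
  obtain ⟨e', a2, rfl⟩ := hw.2.2.2.2.1 j hj (not_lt.1 h4)
  have l1 := (h.lk e a1).symm
  have l2 := (h.lk e' a2).symm
  rw [← hij] at l2
  refine he.no_two (h.pole_sub hw) ((h.pole_cut hG hw).trans (by omega)) l1.hz
    (h.port_notin hw (not_lt.1 h3) hi) (two_le_dg (net_last hw κ lam a1) (net_last hw κ lam a2)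
      l1.adj_fst l2.adj_fst fun h5 => hn ?_)
  obtain ⟨h6, h7⟩ := Prod.mk.inj (l1.uniq l2 h5)
  rw [h.ne e a1 e' a2 (h.inj _ (hw.2.1 e a1).1 _ ((hw.2.1 e' a2).1.trans_le hw.1) h7) hij
    (List.reverse_injective h6)]

theorem Emb.del_cut (hG : G.IsRegularOfDegree 3) {U : Finset V} {N : Net} {κ : ℕ → V}
    {lam : ℕ → List V} (hw : N.WF) (h : Emb G U N κ lam) (cl : ℕ → ℕ) :
    cut G U (del N κ lam cl) ≤ N.wt cl := by
  have hs : pole N κ lam ⊆ del N κ lam cl := subset_union_left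
  have h1 := net_cnt hG hw h.e0 (B := U \ del N κ lam cl)
    (F := (range N.p).filter fun i => N.m ≤ i ∧ cl i ≠ 1)
    (fun b hb => ⟨(mem_sdiff.1 hb).1, fun h1 => (mem_sdiff.1 hb).2 (hs h1)⟩)
    fun k h1 h2 h3 => mem_filter.2 ⟨mem_range.2 h2, h1, fun h4 =>
      (mem_sdiff.1 h3).2 ((mem_del hw).2 (Or.inl ⟨k, h2, Or.inr h4, rfl⟩))⟩
  have h2 : eb G (((range N.p).filter fun i => N.m ≤ i ∧ cl i = 1).image κ)
      (U \ del N κ lam cl) ≤ ((range N.p).filter fun i => N.m ≤ i ∧ cl i = 1).card * 2 := by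
    refine (sum_le_card_nsmul _ _ 2 fun a ha => ?_).trans
      (Nat.mul_le_mul_right 2 card_image_le)
    obtain ⟨k, hk, rfl⟩ := mem_image.1 ha
    rw [mem_filter, mem_range] at hk
    obtain ⟨e, he, rfl⟩ := hw.2.2.2.2.1 k hk.1 hk.2.1
    have l := (h.e0.lk e he).symm
    have h3 := dg_lt (A := U \ del N κ lam cl) sdiff_subset l.fst_mem
      (fun h3 => (mem_sdiff.1 h3).2 (hs (net_last hw κ lam he))) l.adj_fst
    have h4 := dg_le hG U (κ (N.dst e))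
    omega
  have h3 : N.wt cl = ((range N.p).filter fun i => N.m ≤ i ∧ cl i ≠ 1).card +
      ((range N.p).filter fun i => N.m ≤ i ∧ cl i = 1).card * 2 := by
    rw [Net.wt, card_filter, card_filter, sum_mul, ← sum_add_distrib]
    refine sum_congr rfl fun i _ => ?_
    by_cases a1 : i < N.m
    · simp [a1, not_le.2 a1]
    · by_cases a2 : cl i = 1 <;> simp [a1, a2, not_lt.1 a1]
  have h4 := sum_union_inter (s₁ := pole N κ lam)
    (s₂ := ((range N.p).filter fun i => N.m ≤ i ∧ cl i = 1).image κ)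
    (f := fun a => dg G (U \ del N κ lam cl) a)
  have h5 : cut G U (del N κ lam cl) = ∑ a ∈ pole N κ lam ∪
      ((range N.p).filter fun i => N.m ≤ i ∧ cl i = 1).image κ, dg G (U \ del N κ lam cl) a := rfl
  rw [eb] at h1 h2
  omega

theorem Emb.port_mem {U : Finset V} {N : Net} {κ : ℕ → V} {lam : ℕ → List V} (hw : N.WF)
    (h : Emb G U N κ lam) {cl : ℕ → ℕ} {k : ℕ} (hk : N.m ≤ k) (hk' : k < N.p) (hc : cl k ≠ 1) :
    κ k ∈ U \ del N κ lam cl := by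
  refine mem_sdiff.2 ⟨(mem_Kn.1 (h.e0.memK hw hk')).1, fun h1 => ?_⟩
  rcases (mem_del hw).1 h1 with ⟨i, h2, h3, h4⟩ | ⟨e, he, h2⟩
  · obtain rfl := h.pinj i h2 k hk' h4
    omega
  · exact (h.e0.lk e he).notK h2 (h.e0.memK hw hk')

theorem ty_nil : ty ([] : List V) = 0 := rfl

theorem ty_any (l : List V) : ty l ∈ ([0, 1, 2, 3] : List (Fin 4)) := by
  rw [ty]
  split_ifs <;> decide

theorem ty_short {l : List V} (h : l.length ≤ 1) : ty l ∈ ([0, 1] : List (Fin 4)) := by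
  rw [ty]
  split_ifs <;> first | decide | omega

theorem ty_long {l : List V} (h : 2 ≤ l.length) : ty l ∈ ([2, 3] : List (Fin 4)) := by
  rw [ty]
  split_ifs <;> first | decide | omega

theorem ty_pos {l : List V} (h : l ≠ []) : ty l ∈ ([1, 2, 3] : List (Fin 4)) := by
  have := List.length_pos_iff.2 h
  rw [ty]
  split_ifs <;> first | decide | omega

theorem ty_odd {l : List V} (h : l.length % 2 = 1) : ty l ∈ ([1, 3] : List (Fin 4)) := by
  rw [ty]
  split_ifs <;> first | decide | omega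

theorem ty_zero {l : List V} (h : l = []) : ty l ∈ ([0] : List (Fin 4)) := by
  rw [h, ty_nil]
  decide

theorem ty_one {l : List V} (h : l.length = 1) : ty l ∈ ([1] : List (Fin 4)) := by
  rw [ty]
  split_ifs <;> first | decide | omega

theorem ty_two {l : List V} (h : l ≠ []) (h2 : l.length % 2 = 0) :
    ty l ∈ ([2] : List (Fin 4)) := by
  have := List.length_pos_iff.2 h
  rw [ty]
  split_ifs <;> first | decide | omega

end Pool.Agent.Lib.MP_7e4769_co.Sp
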