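import Pool.Agent.Lib.MP_7e4769_co.Sp.Net

set_option autoImplicit false
set_option linter.unusedSectionVars false

namespace Pool.Agent.Lib.MP_7e4769_co.Sp

open Finset

variable {V : Type} [Fintype V] [DecidableEq V] {G : SimpleGraph V} [DecidableRel G.Adj]

theorem netg_sub (N : Net) (κ : ℕ → V) (lam : ℕ → List V) (cl : ℕ → ℕ) :
    pole N κ lam ⊆ del N κ lam cl := subset_union_left

/-- the vertex before the end of a link -/
theorem netg_q {U : Finset V} {N : Net} {κ : ℕ → V} {lam : ℕ → List V} (hw : N.WF)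
    (h : Emb0 G U N κ lam) {e : ℕ} (he : e < N.n) :
    fst (lam e).reverse (κ (N.src e)) ∈ pole N κ lam ∧
      G.Adj (κ (N.dst e)) (fst (lam e).reverse (κ (N.src e))) := by
  refine ⟨mem_pole.2 ?_, (h.lk e he).symm.adj_fst⟩
  rcases fst_mem_or (lam e).reverse (κ (N.src e)) with h1 | h1
  · exact Or.inr ⟨e, he, List.mem_reverse.1 h1⟩
  · exact Or.inl ⟨_, (hw.2.1 e he).1, h1.2.symm⟩

/-- a port has one neighbour in the pole -/
theorem netg_nb (hG : G.IsRegularOfDegree 3) {U : Finset V} {N : Net} {κ : ℕ → V}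
    {lam : ℕ → List V} (hw : N.WF) (h : Emb G U N κ lam) {e : ℕ} (he : e < N.n)
    (hm : N.m ≤ N.dst e) {x : V} (hx : G.Adj (κ (N.dst e)) x)
    (hq : x ≠ fst (lam e).reverse (κ (N.src e))) : x ∉ pole N κ lam := fun hp => by
  have hd := (hw.2.1 e he).2
  obtain ⟨e', he', -, h1, h2⟩ := h.e0.pole_edge hG hw hp (h.e0.lk e he).memU.2
    (h.e0.port_notin hw hm hd) hx.symm
  obtain rfl := hw.2.2.2.2.2.1 e he e' he' hm (h.pinj _ hd _ (hw.2.1 e' he').2 h1)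
  exact hq h2

theorem netg_opp {U : Finset V} {N : Net} {κ : ℕ → V} {lam : ℕ → List V} (hw : N.WF)
    (h : Emb0 G U N κ lam) {e e' : ℕ} (he : e < N.n) (he' : e' < N.n)
    (h1 : κ (N.src e) = κ (N.dst e')) (h2 : κ (N.dst e) = κ (N.src e')) : False :=
  hw.2.2.2.2.2.2 e he e' he' ⟨h.inj _ (hw.2.1 e he).1 _ (hw.2.1 e' he').2 h1,
    (h.inj _ (hw.2.1 e' he').1 _ (hw.2.1 e he).2 h2.symm).symm⟩

theorem netg_same {U : Finset V} {N : Net} {κ : ℕ → V} {lam : ℕ → List V} (hw : N.WF)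
    (h : Emb0 G U N κ lam) {e e' : ℕ} (he : e < N.n) (he' : e' < N.n)
    (h1 : κ (N.src e) = κ (N.src e')) (h2 : κ (N.dst e) = κ (N.dst e')) (h3 : lam e = lam e') :
    e = e' :=
  h.ne e he e' he' (h.inj _ (hw.2.1 e he).1 _ ((hw.2.1 e' he').1.trans_le hw.1) h1) h2 h3

/-- the neighbour of the end `b` of the link `e` -/
def netg_nx (N : Net) (κ : ℕ → V) (lam : ℕ → List V) (e : ℕ) : Bool → V
  | false => fst (lam e) (κ (N.dst e))
  | true => fst (lam e).reverse (κ (N.src e))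

theorem netg_adj {U : Finset V} {N : Net} {κ : ℕ → V} {lam : ℕ → List V}
    (h : Emb0 G U N κ lam) {e : ℕ} (he : e < N.n) (b : Bool) :
    G.Adj (κ (N.en e b)) (netg_nx N κ lam e b) := by
  cases b
  · exact (h.lk e he).adj_fst
  · exact (h.lk e he).symm.adj_fst

theorem netg_inj {U : Finset V} {N : Net} {κ : ℕ → V} {lam : ℕ → List V} (hw : N.WF)
    (h : Emb0 G U N κ lam) {x y : ℕ × Bool} (he : x.1 < N.n) (he' : y.1 < N.n)
    (h1 : N.en x.1 x.2 = N.en y.1 y.2)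
    (h2 : netg_nx N κ lam x.1 x.2 = netg_nx N κ lam y.1 y.2) : x = y := by
  obtain ⟨e, b⟩ := x
  obtain ⟨e', b'⟩ := y
  have h1' := congrArg κ h1
  have l := h.lk e he
  have l' := h.lk e' he'
  cases b <;> cases b'
  · have h0 : κ (N.src e) = κ (N.src e') := h1'
    have h3 := Prod.ext_iff.1 ((h0 ▸ l).uniq l' h2)
    exact Prod.ext (netg_same hw h he he' h0 h3.2 h3.1) rfl
  · have h0 : κ (N.src e) = κ (N.dst e') := h1'
    exact (netg_opp hw h he he' h0 (Prod.ext_iff.1 ((h0 ▸ l).uniq l'.symm h2)).2).elim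
  · have h0 : κ (N.dst e) = κ (N.src e') := h1'
    exact (netg_opp hw h he he' (Prod.ext_iff.1 ((h0 ▸ l.symm).uniq l' h2)).2 h0).elim
  · have h0 : κ (N.dst e) = κ (N.dst e') := h1'
    have h3 := Prod.ext_iff.1 ((h0 ▸ l.symm).uniq l'.symm h2)
    exact Prod.ext (netg_same hw h he he' h3.2 h0 (List.reverse_injective h3.1)) rfl

/-- the states of the ports -/
theorem netg_st (hG : G.IsRegularOfDegree 3) {U : Finset V} {N : Net} {κ : ℕ → V}
    {lam : ℕ → List V} (hw : N.WF) (h : Emb G U N κ lam) {cl : ℕ → ℕ}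
    (hC : ∀ k < N.p, ∀ k' < N.p, N.m ≤ k → N.m ≤ k' → cl k = 1 → cl k' = 1 →
      ¬ G.Adj (κ k) (κ k'))
    (c0 : V → Fin 4) (h0 : ∀ v, v ∉ U \ del N κ lam cl → c0 v = 3)
    (h1 : ∀ v ∈ U \ del N κ lam cl, ok G c0 v ∨ ∃ e < N.n, N.m ≤ N.dst e ∧ 2 ≤ cl (N.dst e) ∧
      v = κ (N.dst e) ∧ ∀ x, G.Adj v x → x ≠ fst (lam e).reverse (κ (N.src e)) → c0 x ≠ c0 v)
    {e : ℕ} (he : e < N.n) (hm : N.m ≤ N.dst e) :
    ∃ d, cls (cl (N.dst e)) (c0 (κ (N.dst e))) d = true ∧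
      St G c0 (κ (N.dst e)) (fst (lam e).reverse (κ (N.src e))) d := by
  have hd := (hw.2.1 e he).2
  obtain ⟨q1, q2⟩ := netg_q hw h.e0 he
  by_cases hc : cl (N.dst e) = 1
  · have h3 : c0 (κ (N.dst e)) = 3 := h0 _ fun hh =>
      (mem_sdiff.1 hh).2 ((mem_del hw).2 (Or.inl ⟨_, hd, Or.inr hc, rfl⟩))
    obtain ⟨d, hd'⟩ := st_free hG (c := c0) q2 fun x hx hq => by
      have hp := netg_nb hG hw h he hm hx hq
      have hR : x ∈ U \ del N κ lam cl := by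
        refine mem_sdiff.2 ⟨dg3_mem hG (mem_Kn.1 (h.e0.memK hw hd)).2 hx, fun hh => ?_⟩
        rcases (mem_del hw).1 hh with ⟨i, hi, hi', rfl⟩ | hh
        · by_cases him : i < N.m
          · exact hp (mem_pole.2 (Or.inl ⟨i, him, rfl⟩))
          · exact hC _ hd i hi hm (not_lt.1 him) hc (hi'.resolve_left him) hx
        · exact hp (mem_pole.2 (Or.inr hh))
      rcases h1 x hR with h4 | ⟨e', he', -, -, -, h4⟩
      · exact (h4.1 _ hx.symm).symm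
      · exact (h4 _ hx.symm fun hh =>
          h.e0.port_notin hw hm hd (hh ▸ (netg_q hw h.e0 he').1)).symm
    refine ⟨d, ?_, hd'⟩
    have := hd'.1
    rw [h3] at this
    simp [cls, hc, h3, this]
  · rcases h1 _ (h.port_mem hw hm hd hc) with h4 | ⟨e', he', -, h5, h6, h4⟩
    · obtain ⟨d, hd', h5, h6⟩ := st_ok hG q2 h4
        (h0 _ fun hh => (mem_sdiff.1 hh).2 (netg_sub N κ lam cl q1))
      refine ⟨d, ?_, hd'⟩
      have := hd'.1.symm
      simp [cls, hc, h5, h6, this]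
    · obtain rfl := hw.2.2.2.2.2.1 e he e' he' hm (h.pinj _ hd _ (hw.2.1 e' he').2 h6)
      obtain ⟨d, hd'⟩ := st_free hG q2 h4
      refine ⟨d, ?_, hd'⟩
      have := hd'.1.symm
      have h7 : cl (N.dst e) ≠ 0 := by omega
      simp [cls, hc, h7, this]

theorem Emb.good (hG : G.IsRegularOfDegree 3) {U : Finset V} {N : Net} {κ : ℕ → V}
    {lam : ℕ → List V} (hw : N.WF) (h : Emb G U N κ lam) {T : ℕ → List (Fin 4)} {cl : ℕ → ℕ}
    (ha : N.Acc T cl) (hT : ∀ e < N.n, ty (lam e) ∈ T e)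
    (hC : ∀ k < N.p, ∀ k' < N.p, N.m ≤ k → N.m ≤ k' → cl k = 1 → cl k' = 1 →
      ¬ G.Adj (κ k) (κ k'))
    (c0 : V → Fin 4) (h0 : ∀ v, v ∉ U \ del N κ lam cl → c0 v = 3)
    (h1 : ∀ v ∈ U \ del N κ lam cl, ok G c0 v ∨ ∃ e < N.n, N.m ≤ N.dst e ∧ 2 ≤ cl (N.dst e) ∧
      v = κ (N.dst e) ∧ ∀ x, G.Adj v x → x ≠ fst (lam e).reverse (κ (N.src e)) → c0 x ≠ c0 v) :
    Good G U := by
  classical
  have hs : ∀ k, ∃ d, k < N.p → N.m ≤ k → cls (cl k) (c0 (κ k)) d = true ∧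
      ∀ e < N.n, N.dst e = k → St G c0 (κ k) (fst (lam e).reverse (κ (N.src e))) d := fun k => by
    by_cases hk : k < N.p ∧ N.m ≤ k
    · obtain ⟨e, he, rfl⟩ := hw.2.2.2.2.1 k hk.1 hk.2
      obtain ⟨d, h2, h3⟩ := netg_st hG hw h hC c0 h0 h1 he hk.2
      refine ⟨d, fun _ _ => ⟨h2, fun e' he' h4 => ?_⟩⟩
      obtain rfl := hw.2.2.2.2.2.1 e he e' he' hk.2 h4.symm
      exact h3
    · exact ⟨0, fun a b => (hk ⟨a, b⟩).elim⟩
  choose pe hpe using hs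
  obtain ⟨col, s, a1, a2, a3, a4⟩ := ha (fun e => ty (lam e)) (fun k => c0 (κ k)) pe hT
    fun k hk hk' => (hpe k hk hk').1
  choose! f hf using fun e (he : e < N.n) => link_fill hG (h.e0.lk e he) (a2 e he)
  obtain ⟨c, c1, c2, c3⟩ : ∃ c : V → Fin 4, (∀ i < N.m, c (κ i) = col i) ∧
      (∀ e < N.n, ∀ t ∈ lam e, c t = f e t) ∧ ∀ v, v ∉ pole N κ lam → c v = c0 v := by
    refine ⟨fun v => if h2 : ∃ i < N.m, κ i = v then col h2.choose else
      if h3 : ∃ e < N.n, v ∈ lam e then f h3.choose v else c0 v, fun i hi => ?_,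
      fun e he t ht => ?_, fun v hv => ?_⟩
    · have h2 : ∃ j < N.m, κ j = κ i := ⟨i, hi, rfl⟩
      simp only [dif_pos h2]
      rw [h.e0.inj _ h2.choose_spec.1 _ (hi.trans_le hw.1) h2.choose_spec.2]
    · have h2 : ¬ ∃ i < N.m, κ i = t := fun ⟨i, hi, h2⟩ =>
        (h.e0.lk e he).notK ht (h2 ▸ h.e0.memK hw (hi.trans_le hw.1))
      have h3 : ∃ e < N.n, t ∈ lam e := ⟨e, he, ht⟩
      simp only [dif_neg h2, dif_pos h3]
      obtain ⟨h4, h5⟩ := h3.choose_spec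
      rcases (h.e0.lk e he).disj (h.e0.lk _ h4) ht h5 with h6 | h6
      · rw [← netg_same hw h.e0 he h4 h6.1 h6.2.2 h6.2.1]
      · exact (netg_opp hw h.e0 he h4 h6.1 h6.2.2).elim
    · rw [mem_pole, not_or] at hv
      simp only [dif_neg hv.1, dif_neg hv.2]
  have c4 : ∀ i < N.p, c (κ i) = col i := fun i hi => by
    by_cases him : i < N.m
    · exact c1 i him
    · rw [c3 _ (h.e0.port_notin hw (not_lt.1 him) hi), a1 i (not_lt.1 him)]
  have c5 : ∀ v, v ∉ U → c v = 3 := fun v hv => by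
    rw [c3 v fun hh => hv (h.e0.pole_sub hw hh), h0 v fun hh => hv (mem_sdiff.1 hh).1]
  have c6 := fun e (he : e < N.n) => hf e he c (c2 e he) (c1 _ (hw.2.1 e he).1)
    (c4 _ (hw.2.1 e he).2) c5
  have c7 : ∀ e < N.n, ∀ b, c (netg_nx N κ lam e b) = s e b := fun e he b => by
    cases b
    · exact (c6 e he).2.1
    · exact (c6 e he).2.2
  refine ⟨c, c5, fun v hv => ?_⟩
  by_cases hp : v ∈ pole N κ lam
  · rcases mem_pole.1 hp with ⟨i, hi, rfl⟩ | ⟨e, he, ht⟩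
    · have b1 := hw.2.2.1 i hi
      have b2 : ∀ j < 3, G.Adj (κ i) (netg_nx N κ lam (N.inc i j).1 (N.inc i j).2) := fun j hj => by
        have := netg_adj h.e0 (b1 j hj).1 (N.inc i j).2
        rwa [(b1 j hj).2] at this
      have b3 : ∀ j < 3, ∀ j' < 3, j ≠ j' → netg_nx N κ lam (N.inc i j).1 (N.inc i j).2 ≠
          netg_nx N κ lam (N.inc i j').1 (N.inc i j').2 := fun j hj j' hj' hne hh =>
        hne (hw.2.2.2.1 i hi j hj j' hj' (netg_inj hw h.e0 (b1 j hj).1 (b1 j' hj').1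
          ((b1 j hj).2.trans (b1 j' hj').2.symm) hh))
      rw [ok_iff hG (b2 0 (by omega)) (b2 1 (by omega)) (b2 2 (by omega))
        (b3 0 (by omega) 1 (by omega) (by omega)) (b3 0 (by omega) 2 (by omega) (by omega))
        (b3 1 (by omega) 2 (by omega) (by omega)), c1 i hi, c7 _ (b1 0 (by omega)).1,
        c7 _ (b1 1 (by omega)).1, c7 _ (b1 2 (by omega)).1]
      exact a3 i hi
    · exact (c6 e he).1 v ht
  · by_cases hq : ∃ e < N.n, N.m ≤ N.dst e ∧ v = κ (N.dst e)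
    · obtain ⟨e, he, hm, rfl⟩ := hq
      refine ((hpe _ (hw.2.1 e he).2 hm).2 e he rfl).2 c
        (fun x hx hq => c3 x (netg_nb hG hw h he hm hx hq)) (c3 _ hp) ?_ ?_
      · rw [(c6 e he).2.2]
        exact (a4 e he hm).1
      · rw [(c6 e he).2.2]
        exact (a4 e he hm).2
    · have hR : v ∈ U \ del N κ lam cl := by
        refine mem_sdiff.2 ⟨hv, fun hh => ?_⟩
        rcases (mem_del hw).1 hh with ⟨i, hi, -, rfl⟩ | hh
        · by_cases him : i < N.m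
          · exact hp (mem_pole.2 (Or.inl ⟨i, him, rfl⟩))
          · obtain ⟨e, he, rfl⟩ := hw.2.2.2.2.1 i hi (not_lt.1 him)
            exact hq ⟨e, he, not_lt.1 him, rfl⟩
        · exact hp (mem_pole.2 (Or.inr hh))
      rcases h1 v hR with h4 | ⟨e, he, hm, -, h4, -⟩
      · refine ok_congr (c3 v hp) (fun x hx => c3 x fun hh => ?_) h4
        obtain ⟨e, he, hm, h5, -⟩ := h.e0.pole_edge hG hw hh hv hp hx.symm
        exact hq ⟨e, he, hm, h5⟩
      · exact (hq ⟨e, he, hm, h4⟩).elim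

theorem Emb.good_C (hG : G.IsRegularOfDegree 3) {U : Finset V} {N : Net} {κ : ℕ → V}
    {lam : ℕ → List V} (hw : N.WF) (h : Emb G U N κ lam) {T : ℕ → List (Fin 4)} {cl : ℕ → ℕ}
    (ha : N.Acc T cl) (hT : ∀ e < N.n, ty (lam e) ∈ T e)
    (hC : ∀ k < N.p, ∀ k' < N.p, N.m ≤ k → N.m ≤ k' → cl k = 1 → cl k' = 1 →
      ¬ G.Adj (κ k) (κ k'))
    (hg : Good G (U \ del N κ lam cl)) : Good G U := by
  obtain ⟨c0, h0, h1⟩ := hg
  exact h.good hG hw ha hT hC c0 h0 fun v hv => Or.inl (h1 v hv)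

theorem Emb.good_G (hG : G.IsRegularOfDegree 3) {U : Finset V} (hA : HA G U.card) {N : Net}
    {κ : ℕ → V} {lam : ℕ → List V} (hw : N.WF) (h : Emb G U N κ lam) {T : ℕ → List (Fin 4)}
    {cl : ℕ → ℕ} (ha : N.Acc T cl) (hT : ∀ e < N.n, ty (lam e) ∈ T e)
    (hC : ∀ k < N.p, ∀ k' < N.p, N.m ≤ k → N.m ≤ k' → cl k = 1 → cl k' = 1 →
      ¬ G.Adj (κ k) (κ k'))
    {g : ℕ} (hg : N.m ≤ g) (hg' : g < N.p) (hcl : cl g = 2)
    (hc : Conn G (U \ del N κ lam cl)) : Good G U := by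
  obtain ⟨e, he, rfl⟩ := hw.2.2.2.2.1 g hg' hg
  obtain ⟨q1, q2⟩ := netg_q hw h.e0 he
  have q3 : fst (lam e).reverse (κ (N.src e)) ∉ U \ del N κ lam cl := fun hh =>
    (mem_sdiff.1 hh).2 (netg_sub N κ lam cl q1)
  obtain ⟨c0, h0, h1, h2⟩ := hA _ (card_lt_card ⟨sdiff_subset, fun hh =>
    q3 (hh (h.e0.pole_sub hw q1))⟩) hc _ _ (h.port_mem hw hg hg' (by omega)) q3 q2
  refine h.good hG hw ha hT hC c0 h0 fun v hv => ?_
  by_cases hv' : v = κ (N.dst e)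
  · exact Or.inr ⟨e, he, hg, hcl.ge, hv', hv' ▸ h2⟩
  · exact Or.inl (h1 v hv hv')

/-- the usual case: at most three edges leave the deleted set -/
theorem Emb.good_G3 (hG : G.IsRegularOfDegree 3) {U : Finset V} (he : EC2 G U)
    (hA : HA G U.card) {N : Net} {κ : ℕ → V} {lam : ℕ → List V} (hw : N.WF)
    (h : Emb G U N κ lam) {T : ℕ → List (Fin 4)} {cl : ℕ → ℕ} (ha : N.Acc T cl)
    (hT : ∀ e < N.n, ty (lam e) ∈ T e)
    (hC : ∀ k < N.p, ∀ k' < N.p, N.m ≤ k → N.m ≤ k' → cl k = 1 → cl k' = 1 → k = k')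
    {g : ℕ} (hg : N.m ≤ g) (hg' : g < N.p) (hcl : cl g = 2) (h3 : N.wt cl ≤ 3) : Good G U := by
  refine h.good_G hG hA hw ha hT (fun k hk k' hk' h1 h2 h4 h5 => ?_) hg hg' hcl
    (he.conn_sdiff (h.e0.del_sub hw cl) ((h.del_cut hG hw cl).trans h3))
  rw [hC k hk k' hk' h1 h2 h4 h5]
  exact G.irrefl

theorem Emb0.closed_eq (hG : G.IsRegularOfDegree 3) {U : Finset V} (he : EC2 G U) {N : Net}
    {κ : ℕ → V} {lam : ℕ → List V} (hw : N.WF) (h : Emb0 G U N κ lam) (hp : N.p = N.m)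
    (h0 : 0 < N.m) : pole N κ lam = U := by
  by_contra hne
  have h1 := he.2 _ (h.pole_sub hw) ⟨κ 0, mem_pole.2 (Or.inl ⟨0, h0, rfl⟩)⟩ hne
  have h2 := h.pole_cut hG hw
  omega

theorem Emb.closed (hG : G.IsRegularOfDegree 3) {U : Finset V} (he : EC2 G U) {N : Net}
    {κ : ℕ → V} {lam : ℕ → List V} (hw : N.WF) (h : Emb G U N κ lam) {T : ℕ → List (Fin 4)}
    {cl : ℕ → ℕ} (ha : N.Acc T cl) (hT : ∀ e < N.n, ty (lam e) ∈ T e) (hp : N.p = N.m)
    (h0 : 0 < N.m) : Good G U := by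
  refine h.good_C hG hw ha hT (fun k hk _ _ h1 => by omega) ?_
  rw [sdiff_eq_empty_iff_subset.2 ((h.e0.closed_eq hG he hw hp h0).ge.trans (netg_sub N κ lam cl))]
  exact good_empty

end Pool.Agent.Lib.MP_7e4769_co.Sp
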