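import Pool.Agent.Lib.MP_7e4769_co.Sp.Chk

set_option autoImplicit false

namespace Pool.Agent.Lib.MP_7e4769_co.Sp

/-- allowed types per link, from a list -/
def tyl (L : List (List (Fin 4))) (e : ℕ) : List (Fin 4) := L.getD e []

/-- classes per vertex, from a list -/
def cll (L : List ℕ) (k : ℕ) : ℕ := L.getD k 0

def nDg : Net :=
  mkNet 2 4 [(0, 1), (0, 1), (0, 2), (1, 3)]
    [[(0, false), (1, false), (2, false)],
     [(0, true), (1, true), (3, false)]]

theorem nDg_wf : nDg.WF := by decide +kernel

def nSt : Net :=
  mkNet 1 4 [(0, 1), (0, 2), (0, 3)]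
    [[(0, false), (1, false), (2, false)]]

theorem nSt_wf : nSt.WF := by decide +kernel

def nTh : Net :=
  mkNet 2 2 [(0, 1), (0, 1), (0, 1)]
    [[(0, false), (1, false), (2, false)],
     [(0, true), (1, true), (2, true)]]

theorem nTh_wf : nTh.WF := by decide +kernel

def nH : Net :=
  mkNet 2 6 [(0, 1), (0, 2), (0, 3), (1, 4), (1, 5)]
    [[(0, false), (1, false), (2, false)],
     [(0, true), (3, false), (4, false)]]

theorem nH_wf : nH.WF := by decide +kernel

def nK4m : Net :=
  mkNet 4 6 [(0, 1), (0, 2), (2, 1), (0, 3), (3, 1), (2, 4), (3, 5)]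
    [[(0, false), (1, false), (3, false)],
     [(0, true), (2, true), (4, true)],
     [(1, true), (2, false), (5, false)],
     [(3, true), (4, false), (6, false)]]

theorem nK4m_wf : nK4m.WF := by decide +kernel

def nK4c : Net :=
  mkNet 4 4 [(0, 1), (0, 2), (2, 1), (0, 3), (3, 1), (2, 3)]
    [[(0, false), (1, false), (3, false)],
     [(0, true), (2, true), (4, true)],
     [(1, true), (2, false), (5, false)],
     [(3, true), (4, false), (5, true)]]

theorem nK4c_wf : nK4c.WF := by decide +kernel

def nTri : Net :=
  mkNet 3 6 [(0, 1), (1, 2), (2, 0), (0, 3), (1, 4), (2, 5)]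
    [[(0, false), (2, true), (3, false)],
     [(0, true), (1, false), (4, false)],
     [(1, true), (2, false), (5, false)]]

theorem nTri_wf : nTri.WF := by decide +kernel

def nPri : Net :=
  mkNet 6 6 [(0, 1), (0, 2), (0, 3), (1, 4), (1, 5), (2, 3), (4, 5), (2, 4), (3, 5)]
    [[(0, false), (1, false), (2, false)],
     [(0, true), (3, false), (4, false)],
     [(1, true), (5, false), (7, false)],
     [(2, true), (5, true), (8, false)],
     [(3, true), (6, false), (7, true)],
     [(4, true), (6, true), (8, true)]]

theorem nPri_wf : nPri.WF := by decide +kernel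

def nK33 : Net :=
  mkNet 6 6 [(0, 1), (0, 2), (0, 3), (1, 4), (1, 5), (2, 4), (3, 5), (2, 5), (3, 4)]
    [[(0, false), (1, false), (2, false)],
     [(0, true), (3, false), (4, false)],
     [(1, true), (5, false), (7, false)],
     [(2, true), (6, false), (8, false)],
     [(3, true), (5, true), (8, true)],
     [(4, true), (6, true), (7, true)]]

theorem nK33_wf : nK33.WF := by decide +kernel

def nWag : Net :=
  mkNet 8 8 [(0, 1), (0, 2), (0, 3), (1, 4), (1, 5), (6, 7), (2, 6), (4, 7), (3, 5), (2, 4), (3, 7), (5, 6)]
    [[(0, false), (1, false), (2, false)],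
     [(0, true), (3, false), (4, false)],
     [(1, true), (6, false), (9, false)],
     [(2, true), (8, false), (10, false)],
     [(3, true), (7, false), (9, true)],
     [(4, true), (8, true), (11, false)],
     [(5, false), (6, true), (11, true)],
     [(5, true), (7, true), (10, true)]]

theorem nWag_wf : nWag.WF := by decide +kernel

def nCub : Net :=
  mkNet 8 8 [(0, 1), (0, 2), (0, 3), (1, 4), (1, 5), (6, 7), (2, 6), (4, 7), (3, 5), (2, 4), (3, 6), (5, 7)]
    [[(0, false), (1, false), (2, false)],
     [(0, true), (3, false), (4, false)],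
     [(1, true), (6, false), (9, false)],
     [(2, true), (8, false), (10, false)],
     [(3, true), (7, false), (9, true)],
     [(4, true), (8, true), (11, false)],
     [(5, false), (6, true), (10, true)],
     [(5, true), (7, true), (11, true)]]

theorem nCub_wf : nCub.WF := by decide +kernel

end Pool.Agent.Lib.MP_7e4769_co.Sp
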