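import Pool.Agent.Lib.MP_7e4769_co.Sp.DP
import Pool.Agent.Lib.MP_7e4769_co.Sp.Col

set_option autoImplicit false
set_option linter.unusedSectionVars false

namespace Pool.Agent.Lib.MP_7e4769_co.Sp

open Finset

variable {V : Type} [Fintype V] [DecidableEq V] {G : SimpleGraph V} [DecidableRel G.Adj]

theorem sta_per {f : ℕ → V} {n : ℕ} (h : ∀ i, f (i + n) = f i) (r k : ℕ) :
    f (r + n * k) = f r := by
  induction k with
  | zero => rfl
  | succ k ih => rw [Nat.mul_succ, ← add_assoc, h, ih]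

theorem sta_mod {f : ℕ → V} {n : ℕ} (h : ∀ i, f (i + n) = f i) (i : ℕ) : f (i % n) = f i := by
  rw [← sta_per h (i % n) (i / n), Nat.mod_add_div]

theorem sta_half {f : ℕ → V} {m : ℕ} (h : ∀ i, f (i + 2 * m) = f i) (i r : ℕ) :
    f (2 * (i % m) + r) = f (2 * i + r) := by
  rw [← sta_per h (2 * (i % m) + r) (i / m)]
  have := Nat.mod_add_div i m
  have e : 2 * (i % m) + r + 2 * m * (i / m) = 2 * i + r := by
    rw [mul_assoc]
    omega
  rw [e]

theorem sta_par {m : ℕ} {z o : ℕ → V} (h : Cy G m z o) {i j : ℕ} (hij : z i = z j) :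
    i % (2 * m) = j % (2 * m) := by
  have hm : 0 < 2 * m := by
    have := h.hm
    omega
  refine h.inj _ (Nat.mod_lt _ hm) _ (Nat.mod_lt _ hm) ?_
  rw [sta_mod h.per, sta_mod h.per, hij]

theorem sta_ne2 {m : ℕ} {z o : ℕ → V} (h : Cy G m z o) (i : ℕ) : z i ≠ z (i + 2) := by
  intro e
  have h1 : 2 * m ∣ i + 2 - i := (Nat.modEq_iff_dvd' (Nat.le_add_right i 2)).1 (sta_par h e)
  rw [Nat.add_sub_cancel_left] at h1
  have h2 := Nat.le_of_dvd (by norm_num) h1
  have := h.hm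
  omega

theorem Cy.nb (hG : G.IsRegularOfDegree 3) {m : ℕ} {z o : ℕ → V} (h : Cy G m z o) (i : ℕ) {w : V}
    (hw : G.Adj (z (i + 1)) w) : w = z i ∨ w = z (i + 2) ∨ w = o (i + 1) := by
  exact nbrs_all hG (h.adj i).symm (h.adj (i + 1)) (h.oadj (i + 1)) (sta_ne2 h i) (h.op i).symm
    (h.on (i + 1)).symm w hw

theorem Cy.ne2 {m : ℕ} {z o : ℕ → V} (h : Cy G m z o) (i : ℕ) : z i ≠ z (i + 2) := by
  exact sta_ne2 h i

theorem Cy.mod {m : ℕ} {z o : ℕ → V} (h : Cy G m z o) (i : ℕ) :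
    z (i % (2 * m)) = z i ∧ o (i % (2 * m)) = o i := by
  exact ⟨sta_mod h.per i, sta_mod h.oper i⟩

theorem Cy.par {m : ℕ} {z o : ℕ → V} (h : Cy G m z o) {i j : ℕ} (hij : z i = z j) :
    i % (2 * m) = j % (2 * m) := by
  exact sta_par h hij

theorem Cy.mem_Zs {m : ℕ} {z o : ℕ → V} (h : Cy G m z o) {v : V} : v ∈ Zs m z ↔ ∃ i, z i = v := by
  have hm : 0 < 2 * m := by
    have := h.hm
    omega
  rw [Zs, mem_image]
  exact ⟨fun ⟨i, _, e⟩ => ⟨i, e⟩, fun ⟨i, e⟩ =>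
    ⟨i % (2 * m), mem_range.2 (Nat.mod_lt _ hm), (sta_mod h.per i).trans e⟩⟩

theorem Cy.mem_Ws {m : ℕ} {z o : ℕ → V} (h : Cy G m z o) {v : V} :
    v ∈ Ws m o ↔ ∃ i, o (2 * i + 1) = v := by
  have hm : 0 < m := by
    have := h.hm
    omega
  rw [Ws, mem_image]
  exact ⟨fun ⟨i, _, e⟩ => ⟨i, e⟩, fun ⟨i, e⟩ =>
    ⟨i % m, mem_range.2 (Nat.mod_lt _ hm), (sta_half h.oper i 1).trans e⟩⟩

theorem Cy.mem_Ss {m : ℕ} {z o : ℕ → V} (h : Cy G m z o) {v : V} :
    v ∈ Ss G m z o ↔ (∃ i, z (2 * i) = v) ∨ v ∈ Js G m z o := by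
  have hm : 0 < m := by
    have := h.hm
    omega
  rw [Ss, mem_union, mem_image]
  exact or_congr_left ⟨fun ⟨i, _, e⟩ => ⟨i, e⟩, fun ⟨i, e⟩ =>
    ⟨i % m, mem_range.2 (Nat.mod_lt _ hm), (sta_half h.per i 0).trans e⟩⟩

/-- a neighbour of the rest outside the rest has colour 3 -/
theorem Cy.rest_nb (hG : G.IsRegularOfDegree 3) {m : ℕ} {z o : ℕ → V} (h : Cy G m z o) {v w : V}
    (hv : v ∈ Rs G m z o) (hw : w ∉ Rs G m z o) (ha : G.Adj v w) : w ∈ Ss G m z o := by
  rw [Rs, mem_sdiff, mem_union, mem_union] at hv hw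
  have hw' : (w ∈ Zs m z ∨ w ∈ Ws m o) ∨ w ∈ Js G m z o := by
    by_contra hn
    exact hw ⟨mem_univ w, hn⟩
  have hZ : v ∉ Zs m z := fun x => hv.2 (Or.inl (Or.inl x))
  rcases hw' with (hw' | hw') | hw'
  · obtain ⟨i, rfl⟩ := h.mem_Zs.1 hw'
    obtain ⟨k, rfl | rfl⟩ := Nat.even_or_odd' i
    · exact h.mem_Ss.2 (Or.inl ⟨k, rfl⟩)
    · rcases h.nb hG (2 * k) ha.symm with e | e | e
      · exact absurd (h.mem_Zs.2 ⟨_, e.symm⟩) hZ
      · exact absurd (h.mem_Zs.2 ⟨_, e.symm⟩) hZ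
      · exact absurd (Or.inl (Or.inr (h.mem_Ws.2 ⟨k, e.symm⟩))) hv.2
  · exact absurd (Or.inr (mem_filter.2 ⟨mem_univ v, hZ, w, hw', ha⟩)) hv.2
  · exact h.mem_Ss.2 (Or.inr hw')

/-- Recolour the vertices of `W` one by one: a vertex `w` has at most two neighbours in `J`, each
forbids one more colour (`st_free`). -/
theorem greedy (hG : G.IsRegularOfDegree 3) {W J : Finset V} (c0 : V → Fin 4)
    (hd : ∀ w ∈ W, w ∉ J) (h2 : ∀ w ∈ W, dg G J w ≤ 2) (hJ : ∀ j ∈ J, c0 j = 3)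
    (hf : ∀ j ∈ J, ∀ x, G.Adj j x → x ∉ W → c0 x ≠ 3) (he : ∀ j ∈ J, ∃ w ∈ W, G.Adj j w) :
    ∃ c : V → Fin 4, (∀ v, v ∉ W → c v = c0 v) ∧ (∀ w ∈ W, c w ≠ 3) ∧ ∀ j ∈ J, ok G c j := by
  induction W using Finset.induction_on generalizing J c0 with
  | empty =>
    refine ⟨c0, fun _ _ => rfl, fun w hw => absurd hw (notMem_empty w), fun j hj => ?_⟩
    obtain ⟨w, hw, _⟩ := he j hj
    exact absurd hw (notMem_empty w)
  | insert w W hw ih =>
    have hwJ : w ∉ J := hd w (mem_insert_self w W)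
    have hadj : ∀ j ∈ J, (¬ ∃ w' ∈ W, G.Adj j w') → G.Adj j w := by
      intro j hj hn
      obtain ⟨w', hw', ha⟩ := he j hj
      rcases mem_insert.1 hw' with rfl | hw'
      · exact ha
      · exact absurd ⟨w', hw', ha⟩ hn
    have hE : ∀ j, ∃ e, j ∈ J → (¬ ∃ w' ∈ W, G.Adj j w') → St G c0 j w e := by
      intro j
      by_cases hj : j ∈ J ∧ ¬ ∃ w' ∈ W, G.Adj j w'
      · obtain ⟨e, hs⟩ := st_free hG (c := c0) (hadj j hj.1 hj.2) fun x hx hxw => by
          rw [hJ j hj.1]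
          refine hf j hj.1 x hx fun hm => ?_
          rcases mem_insert.1 hm with e | hm
          · exact hxw e
          · exact hj.2 ⟨x, hm, hx⟩
        exact ⟨e, fun _ _ => hs⟩
      · exact ⟨0, fun a b => absurd ⟨a, b⟩ hj⟩
    choose E hE using hE
    have hlt : (insert 3 ((J.filter (G.Adj w)).image E)).card < (univ : Finset (Fin 4)).card := by
      have a1 := card_insert_le (3 : Fin 4) ((J.filter (G.Adj w)).image E)
      have a2 : ((J.filter (G.Adj w)).image E).card ≤ dg G J w := card_image_le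
      have a3 := h2 w (mem_insert_self w W)
      rw [card_univ, Fintype.card_fin]
      omega
    obtain ⟨g, _, hg⟩ := exists_mem_notMem_of_card_lt_card hlt
    have hg3 : g ≠ 3 := fun e => hg (e ▸ mem_insert_self _ _)
    obtain ⟨c, c1, c2, c3⟩ := ih (J := J.filter fun j => ∃ w' ∈ W, G.Adj j w')
      (Function.update c0 w g)
      (fun a ha x => hd a (mem_insert_of_mem ha) (mem_filter.1 x).1)
      (fun a ha => (dg_mono (filter_subset _ _) a).trans (h2 a (mem_insert_of_mem ha)))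
      (fun j hj => by
        have hj' := (mem_filter.1 hj).1
        rw [Function.update_of_ne (fun e : j = w => hwJ (e ▸ hj')), hJ j hj'])
      (fun j hj x hx hxW => by
        by_cases e : x = w
        · rw [e, Function.update_self]
          exact hg3
        · rw [Function.update_of_ne e]
          exact hf j (mem_filter.1 hj).1 x hx fun hm => (mem_insert.1 hm).elim e hxW)
      (fun j hj => (mem_filter.1 hj).2)
    have cw : c w = g := by rw [c1 w hw, Function.update_self]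
    have c0' : ∀ v, v ∉ W → v ≠ w → c v = c0 v := fun v a b => by
      rw [c1 v a, Function.update_of_ne b]
    refine ⟨c, fun v hv => c0' v (fun x => hv (mem_insert_of_mem x))
      fun e => hv (e ▸ mem_insert_self _ _), fun a ha => ?_, fun j hj => ?_⟩
    · rcases mem_insert.1 ha with rfl | ha
      · rw [cw]
        exact hg3
      · exact c2 a ha
    · by_cases hn : ∃ w' ∈ W, G.Adj j w'
      · exact c3 j (mem_filter.2 ⟨hj, hn⟩)
      · refine (hE j hj hn).2 c (fun x hx hxw => c0' x (fun a => hn ⟨x, a, hx⟩) hxw)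
          (c0' j (fun a => hd j (mem_insert_of_mem a) hj) fun e => hwJ (e ▸ hj)) ?_ ?_
        · rw [cw, hJ j hj]
          exact hg3
        · rw [cw]
          exact fun e => hg (mem_insert_of_mem
            (mem_image.2 ⟨j, mem_filter.2 ⟨hj, (hadj j hj hn).symm⟩, e.symm⟩))

end Pool.Agent.Lib.MP_7e4769_co.Sp
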