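import Pool.Agent.Lib.MP_7e4769_co.Sp.ZEar

set_option autoImplicit false
set_option linter.unusedSectionVars false

namespace Pool.Agent.Lib.MP_7e4769_co.Sp

open Finset

variable {V : Type} [Fintype V] [DecidableEq V] {G : SimpleGraph V} [DecidableRel G.Adj]

theorem ztwo_arc (z : ℤ → V) (p : ℤ) (n : ℕ) :
    arcF z (p - 1) (n + 2) = z p :: (arcF z p n ++ [z (p + n + 1)]) := by
  rw [arcF, arcF, List.range_succ_eq_map, List.range_succ, List.map_cons, List.map_map,
    List.map_append, List.map_singleton]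
  simp only [Function.comp_def, Nat.succ_eq_add_one, Nat.cast_add, Nat.cast_one, Nat.cast_zero,
    sub_add_cancel, add_zero, add_assoc, add_comm (1 : ℤ)]

theorem ztwo_len {L : ℕ} {z o : ℤ → V} (h : CZ G L z o) {p p' q q' : ℤ} {l m : List V}
    (hl : l.Nodup) (hm : m.Nodup) (ol : ∀ v ∈ l, ¬OnZ z v) (om : ∀ v ∈ m, ¬OnZ z v)
    (hd : ∀ y ∈ l, y ∉ m) (h1 : p < p') (h2 : p' < q) (h3 : q < q') (h4 : q' < p + L)
    (hp : (Pth G (z p') m (z q) ∧ Pth G (z q') l (z p)) ∨
      (Pth G (z p') m (z q') ∧ Pth G (z q) l (z p)))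
    (he : (p + p' + q + q' + l.length + m.length) % 2 = 0) :
    L ≤ p' - p + (q' - q) + l.length + m.length + 2 := by
  obtain ⟨n, rfl⟩ : ∃ n : ℕ, p' = p + n + 1 := ⟨(p' - p - 1).toNat, by omega⟩
  obtain ⟨k, rfl⟩ : ∃ k : ℕ, q' = q + k + 1 := ⟨(q' - q - 1).toNat, by omega⟩
  have on : ∀ {a n v}, v ∈ arcF z a n → OnZ z v := fun a => (mem_arcF.1 a).imp fun _ b => b.2.2
  have nd : (arcF z (p - 1) (n + 2) ++ (arcF z (q - 1) (k + 2) ++ (l ++ m))).Nodup := by
    refine List.nodup_append.2 ⟨h.nodup_arc _ (by omega), List.nodup_append.2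
      ⟨h.nodup_arc _ (by omega), List.nodup_append.2 ⟨hl, hm, fun a ha b hb e => hd a ha (e ▸ hb)⟩,
        fun a ha b hb e => ?_⟩, fun a ha b hb e => ?_⟩
    · exact (List.mem_append.1 hb).elim (ol b) (om b) (e ▸ on ha)
    · rcases List.mem_append.1 hb with hb | hb
      · obtain ⟨i, a1, a2, rfl⟩ := mem_arcF.1 ha
        obtain ⟨j, b1, b2, rfl⟩ := mem_arcF.1 hb
        exact h.injZ i j (by omega) (by omega) e
      · exact (List.mem_append.1 hb).elim (ol b) (om b) (e ▸ on ha)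
  rw [ztwo_arc, ztwo_arc] at nd
  have key : ∀ c, Pth G (z p) c (z p) → (z p :: c).Perm _ →
      (L : ℤ) ≤ p + n + 1 - p + (q + k + 1 - q) + l.length + m.length + 2 := fun c a b => by
    have e := b.length_eq
    have := h.ne (z p) c
    have := this ⟨a, b.nodup_iff.2 nd, by
      simp only [List.length_cons, List.length_append, length_arcF] at e
      omega⟩
    simp only [List.length_cons, List.length_append, length_arcF, List.length_nil] at e
    omega
  rcases hp with ⟨a, b⟩ | ⟨a, b⟩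
  · exact key _ ((h.pth_arc p n).append (a.append ((h.pth_arc q k).append b)))
      (List.perm_iff_count.2 fun v => by
        simp only [List.count_cons, List.count_append, List.count_nil]
        omega)
  · exact key _ ((h.pth_arc p n).append (a.append ((h.pth_arc q k).symm.append b)))
      (List.perm_iff_count.2 fun v => by
        simp only [List.count_cons, List.count_append, List.count_nil, List.count_reverse]
        omega)

theorem ztwo_nc (hG : G.IsRegularOfDegree 3) {L : ℕ} {z o : ℤ → V} (h : CZ G L z o) {a b c d : ℤ}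
    {l m : List V} (h1 : EarL G z o a l b) (h2 : EarL G z o c m d) (hl : l.length ≤ 4)
    (hm : m.length ≤ 4) (hd : ∀ y ∈ l, y ∉ m) (h0 : a < b) (hab : b < c) (hbc : c < d)
    (hc : d < a + L) : b - a + (d - c) ≤ l.length + m.length + 2 := by
  have e1 := ear_par hG h h1 (by omega)
  have e2 := ear_par hG h h2 (by omega)
  have e3 := h.ev
  have := ztwo_len h h1.nd h2.nd h1.off h2.off hd hab hbc hc (by omega)
    (Or.inl ⟨h2.pth, (h.per a).symm ▸ h1.pth⟩) (by omega)
  omega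

theorem ztwo_cr (hG : G.IsRegularOfDegree 3) {L : ℕ} {z o : ℤ → V} (h : CZ G L z o) {a b c d : ℤ}
    {l m : List V} (h1 : EarL G z o a l c) (h2 : EarL G z o b m d) (hl : l.length ≤ 4)
    (hm : m.length ≤ 4) (hd : ∀ y ∈ l, y ∉ m) (h0 : a < b) (hab : b < c) (hbc : c < d)
    (hc : d < a + L) : L ≤ b - a + (d - c) + l.length + m.length + 2 := by
  have e1 := ear_par hG h h1 (by omega)
  have e2 := ear_par hG h h2 (by omega)
  have h3 := h1.symm hG h
  have e3 : l.reverse.length = l.length := List.length_reverse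
  have := ztwo_len h h3.nd h2.nd h3.off h2.off (fun y hy => hd y (List.mem_reverse.1 hy)) h0 hab hbc
    hc (Or.inr ⟨h2.pth, h3.pth⟩) (by omega)
  omega

theorem ztwo_cross (hG : G.IsRegularOfDegree 3) {L : ℕ} {z o : ℤ → V} (h : CZ G L z o)
    {a b c d : ℤ} {l m : List V} (h1 : EarL G z o a l c) (h2 : EarL G z o b m d)
    (hl : l.length ≤ 4) (hm : m.length ≤ 4) (hd : ∀ y ∈ l, y ∉ m) (h0 : a < b) (hab : b < c)
    (hbc : c < d) (hc : d < a + L) : False := by
  have e1 := ztwo_cr hG h h1 h2 hl hm hd h0 hab hbc hc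
  have e3 : l.reverse.length = l.length := List.length_reverse
  have e2 := ztwo_cr hG h h2 ((h1.symm hG h).congr h rfl (h.per a).symm) hm (by omega)
    (fun y hy hy' => hd y (List.mem_reverse.1 hy') hy) hab hbc hc (by omega)
  have := h.big
  omega

/-- the cycle `z a, l, z (a + α)`, arc, `z (a + β), m, z (a + γ)`, arc back to `z (a + L) = z a`
is even by `ear_par`, so it has at least `L` vertices -/
theorem noncross (hG : G.IsRegularOfDegree 3) {L : ℕ} {z o : ℤ → V} (h : CZ G L z o) {a : ℤ}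
    {α β γ : ℕ} {l m : List V} (h1 : EarL G z o a l (a + α)) (h2 : EarL G z o (a + β) m (a + γ))
    (hl : l.length ≤ 4) (hm : m.length ≤ 4) (hd : ∀ y ∈ l, y ∉ m) (h0 : 0 < α) (hab : α < β)
    (hbc : β < γ) (hc : γ < L) : α + γ ≤ β + l.length + m.length + 2 := by
  have := ztwo_nc hG h h1 h2 hl hm hd (by omega) (by omega) (by omega) (by omega)
  omega

/-- the cycle `z a`, arc, `z (a + β), m, z (a + γ)`, arc backwards, `z (a + α)`, `l.reverse` -/
theorem cross_aux (hG : G.IsRegularOfDegree 3) {L : ℕ} {z o : ℤ → V} (h : CZ G L z o) {a : ℤ}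
    {α β γ : ℕ} {l m : List V} (h1 : EarL G z o a l (a + α)) (h2 : EarL G z o (a + β) m (a + γ))
    (hl : l.length ≤ 4) (hm : m.length ≤ 4) (hd : ∀ y ∈ l, y ∉ m) (h0 : 0 < β) (hab : β < α)
    (hbc : α < γ) (hc : γ < L) : L + α ≤ β + γ + l.length + m.length + 2 := by
  have := ztwo_cr hG h h1 h2 hl hm hd (by omega) (by omega) (by omega) (by omega)
  omega

/-- `cross_aux` twice, the second time from the base `a + β` with the ear `l.reverse` from
`a + α` to `a + L` -/
theorem cross (hG : G.IsRegularOfDegree 3) {L : ℕ} {z o : ℤ → V} (h : CZ G L z o) {a : ℤ}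
    {α β γ : ℕ} {l m : List V} (h1 : EarL G z o a l (a + α)) (h2 : EarL G z o (a + β) m (a + γ))
    (hl : l.length ≤ 4) (hm : m.length ≤ 4) (hd : ∀ y ∈ l, y ∉ m) (h0 : 0 < β) (hab : β < α)
    (hbc : α < γ) (hc : γ < L) : False := by
  exact ztwo_cross hG h h1 h2 hl hm hd (by omega) (by omega) (by omega) (by omega)

/-- Normal form of two disjoint short ears: take representatives in the window at `t`, exclude
crossing, rotate the base. The arcs `[a, b]` and `[c, d]` are cut off by the two ears. -/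
theorem ear_norm (hG : G.IsRegularOfDegree 3) {L : ℕ} {z o : ℤ → V} (h : CZ G L z o)
    {t t' u u' : ℤ} {l m : List V} (h1 : EarL G z o t l t') (h2 : EarL G z o u m u')
    (hl : l.length ≤ 4) (hm : m.length ≤ 4) (n1 : z u ≠ z t) (n2 : z u ≠ z t') (n3 : z u' ≠ z t)
    (n4 : z u' ≠ z t') (hd : ∀ y ∈ l, y ∉ m) :
    ∃ a b c d : ℤ, a < b ∧ b < c ∧ c < d ∧ d < a + L ∧
      ((z a = z t ∧ z b = z t') ∨ (z a = z t' ∧ z b = z t)) ∧
      ((z c = z u ∧ z d = z u') ∨ (z c = z u' ∧ z d = z u)) ∧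
      (b - a) + (d - c) ≤ l.length + m.length + 2 := by
  have rp : ∀ i, ∃ j, t ≤ j ∧ j < t + L ∧ z i = z j := fun i =>
    (h.rep t i).imp fun j a => ⟨a.1, a.2.1, h.eq_iff.2 a.2.2⟩
  obtain ⟨s, s1, s2, s3⟩ := rp t'
  have h3 := h1.congr h rfl s3
  have s4 : t ≠ s := fun e => h3.ne (congrArg z e)
  have key : ∀ (m : List V) (v w : ℤ), EarL G z o v m w → m.length ≤ 4 → (∀ y ∈ l, y ∉ m) →
      t < v → v < w → w < t + L → v ≠ s → w ≠ s →
      ∃ a b c d : ℤ, a < b ∧ b < c ∧ c < d ∧ d < a + L ∧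
        ((z a = z t ∧ z b = z t') ∨ (z a = z t' ∧ z b = z t)) ∧ (z c = z v ∧ z d = z w) ∧
        (b - a) + (d - c) ≤ l.length + m.length + 2 := by
    intro m v w h2 hm hd a1 a2 a3 a4 a5
    rcases lt_or_gt_of_ne a4 with b1 | b1
    · rcases lt_or_gt_of_ne a5 with b2 | b2
      · have e3 : l.reverse.length = l.length := List.length_reverse
        have := ztwo_nc hG h ((h3.symm hG h).congr h rfl (h.per t).symm)
          (h2.congr h (h.per v).symm (h.per w).symm) (by omega) hm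
          (fun y hy => hd y (List.mem_reverse.1 hy)) s2 (by omega) (by omega) (by omega)
        exact ⟨s, t + L, v + L, w + L, s2, by omega, by omega, by omega, Or.inr ⟨s3.symm, h.per t⟩,
          ⟨h.per v, h.per w⟩, by omega⟩
      · exact (ztwo_cross hG h h3 h2 hl hm hd a1 b1 b2 a3).elim
    · exact ⟨t, s, v, w, by omega, b1, a2, a3, Or.inl ⟨rfl, s3.symm⟩, ⟨rfl, rfl⟩,
        ztwo_nc hG h h3 h2 hl hm hd (by omega) b1 a2 a3⟩
  obtain ⟨v, v1, v2, v3⟩ := rp u
  obtain ⟨w, w1, w2, w3⟩ := rp u'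
  have h4 := h2.congr h v3 w3
  have v4 : t < v := lt_of_le_of_ne v1 fun e => n1 (e ▸ v3)
  have w4 : t < w := lt_of_le_of_ne w1 fun e => n3 (e ▸ w3)
  have v5 : v ≠ s := fun e => n2 (v3.trans (e ▸ s3.symm))
  have w5 : w ≠ s := fun e => n4 (w3.trans (e ▸ s3.symm))
  rcases lt_or_gt_of_ne (fun e => h4.ne (congrArg z e)) with e | e
  · obtain ⟨a, b, c, d, a1, a2, a3, a4, a5, a6, a7⟩ := key m v w h4 hm hd v4 e w2 v5 w5
    exact ⟨a, b, c, d, a1, a2, a3, a4, a5, Or.inl ⟨a6.1.trans v3.symm, a6.2.trans w3.symm⟩, a7⟩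
  · obtain ⟨a, b, c, d, a1, a2, a3, a4, a5, a6, a7⟩ := key m.reverse w v (h4.symm hG h)
      (List.length_reverse.trans_le hm) (fun y hy a => hd y hy (List.mem_reverse.1 a)) w4 e v2 w5 v5
    exact ⟨a, b, c, d, a1, a2, a3, a4, a5, Or.inr ⟨a6.1.trans w3.symm, a6.2.trans v3.symm⟩,
      List.length_reverse (as := m) ▸ a7⟩

/-- at most one chord: in `ear_norm` both arcs would have length 1, against `on`, `op` -/
theorem chord_uniq (hG : G.IsRegularOfDegree 3) {L : ℕ} {z o : ℤ → V} (h : CZ G L z o) {t u : ℤ}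
    (h1 : OnZ z (o t)) (h2 : OnZ z (o u)) : z u = z t ∨ z u = o t := by
  obtain ⟨t', h1⟩ := h1
  obtain ⟨u', h2⟩ := h2
  have e1 := earL_chord h h1.symm
  have e2 := earL_chord h h2.symm
  rcases ear_two hG h e1 e2 (Nat.zero_le _) (Nat.zero_le _) with a | a | ⟨n1, n2, n3, n4, hd⟩
  · exact Or.inl a.1
  · exact Or.inr (a.1.trans h1)
  obtain ⟨a, b, c, d, a1, -, a3, -, a5, -, a7⟩ :=
    ear_norm hG h e1 e2 (Nat.zero_le _) (Nat.zero_le _) n1 n2 n3 n4 hd
  rw [List.length_nil] at a7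
  rcases a5 with ⟨b1, b2⟩ | ⟨b1, b2⟩
  · obtain rfl : b = a + 1 := by omega
    exact (h.on a ((h.o_eq b1).trans (b2.trans h1).symm)).elim
  · obtain rfl : a = b - 1 := by omega
    exact (h.op b ((h.o_eq b2).trans (b1.trans h1).symm)).elim

end Pool.Agent.Lib.MP_7e4769_co.Sp
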