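import Pool.Agent.Lib.MP_7e4769_co.Sp.YDefs
import Pool.Agent.Lib.MP_7e4769_co.Sp.ZTwo

set_option autoImplicit false
set_option linter.unusedSectionVars false

namespace Pool.Agent.Lib.MP_7e4769_co.Sp

open Finset

variable {V : Type} [Fintype V] [DecidableEq V] {G : SimpleGraph V} [DecidableRel G.Adj]

theorem yb_eq {L : ℕ} {z o : ℤ → V} (h : CZ G L z o) {i j : ℤ} (e : z i = z j) (h1 : i < j + L)
    (h2 : j < i + L) : i = j := by
  rcases lt_trichotomy i j with c | c | c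
  · exact (h.injZ i j c h2 e).elim
  · exact c
  · exact (h.injZ j i c h1 e.symm).elim

theorem yb_congr {L : ℕ} {z o : ℤ → V} (h : CZ G L z o) {t u t' u' : ℤ} (he : Ear G z o t u)
    (h1 : z t = z t') (h2 : z u = z u') : Ear G z o t' u' :=
  he.imp fun _ a => ⟨a.1, a.2.congr h h1 h2⟩

theorem yb_symm (hG : G.IsRegularOfDegree 3) {L : ℕ} {z o : ℤ → V} (h : CZ G L z o) {t u : ℤ}
    (he : Ear G z o t u) : Ear G z o u t := by
  obtain ⟨l, hl, he⟩ := he
  exact ⟨l.reverse, List.length_reverse.trans_le hl, he.symm hG h⟩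

theorem yb_dis (hG : G.IsRegularOfDegree 3) {L : ℕ} {z o : ℤ → V} (h : CZ G L z o)
    {a b a' b' : ℤ} (h1 : Ear G z o a b) (h2 : Ear G z o a' b') (p1 : a < b) (p2 : b ≤ a + 9)
    (q1 : a' < b') (q2 : b' ≤ a' + 9) (r1 : a ≤ a') (r2 : a' ≤ b) : a' = a ∧ b' = b := by
  obtain ⟨l, hl, h1⟩ := h1
  obtain ⟨m, hm, h2⟩ := h2
  have hb := h.big
  rcases ear_two hG h h1 h2 hl hm with e | e | ⟨n1, n2, n3, n4, hd⟩
  · have e1 := yb_eq h e.1 (by omega) (by omega)
    exact ⟨e1, yb_eq h e.2 (by omega) (by omega)⟩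
  · have e1 := yb_eq h e.2 (by omega) (by omega)
    omega
  · have m1 : a' ≠ a := fun e => n1 (congrArg z e)
    have m2 : a' ≠ b := fun e => n2 (congrArg z e)
    have m4 : b' ≠ b := fun e => n4 (congrArg z e)
    rcases lt_or_gt_of_ne m4 with c | c
    · have e3 : l.reverse.length = l.length := List.length_reverse
      have := ztwo_nc hG h h2 ((h1.symm hG h).congr h rfl (h.per a).symm) hm (by omega)
        (fun y hy hy' => hd y (List.mem_reverse.1 hy') hy) q1 c (by omega) (by omega)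
      omega
    · exact (ztwo_cross hG h h1 h2 hl hm hd (by omega) (by omega) c (by omega)).elim

/-- If all short ears have the same pair of ends, take one arc `[a0, b0]` and its translates.
Otherwise `B a b` means `Ear a b`, `a < b ≤ a + 9`: by `ear_two`, `ear_norm` every ear has a side of
length at most 9 that contains no other end, and only one side is that short because `L ≥ 22`. -/
theorem blocks_ex (hG : G.IsRegularOfDegree 3) {L : ℕ} {z o : ℤ → V} (h : CZ G L z o) :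
    ∃ B : ℤ → ℤ → Prop, Blocks L B ∧ (∀ a b, B a b → Ear G z o a b) ∧
      ∀ t u, Ear G z o t u → ∃ a b, B a b ∧ ((z a = z t ∧ z b = z u) ∨ (z a = z u ∧ z b = z t)) := by
  have hb := h.big
  by_cases hc : ∃ t0 u0, Ear G z o t0 u0 ∧ ∀ t u, Ear G z o t u →
      (z t = z t0 ∧ z u = z u0) ∨ (z t = z u0 ∧ z u = z t0)
  · obtain ⟨t0, u0, he, hc⟩ := hc
    obtain ⟨j, j1, j2, j3⟩ := h.rep t0 u0
    have e0 : z u0 = z j := h.eq_iff.2 j3
    obtain ⟨d, rfl⟩ : ∃ d, j = t0 + d := ⟨j - t0, by omega⟩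
    have he' := yb_congr h he rfl e0
    have d0 : t0 ≠ t0 + d := fun e => by
      obtain ⟨l, -, hl⟩ := he'
      exact hl.ne (congrArg z e)
    refine ⟨fun a b => z a = z t0 ∧ b = a + d, ⟨fun a b => ?_, fun a b hB => ?_,
      fun a b a' b' hB hB' r1 r2 => ?_⟩, fun a b hB => ?_, fun t u htu => ?_⟩
    · rw [h.per a]
      exact and_congr_right fun _ => ⟨fun e => by omega, fun e => by omega⟩
    · have := hB.2
      omega
    · have e1 := hB.2
      have e2 := hB'.2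
      have e3 := yb_eq h (hB'.1.trans hB.1.symm) (by omega) (by omega)
      omega
    · obtain ⟨e1, rfl⟩ := hB
      exact yb_congr h he' e1.symm (h.add_eq e1.symm d)
    · refine ⟨t0, t0 + d, ⟨rfl, rfl⟩, ?_⟩
      rcases hc t u htu with e | e
      · exact Or.inl ⟨e.1.symm, (e.2.trans e0).symm⟩
      · exact Or.inr ⟨e.2.symm, (e.1.trans e0).symm⟩
  · refine ⟨fun a b => Ear G z o a b ∧ a < b ∧ b ≤ a + 9, ⟨fun a b => ?_, fun a b hB => ?_,
      fun a b a' b' hB hB' r1 r2 => ?_⟩, fun a b hB => hB.1, fun t u htu => ?_⟩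
    · exact ⟨fun a1 => ⟨yb_congr h a1.1 (h.per a) (h.per b), by omega, by omega⟩,
        fun a1 => ⟨yb_congr h a1.1 (h.per a).symm (h.per b).symm, by omega, by omega⟩⟩
    · omega
    · exact yb_dis hG h hB.1 hB'.1 hB.2.1 hB.2.2 hB'.2.1 hB'.2.2 r1 r2
    · have hn : ¬ ∀ t' u', Ear G z o t' u' →
          (z t' = z t ∧ z u' = z u) ∨ (z t' = z u ∧ z u' = z t) := fun a => hc ⟨t, u, htu, a⟩
      simp only [not_forall] at hn
      obtain ⟨t', u', ⟨m, hm, h2⟩, hn⟩ := hn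
      obtain ⟨l, hl, h1⟩ := id htu
      rcases ear_two hG h h1 h2 hl hm with e | e | ⟨n1, n2, n3, n4, hd⟩
      · exact (hn (Or.inl e)).elim
      · exact (hn (Or.inr e)).elim
      obtain ⟨a, b, c, d, a1, -, a3, -, a5, -, a7⟩ := ear_norm hG h h1 h2 hl hm n1 n2 n3 n4 hd
      refine ⟨a, b, ⟨?_, a1, by omega⟩, a5⟩
      rcases a5 with e | e
      · exact yb_congr h htu e.1.symm e.2.symm
      · exact yb_congr h (yb_symm hG h htu) e.1.symm e.2.symm

theorem EndOK.symm {I : ℤ → Prop} {c : Prop} {a b : ℤ} (h : EndOK I c a b) : EndOK I c b a := by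
  unfold EndOK at h ⊢
  rw [add_comm b a]
  rcases h with ⟨p, h | h⟩ | ⟨p, h | h | h | h⟩
  · exact Or.inl ⟨p, Or.inr h.symm⟩
  · exact Or.inl ⟨p, Or.inl h.symm⟩
  · exact Or.inr ⟨p, Or.inr (Or.inl h.symm)⟩
  · exact Or.inr ⟨p, Or.inl h.symm⟩
  · exact Or.inr ⟨p, Or.inr (Or.inr (Or.inl ⟨h.1, h.2.symm⟩))⟩
  · exact Or.inr ⟨p, Or.inr (Or.inr (Or.inr ⟨h.1, h.2.symm⟩))⟩

theorem yb_end {L : ℕ} {z o : ℤ → V} (h : CZ G L z o) {I : ℤ → Prop} (hI : Gaps L I) {c c' : Prop}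
    {a b t u : ℤ} (he : EndOK I c a b) (hc : c ↔ c') (h1 : z a = z t) (h2 : z b = z u) :
    EndOK I c' t u := by
  have i : ∀ {x y : ℤ}, z x = z y → (I x ↔ I y) := fun e => by
    have := Gaps.congr h hI e 0
    rwa [add_zero, add_zero] at this
  have r : ∀ {x y : ℤ}, z x = z y → (RC I x ↔ RC I y) := fun e =>
    and_congr (Gaps.congr h hI e (-1)) (Gaps.congr h hI e 1)
  have m : ∀ {x y : ℤ}, z x = z y → (RM I x ↔ RM I y) := fun e =>
    and_congr (not_congr (i e)) (not_congr (r e))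
  have p1 := h.par h1
  have p2 := h.par h2
  have p : (a + b) % 2 = (t + u) % 2 := by omega
  unfold EndOK at he ⊢
  rwa [p, i h1, i h2, r h1, r h2, m h1, m h2, hc] at he


/-- `ht` with the blocks of `blocks_ex` and `ch t = OnZ z (o t)`; transfer along `Gaps.congr`,
`CZ.par`, `CZ.o_eq`; both ends of an ear agree on `ch` by `EarL.symm`, `EarL.nil_iff` -/
theorem roles4_of_tile (hG : G.IsRegularOfDegree 3) {L : ℕ} {z o : ℤ → V} (h : CZ G L z o)
    (ht : ∀ B : ℤ → ℤ → Prop, Blocks L B → ∀ ch : ℤ → Prop, (∀ t : ℤ, ch (t + L) ↔ ch t) →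
      ∃ I : ℤ → Prop, Gaps L I ∧ ∀ a b, B a b → EndOK I (ch a) a b) :
    ∃ I : ℤ → Prop, Gaps L I ∧ ∀ t u, Ear G z o t u → EndOK I (OnZ z (o t)) t u := by
  obtain ⟨B, hB, -, hrep⟩ := blocks_ex hG h
  obtain ⟨I, hI, hE⟩ := ht B hB (fun t => OnZ z (o t)) (fun t => by rw [h.oper t])
  refine ⟨I, hI, fun t u htu => ?_⟩
  obtain ⟨a, b, hab, e | e⟩ := hrep t u htu
  · exact yb_end h hI (hE a b hab) (by rw [h.o_eq e.1]) e.1 e.2
  · refine yb_end h hI (hE a b hab).symm ?_ e.2 e.1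
    obtain ⟨l, -, hl⟩ := htu
    rw [h.o_eq e.1, ← hl.nil_iff, ← (hl.symm hG h).nil_iff]
    exact List.reverse_eq_nil_iff

end Pool.Agent.Lib.MP_7e4769_co.Sp
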