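import Pool.Agent.Lib.MP_7e4769_co.Sp.YRest
import Pool.Agent.Lib.MP_7e4769_co.Hc.Top
import Pool.Agent.Lib.MP_7e4769_co.Hc.Cyc

set_option autoImplicit false
set_option linter.unusedSectionVars false

namespace Pool.Agent.Lib.MP_7e4769_co.Sp

open Finset

variable {V : Type} [DecidableEq V] {G : SimpleGraph V} {X : Finset V}

/-- the graph induced on `X` -/
def subG (G : SimpleGraph V) (X : Finset V) : SimpleGraph X := G.comap Subtype.val

/-- a set of vertices of the induced graph, read in `V` -/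
def upS (P : Finset X) : Finset V := P.map (Function.Embedding.subtype _)

theorem subG_adj {a b : X} : (subG G X).Adj a b ↔ G.Adj a.1 b.1 := Iff.rfl

theorem mem_upS {P : Finset X} {v : V} : v ∈ upS P ↔ ∃ h : v ∈ X, (⟨v, h⟩ : X) ∈ P := by
  simp [upS]

theorem val_mem_upS {P : Finset X} {a : X} : a.1 ∈ upS P ↔ a ∈ P := by
  simp [upS]

theorem upS_sub (P : Finset X) : upS P ⊆ X := fun _ h => (mem_upS.1 h).1

theorem upS_mono {P C : Finset X} (h : P ⊆ C) : upS P ⊆ upS C := map_subset_map.2 h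

theorem upS_ne {P : Finset X} (h : P ≠ univ) : upS P ≠ X := fun e =>
  h (eq_univ_of_forall fun a => val_mem_upS.1 (e.symm ▸ a.2))

/-- every subset of `upS C` is an `upS` -/
theorem upS_surj {C : Finset X} {A : Finset V} (h : A ⊆ upS C) : ∃ P, P ⊆ C ∧ upS P = A := by
  obtain ⟨P, h1, h2⟩ := subset_map_iff.1 h
  exact ⟨P, h1, h2.symm⟩

end Pool.Agent.Lib.MP_7e4769_co.Sp
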