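import Pool.Agent.Lib.MP_7e4769_co.Sp.ZDP

set_option autoImplicit false
set_option linter.unusedSectionVars false

namespace Pool.Agent.Lib.MP_7e4769_co.Sp

open Finset

variable {V : Type} [Fintype V] [DecidableEq V] {G : SimpleGraph V} [DecidableRel G.Adj]

theorem ydp_pick : ∀ a a' r : ZMod 3, ∃ y, y ≠ a' ∧ ∀ x, ∃ z, z ≠ a ∧ z ≠ x + r ∧
    z + y + x ≠ 0 := by decide

theorem ydp_ne : ∀ f : ZMod 3, ∃ x, x ≠ f := by decide

theorem ydp_c : ∀ x y z : ZMod 3, x + y + z ≠ 0 →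
    vok 3 (zdp_up x) (zdp_up y) (zdp_up z) = true := by decide

/-- Chord from a position `p` of role M (no list) to the position `p + n` in `I`, `n` even: the row
there is `s (p + n - 1) + s (p + n + 1) + s p`. Let `r1` come from `arc_dp` on `[p, p + n - 1]` (odd
length) and `r2` from `[p + n + 1, p + L]`. Take `y ∉ {a (p + n + 1), c}` with `c = a (p + n - 1) + r1`,
then `x` allowed by the second arc, then the value at `p + n - 1` outside
`{a (p + n - 1), x + r1, - x - y}`. -/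
theorem im_dp {I : ℤ → Prop} (hi : ∀ t, I t → ¬ I (t + 1)) (a b : ℤ → ZMod 3) (p : ℤ)
    (n L : ℕ) (hn : 2 ≤ n) (hnL : n + 2 ≤ L) (hne : n % 2 = 0) (hp : ¬ I p) (hq : I (p + n))
    (hr : ¬ I (p + L)) :
    ∃ s, s (p + L) = s p ∧ ArcOK I a b p (p + n - 1) s ∧ ArcOK I a b (p + n + 1) (p + L) s ∧
      s (p + n - 1) ≠ a (p + n - 1) ∧ s (p + n + 1) ≠ a (p + n + 1) ∧
      s (p + n - 1) + s (p + n + 1) + s p ≠ 0 := by
  have e1 : p + ((n - 1 : ℕ) : ℤ) = p + n - 1 := by omega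
  have e2 : p + n + 1 + ((L - n - 1 : ℕ) : ℤ) = p + L := by omega
  obtain ⟨r, h1⟩ := arc_dp hi a b p hp (n - 1) (by omega) fun h =>
    hi _ h (by rwa [e1, sub_add_cancel])
  obtain ⟨r', h2⟩ := arc_dp hi a b (p + n + 1) (hi _ hq) (L - n - 1) (by omega) (by rwa [e2])
  obtain ⟨y, y1, y2⟩ := ydp_pick (a (p + n - 1)) (a (p + n + 1)) r
  obtain ⟨x, x1⟩ := ydp_ne (if (L - n - 1) % 2 = 1 then y + r' else r' - y)
  obtain ⟨z, z1, z2, z3⟩ := y2 x
  obtain ⟨s, s1, s2, s3⟩ := h1 x z (by rwa [if_pos (by omega)])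
  obtain ⟨s', t1, t2, t3⟩ := h2 y x x1
  rw [e1] at s2 s3
  rw [e2] at t2 t3
  obtain ⟨S, S1, S2⟩ : ∃ S : ℤ → ZMod 3, (∀ t, t ≤ p + n → S t = s t) ∧
      ∀ t, ¬ t ≤ p + n → S t = s' t :=
    ⟨fun t => if t ≤ p + n then s t else s' t, fun t h => if_pos h, fun t h => if_neg h⟩
  refine ⟨S, ?_, zdp_congr s3 fun t _ h => S1 t (by omega),
    zdp_congr t3 fun t h _ => S2 t (by omega), ?_, ?_, ?_⟩
  · rw [S2 _ (by omega), S1 _ (by omega), t2, s1]
  · rwa [S1 _ (by omega), s2]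
  · rwa [S2 _ (by omega), t1]
  · rwa [S1 _ (by omega), S2 _ (by omega), S1 p (by omega), s2, t1, s1]

/-- the periodic form on colours, as `dp3` -/
theorem dp4 {L : ℕ} (he : L % 2 = 0) {I : ℤ → Prop} (hI : Gaps L I)
    (a b : ℤ → Fin 4) (pa : ∀ t : ℤ, a (t + L) = a t) (pb : ∀ t : ℤ, b (t + L) = b t)
    (ha : ∀ t, a t ≠ 3) (hb : ∀ t, b t ≠ 3) (p : ℤ) (n : ℕ) (hn : 0 < n) (hnL : n < L)
    (hne : n % 2 = 0) (hp : ¬ I p) (hq : I (p + n)) :
    ∃ s : ℤ → Fin 4, (∀ t : ℤ, s (t + L) = s t) ∧ (∀ t, s t ≠ 3) ∧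
      (∀ t, ¬ I t → (¬ ∃ k : ℤ, t = p + k * L) → s t ≠ a t) ∧
      (∀ t, ¬ I t → ¬ I (t + 1) → s t ≠ s (t + 1)) ∧
      (∀ t, I t → (¬ ∃ k : ℤ, t = p + n + k * L) → vok 3 (s (t - 1)) (s (t + 1)) (b t) = true) ∧
      vok 3 (s (p + n - 1)) (s (p + n + 1)) (s p) = true := by
  have hL : 0 < L := by omega
  obtain ⟨s, s1, s2, s3, s4, s5, s6⟩ := im_dp hI.ind (fun t => ((a t).val : ZMod 3))
    (fun t => ((b t).val : ZMod 3)) p n L (by omega) (by omega) hne hp hq (by rwa [hI.per])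
  obtain ⟨S, S1, S2⟩ := zdp_per (fun t => zdp_up (s t)) p (congrArg zdp_up s1)
  have S3 : ∀ t, S (t + L + 1) = S (t + 1) := fun t => by
    rw [show t + L + 1 = t + 1 + L by omega, S1]
  have S4 : ∀ t, S (t + L - 1) = S (t - 1) := fun t => by
    rw [show t + L - 1 = t - 1 + L by omega, S1]
  have I3 : ∀ t, I (t + L + 1) ↔ I (t + 1) := fun t => by
    rw [show t + L + 1 = t + 1 + L by omega, hI.per]
  have pX : ∀ q t : ℤ, (∃ k : ℤ, t + L = q + k * L) ↔ ∃ k : ℤ, t = q + k * L := fun q t =>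
    ⟨fun ⟨k, h⟩ => ⟨k - 1, by linarith⟩, fun ⟨k, h⟩ => ⟨k + 1, by linarith⟩⟩
  have n1 : ¬ I (p + n - 1) := fun h => hI.ind _ h (by rwa [sub_add_cancel])
  have n2 := hI.ind _ hq
  refine ⟨S, S1, ?_, ?_, ?_, ?_, ?_⟩
  · refine zdp_win hL p (fun t => by rw [S1]) fun t h4 h5 => ?_
    rw [S2 t h4 h5.le]
    exact zdp_c1 _
  · refine zdp_win hL p (fun t => by rw [hI.per, pX, S1, pa]) fun t h4 h5 h6 h7 => ?_
    have e1 : t ≠ p := fun e => h7 ⟨0, by linarith⟩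
    have e2 : t ≠ p + n := fun e => h6 (e ▸ hq)
    rw [S2 t h4 h5.le]
    refine zdp_c2 _ _ (ha t) ?_
    by_cases e3 : t = p + n - 1
    · rwa [e3]
    by_cases e4 : t = p + n + 1
    · rwa [e4]
    by_cases e : t < p + n
    · exact s2.1 t (by omega) (by omega) h6
    · exact s3.1 t (by omega) h5 h6
  · refine zdp_win hL p (fun t => by rw [hI.per, I3, S1, S3]) fun t h4 h5 h6 h7 => ?_
    have e1 : t + 1 ≠ p + n := fun e => h7 (e ▸ hq)
    have e2 : t ≠ p + n := fun e => h6 (e ▸ hq)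
    rw [S2 t h4 h5.le, S2 (t + 1) (by omega) (by omega)]
    refine fun h => absurd (zdp_c4 _ _ h) ?_
    by_cases e : t < p + n
    · exact s2.2.1 t h4 (by omega) h6 h7
    · exact s3.2.1 t (by omega) h5 h6 h7
  · refine zdp_win hL p (fun t => by rw [hI.per, pX, S4, S3, pb]) fun t h4 h5 h6 h7 => ?_
    have e1 : t ≠ p := fun e => hp (e ▸ h6)
    have e2 : t ≠ p + n := fun e => h7 ⟨0, by linarith⟩
    have e3 : t ≠ p + n - 1 := fun e => n1 (e ▸ h6)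
    have e4 : t ≠ p + n + 1 := fun e => n2 (e ▸ h6)
    rw [S2 (t - 1) (by omega) (by omega), S2 (t + 1) (by omega) (by omega)]
    refine zdp_c3 _ _ _ (hb t) ?_
    by_cases e : t < p + n
    · exact s2.2.2 t (by omega) (by omega) h6
    · exact s3.2.2 t (by omega) h5 h6
  · rw [S2 _ (by omega) (by omega), S2 _ (by omega) (by omega), S2 p le_rfl (by omega)]
    exact ydp_c _ _ _ s6

end Pool.Agent.Lib.MP_7e4769_co.Sp
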