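import Pool.Agent.Lib.MP_7e4769_co.Sp.YDP

set_option autoImplicit false
set_option linter.unusedSectionVars false

namespace Pool.Agent.Lib.MP_7e4769_co.Sp

open Finset

variable {V : Type} [Fintype V] [DecidableEq V] {G : SimpleGraph V} [DecidableRel G.Adj]

/-- `dp3` and `dp4` in one statement. `P t u` says that the third neighbour at `t` is the position
`u`; it is empty or one symmetric pair of classes, with not both ends in `I`. -/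
theorem dp5 {L : ℕ} (hL : 0 < L) (he : L % 2 = 0) {I : ℤ → Prop} (hI : Gaps L I)
    (a b : ℤ → Fin 4) (pa : ∀ t : ℤ, a (t + L) = a t) (pb : ∀ t : ℤ, b (t + L) = b t)
    (ha : ∀ t, a t ≠ 3) (hb : ∀ t, b t ≠ 3) (P : ℤ → ℤ → Prop)
    (hP : (∀ t u, ¬ P t u) ∨ ∃ p : ℤ, ∃ d : ℕ, 0 < d ∧ d < L ∧ d % 2 = 0 ∧ ¬ I p ∧
      ∀ t u, P t u ↔ ∃ k j : ℤ, (t = p + k * L ∧ u = p + d + j * L) ∨
        (t = p + d + k * L ∧ u = p + j * L)) :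
    ∃ s : ℤ → Fin 4, (∀ t : ℤ, s (t + L) = s t) ∧ (∀ t, s t ≠ 3) ∧
      (∀ t, ¬ I t → (¬ ∃ u, P t u) → s t ≠ a t) ∧
      (∀ t, ¬ I t → ¬ I (t + 1) → s t ≠ s (t + 1)) ∧
      (∀ t, I t → (¬ ∃ u, P t u) → vok 3 (s (t - 1)) (s (t + 1)) (b t) = true) ∧
      (∀ t u, P t u → I t → vok 3 (s (t - 1)) (s (t + 1)) (s u) = true) ∧
      ∀ t u, P t u → ¬ I t → ¬ I u → s t ≠ s u := by
  have pI : ∀ t k : ℤ, I (t + k * L) ↔ I t := fun t k =>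
    iff_of_eq (Function.Periodic.int_mul (f := I) (c := (L : ℤ)) (fun t => propext (hI.per t)) k t)
  rcases hP with hP | ⟨p, d, hd, hdL, hde, hp, hP⟩
  · obtain ⟨s, s1, s2, s3, s4, s5, -⟩ := dp3 hL he hI a b pa pb ha hb (fun _ => False)
      (Or.inl fun _ h => h)
    exact ⟨s, s1, s2, fun t h _ => s3 t h id, s4, fun t h _ => s5 t h,
      fun t u h => absurd h (hP t u), fun t u h => absurd h (hP t u)⟩
  have hX : ∀ t, (∃ u, P t u) ↔ ∃ k : ℤ, t = p + k * L ∨ t = p + d + k * L := fun t => by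
    constructor
    · rintro ⟨u, h⟩
      obtain ⟨k, j, h⟩ := (hP t u).1 h
      exact ⟨k, h.imp And.left And.left⟩
    · rintro ⟨k, h | h⟩
      · exact ⟨_, (hP t _).2 ⟨k, 0, Or.inl ⟨h, rfl⟩⟩⟩
      · exact ⟨_, (hP t _).2 ⟨k, 0, Or.inr ⟨h, rfl⟩⟩⟩
  by_cases hq : I (p + d)
  · obtain ⟨s, s1, s2, s3, s4, s5, s6⟩ := dp4 he hI a b pa pb ha hb p d hd hdL hde hp hq
    have ps : ∀ t k : ℤ, s (t + k * L) = s t := fun t k =>
      Function.Periodic.int_mul (f := s) (c := (L : ℤ)) s1 k t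
    refine ⟨s, s1, s2, fun t h1 h2 => s3 t h1 fun ⟨k, h⟩ => h2 ((hX t).2 ⟨k, Or.inl h⟩), s4,
      fun t h1 h2 => s5 t h1 fun ⟨k, h⟩ => h2 ((hX t).2 ⟨k, Or.inr h⟩), fun t u h h1 => ?_,
      fun t u h h1 h2 => ?_⟩ <;> obtain ⟨k, j, ⟨rfl, rfl⟩ | ⟨rfl, rfl⟩⟩ := (hP t u).1 h
    · exact absurd ((pI _ _).1 h1) hp
    · rwa [add_sub_right_comm, add_right_comm _ _ (1 : ℤ), ps, ps, ps]
    · exact absurd ((pI _ _).2 hq) h2
    · exact absurd ((pI _ _).2 hq) h1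
  · obtain ⟨s, s1, s2, s3, s4, s5, s6⟩ := dp3 hL he hI a b pa pb ha hb (fun t => ∃ u, P t u)
      (Or.inr ⟨p, d, hd, hdL, hde, hp, hq, hX⟩)
    have key : ∀ m : ℤ, (d : ℤ) ≠ m * L := fun m e => by
      have h1 := Int.le_of_dvd (a := (L : ℤ)) (b := d) (by omega) ⟨m, e.trans (mul_comm _ _)⟩
      omega
    refine ⟨s, s1, s2, s3, s4, fun t h _ => s5 t h, fun t u h h1 => ?_,
      fun t u h _ _ e => ?_⟩ <;> obtain ⟨k, j, ⟨rfl, rfl⟩ | ⟨rfl, rfl⟩⟩ := (hP t u).1 h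
    · exact absurd ((pI _ _).1 h1) hp
    · exact absurd ((pI _ _).1 h1) hq
    · obtain ⟨m, hm⟩ := s6 _ _ ⟨_, h⟩ ((hX _).2 ⟨j, Or.inr rfl⟩) e
      exact key (k + m - j) (by linarith)
    · obtain ⟨m, hm⟩ := s6 _ _ ⟨_, h⟩ ((hX _).2 ⟨j, Or.inl rfl⟩) e
      exact key (j - k - m) (by linarith)

end Pool.Agent.Lib.MP_7e4769_co.Sp
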