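import Pool.Agent.Lib.MP_7e4769_co.Sp.ZDefs

set_option autoImplicit false
set_option linter.unusedSectionVars false

namespace Pool.Agent.Lib.MP_7e4769_co.Sp

open Finset

variable {V : Type} [Fintype V] [DecidableEq V] {G : SimpleGraph V} [DecidableRel G.Adj]

/-- periodic system of disjoint intervals `[a, b]` -/
structure Blocks (L : ℕ) (B : ℤ → ℤ → Prop) : Prop where
  per : ∀ a b : ℤ, B (a + L) (b + L) ↔ B a b
  lt : ∀ a b : ℤ, B a b → a < b ∧ b < a + L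
  dis : ∀ a b a' b' : ℤ, B a b → B a' b' → a ≤ a' → a' ≤ b → a' = a ∧ b' = b

/-- the roles at the ends of an ear that the general start allows; `c` says chord -/
def EndOK (I : ℤ → Prop) (c : Prop) (a b : ℤ) : Prop :=
  ((a + b) % 2 = 1 ∧ ((I a ∧ RC I b) ∨ (RC I a ∧ I b))) ∨
  ((a + b) % 2 = 0 ∧ ((I a ∧ RM I b) ∨ (RM I a ∧ I b) ∨ (c ∧ RC I a ∧ RC I b) ∨
    (¬ c ∧ I a ∧ I b)))

/-- names for a hanging triangle `w, ta w, tb w` and the third neighbour `tc w` of `tb w` -/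
structure TG (G : SimpleGraph V) (z o : ℤ → V) (ta tb tc : V → V) : Prop where
  offa : ∀ t, Tri G z o t → ¬ OnZ z (ta (o t))
  offb : ∀ t, Tri G z o t → ¬ OnZ z (tb (o t))
  oa : ∀ t, Tri G z o t → G.Adj (o t) (ta (o t))
  ob : ∀ t, Tri G z o t → G.Adj (o t) (tb (o t))
  ab : ∀ t, Tri G z o t → G.Adj (ta (o t)) (tb (o t))
  bc : ∀ t, Tri G z o t → G.Adj (tb (o t)) (tc (o t))
  co : ∀ t, Tri G z o t → tc (o t) ≠ o t
  ca : ∀ t, Tri G z o t → tc (o t) ≠ ta (o t)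

/-- role C at a hanging triangle -/
def RT (G : SimpleGraph V) (z o : ℤ → V) (I : ℤ → Prop) (t : ℤ) : Prop := RC I t ∧ Tri G z o t

def W4 (G : SimpleGraph V) (z o : ℤ → V) (I : ℤ → Prop) (v : V) : Prop :=
  ¬ OnZ z v ∧ ∃ t, RC I t ∧ ¬ Tri G z o t ∧ o t = v

def O4 (z o : ℤ → V) (I : ℤ → Prop) (v : V) : Prop := ¬ OnZ z v ∧ ∃ t, RM I t ∧ o t = v

def J4 (G : SimpleGraph V) (z o : ℤ → V) (I : ℤ → Prop) (v : V) : Prop :=
  ¬ OnZ z v ∧ ∃ w, W4 G z o I w ∧ G.Adj v w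

/-- images of the triangle positions under `f ∘ o` -/
def T4 (G : SimpleGraph V) (z o : ℤ → V) (I : ℤ → Prop) (f : V → V) (v : V) : Prop :=
  ∃ t, RT G z o I t ∧ f (o t) = v

/-- the vertices of colour 3 -/
def S4 (G : SimpleGraph V) (z o : ℤ → V) (I : ℤ → Prop) (ta tc : V → V) (v : V) : Prop :=
  (∃ t, I t ∧ z t = v) ∨ O4 z o I v ∨ J4 G z o I v ∨ T4 G z o I ta v ∨ T4 G z o I tc v

/-- the rest -/
def R4 (G : SimpleGraph V) (z o : ℤ → V) (I : ℤ → Prop) (ta tb tc : V → V) (v : V) : Prop :=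
  ¬ OnZ z v ∧ ¬ W4 G z o I v ∧ ¬ S4 G z o I ta tc v ∧ ¬ T4 G z o I id v ∧ ¬ T4 G z o I tb v

structure Valid4 (G : SimpleGraph V) (L : ℕ) (z o : ℤ → V) (I : ℤ → Prop) (ta tb tc : V → V) :
    Prop where
  gaps : Gaps L I
  tg : TG G z o ta tb tc
  v1 : ∀ t u, o t = z u → (RC I t ∧ RC I u) ∨ (I t ∧ RM I u) ∨ (RM I t ∧ I u)
  v1u : ∀ t u, OnZ z (o t) → OnZ z (o u) → z u = z t ∨ z u = o t
  v2 : ∀ t u, ¬ I t → ¬ I u → o t = o u → z t = z u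
  v3 : ∀ w w', W4 G z o I w → W4 G z o I w' → ¬ G.Adj w w'
  v4 : ∀ a b, S4 G z o I ta tc a → S4 G z o I ta tc b → ¬ G.Adj a b
  /-- no short ear starts at a hanging triangle -/
  v5 : ∀ t l u, Tri G z o t → EarL G z o t l u → l.length ≤ 7 → False

end Pool.Agent.Lib.MP_7e4769_co.Sp
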