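import Pool.Agent.Lib.MP_7e4769_co.Sp.ZRest

set_option autoImplicit false
set_option linter.unusedSectionVars false

namespace Pool.Agent.Lib.MP_7e4769_co.Sp

open Finset

variable {V : Type} [Fintype V] [DecidableEq V] {G : SimpleGraph V} [DecidableRel G.Adj]

/-- three consecutive ports, or two ports on a triangle, away from `f` -/
def Trip (G : SimpleGraph V) (P : Finset V) (f : V) : Prop :=
  ∃ a ∈ P, ∃ b ∈ P, ∃ g ∈ P, G.Adj a b ∧ G.Adj b g ∧ a ≠ g ∧ a ≠ f ∧ b ≠ f ∧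
    (∃ s, s ∉ P ∧ G.Adj a s) ∧ (∃ s, s ∉ P ∧ G.Adj b s) ∧
    (G.Adj g a ∨ (g ≠ f ∧ ∃ s, s ∉ P ∧ G.Adj g s))

/-- as `Pot`; paths with four inner vertices only when the first one has a second neighbour in `S` -/
def Pot4 (G : SimpleGraph V) (S R : V → Prop) (σ : V → ℤ) : Prop :=
  ∀ a b ms, S a → S b → ms ≠ [] → ms.length ≤ 4 → ms.Nodup → (∀ m ∈ ms, R m) → Pth G a ms b →
    (ms.length = 1 → a ≠ b) → (ms.length = 4 → ∃ a', S a' ∧ a' ≠ a ∧ G.Adj a' (fst ms b)) →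
    (σ a + σ b + ms.length) % 2 = 0

/-- as `rest_good2`, from `hT` and `hE` -/
theorem rest_good5 (hG : G.IsRegularOfDegree 3)
    (hT : ∀ P, P ≠ univ → EC2 G P → ¬ Good G P → ∀ f, Trip G P f)
    (hE : ∀ C P, C ≠ univ → Conn G C → P ⊆ C → P.Nonempty → Good G P → cut G C P ≤ 1 → Good G C)
    {R : Finset V} (hR : R ≠ univ)
    (h2 : ∀ v ∈ R, 2 ≤ dg G R v)
    (h3 : ∀ a ∈ R, ∀ b ∈ R, ∀ g ∈ R, G.Adj a b → G.Adj b g → a ≠ g → dg G R a = 2 →
      dg G R b = 2 → (G.Adj g a ∨ dg G R g = 2) → False) : Good G R := by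
  by_contra hng
  obtain ⟨C, hCR, hCn, hCc, hC0, hCg⟩ := comp_ex hng
  have hcl := cut_eq_zero.1 hC0
  have hdg : ∀ v ∈ C, dg G C v = dg G R v := fun v hv =>
    dg_congr fun w hw => ⟨fun h => hCR h, fun h => hcl v hv w h hw⟩
  obtain ⟨P, hPC, hP1, hPe⟩ := min_end (G := G) hCn (fun v hv => by
    rw [hdg v hv]; exact h2 v (hCR hv))
  have hPn : P.Nonempty := card_pos.1 (lt_of_lt_of_le (by norm_num) hPe.1)
  have hPg : ¬ Good G P := fun hg =>
    hCg (hE C P (fun e => hR (univ_subset_iff.1 (e ▸ hCR))) hCc hPC hPn hg hP1)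
  have hf : ∃ f : V, ∀ a ∈ P, a ≠ f → ∀ b ∈ C, G.Adj a b → b ∈ P := by
    by_cases he : ∃ a ∈ P, ∃ b ∈ C, b ∉ P ∧ G.Adj a b
    · obtain ⟨f, hfP, g, hgC, hgP, hfg⟩ := he
      refine ⟨f, fun a ha haf b hb' hab => ?_⟩
      by_contra hbP
      exact haf (cut_one_uniq hP1 hfP hgC hgP hfg a ha b hb' hbP hab).1
    · obtain ⟨f, _⟩ := hPn
      refine ⟨f, fun a ha _ b hb' hab => ?_⟩
      by_contra hbP
      exact he ⟨a, ha, b, hb', hbP, hab⟩
  obtain ⟨f, hf⟩ := hf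
  obtain ⟨a, ha, b, hb', g, hg, hab, hbg, hag, haf, hbf, da, db, hg'⟩ :=
    hT P (fun e => hR (univ_subset_iff.1 (e ▸ hPC.trans hCR))) hPe hPg f
  have key : ∀ x ∈ P, x ≠ f → (∃ s, s ∉ P ∧ G.Adj x s) → dg G R x = 2 := by
    rintro x hx hxf ⟨s, s1, s2⟩
    have e : dg G P x = dg G R x := by
      rw [← hdg x (hPC hx)]
      exact dg_congr fun w hw => ⟨fun h => hPC h, fun h => hf x hx hxf w h hw⟩
    have := dg_le_two_of_out hG s1 s2
    have := h2 x (hCR (hPC hx))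
    omega
  exact h3 a (hCR (hPC ha)) b (hCR (hPC hb')) g (hCR (hPC hg)) hab hbg hag
    (key a ha haf da) (key b hb' hbf db) (hg'.imp_right fun h => key g hg h.1 h.2)

/-- a vertex `x` of `R` with two neighbours in `S` has both parities, so no short path through `R`
from `x` ends at a further neighbour in `S` -/
theorem pot_both4 {S R : V → Prop} {σ : V → ℤ} (hp : Pot4 G S R σ) {x a b c : V} {ms : List V}
    (ha : S a) (hb : S b) (hc : S c) (hab : a ≠ b) (h1 : G.Adj a x) (h2 : G.Adj b x)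
    (h3 : ms.length ≤ 3) (hn : (x :: ms).Nodup) (hr : ∀ m ∈ x :: ms, R m) (hq : Pth G x ms c)
    (h0 : ms = [] → c ≠ a ∧ c ≠ b) : False := by
  have e1 := hp a b [x] ha hb (by simp) (by simp) (by simp) (fun m hm => hr m (by
    simp only [List.mem_singleton] at hm
    simp [hm])) (pth_cons.2 ⟨h1, pth_nil.2 h2.symm⟩) (fun _ => hab)
    (by simp)
  have e2 := hp a c (x :: ms) ha hc (by simp) (Nat.succ_le_succ h3) hn hr (pth_cons.2 ⟨h1, hq⟩)
    (fun h => (h0 (by simpa using h)).1.symm) fun _ => ⟨b, hb, hab.symm, h2⟩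
  have e3 := hp b c (x :: ms) hb hc (by simp) (Nat.succ_le_succ h3) hn hr (pth_cons.2 ⟨h2, hq⟩)
    (fun h => (h0 (by simpa using h)).2.symm) fun _ => ⟨a, ha, hab, h1⟩
  simp only [List.length_singleton, Nat.cast_one] at e1
  omega

/-- Let `B` be the vertices of `R` of degree at most 1 in `R`. By `pot_both4` they have degree 1,
are not adjacent, `R \ B` has least degree 2, and two adjacent vertices of degree 2 in `R \ B` have
no neighbour in `B`, so each has a neighbour in `S`; three on a path, or two on a triangle,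
contradict `Pot`. Then `rest_good5`, `add_leaves`. -/
theorem rest_good6 (hG : G.IsRegularOfDegree 3)
    (hT : ∀ P, P ≠ univ → EC2 G P → ¬ Good G P → ∀ f, Trip G P f)
    (hE : ∀ C P, C ≠ univ → Conn G C → P ⊆ C → P.Nonempty → Good G P → cut G C P ≤ 1 → Good G C)
    {R : Finset V} (hR : R ≠ univ) {S : V → Prop}
    {σ : V → ℤ} (hS : ∀ v ∈ R, ∀ w, G.Adj v w → w ∉ R → S w)
    (hp : Pot4 G S (fun v => v ∈ R) σ) : Good G R := by
  have out1 : ∀ y ∈ R, dg G R y ≤ 2 → ∃ c, S c ∧ G.Adj y c := fun y hy h => by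
    obtain ⟨c, h1, h2⟩ := ex_out hG (U := R) (v := y) (by omega)
    exact ⟨c, hS y hy c h2 h1, h2⟩
  have hout : ∀ x, dg G R x + dg G (univ \ R) x = 3 := fun x => by
    rw [← dg_sdiff (subset_univ R), dg_univ hG]
  have key : ∀ x ∈ R, dg G R x ≤ 1 → ∀ (ms : List V) (c : V), ms ≠ [] → ms.length ≤ 3 →
      (x :: ms).Nodup → (∀ m ∈ ms, m ∈ R) → S c → Pth G x ms c → False := by
    intro x hx h ms c h0 h3 hn hr hc' hq
    have := hout x
    obtain ⟨a, ha, hxa, -⟩ := ex_other (G := G) (U := univ \ R) (v := x) (by omega) x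
    obtain ⟨b, hb, hxb, hba⟩ := ex_other (G := G) (U := univ \ R) (v := x) (by omega) a
    exact pot_both4 hp (hS x hx a hxa (mem_sdiff.1 ha).2) (hS x hx b hxb (mem_sdiff.1 hb).2) hc'
      hba.symm hxa.symm hxb.symm h3 hn (List.forall_mem_cons.2 ⟨hx, hr⟩) hq fun e => absurd e h0
  have one : ∀ x ∈ R, dg G R x ≤ 1 → dg G R x = 1 := fun x hx h => by
    by_contra h0
    have := hout x
    obtain ⟨a, ha, hxa, -⟩ := ex_other (G := G) (U := univ \ R) (v := x) (by omega) x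
    obtain ⟨b, hb, hxb, hba⟩ := ex_other (G := G) (U := univ \ R) (v := x) (by omega) a
    obtain ⟨c, hc', hxc, hca, hcb⟩ := ex_third (G := G) (U := univ \ R) (v := x) (by omega) a b
    exact pot_both4 (ms := []) hp (hS x hx a hxa (mem_sdiff.1 ha).2)
      (hS x hx b hxb (mem_sdiff.1 hb).2) (hS x hx c hxc (mem_sdiff.1 hc').2) hba.symm hxa.symm
      hxb.symm (by simp) (by simp) (by simpa using hx) (pth_nil.2 hxc) fun _ => ⟨hca, hcb⟩
  have k1 : ∀ x ∈ R, dg G R x ≤ 1 → ∀ y ∈ R, G.Adj x y → ¬ dg G R y ≤ 2 := by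
    intro x hx h y hy hxy h2
    obtain ⟨c, hc', hyc⟩ := out1 y hy h2
    exact key x hx h [y] c (by simp) (by simp) (by simpa using hxy.ne) (by simpa using hy) hc'
      (pth_cons.2 ⟨hxy, pth_nil.2 hyc⟩)
  have k2 : ∀ x ∈ R, dg G R x ≤ 1 → ∀ y ∈ R, ∀ z ∈ R, G.Adj x y → G.Adj y z → x ≠ z →
      ¬ dg G R z ≤ 2 := by
    intro x hx h y hy z hz hxy hyz hxz h2
    obtain ⟨c, hc', hzc⟩ := out1 z hz h2
    exact key x hx h [y, z] c (by simp) (by simp) (by simp [hxy.ne, hyz.ne, hxz])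
      (by simp [hy, hz]) hc' (pth_cons.2 ⟨hxy, pth_cons.2 ⟨hyz, pth_nil.2 hzc⟩⟩)
  have k3 : ∀ x ∈ R, dg G R x ≤ 1 → ∀ y ∈ R, ∀ z ∈ R, ∀ w ∈ R, G.Adj x y → G.Adj y z →
      G.Adj z w → x ≠ z → x ≠ w → y ≠ w → ¬ dg G R w ≤ 2 := by
    intro x hx h y hy z hz w hw hxy hyz hzw hxz hxw hyw h2
    obtain ⟨c, hc', hwc⟩ := out1 w hw h2
    exact key x hx h [y, z, w] c (by simp) (by simp)
      (by simp [hxy.ne, hyz.ne, hzw.ne, hxz, hxw, hyw]) (by simp [hy, hz, hw]) hc'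
      (pth_cons.2 ⟨hxy, pth_cons.2 ⟨hyz, pth_cons.2 ⟨hzw, pth_nil.2 hwc⟩⟩⟩)
  obtain ⟨B, hB⟩ : ∃ B : Finset V, ∀ x, x ∈ B ↔ x ∈ R ∧ dg G R x ≤ 1 :=
    ⟨R.filter fun x => dg G R x ≤ 1, fun x => mem_filter⟩
  have hBR : B ⊆ R := fun x hx => ((hB x).1 hx).1
  have hsp : ∀ v, dg G R v = dg G B v + dg G (R \ B) v := dg_sdiff hBR
  have hR' : ∀ v ∈ R \ B, v ∈ R ∧ 2 ≤ dg G R v := fun v hv => by
    obtain ⟨h1, h2⟩ := mem_sdiff.1 hv
    refine ⟨h1, ?_⟩
    by_contra h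
    exact h2 ((hB v).2 ⟨h1, by omega⟩)
  have hne : ∀ x ∈ B, ∀ v ∈ R \ B, x ≠ v := fun x hx v hv e => (mem_sdiff.1 hv).2 (e ▸ hx)
  have nb : ∀ p ∈ R \ B, ∀ q ∈ R \ B, G.Adj p q → dg G (R \ B) p = 2 → dg G (R \ B) q = 2 →
      ∃ c, S c ∧ G.Adj p c := by
    intro p hp' q hq hpq d1 d2
    refine out1 p (hR' p hp').1 ?_
    by_contra h
    have := hsp p
    obtain ⟨x, hx, hpx⟩ := (one_le_dg (G := G) (U := B) (v := p)).1 (by omega)
    obtain ⟨hxR, hx1⟩ := (hB x).1 hx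
    have h3 := k2 x hxR hx1 p (hR' p hp').1 q (hR' q hq).1 hpx.symm hpq (hne x hx q hq)
    have := hsp q
    obtain ⟨w, hw, hqw⟩ := (one_le_dg (G := G) (U := B) (v := q)).1 (by omega)
    obtain ⟨hwR, hw1⟩ := (hB w).1 hw
    refine k3 x hxR hx1 p (hR' p hp').1 q (hR' q hq).1 w hwR hpx.symm hpq hqw (hne x hx q hq)
      ?_ (hne w hw p hp').symm (by omega)
    rintro rfl
    have := two_le_dg (hR' p hp').1 (hR' q hq).1 hpx.symm hqw.symm hpq.ne
    omega
  have hg : Good G (R \ B) := by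
    refine rest_good5 hG hT hE (fun e => hR (univ_subset_iff.1 (e ▸ sdiff_subset)))
      (fun v hv => ?_) fun a ha b hb g hg hab hbg hag da db hor => ?_
    · obtain ⟨hvR, hv2⟩ := hR' v hv
      have h1 := hsp v
      by_contra h
      obtain ⟨x, hx, hvx⟩ := (one_le_dg (G := G) (U := B) (v := v)).1 (by omega)
      obtain ⟨hxR, hx1⟩ := (hB x).1 hx
      have h3 := k1 x hxR hx1 v hvR hvx.symm
      obtain ⟨y, hy, hvy, hyx⟩ := ex_other (G := G) (U := B) (v := v) (by omega) x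
      obtain ⟨hyR, hy1⟩ := (hB y).1 hy
      exact k2 x hxR hx1 v hvR y hyR hvx.symm hvy hyx.symm (by omega)
    · obtain ⟨sa, s1, s2⟩ := nb a ha b hb hab da db
      obtain ⟨sb, s3, s4⟩ := nb b hb a ha hab.symm db da
      have ha' := (hR' a ha).1
      have hb' := (hR' b hb).1
      have hg' := (hR' g hg).1
      have e1 := hp sa sb [a, b] s1 s3 (by simp) (by simp) (by simp [hab.ne]) (by simp [ha', hb'])
        (pth_cons.2 ⟨s2.symm, pth_cons.2 ⟨hab, pth_nil.2 s4⟩⟩) (by simp)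
          (by simp)
      rcases hor with h | h
      · have e2 := hp sa sb [a, g, b] s1 s3 (by simp) (by simp) (by simp [hab.ne, hbg.ne', hag])
          (by simp [ha', hb', hg'])
          (pth_cons.2 ⟨s2.symm, pth_cons.2 ⟨h.symm, pth_cons.2 ⟨hbg.symm, pth_nil.2 s4⟩⟩⟩) (by simp)
          (by simp)
        simp only [List.length_cons, List.length_nil] at e1 e2
        omega
      · obtain ⟨sg, s5, s6⟩ := nb g hg b hb hbg.symm h db
        have e2 := hp sb sg [b, g] s3 s5 (by simp) (by simp) (by simp [hbg.ne]) (by simp [hb', hg'])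
          (pth_cons.2 ⟨s4.symm, pth_cons.2 ⟨hbg, pth_nil.2 s6⟩⟩) (by simp)
          (by simp)
        have e3 := hp sa sg [a, b, g] s1 s5 (by simp) (by simp) (by simp [hab.ne, hbg.ne, hag])
          (by simp [ha', hb', hg'])
          (pth_cons.2 ⟨s2.symm, pth_cons.2 ⟨hab, pth_cons.2 ⟨hbg, pth_nil.2 s6⟩⟩⟩) (by simp)
          (by simp)
        simp only [List.length_cons, List.length_nil] at e1 e2 e3
        omega
  have h0 : ∀ x ∈ B, ∀ y ∈ B, ¬ G.Adj x y := fun x hx y hy hxy =>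
    k1 x ((hB x).1 hx).1 ((hB x).1 hx).2 y ((hB y).1 hy).1 hxy (by
      have := ((hB y).1 hy).2
      omega)
  have := add_leaves hG hg (B := B) (fun x hx h => (mem_sdiff.1 h).2 hx) (fun x hx => by
    have h1 := one x ((hB x).1 hx).1 ((hB x).1 hx).2
    have h2 := hsp x
    have h3 := (dg_eq_zero (G := G) (U := B) (v := x)).2 (h0 x hx)
    omega) h0
  rwa [sdiff_union_of_subset hBR] at this

end Pool.Agent.Lib.MP_7e4769_co.Sp
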