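import Pool.Agent.Lib.MP_7e4769_co.Sp.YPot1
import Pool.Agent.Lib.MP_7e4769_co.Sp.YRest

set_option autoImplicit false
set_option linter.unusedSectionVars false

namespace Pool.Agent.Lib.MP_7e4769_co.Sp

open Finset

variable {V : Type} [Fintype V] [DecidableEq V] {G : SimpleGraph V} [DecidableRel G.Adj]

variable {L : ℕ} {z o : ℤ → V} {I : ℤ → Prop} {ta tb tc : V → V}

theorem ypot2_congr (h : CZ G L z o) (hI : Gaps L I) {a : V} {t u : ℤ} {pa : List V}
    (htu : z t = z u) (ha : Tk4 G z o I ta tb tc a u pa) : Tk4 G z o I ta tb tc a t pa := by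
  have e0 : I t ↔ I u := by simpa using Gaps.congr h hI htu 0
  have e1 : RC I t ↔ RC I u := and_congr
    (by simpa only [sub_eq_add_neg] using Gaps.congr h hI htu (-1)) (Gaps.congr h hI htu 1)
  simpa only [Tk4, RM, RT, Tri, e0, e1, h.o_eq htu, htu] using ha

theorem ypot2_tri (h : CZ G L z o) (hv : Valid4 G L z o I ta tb tc) {t : ℤ} {ms : List V}
    (k : RT G z o I t) (h4 : ms.length ≤ 4) (hn : ms.Nodup)
    (hr : ∀ m ∈ ms, R4 G z o I ta tb tc m) (hp : Pth G (ta (o t)) ms (tc (o t))) :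
    ms.length % 2 = 1 := by
  have n1 : o t ∉ ms := fun m => (hr _ m).2.2.2.1 ⟨t, k, rfl⟩
  have n2 : ta (o t) ∉ ms := fun m => (hr _ m).2.2.1 (.inr (.inr (.inr (.inl ⟨t, k, rfl⟩))))
  have n3 : tc (o t) ∉ ms := fun m => (hr _ m).2.2.1 (.inr (.inr (.inr (.inr ⟨t, k, rfl⟩))))
  have n4 : tb (o t) ∉ ms := fun m => (hr _ m).2.2.2.2 ⟨t, k, rfl⟩
  have g := hv.tg
  have := h.ne (o t) (ta (o t) :: (ms ++ [tc (o t), tb (o t)])) ⟨pth_cons.2 ⟨g.oa t k.2, hp.append
    (pth_cons.2 ⟨(g.bc t k.2).symm, pth_nil.2 (g.ob t k.2).symm⟩)⟩, by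
      simp [List.nodup_append, (g.oa t k.2).ne, (g.ob t k.2).ne, (g.ab t k.2).ne, (g.bc t k.2).ne',
        (g.co t k.2).symm, (g.ca t k.2).symm, n1, n2, hn]
      exact fun x hx => ⟨fun e => n3 (e ▸ hx), fun e => n4 (e ▸ hx)⟩, by simp⟩
  have h2 := h.big
  simp only [List.length_cons, List.length_append, List.length_nil] at this
  omega

/-- Same foot: two neighbours of `o t` (short cycle through `o t`), or `ta`, `tc` of one triangle,
where the cycle `ta, ms, tc, tb, o t` is odd only if `ms` is odd. -/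
theorem pot4_same (hG : G.IsRegularOfDegree 3) (h : CZ G L z o)
    (hv : Valid4 G L z o I ta tb tc) {a b : V} {t u : ℤ} {pa pb ms : List V}
    (ha : Tk4 G z o I ta tb tc a t pa) (hb : Tk4 G z o I ta tb tc b u pb) (hab : a ≠ b)
    (htu : z t = z u) (h0 : ms ≠ []) (h4 : ms.length ≤ 4) (hn : ms.Nodup)
    (hr : ∀ m ∈ ms, R4 G z o I ta tb tc m) (hp : Pth G a ms b) :
    (t + pa.length + (u + pb.length) + ms.length) % 2 = 0 := by
  replace hb := ypot2_congr h hv.gaps htu hb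
  have h1 := h.par htu
  have nI : RC I t → ¬ I t := fun k => k.notI hv.gaps
  rcases ha with ⟨k, -, rfl⟩ | ⟨k, -, -, rfl⟩ | ⟨k, k0, k1, rfl, k2, k3⟩ | ⟨k, rfl, rfl⟩ |
    ⟨k, rfl, rfl⟩ <;> rcases hb with ⟨j, -, rfl⟩ | ⟨j, -, -, rfl⟩ | ⟨j, j0, -, rfl, j2, j3⟩ |
    ⟨j, rfl, rfl⟩ | ⟨j, rfl, rfl⟩
  all_goals first
    | exact (hab rfl).elim | exact (j.1 k).elim | exact (k.1 j).elim | exact (nI j k).elim
    | exact (nI k j).elim | exact (nI j.1 k).elim | exact (nI k.1 j).elim | exact (k.2 j).elim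
    | exact (j.2 k).elim | exact (k.2 j.1).elim | exact (j.2 k.1).elim | exact (k0 j.2).elim
    | exact (j0 k.2).elim | simp only [List.length_cons, List.length_nil]
  · have hw : W4 G z o I (o t) := ⟨k1, t, k, k0, rfl⟩
    have n1 : o t ∉ ms := fun m => (hr _ m).2.1 hw
    have n2 : a ∉ ms := fun m => (hr _ m).2.2.1 (.inr (.inr (.inl ⟨k3, _, hw, k2.symm⟩)))
    have n3 : b ∉ ms := fun m => (hr _ m).2.2.1 (.inr (.inr (.inl ⟨j3, _, hw, j2.symm⟩)))
    have := h.ne (o t) (a :: (ms ++ [b])) ⟨pth_cons.2 ⟨k2, hp.append (pth_nil.2 j2.symm)⟩, by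
      simp [List.nodup_append, k2.ne, j2.ne, n1, n2, hab, hn]
      exact fun x hx e => n3 (e ▸ hx), by simp⟩
    have h2 := h.big
    simp only [List.length_cons, List.length_append, List.length_nil] at this
    omega
  · have := ypot2_tri h hv k h4 hn hr hp
    omega
  · have := ypot2_tri h hv k (List.length_reverse.trans_le h4) (List.nodup_reverse.2 hn)
      (fun m hm => hr m (List.mem_reverse.1 hm)) hp.symm
    rw [List.length_reverse] at this
    omega

theorem pot4_ex (hG : G.IsRegularOfDegree 3) (h : CZ G L z o) (hv : Valid4 G L z o I ta tb tc) :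
    ∃ σ, Pot4 G (S4 G z o I ta tc) (R4 G z o I ta tb tc) σ := by
  have : ∀ a, ∃ t pa, S4 G z o I ta tc a → Tk4 G z o I ta tb tc a t pa := fun a => by
    by_cases k : S4 G z o I ta tc a
    · exact (tk4_ex k).imp fun t j => j.imp fun pa j _ => j
    · exact ⟨0, [], fun j => absurd j k⟩
  choose t p hp using this
  refine ⟨fun a => t a + (p a).length, fun a b ms ha hb h0 h4 hn hr hq h1 h6 => ?_⟩
  by_cases hab : a = b
  · subst hab
    have h2 := List.length_pos_iff.2 h0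
    have h3 : ms.length ≠ 1 := fun e => h1 e rfl
    have h5 := h.big
    have := h.ne a ms ⟨hq, List.nodup_cons.2 ⟨fun m => (hr a m).2.2.1 ha, hn⟩, by omega⟩
    omega
  · by_cases e : z (t a) = z (t b)
    · exact pot4_same hG h hv (hp a ha) (hp b hb) hab e h0 h4 hn hr hq
    · refine pot4_ear hG h hv (hp a ha) (hp b hb) hab e h0 ?_ hn hr hq
      obtain ⟨h2, h3⟩ := tk4_len hG h hv (hp a ha)
      have h5 := (tk4_len hG h hv (hp b hb)).1
      by_cases h7 : ms.length = 4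
      · obtain ⟨a', s, n, j⟩ := h6 h7
        have := h3 _ a' (hr _ ((fst_mem_or ms b).resolve_right fun e => h0 e.1)) s n hq.adj_fst j
        omega
      · omega

end Pool.Agent.Lib.MP_7e4769_co.Sp
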