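import Pool.Agent.Lib.MP_7e4769_co.Sp.YStart2

set_option autoImplicit false
set_option linter.unusedSectionVars false

namespace Pool.Agent.Lib.MP_7e4769_co.Sp

open Finset

variable {V : Type} [Fintype V] [DecidableEq V] {G : SimpleGraph V} [DecidableRel G.Adj]

variable {L : ℕ} {z o : ℤ → V} {I : ℤ → Prop} {ta tb tc : V → V}

theorem ys3_pick : ∀ e y : Fin 4, ∃ x : Fin 4, x ≠ 3 ∧ x ≠ e ∧ x ≠ y := by decide

theorem ys3_vok : ∀ x y : Fin 4, x ≠ 3 → y ≠ 3 → x ≠ y →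
    vok x y 3 y = true ∧ vok y x 3 3 = true ∧ vok y 3 3 x = true := by
  decide

/-- Last stage: for `w = o t` at a triangle position, `st_free` at `ta w` towards `w` gives `e`;
colour `w` with a finite colour different from `e` and from `c (tb w)`. The neighbours of `w` are
`z t`, `ta w`, `tb w` (`TG.nb_o`), so no other vertex is disturbed. -/
theorem start4 (hG : G.IsRegularOfDegree 3) (h : CZ G L z o) (hv : Valid4 G L z o I ta tb tc)
    {R : Finset V} (hR : ∀ v, v ∈ R ↔ R4 G z o I ta tb tc v) (hg : Good G R) :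
    ∃ c : V → Fin 4, ∀ v, ok G c v := by
  classical
  obtain ⟨c, cS, cT, cO⟩ := stage42 hG h hv hR hg
  have tg := hv.tg
  choose pk p1 p2 p3 using ys3_pick
  have hE : ∀ w p : V, ∃ e : Fin 4, (∃ e', St G c w p e') → St G c w p e := by
    intro w p
    by_cases a : ∃ e', St G c w p e'
    · obtain ⟨e, he⟩ := a
      exact ⟨e, fun _ => he⟩
    · exact ⟨0, fun b => absurd b a⟩
  choose E hE using hE
  have aS : ∀ t, RT G z o I t → S4 G z o I ta tc (ta (o t)) := fun t a =>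
    Or.inr (Or.inr (Or.inr (Or.inl ⟨t, a, rfl⟩)))
  have qS : ∀ t, RT G z o I t → S4 G z o I ta tc (tc (o t)) := fun t a =>
    Or.inr (Or.inr (Or.inr (Or.inr ⟨t, a, rfl⟩)))
  have hSt : ∀ t, RT G z o I t → St G c (ta (o t)) (o t) (E (ta (o t)) (o t)) := fun t a =>
    hE _ _ (st_free hG (tg.oa t a.2).symm fun x b d => by
      rcases (hv.p_nb hG h a b).resolve_left d with e | e
      · rw [cS _ (aS t a), e, (cT t a).2]
        exact (cT t a).1
      · exact ((cO x e.2.2.2.1 (fun f => e.2.2.1 (Or.inr (Or.inr (Or.inr (Or.inl f))))) e.2.2.2.2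
          (fun ⟨u, _, f⟩ => e.1 ⟨u, f⟩)).1 _ b.symm).symm)
  obtain ⟨c', q1, q2⟩ : ∃ c' : V → Fin 4,
      (∀ t, RT G z o I t → c' (o t) = pk (E (ta (o t)) (o t)) (c (z t))) ∧
      ∀ v, ¬ T4 G z o I id v → c' v = c v := by
    refine ⟨fun v => if T4 G z o I id v then pk (E (ta v) v) (c (tb v)) else c v, fun t a => ?_,
      fun v d => if_neg d⟩
    rw [← (cT t a).2]
    exact if_pos ⟨t, a, rfl⟩
  have q3 : ∀ v, S4 G z o I ta tc v → c' v = 3 := fun v d =>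
    (q2 v fun e => (hv.a_not hG h e).2.1 d).trans (cS v d)
  have q4 : ∀ t, c' (z t) = c (z t) := fun t => q2 _ fun e => (hv.a_not hG h e).1 ⟨t, rfl⟩
  have q5 : ∀ t, RT G z o I t → c' (tb (o t)) = c (z t) := fun t a =>
    (q2 _ fun e => (hv.a_not hG h e).2.2 ⟨t, a, rfl⟩).trans (cT t a).2
  refine ⟨c', fun v => ?_⟩
  by_cases d1 : T4 G z o I id v
  · obtain ⟨t, a, rfl⟩ := d1
    rw [id, ok_iff hG (h.oadj t).symm (tg.oa t a.2) (tg.ob t a.2)
      (fun e => tg.offa t a.2 ⟨t, e⟩) (fun e => tg.offb t a.2 ⟨t, e⟩) (tg.ab t a.2).ne, q1 t a, q4,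
      q3 _ (aS t a), q5 t a]
    exact (ys3_vok _ _ (p1 _ _) (cT t a).1 (p3 _ _)).1
  by_cases d2 : T4 G z o I ta v
  · obtain ⟨t, a, rfl⟩ := d2
    refine (hSt t a).2 c' (fun x b d => ?_) (q2 _ d1) ?_ ?_
    · rcases (hv.p_nb hG h a b).resolve_left d with e | e
      · rw [e, q5 t a, (cT t a).2]
      · exact q2 x e.2.2.2.1
    · rw [q1 t a, cS _ (aS t a)]
      exact p1 _ _
    · rw [q1 t a]
      exact p2 _ _
  by_cases d3 : T4 G z o I tb v
  · obtain ⟨t, a, rfl⟩ := d3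
    rw [ok_iff hG (tg.ob t a.2).symm (tg.ab t a.2).symm (tg.bc t a.2) (tg.oa t a.2).ne
      (tg.co t a.2).symm (tg.ca t a.2).symm, q1 t a, q3 _ (aS t a), q3 _ (qS t a), q5 t a]
    exact (ys3_vok _ _ (p1 _ _) (cT t a).1 (p3 _ _)).2.1
  by_cases d4 : ∃ t, RT G z o I t ∧ z t = v
  · obtain ⟨t, a, rfl⟩ := d4
    rw [ok_iff hG (h.adj' t) (h.adj t) (h.oadj t) (h.ne2 t) (h.op t).symm (h.on t).symm, q1 t a,
      q3 _ (Or.inl ⟨t - 1, a.1.1, rfl⟩), q3 _ (Or.inl ⟨t + 1, a.1.2, rfl⟩), q4]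
    exact (ys3_vok _ _ (p1 _ _) (cT t a).1 (p3 _ _)).2.2
  refine ok_congr (q2 v d1) (fun w b => q2 w ?_) (cO v d1 d2 d3 d4)
  rintro ⟨t, a, rfl⟩
  rcases tg.nb_o hG h a.2 b.symm with e | e | e
  exacts [d4 ⟨t, a, e.symm⟩, d2 ⟨t, a, e.symm⟩, d3 ⟨t, a, e.symm⟩]

end Pool.Agent.Lib.MP_7e4769_co.Sp
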