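import Pool.Agent.Lib.MP_7e4769_co.Sp.ZArc

set_option autoImplicit false
set_option linter.unusedSectionVars false

namespace Pool.Agent.Lib.MP_7e4769_co.Sp

open Finset

variable {V : Type} [Fintype V] [DecidableEq V] {G : SimpleGraph V} [DecidableRel G.Adj]

theorem ztop_key {x a b : V} {A B C : List V}
    (h : List.IsChain G.Adj (x :: (A ++ a :: (B ++ b :: C))))
    (hn : (x :: (A ++ a :: (B ++ b :: C))).Nodup) (hA : A ≠ []) (ha : G.Adj x a) (hb : G.Adj x b) :
    ∃ x l, IsCyc G x l ∧ l.length % 2 = 1 := by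
  have h1 : Pth G x A a := List.IsChain.left_of_append (l₂ := B ++ b :: C) (by simpa using h)
  have h2 : Pth G a B b := List.IsChain.left_of_append (l₂ := C)
    (List.IsChain.right_of_append (l₁ := x :: A) (by simpa using h))
  have h3 := List.length_pos_iff.2 hA
  by_cases e1 : A.length % 2 = 0
  · exact ⟨x, _, ⟨h1.append (pth_nil.2 ha.symm), hn.sublist (by simp), by simp; omega⟩,
      by simp; omega⟩
  by_cases e2 : B.length % 2 = 0
  · exact ⟨x, _, ⟨(h1.append h2).append (pth_nil.2 hb.symm), hn.sublist (by simp), by simp; omega⟩,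
      by simp; omega⟩
  · refine ⟨x, _, ⟨((pth_nil.2 ha).append h2).append (pth_nil.2 hb.symm), hn.sublist ?_,
      by simp⟩, by simp; omega⟩
    exact (List.Sublist.trans (l₂ := a :: (B ++ b :: C)) (by simp)
      (List.sublist_append_right A _)).cons_cons x

theorem ztop_succ {L : ℕ} (hL : 0 < L) {f : ℕ → V} (h : ∀ i, f (i + L) = f i) (i : ℤ) :
    f ((i + 1) % L).toNat = f ((i % L).toNat + 1) := by
  have h0 : (L : ℤ) ≠ 0 := by omega
  rw [← Function.Periodic.map_mod_nat h (_ + 1)]
  refine congrArg f (Int.natCast_inj.1 ?_)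
  push_cast
  rw [Int.toNat_of_nonneg (Int.emod_nonneg _ h0), Int.toNat_of_nonneg (Int.emod_nonneg _ h0),
    Int.emod_add_emod]

/-- Take a longest path; its first vertex `x` has all three neighbours on it, at positions
`1 < i < j`; of the three cycles (`x` to `i`, `x` to `j`, and `i` to `j` through `x`) one is even. -/
theorem even_ex (hG : G.IsRegularOfDegree 3) (v : V) :
    ∃ x l, IsCyc G x l ∧ l.length % 2 = 1 := by
  classical
  let P : ℕ → Prop := fun n => ∃ x l, List.IsChain G.Adj (x :: l) ∧ (x :: l).Nodup ∧ l.length = n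
  obtain ⟨x, l, hc, hn, hl⟩ : P (Nat.findGreatest P (Fintype.card V)) :=
    Nat.findGreatest_spec (Nat.zero_le _) ⟨v, [], by simp, by simp, rfl⟩
  have hm : ∀ w, G.Adj x w → w ∈ l := fun w hw => by
    by_contra h
    have h1 : (w :: x :: l).Nodup := List.nodup_cons.2 ⟨by simp [h, hw.ne'], hn⟩
    have h2 := h1.length_le_card
    have h3 := Nat.le_findGreatest (P := P) (n := Fintype.card V) (m := l.length + 1)
      (by simp at h2; omega) ⟨w, x :: l, hc.cons_cons hw.symm, h1, rfl⟩
    omega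
  obtain ⟨a, b, ha, hb, hab, h1, h2⟩ := nbrs_of1 hG (v := x) (l.headD x)
  obtain ⟨A, R, rfl⟩ := List.append_of_mem (hm a ha)
  have hA : A ≠ [] := by
    rintro rfl
    exact h1 rfl
  rcases List.mem_append.1 (hm b hb) with h | h
  · obtain ⟨A', B, rfl⟩ := List.append_of_mem h
    rw [List.append_assoc, List.cons_append] at hc hn h2
    refine ztop_key hc hn ?_ hb ha
    rintro rfl
    exact h2 rfl
  · obtain ⟨B, C, rfl⟩ := List.append_of_mem ((List.mem_cons.1 h).resolve_left hab.symm)
    exact ztop_key hc hn hA ha hb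

theorem shortest_ex (hG : G.IsRegularOfDegree 3) (v : V) :
    ∃ x l, IsCyc G x l ∧ l.length % 2 = 1 ∧ NoEven G (l.length + 1) := by
  classical
  have h : ∃ n, ∃ x l, IsCyc G x l ∧ l.length % 2 = 1 ∧ l.length = n :=
    let ⟨x, l, h1, h2⟩ := even_ex hG v
    ⟨_, x, l, h1, h2, rfl⟩
  obtain ⟨x, l, h1, h2, h3⟩ := Nat.find_spec h
  refine ⟨x, l, h1, h2, fun y m hm hl => ?_⟩
  by_contra h4
  have := Nat.find_min' h ⟨y, m, hm, by omega, rfl⟩
  omega

/-- `z i = (x :: l).getD (i % (l.length + 1)) x` -/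
theorem cy_of_list (hG : G.IsRegularOfDegree 3) {x : V} {l : List V} (h : IsCyc G x l)
    (he : l.length % 2 = 1) : ∃ m z o, Cy G m z o ∧ 2 * m = l.length + 1 := by
  obtain ⟨hc, hn, h2⟩ := h
  let z : ℕ → V := fun i => (x :: (l ++ [x])).getD (i % (l.length + 1)) x
  have hz : ∀ i j, i % (l.length + 1) = j % (l.length + 1) → z i = z j := fun i j e => by
    simp only [z, e]
  have hlt : ∀ i, i % (l.length + 1) < l.length + 1 := fun i => Nat.mod_lt _ (Nat.succ_pos _)
  choose f h3 h4 h5 using fun i => nbrs_of2 hG (v := z i) (z (i + 1)) (z (i + l.length))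
  have e : 2 * ((l.length + 1) / 2) = l.length + 1 := by omega
  refine ⟨(l.length + 1) / 2, z, fun i => f (i % (l.length + 1)), ⟨by omega, fun i => ?_,
    fun i => hz _ _ (by rw [e, Nat.add_mod_right]), fun i hi j hj hij => ?_,
    fun i => hz _ _ (Nat.mod_mod i _) ▸ h3 _, fun i => by rw [e, Nat.add_mod_right],
    fun i => hz _ _ (Nat.mod_add_mod i _ 1) ▸ h4 _, fun i => ?_⟩, e⟩
  · have h6 := List.isChain_iff_getElem.1 hc (i % (l.length + 1)) (by simpa using hlt i)
    have h7 : z (i + 1) = (x :: (l ++ [x])).getD (i % (l.length + 1) + 1) x := by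
      simp only [z]
      rw [← Nat.mod_add_mod]
      rcases (Nat.succ_le_of_lt (hlt i)).eq_or_lt with h | h
      · rw [Nat.succ_eq_add_one] at h
        rw [h]
        simp
      · rw [Nat.mod_eq_of_lt h]
    rw [h7, List.getD_eq_getElem _ _ (by simpa using hlt i)]
    simp only [z]
    rwa [List.getD_eq_getElem _ _ (by have := hlt i; simp; omega)]
  · rw [e] at hi hj
    simp only [z, Nat.mod_eq_of_lt hi, Nat.mod_eq_of_lt hj, ← List.cons_append] at hij
    rw [List.getD_append _ _ _ _ hi, List.getD_append _ _ _ _ hj, List.getD_eq_getElem _ _ hi,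
      List.getD_eq_getElem _ _ hj] at hij
    exact hn.getElem_inj_iff.1 hij
  · refine hz _ i ?_ ▸ h5 _
    rw [Nat.mod_add_mod, add_assoc, add_comm 1, Nat.add_mod_right]

/-- `z' i = z (i % (2 * m)).toNat` -/
theorem cz_of_cy {m : ℕ} {z o : ℕ → V} (h : Cy G m z o) (hm : 11 ≤ m) (hn : NoEven G (2 * m)) :
    ∃ z' o', CZ G (2 * m) z' o' := by
  have hL : 0 < 2 * m := by omega
  have h0 : ((2 * m : ℕ) : ℤ) ≠ 0 := by omega
  have hlt : ∀ i : ℤ, (i % (2 * m : ℕ)).toNat < 2 * m := fun i => by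
    have := Int.emod_lt_of_pos i (b := (2 * m : ℕ)) (by omega)
    omega
  refine ⟨fun i => z (i % (2 * m : ℕ)).toNat, fun i => o (i % (2 * m : ℕ)).toNat, by omega,
    by omega, fun i => ?_, fun i => by rw [Int.add_emod_right], fun i j h1 h2 e => ?_,
    fun i => h.oadj _, fun i => by rw [Int.add_emod_right], fun i => ?_, fun i => ?_, hn⟩
  · rw [ztop_succ hL h.per]
    exact h.adj _
  · have h3 := h.inj _ (hlt j) _ (hlt i) e.symm
    have h4 := Int.emod_nonneg i h0
    have h5 := Int.emod_nonneg j h0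
    have h7 : j % ((2 * m : ℕ) : ℤ) = i % ((2 * m : ℕ) : ℤ) := by omega
    have h6 := Int.emod_eq_emod_iff_emod_sub_eq_zero.1 h7
    rw [Int.emod_eq_of_lt (by omega) (by omega)] at h6
    omega
  · rw [ztop_succ hL h.per]
    exact h.on _
  · have h3 := ztop_succ hL h.oper (i - 1)
    rw [sub_add_cancel] at h3
    rw [h3]
    exact h.op _

end Pool.Agent.Lib.MP_7e4769_co.Sp
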