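import Pool.Agent.Lib.MP_7e4769_co.Sp.YVal2
import Pool.Agent.Lib.MP_7e4769_co.Sp.YStart3
import Pool.Agent.Lib.MP_7e4769_co.Sp.YPot2
import Pool.Agent.Lib.MP_7e4769_co.Sp.ZTop

set_option autoImplicit false
set_option linter.unusedSectionVars false

namespace Pool.Agent.Lib.MP_7e4769_co.Sp

open Finset

variable {V : Type} [Fintype V] [DecidableEq V] {G : SimpleGraph V} [DecidableRel G.Adj]

/-- The long cycle theorem: no sparsity, only the shape of bad 2-edge-connected parts. -/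
theorem long_good (hG : G.IsRegularOfDegree 3)
    (hT : ∀ P, P ≠ univ → EC2 G P → ¬ Good G P → ∀ f, Trip G P f)
    (hE : ∀ C P, C ≠ univ → Conn G C → P ⊆ C → P.Nonempty → Good G P → cut G C P ≤ 1 → Good G C)
    {x : V} {l : List V} (h1 : IsCyc G x l)
    (h2 : l.length % 2 = 1) (h3 : NoEven G (l.length + 1)) (h22 : 22 ≤ l.length + 1) :
    ∃ c : V → Fin 4, ∀ v, ok G c v := by
  classical
  obtain ⟨m, z, o, h, hm⟩ := cy_of_list hG h1 h2
  rw [← hm] at h3 h22
  obtain ⟨z', o', hz⟩ := cz_of_cy h (by omega) h3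
  obtain ⟨I, ta, tb, tc, hv⟩ := valid4_ex hG hz
  obtain ⟨σ, hp⟩ := pot4_ex hG hz hv
  have hR : ∀ v, v ∈ univ.filter (R4 G z' o' I ta tb tc) ↔ R4 G z' o' I ta tb tc v :=
    fun v => by simp
  refine start4 hG hz hv hR (rest_good6 hG hT hE (fun e => ?_) (S := S4 G z' o' I ta tc) (σ := σ)
    (fun v hv' w ha hw => ?_) (fun a b ms ha hb h0 h4 hn hr => hp a b ms ha hb h0 h4 hn
      (fun y hy => (hR y).1 (hr y hy))))
  · exact ((hR (z' 0)).1 (by rw [e]; exact mem_univ _)).1 ⟨0, rfl⟩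
  · exact (hv.r_nb hG hz ((hR v).1 hv') ha).resolve_left fun e => hw ((hR w).2 e)

end Pool.Agent.Lib.MP_7e4769_co.Sp
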