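import Pool.Agent.Lib.MP_7e4769_co.Sp.YSets1

set_option autoImplicit false
set_option linter.unusedSectionVars false

namespace Pool.Agent.Lib.MP_7e4769_co.Sp

open Finset

variable {V : Type} [Fintype V] [DecidableEq V] {G : SimpleGraph V} [DecidableRel G.Adj]

variable {L : ℕ} {z o : ℤ → V} {I : ℤ → Prop} {ta tb tc : V → V}

/-- the path from the cycle to a vertex of `S` -/
def Tk4 (G : SimpleGraph V) (z o : ℤ → V) (I : ℤ → Prop) (ta tb tc : V → V) (a : V) (t : ℤ)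
    (pa : List V) : Prop :=
  (I t ∧ pa = [] ∧ a = z t) ∨ (RM I t ∧ ¬ OnZ z (o t) ∧ pa = [a] ∧ a = o t) ∨
    (RC I t ∧ ¬ Tri G z o t ∧ ¬ OnZ z (o t) ∧ pa = [o t, a] ∧ G.Adj (o t) a ∧ ¬ OnZ z a) ∨
    (RT G z o I t ∧ pa = [o t, a] ∧ a = ta (o t)) ∨
    (RT G z o I t ∧ pa = [o t, tb (o t), a] ∧ a = tc (o t))

theorem tk4_ex {a : V} (h : S4 G z o I ta tc a) : ∃ t pa, Tk4 G z o I ta tb tc a t pa := by
  rcases h with ⟨t, ht, rfl⟩ | ⟨h0, t, ht, rfl⟩ | ⟨h0, w, ⟨h1, t, ht, h2, rfl⟩, ha⟩ |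
    ⟨t, ht, rfl⟩ | ⟨t, ht, rfl⟩
  · exact ⟨t, _, .inl ⟨ht, rfl, rfl⟩⟩
  · exact ⟨t, _, .inr (.inl ⟨ht, h0, rfl, rfl⟩)⟩
  · exact ⟨t, _, .inr (.inr (.inl ⟨ht, h2, h1, rfl, ha.symm, h0⟩))⟩
  · exact ⟨t, _, .inr (.inr (.inr (.inl ⟨ht, rfl, rfl⟩)))⟩
  · exact ⟨t, _, .inr (.inr (.inr (.inr ⟨ht, rfl, rfl⟩)))⟩

theorem Tk4.s4 {a : V} {t : ℤ} {pa : List V} (h : Tk4 G z o I ta tb tc a t pa) :
    S4 G z o I ta tc a := by
  rcases h with ⟨k, -, rfl⟩ | ⟨k, k1, -, rfl⟩ | ⟨k, k1, k2, -, k3, k4⟩ | ⟨k, -, rfl⟩ | ⟨k, -, rfl⟩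
  · exact .inl ⟨t, k, rfl⟩
  · exact .inr (.inl ⟨k1, t, k, rfl⟩)
  · exact .inr (.inr (.inl ⟨k4, _, ⟨k2, t, k, k1, rfl⟩, k3.symm⟩))
  · exact .inr (.inr (.inr (.inl ⟨t, k, rfl⟩)))
  · exact .inr (.inr (.inr (.inr ⟨t, k, rfl⟩)))

theorem ypot1_pth (h : CZ G L z o) (hv : Valid4 G L z o I ta tb tc) {a y : V} {t : ℤ}
    {pa l : List V} (ha : Tk4 G z o I ta tb tc a t pa) (hp : Pth G a l y) :
    Pth G (z t) (pa ++ l) y := by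
  rcases ha with ⟨-, rfl, rfl⟩ | ⟨-, -, rfl, rfl⟩ | ⟨-, -, -, rfl, k, -⟩ | ⟨k, rfl, rfl⟩ |
    ⟨k, rfl, rfl⟩
  · exact hp
  · exact pth_cons.2 ⟨h.oadj t, hp⟩
  · exact pth_cons.2 ⟨h.oadj t, pth_cons.2 ⟨k, hp⟩⟩
  · exact pth_cons.2 ⟨h.oadj t, pth_cons.2 ⟨hv.tg.oa t k.2, hp⟩⟩
  · exact pth_cons.2 ⟨h.oadj t, pth_cons.2 ⟨hv.tg.ob t k.2, pth_cons.2 ⟨hv.tg.bc t k.2, hp⟩⟩⟩

theorem ypot1_nd (hv : Valid4 G L z o I ta tb tc) {a : V} {t : ℤ} {pa : List V}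
    (ha : Tk4 G z o I ta tb tc a t pa) : pa.Nodup ∧ pa.length ≤ 3 := by
  rcases ha with ⟨-, rfl, -⟩ | ⟨-, -, rfl, -⟩ | ⟨-, -, -, rfl, k, -⟩ | ⟨k, rfl, rfl⟩ |
    ⟨k, rfl, rfl⟩
  · simp
  · simp
  · simp [k.ne]
  · simp [(hv.tg.oa t k.2).ne]
  · simp [(hv.tg.ob t k.2).ne, (hv.tg.bc t k.2).ne, (hv.tg.co t k.2).symm]

theorem ypot1_mem (hG : G.IsRegularOfDegree 3) (h : CZ G L z o) (hv : Valid4 G L z o I ta tb tc)
    {a v : V} {t : ℤ} {pa : List V} (ha : Tk4 G z o I ta tb tc a t pa) (hm : v ∈ pa) :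
    ¬ OnZ z v ∧ (v = a ∨ (v = o t ∧ RC I t ∧ (W4 G z o I v ∨ T4 G z o I id v)) ∨
      (v = tb (o t) ∧ RT G z o I t)) := by
  rcases ha with ⟨-, rfl, -⟩ | ⟨-, k1, rfl, rfl⟩ | ⟨k, k1, k2, rfl, -, k4⟩ | ⟨k, rfl, rfl⟩ |
    ⟨k, rfl, rfl⟩
  · simp at hm
  · obtain rfl := List.mem_singleton.1 hm
    exact ⟨k1, .inl rfl⟩
  · rcases List.mem_pair.1 hm with rfl | rfl
    · exact ⟨k2, .inr (.inl ⟨rfl, k, .inl ⟨k2, t, k, k1, rfl⟩⟩)⟩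
    · exact ⟨k4, .inl rfl⟩
  · rcases List.mem_pair.1 hm with rfl | rfl
    · exact ⟨k.2.1, .inr (.inl ⟨rfl, k.1, .inr ⟨t, k, rfl⟩⟩)⟩
    · exact ⟨hv.tg.offa t k.2, .inl rfl⟩
  · rcases List.mem_cons.1 hm with rfl | hm
    · exact ⟨k.2.1, .inr (.inl ⟨rfl, k.1, .inr ⟨t, k, rfl⟩⟩)⟩
    · rcases List.mem_pair.1 hm with rfl | rfl
      · exact ⟨hv.tg.offb t k.2, .inr (.inr ⟨rfl, k⟩)⟩
      · exact ⟨hv.tg.offc hG h k.2, .inl rfl⟩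


/-- As `pot_ear` in ZPot.lean, with `ear_par9`; the two tails are disjoint by `v2`, `w_not`,
`a_not`, `b_not`, `b_inj` and `a ≠ b`. -/
theorem pot4_ear (hG : G.IsRegularOfDegree 3) (h : CZ G L z o)
    (hv : Valid4 G L z o I ta tb tc) {a b : V} {t u : ℤ} {pa pb ms : List V}
    (ha : Tk4 G z o I ta tb tc a t pa) (hb : Tk4 G z o I ta tb tc b u pb) (hab : a ≠ b)
    (htu : z t ≠ z u) (h0 : ms ≠ []) (h9 : pa.length + ms.length + pb.length ≤ 9) (hn : ms.Nodup)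
    (hr : ∀ m ∈ ms, R4 G z o I ta tb tc m) (hp : Pth G a ms b) :
    (t + pa.length + (u + pb.length) + ms.length) % 2 = 0 := by
  have hR : ∀ {c s pc}, Tk4 G z o I ta tb tc c s pc → ∀ v ∈ pc, v ∉ ms := by
    intro c s pc hc v hv1 hm
    obtain ⟨-, r1, r2, r3, r4⟩ := hr v hm
    rcases (ypot1_mem hG h hv hc hv1).2 with rfl | ⟨-, -, k | k⟩ | k
    exacts [r2 hc.s4, r1 k, r3 k, r4 ⟨s, k.2, k.1.symm⟩]
  have hW : ∀ v, W4 G z o I v ∨ T4 G z o I id v →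
      ¬ S4 G z o I ta tc v ∧ ¬ T4 G z o I tb v := fun v k =>
    k.elim (fun k => ⟨(hv.w_not hG h k).1, (hv.w_not hG h k).2.2⟩) fun k => (hv.a_not hG h k).2
  have hd : ∀ v ∈ pa, v ∉ pb := fun v h1 h2 => by
    rcases (ypot1_mem hG h hv ha h1).2 with k | k | k <;>
      rcases (ypot1_mem hG h hv hb h2).2 with k' | k' | k'
    · exact hab (k.symm.trans k')
    · exact (hW v k'.2.2).1 (k ▸ ha.s4)
    · exact (hv.b_not hG h ⟨u, k'.2, k'.1.symm⟩).2 (k ▸ ha.s4)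
    · exact (hW v k.2.2).1 (k' ▸ hb.s4)
    · exact htu (hv.v2 t u (k.2.1.notI hv.gaps) (k'.2.1.notI hv.gaps) (k.1.symm.trans k'.1))
    · exact (hW v k.2.2).2 ⟨u, k'.2, k'.1.symm⟩
    · exact (hv.b_not hG h ⟨t, k.2, k.1.symm⟩).2 (k' ▸ hb.s4)
    · exact (hW v k'.2.2).2 ⟨t, k.2, k.1.symm⟩
    · exact htu (hv.b_inj hG h k.2 k'.2 (k.1.symm.trans k'.1))
  have he := earL_of hG h htu (ypot1_pth h hv ha (ypot1_pth h hv hb hp.symm).symm) ?_ ?_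
    (by simp [h0])
  · have := ear_par9 hG h he
    simp only [List.length_append, List.length_reverse, Nat.cast_add] at this
    omega
  · simp only [List.nodup_append, List.nodup_reverse, List.mem_reverse, List.mem_append]
    refine ⟨(ypot1_nd hv ha).1, ⟨(ypot1_nd hv hb).1, hn, fun x hx y hy e => hR hb x hx (e ▸ hy)⟩,
      fun x hx y hy e => ?_⟩
    exact hy.elim (fun k => hd x hx (e ▸ k)) fun k => hR ha x hx (e ▸ k)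
  · simp only [List.mem_reverse, List.mem_append]
    rintro v (k | k | k)
    exacts [(ypot1_mem hG h hv ha k).1, (ypot1_mem hG h hv hb k).1, (hr v k).1]

/-- A tail has at most 3 vertices; 3 only for `a = tc (o t)`. If then `x` is adjacent to `a` and to
another vertex `a'` of `S4` with tail `pa'`, the walk `o t, tb, tc, x, pa'.reverse` has at most 7
vertices, so the feet agree (`tri_foot`), `a' = ta (o t)` and `ta, x, tc, tb` is a 4-cycle. -/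
theorem tk4_len (hG : G.IsRegularOfDegree 3) (h : CZ G L z o) (hv : Valid4 G L z o I ta tb tc)
    {a : V} {t : ℤ} {pa : List V} (ha : Tk4 G z o I ta tb tc a t pa) :
    pa.length ≤ 3 ∧ ∀ x a', R4 G z o I ta tb tc x → S4 G z o I ta tc a' → a' ≠ a → G.Adj a x →
      G.Adj a' x → pa.length ≤ 2 := by
  refine ⟨(ypot1_nd hv ha).2, fun x a' hx hs hne h1 h2 => ?_⟩
  obtain ⟨u, pb, hb⟩ := tk4_ex (tb := tb) hs
  have hp : Pth G a' [x] a := pth_cons.2 ⟨h2, pth_nil.2 h1.symm⟩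
  have hw := ypot1_pth h hv ha (ypot1_pth h hv hb hp).symm
  have l1 := (ypot1_nd hv ha).2
  have l2 := (ypot1_nd hv hb).2
  have ho : ∀ v ∈ pa ++ (pb ++ [x]).reverse, ¬ OnZ z v := by
    simp only [List.mem_reverse, List.mem_append, List.mem_singleton]
    rintro v (k | k | rfl)
    exacts [(ypot1_mem hG h hv ha k).1, (ypot1_mem hG h hv hb k).1, hx.1]
  rcases ha with ⟨-, rfl, -⟩ | ⟨-, -, rfl, -⟩ | ⟨-, -, -, rfl, -⟩ | ⟨-, rfl, -⟩ | ⟨k, rfl, rfl⟩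
  · simp
  · simp
  · simp
  · simp
  exfalso
  have e := tri_foot hG h k.2 hw ho (by simp) (by simp; omega)
  have e0 : I u ↔ I t := by simpa using Gaps.congr h hv.gaps e 0
  have e1 : RC I u ↔ RC I t := and_congr
    (by simpa only [sub_eq_add_neg] using Gaps.congr h hv.gaps e (-1))
    (Gaps.congr h hv.gaps e 1)
  have eo := h.o_eq e
  rcases hb with ⟨j, -⟩ | ⟨j, -⟩ | ⟨-, j, -⟩ | ⟨-, -, rfl⟩ | ⟨-, -, rfl⟩
  · exact k.1.notI hv.gaps (e0.1 j)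
  · exact j.2 (e1.2 k.1)
  · exact j (k.2.congr eo.symm)
  · rw [eo] at h2
    have n1 : x ≠ tb (o t) := fun m => hx.2.2.2.2 ⟨t, k, m.symm⟩
    have := h.ne (ta (o t)) [x, tc (o t), tb (o t)] ⟨pth_cons.2 ⟨h2, pth_cons.2 ⟨h1.symm,
      pth_cons.2 ⟨(hv.tg.bc t k.2).symm, pth_nil.2 (hv.tg.ab t k.2).symm⟩⟩⟩, by
        simp [h2.ne, h1.ne', n1, (hv.tg.ca t k.2).symm, (hv.tg.ab t k.2).ne,
          (hv.tg.bc t k.2).ne'], by simp⟩ (by have := h.big; simp; omega)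
    simp at this
  · exact hne (by rw [eo])

end Pool.Agent.Lib.MP_7e4769_co.Sp
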