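import Pool.Agent.Lib.MP_7e4769_co.Sp.ZEar

set_option autoImplicit false
set_option linter.unusedSectionVars false

namespace Pool.Agent.Lib.MP_7e4769_co.Sp

open Finset

variable {V : Type} [Fintype V] [DecidableEq V] {G : SimpleGraph V} [DecidableRel G.Adj]

theorem RC.notI {L : ℕ} {I : ℤ → Prop} (hI : Gaps L I) {t : ℤ} (h : RC I t) : ¬ I t := by
  intro ht
  exact hI.ind (t - 1) h.1 (by rwa [sub_add_cancel])

/-- a position of role M has exactly one neighbour in `I` -/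
theorem RM.nb {L : ℕ} {I : ℤ → Prop} (hI : Gaps L I) {t : ℤ} (h : RM I t) :
    (I (t - 1) ∧ ¬ I (t + 1)) ∨ (¬ I (t - 1) ∧ I (t + 1)) := by
  have h3 := hI.no3 (t - 1)
  rw [sub_add_cancel, show t - 1 + 2 = t + 1 by ring] at h3
  have h1 := h.1
  have h2 : ¬ (I (t - 1) ∧ I (t + 1)) := h.2
  tauto

theorem Valid3.op_off {L : ℕ} {z o : ℤ → V} {I : ℤ → Prop} (hv : Valid3 G L z o I) {v : V}
    (h : Op o I v) : ¬ OnZ z v := by
  obtain ⟨t, ht, rfl⟩ := h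
  exact fun ho => ht.2 (hv.v1 t ho)

theorem Valid3.w_notS {L : ℕ} {z o : ℤ → V} (h : CZ G L z o) {I : ℤ → Prop}
    (hv : Valid3 G L z o I) {w : V} (hw : Wp z o I w) : ¬ Sq G z o I w := by
  obtain ⟨ho, t, ht, rfl⟩ := id hw
  rintro (⟨u, -, e⟩ | ⟨u, hu, e⟩ | ⟨-, w', hw', ha⟩)
  · exact ho ⟨u, e⟩
  · have e' := hv.v2 t u (ht.notI hv.gaps) hu.1 e.symm
    exact hu.2 ⟨(Gaps.congr h hv.gaps e' (-1)).1 ht.1, (Gaps.congr h hv.gaps e' 1).1 ht.2⟩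
  · exact hv.v3 _ _ hw hw' ha

theorem Valid3.r_notS {L : ℕ} {z o : ℤ → V} {I : ℤ → Prop} (hv : Valid3 G L z o I) {v : V}
    (hr : Rq G z o I v) : ¬ Sq G z o I v := by
  rintro (⟨u, -, e⟩ | h1 | h1)
  exacts [hr.1 ⟨u, e⟩, hr.2.2.1 h1, hr.2.2.2 h1]

theorem Valid3.fin_notS {L : ℕ} {z o : ℤ → V} (h : CZ G L z o) {I : ℤ → Prop}
    (hv : Valid3 G L z o I) {t : ℤ} (ht : ¬ I t) : ¬ Sq G z o I (z t) := by
  rintro (⟨u, hu, e⟩ | h1 | h1)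
  · have := Gaps.congr h hv.gaps e 0
    rw [add_zero, add_zero] at this
    exact ht (this.1 hu)
  · exact hv.op_off h1 ⟨t, rfl⟩
  · exact h1.1 ⟨t, rfl⟩

/-- every vertex is in the rest, in `W`, in `S`, or a position outside `I` -/
theorem cases_q (G : SimpleGraph V) (z o : ℤ → V) (I : ℤ → Prop) (v : V) :
    Rq G z o I v ∨ Wp z o I v ∨ Sq G z o I v ∨ ∃ t, ¬ I t ∧ z t = v := by
  by_cases h0 : OnZ z v
  · obtain ⟨t, e⟩ := h0
    by_cases ht : I t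
    · exact .inr (.inr (.inl (.inl ⟨t, ht, e⟩)))
    · exact .inr (.inr (.inr ⟨t, ht, e⟩))
  by_cases h1 : Wp z o I v
  · exact .inr (.inl h1)
  by_cases h2 : Op o I v
  · exact .inr (.inr (.inl (.inr (.inl h2))))
  by_cases h3 : Jp G z o I v
  · exact .inr (.inr (.inl (.inr (.inr h3))))
  exact .inl ⟨h0, h1, h2, h3⟩

theorem Valid3.rest_nb (hG : G.IsRegularOfDegree 3) {L : ℕ} {z o : ℤ → V} (h : CZ G L z o)
    {I : ℤ → Prop} (hv : Valid3 G L z o I) {v w : V} (hr : Rq G z o I v) (ha : G.Adj v w) :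
    Rq G z o I w ∨ Sq G z o I w := by
  rcases cases_q G z o I w with h1 | h1 | h1 | ⟨t, ht, rfl⟩
  · exact .inl h1
  · exact (hr.2.2.2 ⟨hr.1, w, h1, ha⟩).elim
  · exact .inr h1
  · have e := h.nb_off hG t ha.symm hr.1
    by_cases hc : RC I t
    · exact (hr.2.1 ⟨hr.1, t, hc, e.symm⟩).elim
    · exact (hr.2.2.1 ⟨t, ⟨ht, hc⟩, e.symm⟩).elim

theorem Valid3.w_nb (hG : G.IsRegularOfDegree 3) {L : ℕ} {z o : ℤ → V} (h : CZ G L z o)
    {I : ℤ → Prop} (hv : Valid3 G L z o I) {t : ℤ} (ht : RC I t) (ho : ¬ OnZ z (o t)) {x : V}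
    (ha : G.Adj (o t) x) : x = z t ∨ Sq G z o I x := by
  by_cases hx : OnZ z x
  · obtain ⟨u, rfl⟩ := hx
    by_cases hu : I u
    · exact .inr (.inl ⟨u, hu, rfl⟩)
    · exact .inl (hv.v2 t u (ht.notI hv.gaps) hu (h.nb_off hG u ha.symm ho)).symm
  · exact .inr (.inr (.inr ⟨hx, o t, ⟨ho, t, ht, rfl⟩, ha.symm⟩))

theorem Valid3.o_nb (hG : G.IsRegularOfDegree 3) {L : ℕ} {z o : ℤ → V} (h : CZ G L z o)
    {I : ℤ → Prop} (hv : Valid3 G L z o I) {t : ℤ} (ht : RM I t) {x : V}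
    (ha : G.Adj (o t) x) : x = z t ∨ Rq G z o I x ∨ Wp z o I x := by
  have hp : Op o I (o t) := ⟨t, ht, rfl⟩
  rcases cases_q G z o I x with h1 | h1 | h1 | ⟨u, hu, rfl⟩
  · exact .inr (.inl h1)
  · exact .inr (.inr h1)
  · exact (hv.v4 _ _ (.inr (.inl hp)) h1 ha).elim
  · exact .inl (hv.v2 t u ht.1 hu (h.nb_off hG u ha.symm (hv.op_off hp))).symm

theorem Valid3.j_nb (hG : G.IsRegularOfDegree 3) {L : ℕ} {z o : ℤ → V} (h : CZ G L z o)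
    {I : ℤ → Prop} (hv : Valid3 G L z o I) {j x : V} (hj : Jp G z o I j) (hn : ¬ Op o I j)
    (ha : G.Adj j x) : Rq G z o I x ∨ Wp z o I x := by
  rcases cases_q G z o I x with h1 | h1 | h1 | ⟨u, hu, rfl⟩
  · exact .inl h1
  · exact .inr h1
  · exact (hv.v4 _ _ (.inr (.inr hj)) h1 ha).elim
  · have e := h.nb_off hG u ha.symm hj.1
    by_cases hc : RC I u
    · obtain ⟨h0, w, hw, hjw⟩ := hj
      exact (hv.v3 _ _ ⟨h0, u, hc, e.symm⟩ hw hjw).elim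
    · exact (hn ⟨u, ⟨hu, hc⟩, e.symm⟩).elim

theorem Valid3.i_nb {L : ℕ} {z o : ℤ → V} (h : CZ G L z o) {I : ℤ → Prop}
    (hv : Valid3 G L z o I) {t : ℤ} (ht : I t) : Rq G z o I (o t) ∨ Wp z o I (o t) := by
  rcases cases_q G z o I (o t) with h1 | h1 | h1 | ⟨u, -, e⟩
  · exact .inl h1
  · exact .inr h1
  · exact (hv.v4 _ _ (.inl ⟨t, ht, rfl⟩) h1 (h.oadj t)).elim
  · exact ((hv.v1 t ⟨u, e⟩).notI hv.gaps ht).elim

/-- the chord ends in the form asked by `dp3` (`v1u`, `CZ.rep`, `ear_par` for `earL_chord`) -/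
theorem Valid3.chords (hG : G.IsRegularOfDegree 3) {L : ℕ} {z o : ℤ → V} (h : CZ G L z o)
    {I : ℤ → Prop} (hv : Valid3 G L z o I) :
    (∀ t, ¬ OnZ z (o t)) ∨ ∃ p : ℤ, ∃ d : ℕ, 0 < d ∧ d < L ∧ d % 2 = 0 ∧ ¬ I p ∧ ¬ I (p + d) ∧
      ∀ t, OnZ z (o t) ↔ ∃ k : ℤ, t = p + k * L ∨ t = p + d + k * L := by
  by_cases h0 : ∀ t, ¬ OnZ z (o t)
  · exact .inl h0
  obtain ⟨p, hp⟩ := not_forall.1 h0
  obtain ⟨u, e⟩ := not_not.1 hp
  obtain ⟨j, h1, h2, k, rfl⟩ := h.rep p u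
  have e1 : o p = z (u + k * L) := e.symm.trans (h.shift u k).1.symm
  generalize u + k * L = j at h1 h2 e1
  have e2 := h.chord hG e1
  have he := earL_chord h e1
  have h3 := ear_par hG h he (by simp)
  have h4 : p ≠ j := fun e => he.ne (by rw [e])
  obtain ⟨d, rfl⟩ : ∃ d : ℕ, j = p + d := ⟨(j - p).toNat, by omega⟩
  rw [List.length_nil] at h3
  refine .inr ⟨p, d, by omega, by omega, by omega, (hv.v1 p ⟨_, e1.symm⟩).notI hv.gaps,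
    (hv.v1 _ ⟨_, e2.symm⟩).notI hv.gaps, fun t => ⟨fun ht => ?_, ?_⟩⟩
  · rcases hv.v1u p t ⟨_, e1.symm⟩ ht with h5 | h5
    · exact (h.eq_iff.1 h5.symm).imp fun _ => .inl
    · exact (h.eq_iff.1 (h5.trans e1).symm).imp fun _ => .inr
  · rintro ⟨m, rfl | rfl⟩
    · exact ⟨_, e1.symm.trans (h.shift p m).2.symm⟩
    · exact ⟨_, e2.symm.trans (h.shift _ m).2.symm⟩

end Pool.Agent.Lib.MP_7e4769_co.Sp
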