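import Pool.Agent.Lib.MP_7e4769_co.Sp.YTri
import Pool.Agent.Lib.MP_7e4769_co.Sp.ZSets

set_option autoImplicit false
set_option linter.unusedSectionVars false

namespace Pool.Agent.Lib.MP_7e4769_co.Sp

open Finset

variable {V : Type} [Fintype V] [DecidableEq V] {G : SimpleGraph V} [DecidableRel G.Adj]

variable {L : ℕ} {z o : ℤ → V} {I : ℤ → Prop} {ta tb tc : V → V}

/-! The tool is `tri_foot`: a walk of at most 7 vertices off the cycle that starts at a triangle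
foot ends at the same foot; then `CZ.o_eq`, `Gaps.congr`, `Tri.congr` make the roles agree. -/

/-- `v` is reached from `z t` by a walk off the cycle with `n` inner vertices -/
def YSets1N (G : SimpleGraph V) (z : ℤ → V) (n : ℕ) (t : ℤ) (v : V) : Prop :=
  ¬ OnZ z v ∧ ∃ l, Pth G (z t) l v ∧ (∀ x ∈ l, ¬ OnZ z x) ∧ l.length = n

theorem YSets1_o (h : CZ G L z o) {t : ℤ} (ho : ¬ OnZ z (o t)) : YSets1N G z 0 t (o t) :=
  ⟨ho, [], pth_nil.2 (h.oadj t), by simp, rfl⟩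

theorem YSets1N.step {n : ℕ} {t : ℤ} {v w : V} (hn : YSets1N G z n t v) (ha : G.Adj v w)
    (hw : ¬ OnZ z w) : YSets1N G z (n + 1) t w := by
  obtain ⟨hv, l, hp, ho, hl⟩ := hn
  refine ⟨hw, l ++ [v], hp.append (pth_nil.2 ha), fun x hx => ?_, by simp [hl]⟩
  rcases List.mem_append.1 hx with hx | hx
  · exact ho x hx
  · rwa [List.mem_singleton.1 hx]

theorem YSets1_meet (hG : G.IsRegularOfDegree 3) (h : CZ G L z o) {t u : ℤ} (ht : Tri G z o t)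
    {n m : ℕ} {v w : V} (h1 : YSets1N G z n t v) (h2 : YSets1N G z m u w) (e : v = w)
    (hnm : n + m ≤ 6) : z u = z t := by
  subst e
  obtain ⟨hv, l, hp, ho, hl⟩ := h1
  obtain ⟨-, l', hp', ho', hl'⟩ := h2
  refine tri_foot hG h ht (hp.append hp'.symm) (fun x hx => ?_) (by simp) (by simp; omega)
  simp only [List.mem_append, List.mem_cons, List.mem_reverse] at hx
  rcases hx with hx | rfl | hx
  exacts [ho x hx, hv, ho' x hx]

theorem YSets1_tri (hG : G.IsRegularOfDegree 3) (h : CZ G L z o) (hg : TG G z o ta tb tc) {t : ℤ}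
    (ht : Tri G z o t) : YSets1N G z 1 t (ta (o t)) ∧ YSets1N G z 1 t (tb (o t)) ∧
      YSets1N G z 2 t (tc (o t)) :=
  have hb := (YSets1_o h ht.1).step (hg.ob t ht) (hg.offb t ht)
  ⟨(YSets1_o h ht.1).step (hg.oa t ht) (hg.offa t ht), hb,
    hb.step (hg.bc t ht) (hg.offc hG h ht)⟩

theorem YSets1_cm (h : CZ G L z o) (hv : Valid4 G L z o I ta tb tc) {t u : ℤ} (ht : RC I t)
    (hu : RM I u) (e : o u = o t) : False :=
  have e' := hv.v2 t u (ht.notI hv.gaps) hu.1 e.symm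
  hu.2 ⟨(Gaps.congr h hv.gaps e' (-1)).1 ht.1, (Gaps.congr h hv.gaps e' 1).1 ht.2⟩

theorem cases_4 (G : SimpleGraph V) (z o : ℤ → V) (I : ℤ → Prop) (ta tb tc : V → V) (v : V) :
    R4 G z o I ta tb tc v ∨ W4 G z o I v ∨ S4 G z o I ta tc v ∨ T4 G z o I id v ∨
      T4 G z o I tb v ∨ ∃ t, ¬ I t ∧ z t = v := by
  by_cases h3 : S4 G z o I ta tc v
  · exact .inr (.inr (.inl h3))
  by_cases h0 : OnZ z v
  · obtain ⟨t, e⟩ := h0
    exact .inr (.inr (.inr (.inr (.inr ⟨t, fun ht => h3 (.inl ⟨t, ht, e⟩), e⟩))))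
  by_cases h1 : W4 G z o I v
  · exact .inr (.inl h1)
  by_cases h4 : T4 G z o I id v
  · exact .inr (.inr (.inr (.inl h4)))
  by_cases h5 : T4 G z o I tb v
  · exact .inr (.inr (.inr (.inr (.inl h5))))
  exact .inl ⟨h0, h1, h3, h4, h5⟩

theorem Valid4.s_on (hG : G.IsRegularOfDegree 3) (h : CZ G L z o)
    (hv : Valid4 G L z o I ta tb tc) {t : ℤ} (hs : S4 G z o I ta tc (z t)) : I t := by
  rcases hs with ⟨u, hu, e⟩ | h1 | h1 | ⟨u, hu, e⟩ | ⟨u, hu, e⟩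
  · have := Gaps.congr h hv.gaps e 0
    rw [add_zero, add_zero] at this
    exact this.1 hu
  · exact (h1.1 ⟨t, rfl⟩).elim
  · exact (h1.1 ⟨t, rfl⟩).elim
  · exact (hv.tg.offa u hu.2 ⟨t, e.symm⟩).elim
  · exact (hv.tg.offc hG h hu.2 ⟨t, e.symm⟩).elim

theorem Valid4.w_not (hG : G.IsRegularOfDegree 3) (h : CZ G L z o)
    (hv : Valid4 G L z o I ta tb tc) {w : V} (hw : W4 G z o I w) :
    ¬ S4 G z o I ta tc w ∧ ¬ T4 G z o I id w ∧ ¬ T4 G z o I tb w := by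
  obtain ⟨ho, t, ht, hn, rfl⟩ := id hw
  have key : ∀ {u n v}, Tri G z o u → YSets1N G z n u v → v = o t → n ≤ 6 → False :=
    fun hu h1 e hn' => hn (hu.congr (h.o_eq (YSets1_meet hG h hu h1 (YSets1_o h ho) e hn')).symm)
  refine ⟨?_, ?_, ?_⟩
  · rintro (⟨u, -, e⟩ | ⟨-, u, hu, e⟩ | ⟨-, w', hw', ha⟩ | ⟨u, hu, e⟩ | ⟨u, hu, e⟩)
    · exact ho ⟨u, e⟩
    · exact YSets1_cm h hv ht hu e
    · exact hv.v3 _ _ hw hw' ha
    · exact key hu.2 (YSets1_tri hG h hv.tg hu.2).1 e (by omega)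
    · exact key hu.2 (YSets1_tri hG h hv.tg hu.2).2.2 e (by omega)
  · rintro ⟨u, hu, e⟩
    exact hn (hu.2.congr e)
  · rintro ⟨u, hu, e⟩
    exact key hu.2 (YSets1_tri hG h hv.tg hu.2).2.1 e (by omega)

theorem Valid4.a_not (hG : G.IsRegularOfDegree 3) (h : CZ G L z o)
    (hv : Valid4 G L z o I ta tb tc) {v : V} (ha : T4 G z o I id v) :
    ¬ OnZ z v ∧ ¬ S4 G z o I ta tc v ∧ ¬ T4 G z o I tb v := by
  obtain ⟨t, ht, rfl⟩ := ha
  have ho : ¬ OnZ z (o t) := ht.2.1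
  have key : ∀ {u n v}, YSets1N G z n u v → v = o t → n ≤ 6 → o u = o t := fun h1 e hn =>
    h.o_eq (YSets1_meet hG h ht.2 (YSets1_o h ho) h1 e.symm (by omega))
  refine ⟨ho, ?_, ?_⟩
  · rintro (⟨u, -, e⟩ | ⟨-, u, hu, e⟩ | ⟨-, w, ⟨hw, u, -, hu, rfl⟩, ha⟩ | ⟨u, hu, e⟩ | ⟨u, hu, e⟩)
    · exact ho ⟨u, e⟩
    · exact YSets1_cm h hv ht.1 hu e
    · exact hu (ht.2.congr (key ((YSets1_o h hw).step ha.symm ho) rfl (by omega)).symm)
    · exact (hv.tg.oa u hu.2).ne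
        ((key (YSets1_tri hG h hv.tg hu.2).1 e (by omega)).trans e.symm)
    · exact hv.tg.co u hu.2
        (e.trans (key (YSets1_tri hG h hv.tg hu.2).2.2 e (by omega)).symm)
  · rintro ⟨u, hu, e⟩
    exact (hv.tg.ob u hu.2).ne
      ((key (YSets1_tri hG h hv.tg hu.2).2.1 e (by omega)).trans e.symm)

theorem Valid4.b_not (hG : G.IsRegularOfDegree 3) (h : CZ G L z o)
    (hv : Valid4 G L z o I ta tb tc) {v : V} (hb : T4 G z o I tb v) :
    ¬ OnZ z v ∧ ¬ S4 G z o I ta tc v := by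
  obtain ⟨t, ht, rfl⟩ := hb
  have ho := hv.tg.offb t ht.2
  have key : ∀ {u n v}, YSets1N G z n u v → v = tb (o t) → n ≤ 5 → o u = o t := fun h1 e hn =>
    h.o_eq (YSets1_meet hG h ht.2 (YSets1_tri hG h hv.tg ht.2).2.1 h1 e.symm (by omega))
  refine ⟨ho, ?_⟩
  rintro (⟨u, -, e⟩ | ⟨-, u, -, e⟩ | ⟨-, w, ⟨hw, u, -, hu, rfl⟩, ha⟩ | ⟨u, hu, e⟩ | ⟨u, hu, e⟩)
  · exact ho ⟨u, e⟩
  · exact (hv.tg.ob t ht.2).ne ((key (YSets1_o h (e ▸ ho)) e (by omega)).symm.trans e)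
  · exact hu (ht.2.congr (key ((YSets1_o h hw).step ha.symm ho) rfl (by omega)).symm)
  · rw [← key (YSets1_tri hG h hv.tg hu.2).1 e (by omega)] at e
    exact (hv.tg.ab u hu.2).ne e
  · rw [← key (YSets1_tri hG h hv.tg hu.2).2.2 e (by omega)] at e
    exact (hv.tg.bc u hu.2).ne e.symm

theorem Valid4.b_inj (hG : G.IsRegularOfDegree 3) (h : CZ G L z o)
    (hv : Valid4 G L z o I ta tb tc) {t u : ℤ} (ht : RT G z o I t) (hu : RT G z o I u)
    (e : tb (o t) = tb (o u)) : z t = z u := by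
  exact (YSets1_meet hG h ht.2 (YSets1_tri hG h hv.tg ht.2).2.1 (YSets1_tri hG h hv.tg hu.2).2.1 e
    (by omega)).symm

/-- the chord in the form asked by `dp5`, with `P t u := o t = z u` -/
theorem Valid4.chords (hG : G.IsRegularOfDegree 3) (h : CZ G L z o)
    (hv : Valid4 G L z o I ta tb tc) :
    (∀ t u, ¬ o t = z u) ∨ ∃ p : ℤ, ∃ d : ℕ, 0 < d ∧ d < L ∧ d % 2 = 0 ∧ ¬ I p ∧
      ∀ t u, o t = z u ↔ ∃ k j : ℤ, (t = p + k * L ∧ u = p + d + j * L) ∨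
        (t = p + d + k * L ∧ u = p + j * L) := by
  by_cases h0 : ∀ t u, ¬ o t = z u
  · exact .inl h0
  obtain ⟨p, u, e, hp⟩ : ∃ p u, o p = z u ∧ ¬ I p := by
    simp only [not_forall, not_not] at h0
    obtain ⟨t, u, e⟩ := h0
    rcases hv.v1 t u e with h1 | h1 | h1
    exacts [⟨t, u, e, h1.1.notI hv.gaps⟩, ⟨u, t, h.chord hG e, h1.2.1⟩, ⟨t, u, e, h1.1.1⟩]
  obtain ⟨j, h1, h2, k, rfl⟩ := h.rep p u
  have e1 : o p = z (u + k * L) := e.trans (h.shift u k).1.symm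
  generalize u + k * L = j at h1 h2 e1
  have e2 := h.chord hG e1
  have he := earL_chord h e1
  have h3 := ear_par hG h he (by simp)
  have h4 : p ≠ j := fun e => he.ne (by rw [e])
  obtain ⟨d, rfl⟩ : ∃ d : ℕ, j = p + d := ⟨(j - p).toNat, by omega⟩
  rw [List.length_nil] at h3
  refine .inr ⟨p, d, by omega, by omega, by omega, hp, fun t v => ⟨fun ht => ?_, ?_⟩⟩
  · rcases hv.v1u p t ⟨_, e1.symm⟩ ⟨_, ht.symm⟩ with h5 | h5
    · obtain ⟨a, ha⟩ := h.eq_iff.1 h5.symm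
      obtain ⟨b, hb⟩ := h.eq_iff.1 (e1.symm.trans ((h.o_eq h5).symm.trans ht))
      exact ⟨a, b, .inl ⟨ha, hb⟩⟩
    · obtain ⟨a, ha⟩ := h.eq_iff.1 (h5.trans e1).symm
      obtain ⟨b, hb⟩ := h.eq_iff.1 (e2.symm.trans ((h.o_eq (h5.trans e1)).symm.trans ht))
      exact ⟨a, b, .inr ⟨ha, hb⟩⟩
  · rintro ⟨a, b, ⟨rfl, rfl⟩ | ⟨rfl, rfl⟩⟩
    · exact (h.shift p a).2.trans (e1.trans (h.shift _ b).1.symm)
    · exact (h.shift _ a).2.trans (e2.trans (h.shift _ b).1.symm)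

end Pool.Agent.Lib.MP_7e4769_co.Sp
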