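import Pool.Agent.Lib.MP_7e4769_co.Sp.YSets1

set_option autoImplicit false
set_option linter.unusedSectionVars false

namespace Pool.Agent.Lib.MP_7e4769_co.Sp

open Finset

variable {V : Type} [Fintype V] [DecidableEq V] {G : SimpleGraph V} [DecidableRel G.Adj]

variable {L : ℕ} {z o : ℤ → V} {I : ℤ → Prop} {ta tb tc : V → V}

/-! Use `cases_4` for the neighbour `x`, `v4`, and `tri_foot`: a walk of at most 7 vertices off the cycle that starts at a triangle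
foot ends at the same foot; then `CZ.o_eq`, `Gaps.congr`, `Tri.congr` make the roles agree. -/

theorem ys2_on (hG : G.IsRegularOfDegree 3) (h : CZ G L z o) {v : V} {u : ℤ} (hu : ¬ I u)
    (hv : ¬ OnZ z v) (ha : G.Adj v (z u)) : W4 G z o I v ∨ T4 G z o I id v ∨ O4 z o I v := by
  have e := h.nb_off hG u ha.symm hv
  by_cases hc : RC I u
  · by_cases ht : Tri G z o u
    · exact .inr (.inl ⟨u, ⟨hc, ht⟩, e.symm⟩)
    · exact .inl ⟨hv, u, hc, ht, e.symm⟩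
  · exact .inr (.inr ⟨hv, u, ⟨hu, hc⟩, e.symm⟩)

theorem ys2_rc (h : CZ G L z o) (hI : Gaps L I) {t u : ℤ} (hu : RC I u) (e : z t = z u) :
    RC I t := ⟨(Gaps.congr h hI e (-1)).2 hu.1, (Gaps.congr h hI e 1).2 hu.2⟩

theorem ys2_foot (hG : G.IsRegularOfDegree 3) (h : CZ G L z o) {t u : ℤ} (ht : Tri G z o t)
    (l : List V) (hp : Pth G (o t) l (z u)) (ho : ∀ v ∈ l, ¬ OnZ z v) (hl : l.length ≤ 6) :
    z u = z t :=
  tri_foot hG h ht (l := o t :: l) (pth_cons.2 ⟨h.oadj t, hp⟩)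
    (List.forall_mem_cons.2 ⟨ht.1, ho⟩) (List.cons_ne_nil _ _) (Nat.succ_le_succ hl)

theorem Valid4.r_nb (hG : G.IsRegularOfDegree 3) (h : CZ G L z o)
    (hv : Valid4 G L z o I ta tb tc) {v x : V} (hr : R4 G z o I ta tb tc v) (ha : G.Adj v x) :
    R4 G z o I ta tb tc x ∨ S4 G z o I ta tc x := by
  have hs := hr.2.2.1
  rcases cases_4 G z o I ta tb tc x with h1 | h1 | h1 | ⟨u, hu, rfl⟩ | ⟨u, hu, rfl⟩ | ⟨u, hu, rfl⟩
  · exact .inl h1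
  · exact (hs (.inr (.inr (.inl ⟨hr.1, x, h1, ha⟩)))).elim
  · exact .inr h1
  · rcases hv.tg.nb_o hG h hu.2 ha.symm with e | e | e
    · exact (hr.1 ⟨u, e.symm⟩).elim
    · exact (hs (.inr (.inr (.inr (.inl ⟨u, hu, e.symm⟩))))).elim
    · exact (hr.2.2.2.2 ⟨u, hu, e.symm⟩).elim
  · rcases hv.tg.nb_b hG hu.2 ha.symm with e | e | e
    · exact (hr.2.2.2.1 ⟨u, hu, e.symm⟩).elim
    · exact (hs (.inr (.inr (.inr (.inl ⟨u, hu, e.symm⟩))))).elim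
    · exact (hs (.inr (.inr (.inr (.inr ⟨u, hu, e.symm⟩))))).elim
  · rcases ys2_on hG h hu hr.1 ha with e | e | e
    · exact (hr.2.1 e).elim
    · exact (hr.2.2.2.1 e).elim
    · exact (hs (.inr (.inl e))).elim

theorem Valid4.w_nb (hG : G.IsRegularOfDegree 3) (h : CZ G L z o)
    (hv : Valid4 G L z o I ta tb tc) {t : ℤ} (ht : RC I t) (hn : ¬ Tri G z o t)
    (ho : ¬ OnZ z (o t)) {x : V} (ha : G.Adj (o t) x) : x = z t ∨ S4 G z o I ta tc x := by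
  by_cases hx : OnZ z x
  · obtain ⟨u, rfl⟩ := hx
    by_cases hu : I u
    · exact .inr (.inl ⟨u, hu, rfl⟩)
    · exact .inl (hv.v2 t u (ht.notI hv.gaps) hu (h.nb_off hG u ha.symm ho)).symm
  · exact .inr (.inr (.inr (.inl ⟨hx, o t, ⟨ho, t, ht, hn, rfl⟩, ha.symm⟩)))

theorem Valid4.o_nb (hG : G.IsRegularOfDegree 3) (h : CZ G L z o)
    (hv : Valid4 G L z o I ta tb tc) {t : ℤ} (ht : RM I t) (ho : ¬ OnZ z (o t)) {x : V}
    (ha : G.Adj (o t) x) : x = z t ∨ R4 G z o I ta tb tc x ∨ W4 G z o I x := by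
  rcases cases_4 G z o I ta tb tc x with h1 | h1 | h1 | ⟨u, hu, rfl⟩ | ⟨u, hu, rfl⟩ | ⟨u, hu, rfl⟩
  · exact .inr (.inl h1)
  · exact .inr (.inr h1)
  · exact (hv.v4 _ _ (.inr (.inl ⟨ho, t, ht, rfl⟩)) h1 ha).elim
  · exact (ht.2 (ys2_rc h hv.gaps hu.1 (ys2_foot hG h hu.2 [o t]
      (pth_cons.2 ⟨ha.symm, pth_nil.2 (h.oadj t).symm⟩) (by simpa using ho) (by simp)))).elim
  · exact (ht.2 (ys2_rc h hv.gaps hu.1 (ys2_foot hG h hu.2 [tb (o u), o t]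
      (pth_cons.2 ⟨hv.tg.ob u hu.2, pth_cons.2 ⟨ha.symm, pth_nil.2 (h.oadj t).symm⟩⟩)
      (by simpa using ⟨hv.tg.offb u hu.2, ho⟩) (by simp)))).elim
  · exact .inl (hv.v2 t u ht.1 hu (h.nb_off hG u ha.symm ho)).symm

theorem Valid4.j_nb (hG : G.IsRegularOfDegree 3) (h : CZ G L z o)
    (hv : Valid4 G L z o I ta tb tc) {j x : V} (hj : J4 G z o I j) (hn : ¬ O4 z o I j)
    (ha : G.Adj j x) : R4 G z o I ta tb tc x ∨ W4 G z o I x := by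
  obtain ⟨h0, w, hw, hjw⟩ := id hj
  obtain ⟨ho, t, -, ht, rfl⟩ := id hw
  have p0 : Pth G j [o t] (z t) := pth_cons.2 ⟨hjw, pth_nil.2 (h.oadj t).symm⟩
  rcases cases_4 G z o I ta tb tc x with h1 | h1 | h1 | ⟨u, hu, rfl⟩ | ⟨u, hu, rfl⟩ | ⟨u, hu, rfl⟩
  · exact .inl h1
  · exact .inr h1
  · exact (hv.v4 _ _ (.inr (.inr (.inl hj))) h1 ha).elim
  · exact (ht (hu.2.congr (h.o_eq (ys2_foot hG h hu.2 [j, o t] (pth_cons.2 ⟨ha.symm, p0⟩)
      (by simpa using ⟨h0, ho⟩) (by simp))).symm)).elim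
  · exact (ht (hu.2.congr (h.o_eq (ys2_foot hG h hu.2 [tb (o u), j, o t]
      (pth_cons.2 ⟨hv.tg.ob u hu.2, pth_cons.2 ⟨ha.symm, p0⟩⟩)
      (by simpa using ⟨hv.tg.offb u hu.2, h0, ho⟩) (by simp))).symm)).elim
  · rcases ys2_on hG h hu h0 ha with e | ⟨s, hs, rfl⟩ | e
    · exact (hv.v3 _ _ e hw hjw).elim
    · exact (ht (hs.2.congr (h.o_eq (ys2_foot hG h hs.2 [o t] p0 (by simpa using ho)
        (by simp))).symm)).elim
    · exact (hn e).elim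

theorem Valid4.i_nb (hG : G.IsRegularOfDegree 3) (h : CZ G L z o)
    (hv : Valid4 G L z o I ta tb tc) {t : ℤ} (ht : I t) (ho : ¬ OnZ z (o t)) :
    R4 G z o I ta tb tc (o t) ∨ W4 G z o I (o t) := by
  rcases cases_4 G z o I ta tb tc (o t) with h1 | h1 | h1 | ⟨u, hu, e⟩ | ⟨u, hu, e⟩ | ⟨u, -, e⟩
  · exact .inl h1
  · exact .inr h1
  · exact (hv.v4 _ _ (.inl ⟨t, ht, rfl⟩) h1 (h.oadj t)).elim
  · exact ((ys2_rc h hv.gaps hu.1 (ys2_foot hG h hu.2 []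
      (pth_nil.2 ((show o u = o t from e) ▸ (h.oadj t).symm)) (by simp) (by simp))).notI
      hv.gaps ht).elim
  · exact ((ys2_rc h hv.gaps hu.1 (ys2_foot hG h hu.2 [o t]
      (pth_cons.2 ⟨e ▸ hv.tg.ob u hu.2, pth_nil.2 (h.oadj t).symm⟩) (by simpa using ho)
      (by simp))).notI hv.gaps ht).elim
  · exact (ho ⟨u, e⟩).elim

theorem Valid4.p_nb (hG : G.IsRegularOfDegree 3) (h : CZ G L z o)
    (hv : Valid4 G L z o I ta tb tc) {t : ℤ} (ht : RT G z o I t) {x : V}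
    (ha : G.Adj (ta (o t)) x) : x = o t ∨ x = tb (o t) ∨ R4 G z o I ta tb tc x := by
  have h0 := hv.tg.offa t ht.2
  have key : ∀ u l, Pth G (ta (o t)) l (z u) → (∀ v ∈ l, ¬ OnZ z v) → l.length ≤ 5 → z u = z t :=
    fun u l hp ho hl => ys2_foot hG h ht.2 (ta (o t) :: l) (pth_cons.2 ⟨hv.tg.oa t ht.2, hp⟩)
      (List.forall_mem_cons.2 ⟨h0, ho⟩) (Nat.succ_le_succ hl)
  rcases cases_4 G z o I ta tb tc x with h1 | ⟨ho, u, -, hu, rfl⟩ | h1 | ⟨u, hu, rfl⟩ |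
    ⟨u, hu, rfl⟩ | ⟨u, hu, rfl⟩
  · exact .inr (.inr h1)
  · exact (hu (ht.2.congr (h.o_eq (key u [o u] (pth_cons.2 ⟨ha, pth_nil.2 (h.oadj u).symm⟩)
      (by simpa using ho) (by simp))).symm)).elim
  · exact (hv.v4 _ _ (.inr (.inr (.inr (.inl ⟨t, ht, rfl⟩)))) h1 ha).elim
  · exact .inl (h.o_eq (key u [o u] (pth_cons.2 ⟨ha, pth_nil.2 (h.oadj u).symm⟩)
      (by simpa using hu.2.1) (by simp)))
  · exact .inr (.inl (congrArg tb (h.o_eq (key u [tb (o u), o u] (pth_cons.2 ⟨ha, pth_cons.2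
      ⟨(hv.tg.ob u hu.2).symm, pth_nil.2 (h.oadj u).symm⟩⟩)
      (by simpa using ⟨hv.tg.offb u hu.2, hu.2.1⟩) (by simp)))))
  · rw [key u [] (pth_nil.2 ha) (by simp) (by simp)] at ha
    exact ((hv.tg.oa t ht.2).ne (h.nb_off hG t ha.symm h0).symm).elim

theorem Valid4.q_nb (hG : G.IsRegularOfDegree 3) (h : CZ G L z o)
    (hv : Valid4 G L z o I ta tb tc) {t : ℤ} (ht : RT G z o I t) {x : V}
    (ha : G.Adj (tc (o t)) x) : x = tb (o t) ∨ R4 G z o I ta tb tc x := by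
  have h0 := hv.tg.offc hG h ht.2
  have key : ∀ u l, Pth G (tc (o t)) l (z u) → (∀ v ∈ l, ¬ OnZ z v) → l.length ≤ 4 → z u = z t :=
    fun u l hp ho hl => ys2_foot hG h ht.2 (tb (o t) :: tc (o t) :: l)
      (pth_cons.2 ⟨hv.tg.ob t ht.2, pth_cons.2 ⟨hv.tg.bc t ht.2, hp⟩⟩)
      (List.forall_mem_cons.2 ⟨hv.tg.offb t ht.2, List.forall_mem_cons.2 ⟨h0, ho⟩⟩)
      (Nat.succ_le_succ (Nat.succ_le_succ hl))
  rcases cases_4 G z o I ta tb tc x with h1 | ⟨ho, u, -, hu, rfl⟩ | h1 | ⟨u, hu, rfl⟩ |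
    ⟨u, hu, rfl⟩ | ⟨u, hu, rfl⟩
  · exact .inr h1
  · exact (hu (ht.2.congr (h.o_eq (key u [o u] (pth_cons.2 ⟨ha, pth_nil.2 (h.oadj u).symm⟩)
      (by simpa using ho) (by simp))).symm)).elim
  · exact (hv.v4 _ _ (.inr (.inr (.inr (.inr ⟨t, ht, rfl⟩)))) h1 ha).elim
  · have ha' : G.Adj (tc (o t)) (o u) := ha
    rw [h.o_eq (key u [o u] (pth_cons.2 ⟨ha', pth_nil.2 (h.oadj u).symm⟩)
      (by simpa using hu.2.1) (by simp))] at ha'
    rcases hv.tg.nb_o hG h ht.2 ha'.symm with e | e | e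
    · exact (h0 ⟨t, e.symm⟩).elim
    · exact (hv.tg.ca t ht.2 e).elim
    · exact ((hv.tg.bc t ht.2).ne e.symm).elim
  · exact .inl (congrArg tb (h.o_eq (key u [tb (o u), o u] (pth_cons.2 ⟨ha, pth_cons.2
      ⟨(hv.tg.ob u hu.2).symm, pth_nil.2 (h.oadj u).symm⟩⟩)
      (by simpa using ⟨hv.tg.offb u hu.2, hu.2.1⟩) (by simp))))
  · rw [key u [] (pth_nil.2 ha) (by simp) (by simp)] at ha
    exact (hv.tg.co t ht.2 (h.nb_off hG t ha.symm h0)).elim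

end Pool.Agent.Lib.MP_7e4769_co.Sp
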