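import Pool.Agent.Lib.MP_7e4769_co.Sp.YSets2
import Pool.Agent.Lib.MP_7e4769_co.Sp.Start

set_option autoImplicit false
set_option linter.unusedSectionVars false

namespace Pool.Agent.Lib.MP_7e4769_co.Sp

open Finset

variable {V : Type} [Fintype V] [DecidableEq V] {G : SimpleGraph V} [DecidableRel G.Adj]

variable {L : ℕ} {z o : ℤ → V} {I : ℤ → Prop} {ta tb tc : V → V}

/-- as `stage1` in ZStart -/
theorem stage41 (hG : G.IsRegularOfDegree 3) (h : CZ G L z o) (hv : Valid4 G L z o I ta tb tc)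
    {R : Finset V} (hR : ∀ v, v ∈ R ↔ R4 G z o I ta tb tc v) (hg : Good G R) :
    ∃ c : V → Fin 4, (∀ v, S4 G z o I ta tc v → c v = 3) ∧ (∀ v, W4 G z o I v → c v ≠ 3) ∧
      (∀ v, R4 G z o I ta tb tc v → ok G c v) ∧
      ∀ j, J4 G z o I j → ¬ O4 z o I j → ok G c j := by
  classical
  obtain ⟨c0, h0, h1⟩ := hg
  have wS : ∀ w, W4 G z o I w → ¬ S4 G z o I ta tc w := fun w a => (hv.w_not hG h a).1
  have jS : ∀ j, J4 G z o I j → S4 G z o I ta tc j := fun j a => Or.inr (Or.inr (Or.inl a))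
  obtain ⟨c, k1, k2, k3⟩ := greedy hG (W := univ.filter (W4 G z o I))
    (J := univ.filter fun j => J4 G z o I j ∧ ¬ O4 z o I j) c0
    (fun w a b => wS w (mem_filter.1 a).2 (jS w (mem_filter.1 b).2.1))
    (fun w a => by
      obtain ⟨-, t, -, -, rfl⟩ := (mem_filter.1 a).2
      exact dg_le_two_of_out hG (p := z t) (fun b => (mem_filter.1 b).2.1.1 ⟨t, rfl⟩)
        (h.oadj t).symm)
    (fun j a => h0 j fun b => ((hR j).1 b).2.2.1 (jS j (mem_filter.1 a).2.1))
    (fun j a x b d e => by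
      have a' := (mem_filter.1 a).2
      rcases hv.j_nb hG h a'.1 a'.2 b with f | f
      · exact (h1 x ((hR x).2 f)).1 j b.symm
          ((h0 j fun g => ((hR j).1 g).2.2.1 (jS j a'.1)).trans e.symm)
      · exact d (mem_filter.2 ⟨mem_univ x, f⟩))
    (fun j a => by
      obtain ⟨-, w, b, d⟩ := (mem_filter.1 a).2.1
      exact ⟨w, mem_filter.2 ⟨mem_univ w, b⟩, d⟩)
  have k1' : ∀ v, ¬ W4 G z o I v → c v = c0 v := fun v a => k1 v fun b => a (mem_filter.1 b).2
  refine ⟨c, fun v a => ?_, fun v a => k2 v (mem_filter.2 ⟨mem_univ v, a⟩), fun v a => ?_,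
    fun j a b => k3 j (mem_filter.2 ⟨mem_univ j, a, b⟩)⟩
  · rw [k1' v fun b => wS v b a]
    exact h0 v fun b => ((hR v).1 b).2.2.1 a
  · refine ok_congr (k1' v a.2.1) (fun w b => k1' w fun d => ?_) (h1 v ((hR v).2 a))
    rcases hv.r_nb hG h a b with e | e
    · exact e.2.1 d
    · exact wS w d e

end Pool.Agent.Lib.MP_7e4769_co.Sp
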