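import Pool.Agent.Lib.MP_7e4769_co.Sp.YStart1
import Pool.Agent.Lib.MP_7e4769_co.Sp.YDP2

set_option autoImplicit false
set_option linter.unusedSectionVars false

namespace Pool.Agent.Lib.MP_7e4769_co.Sp

open Finset

variable {V : Type} [Fintype V] [DecidableEq V] {G : SimpleGraph V} [DecidableRel G.Adj]

variable {L : ℕ} {z o : ℤ → V} {I : ℤ → Prop} {ta tb tc : V → V}

theorem yst2_vok : ∀ a b : Fin 4, a ≠ 3 → b ≠ 3 → b ≠ a →
    vok a b 3 3 = true ∧ vok b 3 3 a = true ∧ vok b 3 a 3 = true := by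
  decide

/-- As `start3` in ZStart.lean, with `dp5` for `P t u := o t = z u`. The forbidden colour `a t` is
the state colour (`st_free`, chosen as a function of two vertices) of `o t` towards `z t` for role M
without chord, of `tc (o t)` towards `tb (o t)` for a triangle position, and `c (o t)` for the other
positions of role C. Both `z t` and, at a triangle position, `tb (o t)` get the colour `s t`. All
vertices are then satisfied except those in `T4 id`, `T4 ta`, `T4 tb` and the feet of triangles. -/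
theorem stage42 (hG : G.IsRegularOfDegree 3) (h : CZ G L z o) (hv : Valid4 G L z o I ta tb tc)
    {R : Finset V} (hR : ∀ v, v ∈ R ↔ R4 G z o I ta tb tc v) (hg : Good G R) :
    ∃ c : V → Fin 4, (∀ v, S4 G z o I ta tc v → c v = 3) ∧
      (∀ t, RT G z o I t → c (z t) ≠ 3 ∧ c (tb (o t)) = c (z t)) ∧
      ∀ v, ¬ T4 G z o I id v → ¬ T4 G z o I ta v → ¬ T4 G z o I tb v →
        (¬ ∃ t, RT G z o I t ∧ z t = v) → ok G c v := by
  classical
  obtain ⟨c, cS, cW, cR, cJ⟩ := stage41 hG h hv hR hg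
  have hI := hv.gaps
  have fin : ∀ y x, S4 G z o I ta tc y → G.Adj y x →
      R4 G z o I ta tb tc x ∨ W4 G z o I x → c x ≠ 3 := by
    rintro y x a b (d | d) e
    · exact (cR x d).1 y b.symm ((cS y a).trans e.symm)
    · exact cW x d e
  have off : ∀ x, R4 G z o I ta tb tc x ∨ W4 G z o I x → ¬ OnZ z x ∧ ¬ T4 G z o I tb x := by
    rintro x (d | d)
    exacts [⟨d.1, d.2.2.2.2⟩, ⟨d.1, (hv.w_not hG h d).2.2⟩]
  have zS : ∀ t, I t → S4 G z o I ta tc (z t) := fun t a => Or.inl ⟨t, a, rfl⟩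
  have oS : ∀ t, RM I t → ¬ OnZ z (o t) → S4 G z o I ta tc (o t) := fun t a b =>
    Or.inr (Or.inl ⟨b, t, a, rfl⟩)
  have qS : ∀ t, RT G z o I t → S4 G z o I ta tc (tc (o t)) := fun t a =>
    Or.inr (Or.inr (Or.inr (Or.inr ⟨t, a, rfl⟩)))
  have nP : ∀ t, ¬ OnZ z (o t) → ¬ ∃ u, o t = z u := fun t a ⟨u, e⟩ => a ⟨u, e.symm⟩
  have hE : ∀ w p : V, ∃ e : Fin 4, (∃ e', St G c w p e') → St G c w p e := by
    intro w p
    by_cases a : ∃ e', St G c w p e'
    · obtain ⟨e, he⟩ := a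
      exact ⟨e, fun _ => he⟩
    · exact ⟨0, fun b => absurd b a⟩
  choose E hE using hE
  have hSt : ∀ t, RM I t → ¬ OnZ z (o t) → St G c (o t) (z t) (E (o t) (z t)) := fun t a a' =>
    hE _ _ (st_free hG (h.oadj t).symm fun x b d => by
      rw [cS _ (oS t a a')]
      exact fin _ x (oS t a a') b ((hv.o_nb hG h a a' b).resolve_left d))
  have hSq : ∀ t, RT G z o I t → St G c (tc (o t)) (tb (o t)) (E (tc (o t)) (tb (o t))) :=
    fun t a => hE _ _ (st_free hG (hv.tg.bc t a.2).symm fun x b d => by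
      rw [cS _ (qS t a)]
      exact fin _ x (qS t a) b (Or.inl ((hv.q_nb hG h a b).resolve_left d)))
  have pC : ∀ t, RC I (t + L) ↔ RC I t := fun t => by
    have a1 := hI.per (t - 1)
    have a2 := hI.per (t + 1)
    rw [show t - 1 + (L : ℤ) = t + L - 1 by ring] at a1
    rw [show t + 1 + (L : ℤ) = t + L + 1 by ring] at a2
    exact and_congr a1 a2
  have pM : ∀ t, RM I (t + L) ↔ RM I t := fun t =>
    and_congr (not_congr (hI.per t)) (not_congr (pC t))
  have pT : ∀ t, RT G z o I (t + L) ↔ RT G z o I t := fun t =>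
    and_congr (pC t) ⟨fun a => a.congr (h.oper t), fun a => a.congr (h.oper t).symm⟩
  obtain ⟨a, pa, a3, aM, aT, aC⟩ : ∃ a : ℤ → Fin 4, (∀ t, a (t + L) = a t) ∧ (∀ t, a t ≠ 3) ∧
      (∀ t, RM I t → ¬ OnZ z (o t) → a t = E (o t) (z t)) ∧
      (∀ t, RT G z o I t → a t = E (tc (o t)) (tb (o t))) ∧
      ∀ t, RC I t → ¬ Tri G z o t → ¬ OnZ z (o t) → a t = c (o t) := by
    refine ⟨fun t => if RM I t ∧ ¬ OnZ z (o t) then E (o t) (z t) else
      if RT G z o I t then E (tc (o t)) (tb (o t)) else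
      if RC I t ∧ ¬ OnZ z (o t) then c (o t) else 0, fun t => ?_, fun t => ?_,
      fun t b d => if_pos ⟨b, d⟩, fun t b => ?_, fun t b d e => ?_⟩
    · simp only [pM, pC, pT, h.per, h.oper]
    · beta_reduce
      split_ifs with b d e
      · exact (hSt t b.1 b.2).1.trans_eq (cS _ (oS t b.1 b.2))
      · exact (hSq t d).1.trans_eq (cS _ (qS t d))
      · exact cW _ ⟨e.2, t, e.1, fun f => d ⟨e.1, f⟩, rfl⟩
      · decide
    · exact (if_neg fun e => e.1.2 b.1).trans (if_pos b)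
    · exact (if_neg fun f => f.1.2 b).trans ((if_neg fun f => d f.2).trans (if_pos ⟨b, e⟩))
  obtain ⟨b, pb, b3, bI⟩ : ∃ b : ℤ → Fin 4, (∀ t, b (t + L) = b t) ∧ (∀ t, b t ≠ 3) ∧
      ∀ t, I t → ¬ OnZ z (o t) → b t = c (o t) := by
    refine ⟨fun t => if I t ∧ ¬ OnZ z (o t) then c (o t) else 0, fun t => ?_, fun t => ?_,
      fun t d e => if_pos ⟨d, e⟩⟩
    · simp only [hI.per, h.oper]
    · beta_reduce
      split_ifs with d
      · exact fin _ _ (zS t d.1) (h.oadj t) (hv.i_nb hG h d.1 d.2)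
      · decide
  obtain ⟨s, s1, s2, s3, s4, s5, s6, s7⟩ := dp5 (by have := h.big; omega) h.ev hI a b pa pb a3 b3
    (fun t u => o t = z u) (hv.chords hG h)
  have sper : ∀ t u, z t = z u → s t = s u := fun t u e => by
    obtain ⟨k, rfl⟩ := h.eq_iff.1 e
    exact ((show Function.Periodic s (L : ℤ) from s1).int_mul k t).symm
  obtain ⟨c', q1, q0, q2⟩ : ∃ c' : V → Fin 4, (∀ t, ¬ I t → c' (z t) = s t) ∧
      (∀ t, RT G z o I t → c' (tb (o t)) = s t) ∧
      ∀ v, (∀ t, ¬ I t → z t ≠ v) → ¬ T4 G z o I tb v → c' v = c v := by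
    refine ⟨fun v => if d : ∃ t, ¬ I t ∧ z t = v then s d.choose else
      if e : T4 G z o I tb v then s (Exists.choose e) else c v, fun t ht => ?_, fun t ht => ?_,
      fun v d e => (dif_neg fun ⟨t, f, g⟩ => d t f g).trans (dif_neg e)⟩
    · have d : ∃ u, ¬ I u ∧ z u = z t := ⟨t, ht, rfl⟩
      exact (dif_pos d).trans (sper _ _ d.choose_spec.2)
    · have e : T4 G z o I tb (tb (o t)) := ⟨t, ht, rfl⟩
      have e' := Exists.choose_spec e
      exact (dif_neg fun ⟨u, _, g⟩ => (hv.b_not hG h e).1 ⟨u, g⟩).trans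
        ((dif_pos e).trans (sper _ _ (hv.b_inj hG h e'.1 ht e'.2)))
  have q3 : ∀ v, R4 G z o I ta tb tc v ∨ W4 G z o I v → c' v = c v := fun v d =>
    q2 v (fun t _ e => (off v d).1 ⟨t, e⟩) (off v d).2
  have q4 : ∀ v, S4 G z o I ta tc v → c' v = c v := fun v d =>
    q2 v (fun t e f => e (hv.s_on hG h (f ▸ d))) fun e => (hv.b_not hG h e).2 d
  have q5 : ∀ v, S4 G z o I ta tc v → c' v = 3 := fun v d => (q4 v d).trans (cS v d)
  have okz : ∀ t, ok G c' (z t) ↔
      vok (c' (z t)) (c' (z (t - 1))) (c' (z (t + 1))) (c' (o t)) = true := fun t =>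
    ok_iff hG (h.adj' t) (h.adj t) (h.oadj t) (h.ne2 t) (h.op t).symm (h.on t).symm
  have okO : ∀ v, O4 z o I v → ok G c' v := by
    rintro v ⟨e, t, d, rfl⟩
    refine (hSt t d e).2 c' (fun x f g => q3 x ((hv.o_nb hG h d e f).resolve_left g))
      (q4 _ (oS t d e)) ?_ ?_
    · rw [q1 t d.1, cS _ (oS t d e)]
      exact s2 t
    · rw [q1 t d.1, ← aM t d e]
      exact s3 t d.1 (nP t e)
  refine ⟨c', q5, fun t d => ?_, fun v n1 n2 n3 n4 => ?_⟩
  · rw [q0 t d, q1 t (d.1.notI hI)]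
    exact ⟨s2 t, rfl⟩
  rcases cases_4 G z o I ta tb tc v with d | d | d | d | d | ⟨t, d, rfl⟩
  · refine ok_congr (q3 v (Or.inl d)) (fun w e => ?_) (cR v d)
    rcases hv.r_nb hG h d e with f | f
    · exact q3 w (Or.inl f)
    · exact q4 w f
  · have d3 := cW v d
    have d4 := q3 v (Or.inr d)
    obtain ⟨e, t, f, f', rfl⟩ := d
    have g := f.notI hI
    obtain ⟨x, y, a1, a2, a3', a4, a5⟩ := nbrs_of1 hG (v := o t) (z t)
    rw [ok_iff hG (h.oadj t).symm a1 a2 a4.symm a5.symm a3', q1 t g,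
      q5 x ((hv.w_nb hG h f f' e a1).resolve_left a4),
      q5 y ((hv.w_nb hG h f f' e a2).resolve_left a5), d4]
    exact (yst2_vok _ _ d3 (s2 t) (aC t f f' e ▸ s3 t g (nP t e))).1
  · rcases d with ⟨t, d, rfl⟩ | d | d | d | ⟨t, d, rfl⟩
    · have d1 : ¬ I (t - 1) := fun e => hI.ind _ e (by rwa [sub_add_cancel])
      rw [okz, q5 _ (zS t d), q1 _ d1, q1 _ (hI.ind t d)]
      by_cases f : OnZ z (o t)
      · obtain ⟨u, g⟩ := f
        have i : ¬ I u := by
          rcases hv.v1 t u g.symm with j | j | j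
          exacts [j.2.notI hI, j.2.1, (j.1.1 d).elim]
        rw [← g, q1 u i]
        exact s6 t u g.symm d
      · rw [q3 _ (hv.i_nb hG h d f), ← bI t d f]
        exact s5 t d (nP t f)
    · exact okO v d
    · by_cases e : O4 z o I v
      · exact okO v e
      · exact ok_congr (q4 v (Or.inr (Or.inr (Or.inl d))))
          (fun w f => q3 w (hv.j_nb hG h d e f)) (cJ v d e)
    · exact (n2 d).elim
    · refine (hSq t d).2 c' (fun x f g => q3 x (Or.inl ((hv.q_nb hG h d f).resolve_left g)))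
        (q4 _ (qS t d)) ?_ ?_
      · rw [q0 t d, cS _ (qS t d)]
        exact s2 t
      · rw [q0 t d, ← aT t d]
        exact s3 t (d.1.notI hI) (nP t d.2.1)
  · exact (n1 d).elim
  · exact (n3 d).elim
  · rw [okz, q1 t d]
    by_cases e : RC I t
    · rw [q5 _ (zS _ e.1), q5 _ (zS _ e.2)]
      by_cases f : OnZ z (o t)
      · obtain ⟨u, g⟩ := f
        have i : ¬ I u := by
          rcases hv.v1 t u g.symm with j | j | j
          exacts [j.2.notI hI, j.2.1, (j.1.2 e).elim]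
        rw [← g, q1 u i]
        exact (yst2_vok _ _ (s2 u) (s2 t) (s7 t u g.symm d i)).2.1
      · have n : ¬ Tri G z o t := fun j => n4 ⟨t, ⟨e, j⟩, rfl⟩
        have w : W4 G z o I (o t) := ⟨f, t, e, n, rfl⟩
        rw [q3 _ (Or.inr w)]
        exact (yst2_vok _ _ (cW _ w) (s2 t) (aC t e n f ▸ s3 t d (nP t f))).2.1
    · have f : RM I t := ⟨d, e⟩
      have o3 : S4 G z o I ta tc (o t) := by
        by_cases f' : OnZ z (o t)
        · obtain ⟨u, g⟩ := f'
          rcases hv.v1 t u g.symm with j | j | j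
          exacts [(e j.1).elim, (d j.1).elim, Or.inl ⟨u, j.2, g⟩]
        · exact oS t f f'
      rw [q5 _ o3]
      rcases f.nb hI with g | g
      · rw [q5 _ (zS _ g.1), q1 _ g.2]
        exact (yst2_vok _ _ (s2 _) (s2 t) (s4 t d g.2)).2.2
      · rw [q5 _ (zS _ g.2), q1 _ g.1]
        have i := s4 (t - 1) g.1 (by rwa [sub_add_cancel])
        rw [sub_add_cancel] at i
        exact (yst2_vok _ _ (s2 t) (s2 _) i).1

end Pool.Agent.Lib.MP_7e4769_co.Sp
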