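import Pool.Agent.Lib.MP_7e4769_co.Sp.YDefs

set_option autoImplicit false
set_option linter.unusedSectionVars false

namespace Pool.Agent.Lib.MP_7e4769_co.Sp

open Finset

variable {V : Type} [Fintype V] [DecidableEq V] {G : SimpleGraph V} [DecidableRel G.Adj]

theorem tile1_ov {L : ℕ} {B : ℤ → ℤ → Prop} (hB : Blocks L B) {a b a' b' : ℤ} (h : B a b)
    (h' : B a' b') (h1 : a' ≤ b) (h2 : a ≤ b') : a' = a ∧ b' = b := by
  rcases le_total a a' with h3 | h3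
  · exact hB.dis a b a' b' h h' h3 h1
  · exact (hB.dis a' b' a b h' h h3 h2).imp Eq.symm Eq.symm

theorem tile1_gap {E T S I : ℤ → Prop} (hI : ∀ t, I t ↔ (S t ∧ ¬ E t) ∨ (¬ S t ∧ E t ∧ ¬ T t))
    (hA : ∀ t, T t → (E (t + 1) ↔ E t)) (hA' : ∀ t, ¬ T t → (E (t + 1) ↔ ¬ E t))
    (hB : ∀ t, T t → ¬ T (t + 1)) (hC : ∀ t, T t → (S t ↔ ¬ E t)) (hD : ∀ t, T t → ¬ S (t + 1))
    (hE : ∀ t, ¬ T t → S t → S (t + 1)) (hF : ∀ t, ¬ S t → S (t + 1) → ¬ E t ∧ ¬ T (t + 1))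
    (t : ℤ) : (I t → ¬ I (t + 1)) ∧ (I t ∨ I (t + 1) ∨ I (t + 1 + 1)) ∧
      (¬ S (t + 1) → ¬ E (t + 1) → I t) := by
  have a1 := hA t
  have a2 := hA' t
  have a3 := hB t
  have a4 := hC t
  have a5 := hD t
  have a6 := hE t
  have a7 := hF t
  have b1 := hA (t + 1)
  have b2 := hA' (t + 1)
  have b3 := hB (t + 1)
  have b5 := hD (t + 1)
  have b6 := hE (t + 1)
  rw [hI, hI, hI]
  by_cases c1 : S t <;> by_cases c2 : T t <;> by_cases c3 : E t <;> by_cases c4 : S (t + 1) <;>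
    by_cases c5 : T (t + 1) <;> simp_all

/-- `Kp` is a set of even blocks that get one gap of length 3, `φ` changes parity exactly after
their right ends. Outside these blocks `I t` means `t + φ t` even. Inside such a block `[a, b]`
(`φ` has constant parity on it, by `dis`) `I t` means `t - a` even and `t ≠ b` if `a + φ a` is even,
`t ≠ a` if it is odd. First show for a position `t` that is not in `(a, b]` for a block of `Kp`:
`t + φ t` even gives `I t`, odd gives `¬ I t` and `I (t - 1)`. -/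
theorem tile_core {L : ℕ} (hev : L % 2 = 0) {B Kp : ℤ → ℤ → Prop} (hB : Blocks L B)
    (hK : ∀ a b, Kp a b → B a b ∧ (a + b) % 2 = 0)
    (hKp : ∀ a b : ℤ, Kp (a + L) (b + L) ↔ Kp a b) (φ : ℤ → ℤ) (h0 : ∀ t : ℤ, φ (t + L) = φ t)
    (h1 : ∀ t, (∃ a, Kp a t) → (φ (t + 1) + φ t) % 2 = 1)
    (h2 : ∀ t, (¬ ∃ a, Kp a t) → (φ (t + 1) + φ t) % 2 = 0) :
    ∃ I : ℤ → Prop, Gaps L I ∧
      (∀ a b, Kp a b → (I a ∧ RM I b) ∨ (RM I a ∧ I b)) ∧
      ∀ a b, B a b → ¬ Kp a b →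
        ((a + φ a) % 2 = 0 → I a) ∧ ((a + φ a) % 2 = 1 → RC I a) ∧
        ((b + φ a) % 2 = 0 → I b) ∧ ((b + φ a) % 2 = 1 → RC I b) := by
  have ov : ∀ {a b a' b' : ℤ}, B a b → Kp a' b' → a' ≤ b → a ≤ b' → a' = a ∧ b' = b :=
    fun h h' => tile1_ov hB h (hK _ _ h').1
  have lt : ∀ {a b : ℤ}, Kp a b → a + 2 ≤ b := fun {a b} h => by
    have h3 := (hB.lt a b (hK a b h).1).1
    have h4 := (hK a b h).2
    omega
  have hin : ∀ {a b : ℤ}, B a b → ∀ t, a ≤ t → t < b → ¬ ∃ a', Kp a' t := by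
    rintro a b h t h3 h4 ⟨a', h5⟩
    have h6 := lt h5
    have h7 := ov h h5 (by omega) h3
    omega
  have hpar : ∀ {a b : ℤ}, B a b → ∀ t, a ≤ t → t ≤ b → (φ t + φ a) % 2 = 0 := by
    intro a b h t h3
    induction t, h3 using Int.leInduction with
    | base => omega
    | succ t h3 ih =>
      intro h4
      have h5 := ih (by omega)
      have h6 := h2 t (hin h t h3 (by omega))
      omega
  have hKE : ∀ {a b : ℤ}, Kp a b → (a + φ a) % 2 = (b + φ b) % 2 := fun {a b} h => by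
    have h3 := lt h
    have h4 := hpar (hK a b h).1 b (by omega) le_rfl
    have h5 := (hK a b h).2
    omega
  obtain ⟨S, hS⟩ : ∃ S : ℤ → Prop, ∀ t, S t ↔
      ∃ a b, Kp a b ∧ (a + φ a) % 2 = 1 ∧ a < t ∧ t ≤ b := ⟨_, fun _ => Iff.rfl⟩
  obtain ⟨I, hI⟩ : ∃ I : ℤ → Prop, ∀ t, I t ↔ (S t ∧ ¬ (t + φ t) % 2 = 0) ∨
      (¬ S t ∧ (t + φ t) % 2 = 0 ∧ ¬ ∃ a, Kp a t) := ⟨_, fun _ => Iff.rfl⟩
  have hC : ∀ t, (∃ a, Kp a t) → (S t ↔ ¬ (t + φ t) % 2 = 0) := by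
    rintro t ⟨a, h⟩
    have h3 := hKE h
    have h4 := lt h
    refine ⟨fun h5 => ?_, fun h5 => (hS t).2 ⟨a, t, h, by omega, by omega, le_rfl⟩⟩
    obtain ⟨a', b', h6, h7, h8, h9⟩ := (hS t).1 h5
    obtain ⟨rfl, rfl⟩ := ov (hK a t h).1 h6 h8.le (by omega)
    omega
  have hE : ∀ t, (¬ ∃ a, Kp a t) → S t → S (t + 1) := fun t h h3 => by
    obtain ⟨a, b, h4, h5, h6, h7⟩ := (hS t).1 h3
    rcases h7.eq_or_lt with rfl | h8
    · exact absurd ⟨a, h4⟩ h
    · exact (hS _).2 ⟨a, b, h4, h5, by omega, by omega⟩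
  have key := tile1_gap (E := fun t => (t + φ t) % 2 = 0) (T := fun t => ∃ a, Kp a t) hI
    (fun t h => by have := h1 t h; omega) (fun t h => by have := h2 t h; omega)
    (by
      rintro t ⟨a, h⟩ ⟨a', h'⟩
      have h3 := lt h
      have h4 := lt h'
      have h5 := ov (hK a t h).1 h' (by omega) (by omega)
      omega) hC
    (by
      rintro t ⟨a, h⟩ h3
      obtain ⟨a', b', h6, -, h8, h9⟩ := (hS _).1 h3
      have h4 := lt h
      have h5 := ov (hK a t h).1 h6 (by omega) (by omega)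
      omega) hE
    (fun t h h3 => by
      obtain ⟨a, b, h4, h5, h6, h7⟩ := (hS _).1 h3
      obtain rfl : a = t := by
        by_contra h8
        exact h ((hS t).2 ⟨a, b, h4, h5, by omega, by omega⟩)
      have h8 := lt h4
      exact ⟨by omega, hin (hK a b h4).1 _ (by omega) (by omega)⟩)
  have hP : ∀ t, ¬ S t → ¬ (t + φ t) % 2 = 0 → I (t - 1) := fun t => by
    have h := (key (t - 1)).2.2
    rwa [sub_add_cancel] at h
  refine ⟨I, ⟨fun t => ?_, fun t => (key t).1, fun t => ?_⟩, fun a b h => ?_, fun a b h hn => ?_⟩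
  · have e1 : (∃ a, Kp a (t + L)) ↔ ∃ a, Kp a t :=
      ⟨fun ⟨a, h⟩ => ⟨a - L, (hKp _ _).1 (by rwa [sub_add_cancel])⟩,
        fun ⟨a, h⟩ => ⟨a + L, (hKp _ _).2 h⟩⟩
    have e2 : ∀ s : ℤ, (s + L + φ (s + L)) % 2 = (s + φ s) % 2 := fun s => by
      rw [h0]
      omega
    have e3 : S (t + L) ↔ S t := by
      rw [hS, hS]
      refine ⟨fun ⟨a, b, h3, h4, h5, h6⟩ => ⟨a - L, b - L, (hKp _ _).1 (by
        rwa [sub_add_cancel, sub_add_cancel]), ?_, by omega, by omega⟩,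
        fun ⟨a, b, h3, h4, h5, h6⟩ => ⟨a + L, b + L, (hKp _ _).2 h3, (e2 a).trans h4, by omega,
          by omega⟩⟩
      rwa [← e2, sub_add_cancel]
    rw [hI, hI, e1, e2, e3]
  · have h := (key t).2.1
    rwa [add_assoc t 1 1] at h
  · have h3 := lt h
    have h4 := hKE h
    have h5 : ¬ S a := fun h5 => by
      obtain ⟨a', b', h6, -, h8, h9⟩ := (hS a).1 h5
      have h7 := ov (hK a b h).1 h6 (by omega) h9
      omega
    have h6 := hin (hK a b h).1 a le_rfl (by omega)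
    have h7 := hC b ⟨a, h⟩
    by_cases h8 : (a + φ a) % 2 = 0
    · have h9 : ¬ S b := fun h9 => h7.1 h9 (by omega)
      refine Or.inl ⟨(hI a).2 (Or.inr ⟨h5, h8, h6⟩), fun h10 => ?_, fun h10 => ?_⟩
      · exact ((hI b).1 h10).elim (fun h11 => h9 h11.1) fun h11 => h11.2.2 ⟨a, h⟩
      · have h11 := hin (hK a b h).1 (b - 1) (by omega) (by omega)
        have h12 := h2 _ h11
        have h13 := hE _ h11
        rw [sub_add_cancel] at h12 h13
        exact ((hI _).1 h10.1).elim (fun h14 => h9 (h13 h14.1)) fun h14 => by omega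
    · refine Or.inr ⟨⟨fun h10 => ?_, fun h10 => ?_⟩,
        (hI b).2 (Or.inl ⟨h7.2 (by omega), by omega⟩)⟩
      · exact ((hI a).1 h10).elim (fun h11 => h5 h11.1) fun h11 => h8 h11.2.1
      · have h12 := h2 _ h6
        exact ((hI _).1 h10.2).elim (fun h14 => by omega) fun h14 =>
          h14.1 ((hS _).2 ⟨a, b, h, by omega, by omega, by omega⟩)
  · have h3 := (hB.lt a b h).1
    have h4 := hpar h b h3.le le_rfl
    have h5 : ∀ t, a ≤ t → t ≤ b + 1 → ¬ S t ∧ ¬ ∃ a', Kp a' t := fun t h5 h6 => by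
      refine ⟨fun h7 => ?_, fun ⟨a', h7⟩ => ?_⟩
      · obtain ⟨a', b', h8, -, h9, h10⟩ := (hS t).1 h7
        obtain ⟨rfl, rfl⟩ := ov h h8 (by omega) (by omega)
        exact hn h8
      · have h8 := lt h7
        obtain ⟨rfl, rfl⟩ := ov h h7 (by omega) h5
        exact hn h7
    have h6 : ∀ t, a ≤ t → t ≤ b + 1 → (t + φ t) % 2 = 0 → I t := fun t h6 h7 h8 =>
      (hI t).2 (Or.inr ⟨(h5 t h6 h7).1, h8, (h5 t h6 h7).2⟩)
    have h7 : ∀ t, a ≤ t → t ≤ b → (t + φ t) % 2 = 1 → RC I t := fun t h7 h8 h9 => by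
      have h10 := h5 t h7 (by omega)
      have h11 := h2 t h10.2
      exact ⟨hP t h10.1 (by omega), h6 _ (by omega) (by omega) (by omega)⟩
    exact ⟨h6 a le_rfl (by omega), h7 a le_rfl h3.le, fun h8 => h6 b h3.le (by omega) (by omega),
      fun h8 => h7 b h3.le le_rfl (by omega)⟩

end Pool.Agent.Lib.MP_7e4769_co.Sp
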