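import Pool.Agent.Lib.MP_7e4769_co.Sp.YTile1

set_option autoImplicit false
set_option linter.unusedSectionVars false

namespace Pool.Agent.Lib.MP_7e4769_co.Sp

open Finset

variable {V : Type} [Fintype V] [DecidableEq V] {G : SimpleGraph V} [DecidableRel G.Adj]

theorem YTile2_per {α : Type} {L : ℕ} {f : ℤ → α} (h : ∀ t : ℤ, f (t + L) = f t) (t q : ℤ) :
    f (t + L * q) = f t := by
  induction q using Int.induction_on with
  | zero => simp
  | succ n ih => rw [← ih, ← h (t + L * n)]; congr 1; ring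
  | pred n ih => rw [← ih, ← h (t + L * (-(n : ℤ) - 1))]; congr 1; ring

theorem YTile2_per2 {L : ℕ} {B : ℤ → ℤ → Prop} (h : ∀ a b : ℤ, B (a + L) (b + L) ↔ B a b)
    (a b q : ℤ) : B (a + L * q) (b + L * q) ↔ B a b := by
  have h1 := YTile2_per (L := L) (f := fun s : ℤ => B (a + s) (b + s))
    (fun s => propext (by rw [← add_assoc, ← add_assoc]; exact h _ _)) 0 q
  simp only [zero_add, add_zero] at h1
  rw [h1]

/-- `φ t = ψ + #{k < (t - p) % L | K (p + k)}` -/
theorem phase_ex {L : ℕ} (hL : 0 < L) (K : ℤ → Prop) [DecidablePred K]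
    (hp : ∀ t : ℤ, K (t + L) ↔ K t) (p : ℤ)
    (he : ((range L).filter (fun k : ℕ => K (p + k))).card % 2 = 0) (ψ : ℤ) :
    ∃ φ : ℤ → ℤ, (∀ t : ℤ, φ (t + L) = φ t) ∧ φ p = ψ ∧
      (∀ t, K t → (φ (t + 1) + φ t) % 2 = 1) ∧ ∀ t, ¬ K t → (φ (t + 1) + φ t) % 2 = 0 := by
  have hL' : (0 : ℤ) < L := by exact_mod_cast hL
  refine ⟨fun t => ψ + (((range ((t - p) % L).toNat).filter (fun k : ℕ => K (p + k))).card : ℤ),
    fun t => ?_, by simp, ?_⟩
  · have e : (t + L - p) % L = (t - p) % L := by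
      rw [show t + L - p = t - p + L by ring, Int.add_emod_right]
    simp only [e]
  · have key : ∀ t : ℤ,
        ((((range ((t + 1 - p) % L).toNat).filter (fun k : ℕ => K (p + k))).card : ℤ) +
          (((range ((t - p) % L).toNat).filter (fun k : ℕ => K (p + k))).card : ℤ)) % 2 =
        if K t then 1 else 0 := by
      intro t
      obtain ⟨n, hn⟩ : ∃ n : ℕ, (t - p) % L = n :=
        ⟨((t - p) % L).toNat, (Int.toNat_of_nonneg (Int.emod_nonneg _ hL'.ne')).symm⟩
      have hlt : (n : ℤ) < L := hn ▸ Int.emod_lt_of_pos _ hL'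
      have ht : t = p + n + L * ((t - p) / L) := by
        have := Int.emod_add_mul_ediv (t - p) L
        linarith
      have hK : K t ↔ K (p + n) := by
        have := YTile2_per (L := L) (f := K) (fun s => propext (hp s)) (p + n) ((t - p) / L)
        rw [← ht] at this
        rw [this]
      have e1 : (t + 1 - p) % L = ((n : ℤ) + 1) % L := by
        have : t + 1 - p = (n : ℤ) + 1 + L * ((t - p) / L) := by linarith
        rw [this, Int.add_mul_emod_self_left]
      have hs : (((range (n + 1)).filter (fun k : ℕ => K (p + k))).card : ℤ) =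
          (((range n).filter (fun k : ℕ => K (p + k))).card : ℤ) + if K t then 1 else 0 := by
        rw [range_add_one, filter_insert]
        by_cases h : K t
        · rw [if_pos (hK.1 h), if_pos h, card_insert_of_notMem (by simp)]
          push_cast
          rfl
        · rw [if_neg (fun h' => h (hK.2 h')), if_neg h, add_zero]
      rw [e1, hn, Int.toNat_natCast]
      by_cases hc : n + 1 = L
      · have e2 : ((n : ℤ) + 1) % L = 0 := by
          rw [← hc]
          push_cast
          exact Int.emod_self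
        rw [← hc] at he
        rw [e2]
        simp only [Int.toNat_zero, range_zero, filter_empty, card_empty, Nat.cast_zero, zero_add]
        split_ifs at hs ⊢ <;> omega
      · have e2 : ((n : ℤ) + 1) % L = ((n + 1 : ℕ) : ℤ) := by
          push_cast
          exact Int.emod_eq_of_lt (by omega) (by omega)
        rw [e2, Int.toNat_natCast, hs]
        split_ifs <;> omega
    refine ⟨fun t ht => ?_, fun t ht => ?_⟩
    · have := key t
      rw [if_pos ht] at this
      simp only
      omega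
    · have := key t
      rw [if_neg ht] at this
      simp only
      omega


/-- If there is no even block take `Kp` empty. Else fix an even block `(a0, b0)` and count the right
ends of even blocks in the period that starts at `p = a0`. If the number is even let `Kp` be all even
blocks. If it is odd leave out the class of `(a0, b0)` (exactly one right end of it lies in the
period) and take `ψ` with `a0 + ψ` odd if `ch a0`, even if not. Then `phase_ex`, `tile_core`. -/
theorem tile_ex {L : ℕ} (hL : 0 < L) (hev : L % 2 = 0) {B : ℤ → ℤ → Prop} (hB : Blocks L B)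
    {ch : ℤ → Prop} (hc : ∀ t : ℤ, ch (t + L) ↔ ch t) :
    ∃ I : ℤ → Prop, Gaps L I ∧ ∀ a b, B a b → EndOK I (ch a) a b := by
  classical
  have odd : ∀ {I : ℤ → Prop} {a b x : ℤ}, (a + b) % 2 = 1 →
      (((a + x) % 2 = 0 → I a) ∧ ((a + x) % 2 = 1 → RC I a) ∧
        ((b + x) % 2 = 0 → I b) ∧ ((b + x) % 2 = 1 → RC I b)) → EndOK I (ch a) a b := by
    intro I a b x h ⟨g1, g2, g3, g4⟩
    refine Or.inl ⟨h, ?_⟩
    rcases Int.emod_two_eq_zero_or_one (a + x) with e | e
    · exact Or.inl ⟨g1 e, g4 (by omega)⟩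
    · exact Or.inr ⟨g2 e, g3 (by omega)⟩
  have ends : ∀ {Kp : ℤ → ℤ → Prop}, (∀ a b : ℤ, Kp (a + L) (b + L) ↔ Kp a b) →
      ∀ t : ℤ, (∃ a, Kp a (t + L)) ↔ ∃ a, Kp a t := by
    intro Kp h t
    constructor
    · rintro ⟨a, ha⟩
      exact ⟨a - L, (h _ _).1 (by rwa [sub_add_cancel])⟩
    · rintro ⟨a, ha⟩
      exact ⟨a + L, (h _ _).2 ha⟩
  have hA : ∀ a b : ℤ, (B (a + L) (b + L) ∧ (a + L + (b + L)) % 2 = 0) ↔
      (B a b ∧ (a + b) % 2 = 0) := fun a b => and_congr (hB.per a b) (by omega)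
  by_cases hN : ((range L).filter
      (fun k : ℕ => ∃ a, B a (0 + k) ∧ (a + (0 + (k : ℤ))) % 2 = 0)).card % 2 = 0
  · obtain ⟨φ, f0, -, f1, f2⟩ := phase_ex hL (fun t => ∃ a, B a t ∧ (a + t) % 2 = 0)
      (ends (Kp := fun a b => B a b ∧ (a + b) % 2 = 0) hA) 0 hN 0
    obtain ⟨I, hI, g1, g2⟩ := tile_core hev (Kp := fun a b => B a b ∧ (a + b) % 2 = 0) hB
      (fun a b h => h) hA φ f0 f1 f2
    refine ⟨I, hI, fun a b hab => ?_⟩
    rcases Int.emod_two_eq_zero_or_one (a + b) with e | e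
    · exact Or.inr ⟨e, (g1 a b ⟨hab, e⟩).imp_right Or.inl⟩
    · exact odd e (g2 a b hab fun h => by omega)
  · obtain ⟨k0, hk0⟩ : ((range L).filter
        (fun k : ℕ => ∃ a, B a (0 + k) ∧ (a + (0 + (k : ℤ))) % 2 = 0)).Nonempty := by
      rw [← card_pos]
      omega
    obtain ⟨hk1, a0, hb0, -⟩ := mem_filter.1 hk0
    rw [zero_add] at hb0
    have hk2 := mem_range.1 hk1
    have hA' : ∀ a b : ℤ, ((B (a + L) (b + L) ∧ (a + L + (b + L)) % 2 = 0) ∧
        ¬ (L : ℤ) ∣ b + L - k0) ↔ ((B a b ∧ (a + b) % 2 = 0) ∧ ¬ (L : ℤ) ∣ b - k0) := fun a b =>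
      and_congr (hA a b) (not_congr (by
        rw [show b + L - k0 = b - k0 + L by ring]
        exact dvd_add_self_right))
    have hcnt : (range L).filter (fun k : ℕ => ∃ a, (B a (0 + k) ∧ (a + (0 + (k : ℤ))) % 2 = 0) ∧
        ¬ (L : ℤ) ∣ 0 + k - k0) = ((range L).filter
        (fun k : ℕ => ∃ a, B a (0 + k) ∧ (a + (0 + (k : ℤ))) % 2 = 0)).erase k0 := by
      ext k
      simp only [mem_filter, mem_erase, mem_range]
      constructor
      · rintro ⟨h1, a, h2, h3⟩
        refine ⟨fun e => h3 ?_, h1, a, h2⟩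
        rw [e]
        simp
      · rintro ⟨h1, h2, a, h3⟩
        refine ⟨h2, a, h3, fun h4 => h1 ?_⟩
        have := Int.eq_zero_of_abs_lt_dvd h4 (abs_lt.2 ⟨by omega, by omega⟩)
        omega
    obtain ⟨φ, f0, -, f1, f2⟩ := phase_ex hL
      (fun t => ∃ a, (B a t ∧ (a + t) % 2 = 0) ∧ ¬ (L : ℤ) ∣ t - k0)
      (ends (Kp := fun a b => (B a b ∧ (a + b) % 2 = 0) ∧ ¬ (L : ℤ) ∣ b - k0) hA') 0
      (by rw [hcnt, card_erase_of_mem hk0]; have := card_pos.2 ⟨k0, hk0⟩; omega) 0
    obtain ⟨c, hc0⟩ : ∃ c : ℤ, (a0 + (φ a0 + c)) % 2 = if ch a0 then 1 else 0 :=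
      ⟨(if ch a0 then 1 else 0) - a0 - φ a0, by split_ifs <;> omega⟩
    obtain ⟨I, hI, g1, g2⟩ := tile_core hev
      (Kp := fun a b => (B a b ∧ (a + b) % 2 = 0) ∧ ¬ (L : ℤ) ∣ b - k0) hB
      (fun a b h => h.1) hA' (fun t => φ t + c) (fun t => by simp only [f0])
      (fun t h => by have := f1 t h; omega)
      (fun t h => by have := f2 t h; omega)
    refine ⟨I, hI, fun a b hab => ?_⟩
    rcases Int.emod_two_eq_zero_or_one (a + b) with e | e
    · by_cases hd : (L : ℤ) ∣ b - k0
      · obtain ⟨q, hq⟩ := hd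
        have h1 : B (a0 + L * q) b := by
          have := (YTile2_per2 hB.per a0 k0 q).2 hb0
          rwa [show (k0 : ℤ) + L * q = b by linarith] at this
        have h2 : a = a0 + L * q := by
          rcases le_total a (a0 + L * q) with h | h
          · exact (hB.dis _ _ _ _ hab h1 h (hB.lt _ _ h1).1.le).1.symm
          · exact (hB.dis _ _ _ _ h1 hab h (hB.lt _ _ hab).1.le).1
        have h3 : φ a = φ a0 := by rw [h2]; exact YTile2_per f0 a0 q
        have h4 : ch a = ch a0 := by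
          rw [h2]; exact YTile2_per (f := ch) (fun s => propext (hc s)) a0 q
        obtain ⟨m, hm⟩ : ∃ m : ℤ, (L : ℤ) * q = 2 * m :=
          ⟨(L : ℤ) / 2 * q, by rw [← mul_assoc, show 2 * ((L : ℤ) / 2) = L by omega]⟩
        obtain ⟨u1, u2, u3, u4⟩ := g2 a b hab fun h => h.2 ⟨q, hq⟩
        simp only [h3] at u1 u2 u3 u4
        refine Or.inr ⟨e, Or.inr (Or.inr ?_)⟩
        rw [h4]
        by_cases h5 : ch a0
        · rw [if_pos h5] at hc0
          exact Or.inl ⟨h5, u2 (by omega), u4 (by omega)⟩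
        · rw [if_neg h5] at hc0
          exact Or.inr ⟨h5, u1 (by omega), u3 (by omega)⟩
      · exact Or.inr ⟨e, (g1 a b ⟨⟨hab, e⟩, hd⟩).imp_right Or.inl⟩
    · exact odd e (g2 a b hab fun h => by have := h.1.2; omega)

end Pool.Agent.Lib.MP_7e4769_co.Sp
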