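import Pool.Agent.Lib.MP_7e4769_co.Sp.ZArc

set_option autoImplicit false
set_option linter.unusedSectionVars false

namespace Pool.Agent.Lib.MP_7e4769_co.Sp

open Finset

variable {V : Type} [Fintype V] [DecidableEq V] {G : SimpleGraph V} [DecidableRel G.Adj]

theorem zear_inj {L : ℕ} {z o : ℤ → V} (h : CZ G L z o) {i j : ℤ} (h1 : i < j) (h2 : j < i + L) :
    z i ≠ z j := by
  intro hz
  obtain ⟨k, hk⟩ := h.eq_iff.1 hz
  have hL : (0 : ℤ) < L := by omega
  rcases le_or_gt k 0 with hk0 | hk0
  · have := mul_nonpos_of_nonpos_of_nonneg hk0 hL.le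
    omega
  · have : 1 * (L : ℤ) ≤ k * L := mul_le_mul_of_nonneg_right (by omega) hL.le
    omega

/-- the cycle `z t, l, z (t + d)` and back along the arc has `l.length + 1 + d` vertices; it has at
least three, because `d = 1`, `l = []` contradicts `on` -/
theorem ear_aux {L : ℕ} {z o : ℤ → V} (h : CZ G L z o) {t : ℤ} {d : ℕ} {l : List V}
    (he : EarL G z o t l (t + d)) (h0 : 0 < d) (hl : l.length + 1 + d < L) :
    (l.length + 1 + d) % 2 = 1 := by
  have hb := h.big
  obtain ⟨e, rfl⟩ : ∃ e, d = e + 1 := ⟨d - 1, by omega⟩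
  have hq : t + ((e + 1 : ℕ) : ℤ) = t + e + 1 := by push_cast; ring
  rw [hq] at he
  have hp : Pth G (z t) (l ++ z (t + e + 1) :: (arcF z t e).reverse) (z t) :=
    he.pth.append (h.pth_arc t e).symm
  have hlen : (l ++ z (t + e + 1) :: (arcF z t e).reverse).length = l.length + 1 + e := by
    simp only [List.length_append, List.length_cons, List.length_reverse, length_arcF]
    omega
  have hnd : (z t :: (l ++ z (t + e + 1) :: (arcF z t e).reverse)).Nodup := by
    rw [List.nodup_cons, List.nodup_append, List.nodup_cons, List.nodup_reverse]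
    refine ⟨?_, he.nd, ⟨?_, h.nodup_arc t (by omega)⟩, ?_⟩
    · intro hm
      rcases List.mem_append.1 hm with hm | hm
      · exact he.off _ hm ⟨t, rfl⟩
      · rcases List.mem_cons.1 hm with hm | hm
        · exact he.ne hm
        · obtain ⟨k, h1, h2, h3⟩ := mem_arcF.1 (List.mem_reverse.1 hm)
          exact zear_inj h h1 (by omega) h3.symm
    · intro hm
      obtain ⟨k, h1, h2, h3⟩ := mem_arcF.1 (List.mem_reverse.1 hm)
      exact zear_inj h (by omega) (by omega) h3
    · intro a ha b hb' hab
      subst hab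
      rcases List.mem_cons.1 hb' with hm | hm
      · exact he.off _ ha ⟨_, hm.symm⟩
      · obtain ⟨k, _, _, h3⟩ := mem_arcF.1 (List.mem_reverse.1 hm)
        exact he.off _ ha ⟨k, h3⟩
  have h2 : 2 ≤ l.length + 1 + e := by
    by_contra hc
    have hl0 : l = [] := List.eq_nil_of_length_eq_zero (by omega)
    have he0 : e = 0 := by omega
    subst hl0
    subst he0
    have hf := he.fs
    simp only [fst, List.headD_nil, Nat.cast_zero, add_zero] at hf
    exact h.on t hf.symm
  have hk := h.ne (z t) _ ⟨hp, hnd, by rw [hlen]; exact h2⟩ (by rw [hlen]; omega)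
  rw [hlen] at hk
  omega

/-- ear parity: take the representative of `u` in the window at `t`; use `ear_aux` for the ear or
for its reverse, whichever has the shorter arc -/
theorem ear_par (hG : G.IsRegularOfDegree 3) {L : ℕ} {z o : ℤ → V} (h : CZ G L z o) {t u : ℤ}
    {l : List V} (he : EarL G z o t l u) (hl : l.length ≤ 8) :
    ((l.length : ℤ) + t + u) % 2 = 0 := by
  have hb := h.big
  have hev := h.ev
  obtain ⟨j, hj1, hj2, k, hk⟩ := h.rep t u
  have hz : z u = z j := h.eq_iff.2 ⟨k, hk⟩
  have hpar := h.par hz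
  have hjt : j ≠ t := by
    intro hc
    exact he.ne (by rw [hz, hc])
  by_cases hc : j - t + 9 < L
  · obtain ⟨d, hd⟩ : ∃ d : ℕ, j = t + d := ⟨(j - t).toNat, by omega⟩
    have he' : EarL G z o t l (t + d) := he.congr h rfl (by rw [hz, hd])
    have := ear_aux h he' (by omega) (by omega)
    omega
  · obtain ⟨d, hd⟩ : ∃ d : ℕ, t + L = j + d := ⟨(t + L - j).toNat, by omega⟩
    have he' : EarL G z o j l.reverse (j + d) :=
      (he.symm hG h).congr h hz (by rw [← hd, h.per])
    have := ear_aux h he' (by omega) (by rw [List.length_reverse]; omega)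
    rw [List.length_reverse] at this
    omega

theorem zear_first (l m : List V) (h : ∃ y ∈ m, y ∈ l) :
    ∃ m1 w m2, m = m1 ++ w :: m2 ∧ w ∈ l ∧ ∀ v ∈ m1, v ∉ l := by
  induction m with
  | nil => simp at h
  | cons a m ih =>
    by_cases ha : a ∈ l
    · exact ⟨[], a, m, rfl, ha, by simp⟩
    · obtain ⟨y, hy, hyl⟩ := h
      rcases List.mem_cons.1 hy with hy | hy
      · exact absurd (hy ▸ hyl) ha
      · obtain ⟨m1, w, m2, e, hw, hm⟩ := ih ⟨y, hy, hyl⟩
        refine ⟨a :: m1, w, m2, by rw [e]; rfl, hw, ?_⟩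
        intro v hv
        rcases List.mem_cons.1 hv with hv | hv
        · rw [hv]; exact ha
        · exact hm v hv

/-- Tripod. Let `y` be the first vertex of `m` on `l`, `m = m1 ++ y :: m2`, `l = l1 ++ y :: l2`.
If `z u` is not an end of `l`, the three ears `l`, `m1 ++ y :: l2`, `m1 ++ y :: l1.reverse`
contradict `ear_par`. -/
theorem tripod (hG : G.IsRegularOfDegree 3) {L : ℕ} {z o : ℤ → V} (h : CZ G L z o)
    {t t' u u' : ℤ} {l m : List V} (h1 : EarL G z o t l t') (h2 : EarL G z o u m u')
    (hl : l.length ≤ 4) (hm : m.length ≤ 4) {y : V} (hy : y ∈ l) (hy' : y ∈ m) :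
    z u = z t ∨ z u = z t' := by
  by_contra hc
  rw [not_or] at hc
  obtain ⟨m1, w, m2, rfl, hw, hm1⟩ := zear_first l m ⟨y, hy', hy⟩
  obtain ⟨l1, l2, rfl⟩ := List.append_of_mem hw
  have p1 := h1.pth.split
  have p2 := h2.pth.split
  have n1 := List.nodup_append.1 h1.nd
  have n2 := List.nodup_append.1 h2.nd
  have n3 := List.nodup_cons.1 n1.2.1
  simp only [List.length_append, List.length_cons] at hl hm
  have eA : EarL G z o u (m1 ++ w :: l2) t' := by
    refine earL_of hG h hc.2 (p2.1.append p1.2) ?_ ?_ (by simp)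
    · refine List.nodup_append.2 ⟨n2.1, n1.2.1, ?_⟩
      intro a ha b hb hab
      subst hab
      exact hm1 a ha (List.mem_append_right _ hb)
    · intro v hv
      rcases List.mem_append.1 hv with hv | hv
      · exact h2.off v (List.mem_append_left _ hv)
      · exact h1.off v (List.mem_append_right _ hv)
  have eB : EarL G z o u (m1 ++ w :: l1.reverse) t := by
    refine earL_of hG h hc.1 (p2.1.append p1.1.symm) ?_ ?_ (by simp)
    · refine List.nodup_append.2 ⟨n2.1, ?_, ?_⟩
      · refine List.nodup_cons.2 ⟨?_, List.nodup_reverse.2 n1.1⟩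
        intro hh
        exact n1.2.2 w (List.mem_reverse.1 hh) w List.mem_cons_self rfl
      · intro a ha b hb hab
        subst hab
        rcases List.mem_cons.1 hb with hb | hb
        · exact hm1 a ha (by rw [hb]; exact hw)
        · exact hm1 a ha (List.mem_append_left _ (List.mem_reverse.1 hb))
    · intro v hv
      rcases List.mem_append.1 hv with hv | hv
      · exact h2.off v (List.mem_append_left _ hv)
      · rcases List.mem_cons.1 hv with hv | hv
        · exact h1.off v (by rw [hv]; exact hw)
        · exact h1.off v (List.mem_append_left _ (List.mem_reverse.1 hv))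
  have q1 := ear_par hG h h1 (by simp only [List.length_append, List.length_cons]; omega)
  have q2 := ear_par hG h eA (by simp only [List.length_append, List.length_cons]; omega)
  have q3 := ear_par hG h eB
    (by simp only [List.length_append, List.length_cons, List.length_reverse]; omega)
  simp only [List.length_append, List.length_cons, List.length_reverse] at q1 q2 q3
  omega

theorem zear_end (hG : G.IsRegularOfDegree 3) {L : ℕ} {z o : ℤ → V} (h : CZ G L z o)
    {t t' u u' : ℤ} {l m : List V} (h1 : EarL G z o t l t') (h2 : EarL G z o u m u')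
    (hl : l.length ≤ 4) (hm : m.length ≤ 4) (c : z u = z t) : z u' = z t' := by
  have ho : o u = o t := h.o_eq c
  have f1 := h1.fs
  have f2 := h2.fs
  cases l with
  | nil =>
    have hm0 : m = [] := h2.nil_iff.2 (by rw [ho]; exact h1.nil_iff.1 rfl)
    subst hm0
    simp only [fst, List.headD_nil] at f1 f2
    rw [f1, f2, ho]
  | cons a l0 =>
    cases m with
    | nil =>
      have hh : a :: l0 = [] := h1.nil_iff.2 (by rw [← ho]; exact h2.nil_iff.1 rfl)
      exact absurd hh (List.cons_ne_nil _ _)
    | cons b m0 =>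
      simp only [fst, List.headD_cons] at f1 f2
      have hab : a = b := by rw [f1, f2, ho]
      have hb : a ∈ (b :: m0).reverse := List.mem_reverse.2 (by rw [hab]; exact List.mem_cons_self)
      rcases tripod hG h h1 (h2.symm hG h) hl (by rw [List.length_reverse]; exact hm)
        List.mem_cons_self hb with c' | c'
      · exact absurd (c.trans c'.symm) h2.ne
      · exact c'

/-- two short ears have the same ends, or are disjoint with four different ends (a common end
gives a common first vertex `o`, or both are chords) -/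
theorem ear_two (hG : G.IsRegularOfDegree 3) {L : ℕ} {z o : ℤ → V} (h : CZ G L z o)
    {t t' u u' : ℤ} {l m : List V} (h1 : EarL G z o t l t') (h2 : EarL G z o u m u')
    (hl : l.length ≤ 4) (hm : m.length ≤ 4) :
    (z u = z t ∧ z u' = z t') ∨ (z u = z t' ∧ z u' = z t) ∨
    (z u ≠ z t ∧ z u ≠ z t' ∧ z u' ≠ z t ∧ z u' ≠ z t' ∧ ∀ y ∈ l, y ∉ m) := by
  have s1 := h1.symm hG h
  have s2 := h2.symm hG h
  have hl' : l.reverse.length ≤ 4 := by rw [List.length_reverse]; exact hl
  have hm' : m.reverse.length ≤ 4 := by rw [List.length_reverse]; exact hm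
  by_cases c1 : z u = z t
  · exact Or.inl ⟨c1, zear_end hG h h1 h2 hl hm c1⟩
  by_cases c2 : z u = z t'
  · exact Or.inr (Or.inl ⟨c2, zear_end hG h s1 h2 hl' hm c2⟩)
  refine Or.inr (Or.inr ⟨c1, c2, ?_, ?_, ?_⟩)
  · intro c3
    exact c2 (zear_end hG h h1 s2 hl hm' c3)
  · intro c4
    exact c1 (zear_end hG h s1 s2 hl' hm' c4)
  · intro y hy hy'
    rcases tripod hG h h1 h2 hl hm hy hy' with c | c
    · exact c1 c
    · exact c2 c

end Pool.Agent.Lib.MP_7e4769_co.Sp
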