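import Pool.Agent.Lib.MP_7e4769_co.Sp.YDefs
import Pool.Agent.Lib.MP_7e4769_co.Sp.ZEar

set_option autoImplicit false
set_option linter.unusedSectionVars false

namespace Pool.Agent.Lib.MP_7e4769_co.Sp

open Finset

variable {V : Type} [Fintype V] [DecidableEq V] {G : SimpleGraph V} [DecidableRel G.Adj]

theorem tg_ex (hG : G.IsRegularOfDegree 3) (z o : ℤ → V) :
    ∃ ta tb tc : V → V, TG G z o ta tb tc := by
  have key : ∀ w, ∃ a b c, (∃ a b, ¬ OnZ z a ∧ ¬ OnZ z b ∧ G.Adj w a ∧ G.Adj w b ∧ G.Adj a b) →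
      (¬ OnZ z a ∧ ¬ OnZ z b ∧ G.Adj w a ∧ G.Adj w b ∧ G.Adj a b) ∧ G.Adj b c ∧ c ≠ w ∧ c ≠ a := by
    intro w
    by_cases h : ∃ a b, ¬ OnZ z a ∧ ¬ OnZ z b ∧ G.Adj w a ∧ G.Adj w b ∧ G.Adj a b
    · obtain ⟨a, b, h⟩ := h
      obtain ⟨c, hc⟩ := nbrs_of2 hG (v := b) w a
      exact ⟨a, b, c, fun _ => ⟨h, hc⟩⟩
    · exact ⟨w, w, w, fun e => (h e).elim⟩
  choose ta tb tc k using key
  exact ⟨ta, tb, tc, fun _ h => (k _ h.2).1.1, fun _ h => (k _ h.2).1.2.1,
    fun _ h => (k _ h.2).1.2.2.1, fun _ h => (k _ h.2).1.2.2.2.1, fun _ h => (k _ h.2).1.2.2.2.2,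
    fun _ h => (k _ h.2).2.1, fun _ h => (k _ h.2).2.2.1, fun _ h => (k _ h.2).2.2.2⟩

theorem ytri_one (hG : G.IsRegularOfDegree 3) {L : ℕ} {z o : ℤ → V} (h : CZ G L z o) {t u : ℤ}
    {w a b : V} {r : List V} (hb : ¬ OnZ z b) (h1 : G.Adj w b) (h2 : G.Adj b a)
    (he : EarL G z o t (w :: a :: r) u) (hl : r.length ≤ 5) (hr : b ∉ r) : False := by
  have p := pth_cons.1 he.pth
  have n := List.nodup_cons.1 he.nd
  have e : EarL G z o t (w :: b :: a :: r) u := ⟨he.ne,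
    pth_cons.2 ⟨p.1, pth_cons.2 ⟨h1, pth_cons.2 ⟨h2, (pth_cons.1 p.2).2⟩⟩⟩,
    List.nodup_cons.2 ⟨List.not_mem_cons_of_ne_of_not_mem h1.ne n.1,
      List.nodup_cons.2 ⟨List.not_mem_cons_of_ne_of_not_mem h2.ne hr, n.2⟩⟩,
    List.forall_mem_cons.2 ⟨he.off w List.mem_cons_self, List.forall_mem_cons.2
      ⟨hb, fun v hv => he.off v (List.mem_cons_of_mem _ hv)⟩⟩, he.fs⟩
  have q1 := ear_par hG h he (by simp only [List.length_cons]; omega)
  have q2 := ear_par hG h e (by simp only [List.length_cons]; omega)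
  simp only [List.length_cons] at q1 q2
  omega

theorem ytri_two (hG : G.IsRegularOfDegree 3) {L : ℕ} {z o : ℤ → V} (h : CZ G L z o) {t u : ℤ}
    {w a b : V} {r : List V} (hb : ¬ OnZ z b) (h1 : G.Adj w b) (h2 : G.Adj b a)
    (he : EarL G z o t (w :: a :: r) u) (hl : r.length ≤ 5) : False := by
  refine ytri_one hG h hb h1 h2 he hl fun hr => ?_
  obtain ⟨m, m', rfl⟩ := List.append_of_mem hr
  have p := pth_cons.1 he.pth
  have q := pth_cons.1 p.2
  have s : (w :: b :: m').Sublist (w :: a :: (m ++ b :: m')) :=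
    ((List.sublist_append_right m _).cons a).cons_cons w
  rw [List.length_append, List.length_cons] at hl
  exact ytri_one hG h (he.off a (List.mem_cons_of_mem _ List.mem_cons_self)) q.1 h2.symm
    ⟨he.ne, pth_cons.2 ⟨p.1, pth_cons.2 ⟨h1, q.2.split.2⟩⟩, he.nd.sublist s,
      fun v hv => he.off v (s.subset hv), he.fs⟩ (by omega)
    fun e => (List.nodup_cons.1 (List.nodup_cons.1 he.nd).2).1
      (List.mem_append_right _ (List.mem_cons_of_mem _ e))

/-- no short ear starts at a hanging triangle -/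
theorem tri_no_ear (hG : G.IsRegularOfDegree 3) {L : ℕ} {z o : ℤ → V} (h : CZ G L z o) {t u : ℤ}
    {l : List V} (ht : Tri G z o t) (he : EarL G z o t l u) (hl : l.length ≤ 7) : False := by
  obtain ⟨h0, a, b, ha, hb, h1, h2, h3⟩ := ht
  have nb := nbrs_all hG (h.oadj t).symm h1 h2 (fun e => ha ⟨t, e⟩) (fun e => hb ⟨t, e⟩) h3.ne
  rcases l with _ | ⟨w, _ | ⟨x, r⟩⟩
  · exact h0 (he.nil_iff.1 rfl)
  · obtain rfl : w = o t := he.fs
    rcases nb _ (pth_nil.1 (pth_cons.1 he.pth).2) with e | e | e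
    · exact he.ne e.symm
    · exact ha ⟨u, e⟩
    · exact hb ⟨u, e⟩
  · obtain rfl : w = o t := he.fs
    simp only [List.length_cons] at hl
    rcases nb _ (pth_cons.1 (pth_cons.1 he.pth).2).1 with rfl | rfl | rfl
    · exact he.off _ (List.mem_cons_of_mem _ List.mem_cons_self) ⟨t, rfl⟩
    · exact ytri_two hG h hb h2 h3.symm he (by omega)
    · exact ytri_two hG h ha h1 h3 he (by omega)

/-- ear parity with one more vertex -/
theorem ear_par9 (hG : G.IsRegularOfDegree 3) {L : ℕ} {z o : ℤ → V} (h : CZ G L z o)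
    {t u : ℤ} {l : List V} (he : EarL G z o t l u) (hl : l.length ≤ 9) :
    ((l.length : ℤ) + t + u) % 2 = 0 := by
  have hb := h.big
  have hev := h.ev
  obtain ⟨j, hj1, hj2, k, hk⟩ := h.rep t u
  have hz : z u = z j := h.eq_iff.2 ⟨k, hk⟩
  have hpar := h.par hz
  have hjt : j ≠ t := fun hc => he.ne (by rw [hz, hc])
  by_cases hc : j - t + 10 < L
  · obtain ⟨d, hd⟩ : ∃ d : ℕ, j = t + d := ⟨(j - t).toNat, by omega⟩
    have := ear_aux h (he.congr h rfl (hd ▸ hz)) (by omega) (by omega)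
    omega
  · obtain ⟨d, hd⟩ : ∃ d : ℕ, t + L = j + d := ⟨(t + L - j).toNat, by omega⟩
    have := ear_aux h ((he.symm hG h).congr h hz (hd ▸ (h.per t).symm)) (by omega)
      (by rw [List.length_reverse]; omega)
    rw [List.length_reverse] at this
    omega

theorem TG.nb_o (hG : G.IsRegularOfDegree 3) {L : ℕ} {z o : ℤ → V} (h : CZ G L z o)
    {ta tb tc : V → V} (hg : TG G z o ta tb tc) {t : ℤ} (ht : Tri G z o t) {x : V}
    (hx : G.Adj (o t) x) : x = z t ∨ x = ta (o t) ∨ x = tb (o t) := by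
  exact nbrs_all hG (h.oadj t).symm (hg.oa t ht) (hg.ob t ht) (fun e => hg.offa t ht ⟨t, e⟩)
    (fun e => hg.offb t ht ⟨t, e⟩) (hg.ab t ht).ne x hx

theorem TG.nb_b (hG : G.IsRegularOfDegree 3) {z o : ℤ → V} {ta tb tc : V → V}
    (hg : TG G z o ta tb tc) {t : ℤ} (ht : Tri G z o t) {x : V}
    (hx : G.Adj (tb (o t)) x) : x = o t ∨ x = ta (o t) ∨ x = tc (o t) := by
  exact nbrs_all hG (hg.ob t ht).symm (hg.ab t ht).symm (hg.bc t ht) (hg.oa t ht).ne
    (hg.co t ht).symm (hg.ca t ht).symm x hx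

/-- no 4-cycle `o, ta, tc, tb` -/
theorem TG.ac {L : ℕ} {z o : ℤ → V} (h : CZ G L z o) {ta tb tc : V → V}
    (hg : TG G z o ta tb tc) {t : ℤ} (ht : Tri G z o t) : ¬ G.Adj (ta (o t)) (tc (o t)) := by
  intro e
  have hb := h.big
  have := h.ne (o t) [ta (o t), tc (o t), tb (o t)] ⟨pth_cons.2 ⟨hg.oa t ht, pth_cons.2
    ⟨e, pth_cons.2 ⟨(hg.bc t ht).symm, pth_nil.2 (hg.ob t ht).symm⟩⟩⟩, by
      simp [(hg.oa t ht).ne, (hg.co t ht).symm, (hg.ob t ht).ne, e.ne, (hg.ab t ht).ne,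
        (hg.bc t ht).ne'], by simp⟩ (by simp only [List.length_cons, List.length_nil]; omega)
  simp at this

/-- cut the loops out of a walk -/
theorem pth_short {x y : V} {l : List V} (hp : Pth G x l y) (h0 : l ≠ []) :
    ∃ l' : List V, Pth G x l' y ∧ l' ≠ [] ∧ l'.Nodup ∧ (∀ v ∈ l', v ∈ l) ∧
      l'.length ≤ l.length := by
  have key : ∀ (l : List V) (a : V), Pth G a l y →
      ∃ l', Pth G a l' y ∧ (a :: l').Nodup ∧ l'.Sublist l := by
    intro l
    induction l with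
    | nil => exact fun a p => ⟨[], p, List.nodup_singleton a, List.Sublist.refl _⟩
    | cons b r ih =>
      intro a p
      obtain ⟨r', p', n, s⟩ := ih b (pth_cons.1 p).2
      have q := pth_cons.2 ⟨(pth_cons.1 p).1, p'⟩
      by_cases ha : a ∈ b :: r'
      · obtain ⟨A, C, e⟩ := List.append_of_mem ha
        have s' : (a :: C).Sublist (b :: r') := e ▸ List.sublist_append_right A _
        exact ⟨C, (e ▸ q).split.2, n.sublist s',
          ((List.sublist_cons_self a C).trans s').trans (s.cons_cons b)⟩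
      · exact ⟨b :: r', q, List.nodup_cons.2 ⟨ha, n⟩, s.cons_cons b⟩
  obtain ⟨a, r, rfl⟩ := List.exists_cons_of_ne_nil h0
  obtain ⟨r', p, n, s⟩ := key r a (pth_cons.1 hp).2
  exact ⟨a :: r', pth_cons.2 ⟨(pth_cons.1 hp).1, p⟩, List.cons_ne_nil _ _, n,
    fun v hv => (s.cons_cons a).subset hv, (s.cons_cons a).length_le⟩

/-- The region of a hanging triangle is far from everything else: a short WALK off the cycle from
`z t` to `z u` has `z u = z t`. -/
theorem tri_foot (hG : G.IsRegularOfDegree 3) {L : ℕ} {z o : ℤ → V} (h : CZ G L z o) {t u : ℤ}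
    (ht : Tri G z o t) {l : List V} (hp : Pth G (z t) l (z u))
    (ho : ∀ v ∈ l, ¬ OnZ z v) (h0 : l ≠ []) (hl : l.length ≤ 7) : z u = z t := by
  by_contra e
  obtain ⟨l', p, n0, n, s, k⟩ := pth_short hp h0
  exact tri_no_ear hG h ht (earL_of hG h (Ne.symm e) p n (fun v hv => ho v (s v hv)) n0) (k.trans hl)

theorem TG.offc (hG : G.IsRegularOfDegree 3) {L : ℕ} {z o : ℤ → V} (h : CZ G L z o)
    {ta tb tc : V → V} (hg : TG G z o ta tb tc) {t : ℤ} (ht : Tri G z o t) :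
    ¬ OnZ z (tc (o t)) := by
  rintro ⟨u, e⟩
  have h1 := e ▸ hg.bc t ht
  have h2 := tri_foot hG h ht (l := [o t, tb (o t)])
    (pth_cons.2 ⟨h.oadj t, pth_cons.2 ⟨hg.ob t ht, pth_nil.2 h1⟩⟩)
    (List.forall_mem_cons.2 ⟨ht.1, List.forall_mem_singleton.2 (hg.offb t ht)⟩)
    (List.cons_ne_nil _ _) (by simp)
  exact (hg.ob t ht).ne' (h.nb_off hG t (h2 ▸ h1.symm) (hg.offb t ht))

/-- `Tri` depends on `o t` only -/
theorem Tri.congr {z o : ℤ → V} {t u : ℤ} (ht : Tri G z o t) (e : o t = o u) : Tri G z o u := by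
  unfold Tri at ht ⊢
  rwa [← e]

end Pool.Agent.Lib.MP_7e4769_co.Sp
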