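import Pool.Agent.Lib.MP_7e4769_co.Sp.YTri
import Pool.Agent.Lib.MP_7e4769_co.Sp.ZSets

set_option autoImplicit false
set_option linter.unusedSectionVars false

namespace Pool.Agent.Lib.MP_7e4769_co.Sp

open Finset

variable {V : Type} [Fintype V] [DecidableEq V] {G : SimpleGraph V} [DecidableRel G.Adj]

variable {L : ℕ} {z o : ℤ → V} {I : ℤ → Prop} {ta tb tc : V → V}


theorem yv1_i (h : CZ G L z o) (hI : Gaps L I) {i j : ℤ} (hij : z i = z j) (hi : I i) : I j := by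
  have := hI.congr h hij 0
  rw [add_zero, add_zero] at this
  exact this.1 hi

theorem yv1_rc (h : CZ G L z o) (hI : Gaps L I) {i j : ℤ} (hij : z i = z j) (hi : RC I i) :
    RC I j := by
  have h1 := hI.congr h hij (-1)
  have h2 := hI.congr h hij 1
  rw [← sub_eq_add_neg, ← sub_eq_add_neg] at h1
  exact ⟨h1.1 hi.1, h2.1 hi.2⟩

/-- an ear with one or three inner vertices joins `I` and role C (`ear_par`) -/
theorem role_odd (hG : G.IsRegularOfDegree 3) (h : CZ G L z o) (hI : Gaps L I)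
    (r : ∀ t u, Ear G z o t u → EndOK I (OnZ z (o t)) t u) {t u : ℤ} {l : List V}
    (he : EarL G z o t l u) (hl : l.length = 1 ∨ l.length = 3) :
    (I t ∧ RC I u) ∨ (RC I t ∧ I u) := by
  have hp := ear_par hG h he (by omega)
  rcases r t u ⟨l, by omega, he⟩ with h1 | h1
  · exact h1.2
  · have := h1.1
    omega

/-- an ear with two or four inner vertices (`ear_par`, `EarL.nil_iff`) -/
theorem role_even (hG : G.IsRegularOfDegree 3) (h : CZ G L z o) (hI : Gaps L I)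
    (r : ∀ t u, Ear G z o t u → EndOK I (OnZ z (o t)) t u) {t u : ℤ} {l : List V}
    (he : EarL G z o t l u) (hl : l.length = 2 ∨ l.length = 4) :
    (I t ∧ RM I u) ∨ (RM I t ∧ I u) ∨ (I t ∧ I u) := by
  have hp := ear_par hG h he (by omega)
  have hc : ¬ OnZ z (o t) := fun hc => by
    rw [he.nil_iff.2 hc] at hl
    simp at hl
  rcases r t u ⟨l, by omega, he⟩ with h1 | ⟨-, h1 | h1 | h1 | h1⟩
  · have := h1.1
    omega
  · exact Or.inl h1
  · exact Or.inr (Or.inl h1)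
  · exact absurd h1.1 hc
  · exact Or.inr (Or.inr h1.2)

/-- a chord (`earL_chord`, `ear_par`) -/
theorem val4_v1 (hG : G.IsRegularOfDegree 3) (h : CZ G L z o) (hI : Gaps L I)
    (r : ∀ t u, Ear G z o t u → EndOK I (OnZ z (o t)) t u) (t u : ℤ) (e : o t = z u) :
    (RC I t ∧ RC I u) ∨ (I t ∧ RM I u) ∨ (RM I t ∧ I u) := by
  have he := earL_chord h e
  have hp := ear_par hG h he (by simp)
  rcases r t u ⟨[], by simp, he⟩ with h1 | ⟨-, h1 | h1 | h1 | h1⟩
  · have := h1.1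
    simp only [List.length_nil] at hp
    omega
  · exact Or.inr (Or.inl h1)
  · exact Or.inr (Or.inr h1)
  · exact Or.inl h1.2
  · exact absurd ⟨u, e.symm⟩ h1.1

/-- on the cycle `CZ.chord` twice; off the cycle the ear `[o t]` -/
theorem val4_v2 (hG : G.IsRegularOfDegree 3) (h : CZ G L z o) (hI : Gaps L I)
    (r : ∀ t u, Ear G z o t u → EndOK I (OnZ z (o t)) t u) (t u : ℤ) (ht : ¬ I t)
    (hu : ¬ I u) (e : o t = o u) : z t = z u := by
  by_cases hc : OnZ z (o t)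
  · obtain ⟨s, hs⟩ := hc
    exact (h.chord hG hs.symm).symm.trans (h.chord hG (e.symm.trans hs.symm))
  · by_contra hne
    have hp : Pth G (z t) [o t] (z u) := pth_cons.2 ⟨h.oadj t, pth_nil.2 (e ▸ (h.oadj u).symm)⟩
    rcases role_odd hG h hI r (earL_of hG h hne hp (by simp) (by simpa using hc) (by simp))
      (Or.inl rfl) with h1 | h1
    · exact ht h1.1
    · exact hu h1.2

theorem yv1_two (hG : G.IsRegularOfDegree 3) (h : CZ G L z o) (hI : Gaps L I)
    (r : ∀ t u, Ear G z o t u → EndOK I (OnZ z (o t)) t u) {t u : ℤ} (ht : ¬ I t) (hu : ¬ I u)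
    (h1 : ¬ OnZ z (o t)) (h2 : ¬ OnZ z (o u)) : ¬ G.Adj (o t) (o u) := by
  intro ha
  have hne : z t ≠ z u := fun hz => ha.ne (h.o_eq hz)
  have hp : Pth G (z t) [o t, o u] (z u) :=
    pth_cons.2 ⟨h.oadj t, pth_cons.2 ⟨ha, pth_nil.2 (h.oadj u).symm⟩⟩
  rcases role_even hG h hI r (earL_of hG h hne hp (by simpa using ha.ne) (by simp [h1, h2])
    (by simp)) (Or.inl rfl) with h3 | h3 | h3
  · exact ht h3.1
  · exact hu h3.2
  · exact ht h3.1

/-- the ear `[o t, o u]` -/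
theorem val4_v3 (hG : G.IsRegularOfDegree 3) (h : CZ G L z o) (hI : Gaps L I)
    (r : ∀ t u, Ear G z o t u → EndOK I (OnZ z (o t)) t u) (w w' : V)
    (hw : W4 G z o I w) (hw' : W4 G z o I w') : ¬ G.Adj w w' := by
  obtain ⟨hw, t, ht, -, rfl⟩ := hw
  obtain ⟨hw', u, hu, -, rfl⟩ := hw'
  exact yv1_two hG h hI r (ht.notI hI) (hu.notI hI) hw hw'

/-- `S4` without the triangle vertices is independent. Ears: `I O`: `[o t]`; `I J`: `[o t, o u]`;
`O O`: `[o t, o u]`; `O J`: `[o t, j, o u]`; `J J`: `[o t, j, j', o u]` (same foot gives `Tri`).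
For `I I` use `CZ.nb`, `ind`, `Gaps.congr`, `val4_v1`. -/
theorem val4_a (hG : G.IsRegularOfDegree 3) (h : CZ G L z o) (hI : Gaps L I)
    (r : ∀ t u, Ear G z o t u → EndOK I (OnZ z (o t)) t u) (a b : V)
    (ha : (∃ t, I t ∧ z t = a) ∨ O4 z o I a ∨ J4 G z o I a)
    (hb : (∃ t, I t ∧ z t = b) ∨ O4 z o I b ∨ J4 G z o I b) : ¬ G.Adj a b := by
  have II : ∀ t u, I t → I u → ¬ G.Adj (z t) (z u) := by
    intro t u ht hu ha
    rcases h.nb hG t ha with h1 | h1 | h1
    · have h2 := hI.ind (t - 1) (yv1_i h hI h1 hu)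
      rw [sub_add_cancel] at h2
      exact h2 ht
    · exact hI.ind t ht (yv1_i h hI h1 hu)
    · rcases val4_v1 hG h hI r t u h1.symm with h2 | h2 | h2
      · exact h2.1.notI hI ht
      · exact h2.2.1 hu
      · exact h2.1.1 ht
  have IO : ∀ t b, I t → O4 z o I b → ¬ G.Adj (z t) b := by
    rintro t b ht ⟨hb, u, hu, rfl⟩ ha
    have hne : z t ≠ z u := fun hz => hu.1 (yv1_i h hI hz ht)
    have hp : Pth G (z t) [o u] (z u) := pth_cons.2 ⟨ha, pth_nil.2 (h.oadj u).symm⟩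
    rcases role_odd hG h hI r (earL_of hG h hne hp (by simp) (by simpa using hb) (by simp))
      (Or.inl rfl) with h1 | h1
    · exact hu.2 h1.2
    · exact hu.1 h1.2
  have IJ : ∀ t b, I t → J4 G z o I b → ¬ G.Adj (z t) b := by
    rintro t b ht ⟨hb, w, ⟨hw, u, hu, -, rfl⟩, hbw⟩ ha
    have hne : z t ≠ z u := fun hz => hu.notI hI (yv1_i h hI hz ht)
    have hp : Pth G (z t) [b, o u] (z u) :=
      pth_cons.2 ⟨ha, pth_cons.2 ⟨hbw, pth_nil.2 (h.oadj u).symm⟩⟩
    rcases role_even hG h hI r (earL_of hG h hne hp (by simpa using hbw.ne) (by simp [hb, hw])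
      (by simp)) (Or.inl rfl) with h1 | h1 | h1
    · exact h1.2.2 hu
    · exact hu.notI hI h1.2
    · exact hu.notI hI h1.2
  have OJ : ∀ a b, O4 z o I a → J4 G z o I b → ¬ G.Adj a b := by
    rintro a b ⟨ho, t, ht, rfl⟩ ⟨hb, w, ⟨hw, u, hu, -, rfl⟩, hbw⟩ ha
    have hne : z t ≠ z u := fun hz => ht.2 (yv1_rc h hI hz.symm hu)
    have hq : o t ≠ o u := fun hq => hne (val4_v2 hG h hI r t u ht.1 (hu.notI hI) hq)
    have hp : Pth G (z t) [o t, b, o u] (z u) :=
      pth_cons.2 ⟨h.oadj t, pth_cons.2 ⟨ha, pth_cons.2 ⟨hbw, pth_nil.2 (h.oadj u).symm⟩⟩⟩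
    rcases role_odd hG h hI r (earL_of hG h hne hp (by simp [ha.ne, hq, hbw.ne])
      (by simp [ho, hb, hw]) (by simp)) (Or.inr rfl) with h1 | h1
    · exact ht.1 h1.1
    · exact ht.2 h1.1
  have JJ : ∀ a b, J4 G z o I a → J4 G z o I b → ¬ G.Adj a b := by
    rintro a b ⟨ha, w, ⟨hw, t, ht, hT, rfl⟩, haw⟩ ⟨hb, w', ⟨hw', u, hu, -, rfl⟩, hbw⟩ hab
    by_cases hne : z t = z u
    · refine hT ⟨hw, a, b, ha, hb, haw.symm, ?_, hab⟩
      rw [h.o_eq hne]
      exact hbw.symm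
    have hq : o t ≠ o u := fun hq => hne (val4_v2 hG h hI r t u (ht.notI hI) (hu.notI hI) hq)
    have n3 := yv1_two hG h hI r (ht.notI hI) (hu.notI hI) hw hw'
    have n1 : a ≠ o u := by
      rintro rfl
      exact n3 haw.symm
    have n2 : o t ≠ b := by
      rintro rfl
      exact n3 hbw
    have hp : Pth G (z t) [o t, a, b, o u] (z u) :=
      pth_cons.2 ⟨h.oadj t, pth_cons.2 ⟨haw.symm, pth_cons.2 ⟨hab, pth_cons.2
        ⟨hbw, pth_nil.2 (h.oadj u).symm⟩⟩⟩⟩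
    rcases role_even hG h hI r (earL_of hG h hne hp
      (by simp [haw.ne.symm, hq, hbw.ne, hab.ne, n1, n2]) (by simp [hw, ha, hb, hw']) (by simp))
      (Or.inr rfl) with h1 | h1 | h1
    · exact ht.notI hI h1.1
    · exact hu.notI hI h1.2
    · exact ht.notI hI h1.1
  rcases ha with ⟨t, ht, rfl⟩ | ha | ha <;> rcases hb with ⟨u, hu, rfl⟩ | hb | hb
  · exact II t u ht hu
  · exact IO t b ht hb
  · exact IJ t b ht hb
  · exact fun hc => IO u a hu ha hc.symm
  · obtain ⟨h1, t, ht, rfl⟩ := ha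
    obtain ⟨h2, u, hu, rfl⟩ := hb
    exact yv1_two hG h hI r ht.1 hu.1 h1 h2
  · exact OJ a b ha hb
  · exact fun hc => IJ u a hu ha hc.symm
  · exact fun hc => OJ b a hb ha hc.symm
  · exact JJ a b ha hb

end Pool.Agent.Lib.MP_7e4769_co.Sp
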