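import Pool.Agent.Lib.MP_7e4769_co.Sp.YVal1
import Pool.Agent.Lib.MP_7e4769_co.Sp.YBlock
import Pool.Agent.Lib.MP_7e4769_co.Sp.YTile2

set_option autoImplicit false
set_option linter.unusedSectionVars false

namespace Pool.Agent.Lib.MP_7e4769_co.Sp

open Finset

variable {V : Type} [Fintype V] [DecidableEq V] {G : SimpleGraph V} [DecidableRel G.Adj]

variable {L : ℕ} {z o : ℤ → V} {I : ℤ → Prop} {ta tb tc : V → V}


/-- A triangle vertex `a` of the foot `t` and a neighbour `b` in `S4` with foot `u`: the walk from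
`z t` through the tail of `a` and back along the tail of `b` has at most 6 inner vertices, so
`z u = z t` (`tri_foot`); the roles agree (`Gaps.congr`, `Tri.congr`), so `b` is `ta` or `tc` of the
same triangle; `TG.ac`. -/
theorem val4_b (hG : G.IsRegularOfDegree 3) (h : CZ G L z o) (hI : Gaps L I)
    (hg : TG G z o ta tb tc) (a b : V) (ha : T4 G z o I ta a ∨ T4 G z o I tc a)
    (hb : S4 G z o I ta tc b) : ¬ G.Adj a b := by
  intro q
  obtain ⟨t, ht, e⟩ : ∃ t, RT G z o I t ∧ (ta (o t) = a ∨ tc (o t) = a) := by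
    rcases ha with ⟨t, ht, e⟩ | ⟨t, ht, e⟩
    exacts [⟨t, ht, Or.inl e⟩, ⟨t, ht, Or.inr e⟩]
  have key : ∀ (u : ℤ) (m : List V), (∀ v ∈ m, ¬ OnZ z v) → m.length ≤ 4 → Pth G a m (z u) →
      z u = z t := fun u m hm hl hp => by
    rcases e with rfl | rfl
    · refine tri_foot hG h ht.2 (l := o t :: ta (o t) :: m)
        (pth_cons.2 ⟨h.oadj t, pth_cons.2 ⟨hg.oa t ht.2, hp⟩⟩) ?_ (by simp)
        (by simp only [List.length_cons]; omega)
      simp only [List.forall_mem_cons]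
      exact ⟨ht.2.1, hg.offa t ht.2, hm⟩
    · refine tri_foot hG h ht.2 (l := o t :: tb (o t) :: tc (o t) :: m)
        (pth_cons.2 ⟨h.oadj t, pth_cons.2 ⟨hg.ob t ht.2, pth_cons.2 ⟨hg.bc t ht.2, hp⟩⟩⟩) ?_
        (by simp) (by simp only [List.length_cons]; omega)
      simp only [List.forall_mem_cons]
      exact ⟨ht.2.1, hg.offb t ht.2, hg.offc hG h ht.2, hm⟩
  rcases hb with ⟨u, hu, rfl⟩ | ⟨ho, u, hu, rfl⟩ | ⟨ho, w, ⟨hw, u, -, hu, rfl⟩, hj⟩ |
    ⟨u, hu, rfl⟩ | ⟨u, hu, rfl⟩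
  · have k := Gaps.congr h hI (key u [] (by simp) (by simp) (pth_nil.2 q)) 0
    rw [add_zero, add_zero] at k
    exact ht.1.notI hI (k.1 hu)
  · have k := key u [o u] (by simpa using ho) (by simp)
      (pth_cons.2 ⟨q, pth_nil.2 (h.oadj u).symm⟩)
    exact hu.2 ⟨(Gaps.congr h hI k (-1)).2 ht.1.1, (Gaps.congr h hI k 1).2 ht.1.2⟩
  · have k := key u [b, o u] (by simpa using ⟨ho, hw⟩) (by simp)
      (pth_cons.2 ⟨q, pth_cons.2 ⟨hj, pth_nil.2 (h.oadj u).symm⟩⟩)
    exact hu (ht.2.congr (h.o_eq k).symm)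
  · have k := key u [ta (o u), o u] (by simpa using ⟨hg.offa u hu.2, hu.2.1⟩) (by simp)
      (pth_cons.2 ⟨q, pth_cons.2 ⟨(hg.oa u hu.2).symm, pth_nil.2 (h.oadj u).symm⟩⟩)
    rw [h.o_eq k] at q
    rcases e with rfl | rfl
    exacts [q.ne rfl, hg.ac h ht.2 q.symm]
  · have k := key u [tc (o u), tb (o u), o u]
      (by simpa using ⟨hg.offc hG h hu.2, hg.offb u hu.2, hu.2.1⟩) (by simp)
      (pth_cons.2 ⟨q, pth_cons.2 ⟨(hg.bc u hu.2).symm,
        pth_cons.2 ⟨(hg.ob u hu.2).symm, pth_nil.2 (h.oadj u).symm⟩⟩⟩)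
    rw [h.o_eq k] at q
    rcases e with rfl | rfl
    exacts [hg.ac h ht.2 q, q.ne rfl]

theorem valid4_of_roles (hG : G.IsRegularOfDegree 3) (h : CZ G L z o) (hI : Gaps L I)
    (hg : TG G z o ta tb tc) (r : ∀ t u, Ear G z o t u → EndOK I (OnZ z (o t)) t u) :
    Valid4 G L z o I ta tb tc := by
  refine ⟨hI, hg, val4_v1 hG h hI r, fun t u => chord_uniq hG h, val4_v2 hG h hI r,
    val4_v3 hG h hI r, fun a b ha hb => ?_, fun t l u ht he hl => tri_no_ear hG h ht he hl⟩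
  by_cases e : T4 G z o I ta a ∨ T4 G z o I tc a
  · exact val4_b hG h hI hg a b e hb
  by_cases e' : T4 G z o I ta b ∨ T4 G z o I tc b
  · exact fun q => val4_b hG h hI hg b a e' ha q.symm
  refine val4_a hG h hI r a b ?_ ?_
  · rcases ha with q | q | q | q
    exacts [Or.inl q, Or.inr (Or.inl q), Or.inr (Or.inr q), absurd q e]
  · rcases hb with q | q | q | q
    exacts [Or.inl q, Or.inr (Or.inl q), Or.inr (Or.inr q), absurd q e']

theorem valid4_ex (hG : G.IsRegularOfDegree 3) (h : CZ G L z o) :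
    ∃ I ta tb tc, Valid4 G L z o I ta tb tc := by
  obtain ⟨ta, tb, tc, hg⟩ := tg_ex hG z o
  obtain ⟨I, hI, r⟩ := roles4_of_tile hG h (fun B hB ch a =>
    tile_ex (by have := h.big; omega) h.ev hB a)
  exact ⟨I, ta, tb, tc, valid4_of_roles hG h hI hg r⟩

end Pool.Agent.Lib.MP_7e4769_co.Sp
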