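import Pool.Agent.Lib.MP_7e4769_co.Sp.ZDefs
import Pool.Agent.Lib.MP_7e4769_co.Sp.Link

set_option autoImplicit false
set_option linter.unusedSectionVars false

namespace Pool.Agent.Lib.MP_7e4769_co.Sp

open Finset

variable {V : Type} [Fintype V] [DecidableEq V] {G : SimpleGraph V} [DecidableRel G.Adj]

theorem za_nil {x y : V} : Pth G x [] y ↔ G.Adj x y := by
  simp [Pth]

theorem za_cons {x y t : V} {l : List V} : Pth G x (t :: l) y ↔ G.Adj x t ∧ Pth G t l y := by
  simp [Pth, List.isChain_cons_cons]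

theorem Pth.append {x y w : V} {l m : List V} (h1 : Pth G x l y) (h2 : Pth G y m w) :
    Pth G x (l ++ y :: m) w := by
  induction l generalizing x with
  | nil => exact za_cons.2 ⟨za_nil.1 h1, h2⟩
  | cons t l ih =>
    rw [List.cons_append]
    exact za_cons.2 ⟨(za_cons.1 h1).1, ih (za_cons.1 h1).2⟩

theorem Pth.split {x y w : V} {l m : List V} (h : Pth G x (l ++ y :: m) w) :
    Pth G x l y ∧ Pth G y m w := by
  induction l generalizing x with
  | nil => exact ⟨za_nil.2 (za_cons.1 h).1, (za_cons.1 h).2⟩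
  | cons t l ih =>
    rw [List.cons_append] at h
    have h2 := ih (za_cons.1 h).2
    exact ⟨za_cons.2 ⟨(za_cons.1 h).1, h2.1⟩, h2.2⟩

theorem Pth.symm {x y : V} {l : List V} (h : Pth G x l y) : Pth G y l.reverse x := by
  induction l generalizing x with
  | nil => exact za_nil.2 (za_nil.1 h).symm
  | cons t l ih =>
    rw [List.reverse_cons]
    exact (ih (za_cons.1 h).2).append (za_nil.2 (za_cons.1 h).1.symm)

theorem pth_nil {x y : V} : Pth G x [] y ↔ G.Adj x y :=
  za_nil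

theorem pth_cons {x y t : V} {l : List V} : Pth G x (t :: l) y ↔ G.Adj x t ∧ Pth G t l y :=
  za_cons

theorem Pth.adj_fst {x y : V} {l : List V} (h : Pth G x l y) : G.Adj x (fst l y) := by
  cases l with
  | nil => exact za_nil.1 h
  | cons t l => exact (za_cons.1 h).1

/-- an inner vertex of a path without repeated vertices has two neighbours on it; the ends may
coincide if there are at least two inner vertices -/
theorem Pth.dg2 {x y : V} {l : List V} (h : Pth G x l y) (hn : l.Nodup) (hx : x ∉ l) (hy : y ∉ l)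
    (hxy : l.length = 1 → x ≠ y) {A : Finset V} (ax : x ∈ A) (ay : y ∈ A) (al : ∀ v ∈ l, v ∈ A)
    {t : V} (ht : t ∈ l) : 2 ≤ dg G A t := by
  obtain ⟨a, b, rfl⟩ := List.append_of_mem ht
  obtain ⟨h1, h2⟩ := h.split
  have e1 := h1.symm.adj_fst
  have e2 := h2.adj_fst
  have hd : ∀ v ∈ a, v ∉ b := by
    intro v hv hb
    exact (List.nodup_append.1 hn).2.2 v hv v (List.mem_cons_of_mem _ hb) rfl
  have ma : ∀ v ∈ a.reverse, v ∈ a ++ t :: b := fun v hv =>
    List.mem_append_left _ (List.mem_reverse.1 hv)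
  have mb : ∀ v ∈ b, v ∈ a ++ t :: b := fun v hv =>
    List.mem_append_right _ (List.mem_cons_of_mem _ hv)
  rcases fst_mem_or a.reverse x with p | ⟨p, p'⟩ <;> rcases fst_mem_or b y with q | ⟨q, q'⟩
  · refine two_le_dg (al _ (ma _ p)) (al _ (mb _ q)) e1 e2 ?_
    intro e
    exact hd _ (List.mem_reverse.1 p) (e ▸ q)
  · refine two_le_dg (al _ (ma _ p)) (q'.symm ▸ ay) e1 e2 ?_
    intro e
    exact hy (ma _ (q' ▸ e ▸ p))
  · refine two_le_dg (p'.symm ▸ ax) (al _ (mb _ q)) e1 e2 ?_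
    intro e
    exact hx (mb _ (p' ▸ e.symm ▸ q))
  · refine two_le_dg (p'.symm ▸ ax) (q'.symm ▸ ay) e1 e2 ?_
    rw [p', q']
    have ha : a = [] := List.reverse_eq_nil_iff.1 p
    exact hxy (by rw [ha, q]; rfl)

theorem CZ.shift {L : ℕ} {z o : ℤ → V} (h : CZ G L z o) (i k : ℤ) :
    z (i + k * L) = z i ∧ o (i + k * L) = o i := by
  induction k using Int.induction_on with
  | zero => simp
  | succ k ih =>
    have e : i + ((k : ℤ) + 1) * L = i + k * L + L := by ring
    rw [e, h.per, h.oper]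
    exact ih
  | pred k ih =>
    have e : i + (-(k : ℤ)) * L = i + (-(k : ℤ) - 1) * L + L := by ring
    rw [e, h.per, h.oper] at ih
    exact ih

/-- the field `inj` for integer positions -/
theorem CZ.injZ {L : ℕ} {z o : ℤ → V} (h : CZ G L z o) (i j : ℤ) (h1 : i < j) (h2 : j < i + L) :
    z i ≠ z j := by
  have hL : (1 : ℤ) ≤ L := by have := h.big; omega
  have hk : 0 ≤ i + (i.natAbs : ℤ) * L := by
    have h3 : (i.natAbs : ℤ) * 1 ≤ (i.natAbs : ℤ) * L :=
      mul_le_mul_of_nonneg_left hL (Int.natCast_nonneg _)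
    omega
  obtain ⟨a, ha⟩ := Int.eq_ofNat_of_zero_le hk
  obtain ⟨b, hb⟩ := Int.eq_ofNat_of_zero_le (show 0 ≤ j + (i.natAbs : ℤ) * L by linarith)
  have hab : a < b := by
    have : (a : ℤ) < b := by linarith
    exact_mod_cast this
  have hba : b < a + L := by
    have : (b : ℤ) < a + L := by linarith
    exact_mod_cast this
  have := h.inj a b hab hba
  rwa [← ha, ← hb, (h.shift i _).1, (h.shift j _).1] at this

theorem CZ.eq_iff {L : ℕ} {z o : ℤ → V} (h : CZ G L z o) {i j : ℤ} :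
    z i = z j ↔ ∃ k : ℤ, j = i + k * L := by
  constructor
  · intro hij
    have hL : (0 : ℤ) < L := by have := h.big; omega
    have h0 := Int.emod_nonneg (j - i) hL.ne'
    have h1 := Int.emod_lt_of_pos (j - i) hL
    have h2 := Int.emod_add_mul_ediv (j - i) L
    have e : j = i + (j - i) % L + (j - i) / L * L := by linarith [mul_comm ((j - i) / L) (L : ℤ)]
    rcases h0.eq_or_lt with h3 | h3
    · exact ⟨(j - i) / L, by linarith⟩
    · exfalso
      refine h.injZ i (i + (j - i) % L) (by linarith) (by linarith) ?_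
      rw [hij, ← (h.shift (i + (j - i) % L) ((j - i) / L)).1, ← e]
  · rintro ⟨k, rfl⟩
    exact (h.shift i k).1.symm

/-- a representative in the window starting at `a` -/
theorem CZ.rep {L : ℕ} {z o : ℤ → V} (h : CZ G L z o) (a i : ℤ) :
    ∃ j, a ≤ j ∧ j < a + L ∧ ∃ k : ℤ, j = i + k * L := by
  have hL : (0 : ℤ) < L := by have := h.big; omega
  have h0 := Int.emod_nonneg (i - a) hL.ne'
  have h1 := Int.emod_lt_of_pos (i - a) hL
  have h2 := Int.emod_add_mul_ediv (i - a) L
  exact ⟨a + (i - a) % L, by linarith, by linarith, -((i - a) / L), by linarith⟩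

theorem CZ.o_eq {L : ℕ} {z o : ℤ → V} (h : CZ G L z o) {i j : ℤ} (hij : z i = z j) :
    o i = o j := by
  obtain ⟨k, rfl⟩ := h.eq_iff.1 hij
  exact (h.shift i k).2.symm

theorem CZ.add_eq {L : ℕ} {z o : ℤ → V} (h : CZ G L z o) {i j : ℤ} (hij : z i = z j) (k : ℤ) :
    z (i + k) = z (j + k) := by
  obtain ⟨m, rfl⟩ := h.eq_iff.1 hij
  exact h.eq_iff.2 ⟨m, by ring⟩

theorem CZ.par {L : ℕ} {z o : ℤ → V} (h : CZ G L z o) {i j : ℤ} (hij : z i = z j) :
    (i + j) % 2 = 0 := by
  obtain ⟨k, rfl⟩ := h.eq_iff.1 hij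
  obtain ⟨m, hm⟩ : ∃ m : ℤ, (L : ℤ) = 2 * m := ⟨(L : ℤ) / 2, by have := h.ev; omega⟩
  have e : i + (i + k * L) = 2 * (i + k * m) := by rw [hm]; ring
  rw [e]
  exact Int.mul_emod_right _ _

theorem CZ.adj' {L : ℕ} {z o : ℤ → V} (h : CZ G L z o) (i : ℤ) : G.Adj (z i) (z (i - 1)) := by
  have := h.adj (i - 1)
  rw [sub_add_cancel] at this
  exact this.symm

theorem CZ.ne2 {L : ℕ} {z o : ℤ → V} (h : CZ G L z o) (i : ℤ) : z (i - 1) ≠ z (i + 1) := by
  refine h.injZ _ _ (by linarith) ?_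
  have := h.big
  omega

theorem CZ.nb (hG : G.IsRegularOfDegree 3) {L : ℕ} {z o : ℤ → V} (h : CZ G L z o) (i : ℤ) {w : V}
    (hw : G.Adj (z i) w) : w = z (i - 1) ∨ w = z (i + 1) ∨ w = o i :=
  nbrs_all hG (h.adj' i) (h.adj i) (h.oadj i) (h.ne2 i) (h.op i).symm (h.on i).symm w hw

theorem CZ.nb_off (hG : G.IsRegularOfDegree 3) {L : ℕ} {z o : ℤ → V} (h : CZ G L z o) (i : ℤ)
    {w : V} (hw : G.Adj (z i) w) (ho : ¬ OnZ z w) : w = o i := by
  rcases h.nb hG i hw with e | e | e
  · exact absurd ⟨_, e.symm⟩ ho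
  · exact absurd ⟨_, e.symm⟩ ho
  · exact e

/-- the other end of a chord -/
theorem CZ.chord (hG : G.IsRegularOfDegree 3) {L : ℕ} {z o : ℤ → V} (h : CZ G L z o) {t u : ℤ}
    (ho : o t = z u) : o u = z t := by
  have ha : G.Adj (z u) (z t) := (ho ▸ h.oadj t).symm
  rcases h.nb hG u ha with e | e | e
  · have := h.add_eq e 1
    rw [sub_add_cancel] at this
    exact absurd (ho.trans this.symm) (h.on t)
  · have := h.add_eq e (-1)
    rw [add_neg_cancel_right, ← sub_eq_add_neg] at this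
    exact absurd (ho.trans this.symm) (h.op t)
  · exact e.symm

theorem za_gaps_shift {L : ℕ} {I : ℤ → Prop} (hI : Gaps L I) (i k : ℤ) :
    I (i + k * L) ↔ I i := by
  induction k using Int.induction_on with
  | zero => simp
  | succ k ih =>
    have e : i + ((k : ℤ) + 1) * L = i + k * L + L := by ring
    rw [e, hI.per]
    exact ih
  | pred k ih =>
    have e : i + (-(k : ℤ)) * L = i + (-(k : ℤ) - 1) * L + L := by ring
    rw [e, hI.per] at ih
    exact ih

theorem Gaps.congr {L : ℕ} {z o : ℤ → V} (h : CZ G L z o) {I : ℤ → Prop} (hI : Gaps L I) {i j : ℤ}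
    (hij : z i = z j) (k : ℤ) : I (i + k) ↔ I (j + k) := by
  obtain ⟨m, rfl⟩ := h.eq_iff.1 hij
  have e : i + m * L + k = i + k + m * L := by ring
  rw [e, za_gaps_shift hI]

theorem length_arcF (z : ℤ → V) (a : ℤ) (n : ℕ) : (arcF z a n).length = n := by
  simp [arcF]

theorem mem_arcF {z : ℤ → V} {a : ℤ} {n : ℕ} {v : V} :
    v ∈ arcF z a n ↔ ∃ k, a < k ∧ k ≤ a + n ∧ z k = v := by
  simp only [arcF, List.mem_map, List.mem_range]
  constructor
  · rintro ⟨k, hk, rfl⟩
    exact ⟨a + 1 + k, by omega, by omega, rfl⟩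
  · rintro ⟨k, h1, h2, rfl⟩
    refine ⟨(k - a - 1).toNat, by omega, ?_⟩
    have e : a + 1 + ((k - a - 1).toNat : ℤ) = k := by omega
    rw [e]

theorem CZ.pth_arc {L : ℕ} {z o : ℤ → V} (h : CZ G L z o) (a : ℤ) (n : ℕ) :
    Pth G (z a) (arcF z a n) (z (a + n + 1)) := by
  induction n with
  | zero =>
    have := h.adj a
    simpa [arcF, Pth] using this
  | succ n ih =>
    have e : arcF z a (n + 1) = arcF z a n ++ z (a + n + 1) :: [] := by
      have e2 : a + 1 + (n : ℤ) = a + n + 1 := by ring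
      simp only [arcF, List.range_succ, List.map_append, List.map_cons, List.map_nil, e2]
    have e3 : a + ((n + 1 : ℕ) : ℤ) + 1 = a + n + 1 + 1 := by push_cast; ring
    rw [e, e3]
    exact ih.append (za_nil.2 (h.adj _))

theorem CZ.nodup_arc {L : ℕ} {z o : ℤ → V} (h : CZ G L z o) (a : ℤ) {n : ℕ} (hn : n ≤ L) :
    (arcF z a n).Nodup := by
  refine List.Nodup.map_on ?_ List.nodup_range
  intro x hx y hy e
  rw [List.mem_range] at hx hy
  rcases lt_trichotomy x y with c | c | c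
  · exact absurd e (h.injZ _ _ (by omega) (by omega))
  · exact c
  · exact absurd e.symm (h.injZ _ _ (by omega) (by omega))

theorem EarL.symm (hG : G.IsRegularOfDegree 3) {L : ℕ} {z o : ℤ → V} (h : CZ G L z o) {t u : ℤ}
    {l : List V} (he : EarL G z o t l u) : EarL G z o u l.reverse t := by
  refine ⟨he.ne.symm, he.pth.symm, List.nodup_reverse.2 he.nd,
    fun v hv => he.off v (List.mem_reverse.1 hv), ?_⟩
  rcases fst_mem_or l.reverse (z t) with p | ⟨p, p'⟩
  · exact h.nb_off hG u he.pth.symm.adj_fst (he.off _ (List.mem_reverse.1 p))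
  · have hl : l = [] := List.reverse_eq_nil_iff.1 p
    have hf := he.fs
    rw [hl] at hf
    rw [p']
    exact (h.chord hG (hf.symm : o t = z u)).symm

theorem EarL.congr {L : ℕ} {z o : ℤ → V} (h : CZ G L z o) {t u t' u' : ℤ} {l : List V}
    (he : EarL G z o t l u) (h1 : z t = z t') (h2 : z u = z u') : EarL G z o t' l u' := by
  refine ⟨?_, ?_, he.nd, he.off, ?_⟩
  · rw [← h1, ← h2]
    exact he.ne
  · rw [← h1, ← h2]
    exact he.pth
  · rw [← h2, ← h.o_eq h1]
    exact he.fs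

/-- a nonempty path off the cycle between two different positions is an ear -/
theorem earL_of (hG : G.IsRegularOfDegree 3) {L : ℕ} {z o : ℤ → V} (h : CZ G L z o) {t u : ℤ}
    {l : List V} (hne : z t ≠ z u) (hp : Pth G (z t) l (z u)) (hn : l.Nodup)
    (ho : ∀ v ∈ l, ¬ OnZ z v) (hl : l ≠ []) : EarL G z o t l u := by
  refine ⟨hne, hp, hn, ho, ?_⟩
  rcases fst_mem_or l (z u) with p | ⟨p, -⟩
  · exact h.nb_off hG t hp.adj_fst (ho _ p)
  · exact absurd p hl

theorem earL_chord {L : ℕ} {z o : ℤ → V} (h : CZ G L z o) {t u : ℤ} (ho : o t = z u) :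
    EarL G z o t [] u := by
  have ha : G.Adj (z t) (z u) := ho ▸ h.oadj t
  exact ⟨ha.ne, za_nil.2 ha, List.nodup_nil, fun v hv => absurd hv List.not_mem_nil, ho.symm⟩

theorem EarL.nil_iff {z o : ℤ → V} {t u : ℤ} {l : List V} (he : EarL G z o t l u) :
    l = [] ↔ OnZ z (o t) := by
  constructor
  · rintro rfl
    exact ⟨u, he.fs⟩
  · intro hz
    rcases fst_mem_or l (z u) with p | ⟨p, -⟩
    · exact absurd (he.fs ▸ hz) (he.off _ p)
    · exact p

end Pool.Agent.Lib.MP_7e4769_co.Sp
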