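import Pool.Agent.Lib.MP_7e4769_co.Sp.Col

set_option autoImplicit false
set_option linter.unusedSectionVars false

namespace Pool.Agent.Lib.MP_7e4769_co.Sp

open Finset

variable {V : Type} [Fintype V] [DecidableEq V] {G : SimpleGraph V} [DecidableRel G.Adj]

/-- Every component `K` gives a connected cubic sparse graph `G.induce K.supp`; extend its
colouring to a function `c K` on `V` that satisfies the vertices of `K`, and colour `v` by
`c (G.connectedComponentMk v) v` (`ok_congr`). -/
theorem of_conn (hG : G.IsRegularOfDegree 3) {N : ℕ} (hs : Sparse G N)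
    (h : ∀ (W : Type) [Fintype W] [DecidableEq W] (H : SimpleGraph W) [DecidableRel H.Adj],
      H.IsRegularOfDegree 3 → H.Connected → Sparse H N → ∃ c : W → Fin 4, ∀ v, ok H c v) :
    ∃ c : V → Fin 4, ∀ v, ok G c v := by
  classical
  have key : ∀ K : G.ConnectedComponent, ∃ c : V → Fin 4, ∀ v ∈ K.supp, ok G c v := by
    intro K
    have hn : ∀ v : K.supp, G.neighborSet v ⊆ K.supp := fun v w hw =>
      K.mem_supp_of_adj_mem_supp v.2 hw
    have hm : ∀ v : K.supp, ((G.induce K.supp).neighborFinset v).map (.subtype (· ∈ K.supp)) =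
        G.neighborFinset v := fun v => by
      ext w
      simpa using hn v (a := w)
    obtain ⟨c, hc⟩ := h K.supp (G.induce K.supp)
      (fun v => by rw [← hG v.1, ← SimpleGraph.card_neighborFinset_eq_degree,
        ← SimpleGraph.card_neighborFinset_eq_degree, ← hm, card_map])
      K.connected_toSimpleGraph fun A hA => by
        have h1 := hs (A.map (.subtype (· ∈ K.supp))) (by rwa [card_map])
        simp only [eb, dg, sum_map, filter_map, card_map] at h1 ⊢
        exact h1
    refine ⟨fun v => if k : v ∈ K.supp then c ⟨v, k⟩ else 0, fun v hv => ⟨fun w hw => ?_, ?_⟩⟩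
    · simp only [dif_pos hv, dif_pos (hn ⟨v, hv⟩ hw)]
      exact (hc ⟨v, hv⟩).1 _ hw
    · rw [← (hc ⟨v, hv⟩).2, ← hm ⟨v, hv⟩, map_eq_image, image_image]
      exact congrArg card (image_congr fun w _ => dif_pos w.2)
  choose c hc using key
  exact ⟨fun v => c (G.connectedComponentMk v) v, fun v => ok_congr rfl (fun w hw => by
    rw [SimpleGraph.ConnectedComponent.connectedComponentMk_eq_of_adj hw]) (hc _ v rfl)⟩

end Pool.Agent.Lib.MP_7e4769_co.Sp
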