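import Pool.Agent.Lib.MP_7e4769_co.Sp.ZDefs

set_option autoImplicit false
set_option linter.unusedSectionVars false

namespace Pool.Agent.Lib.MP_7e4769_co.Sp

open Finset

variable {V : Type} [Fintype V] [DecidableEq V] {G : SimpleGraph V} [DecidableRel G.Adj]

/-- the constraints strictly inside the arc from `p` to `q`, and on its edges -/
def ArcOK (I : ℤ → Prop) (a b : ℤ → ZMod 3) (p q : ℤ) (s : ℤ → ZMod 3) : Prop :=
  (∀ t, p < t → t < q → ¬ I t → s t ≠ a t) ∧
  (∀ t, p ≤ t → t < q → ¬ I t → ¬ I (t + 1) → s t ≠ s (t + 1)) ∧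
  ∀ t, p < t → t < q → I t → s (t - 1) + s (t + 1) + b t ≠ 0

theorem zdp_nil (I : ℤ → Prop) (a b : ℤ → ZMod 3) (p : ℤ) (s : ℤ → ZMod 3) :
    ArcOK I a b p p s :=
  ⟨fun t h1 h2 => by omega, fun t h1 h2 => by omega, fun t h1 h2 => by omega⟩

theorem zdp_congr {I : ℤ → Prop} {a b : ℤ → ZMod 3} {p q : ℤ} {s s' : ℤ → ZMod 3}
    (h : ArcOK I a b p q s) (e : ∀ t, p ≤ t → t ≤ q → s' t = s t) : ArcOK I a b p q s' := by
  refine ⟨fun t h1 h2 h3 => ?_, fun t h1 h2 h3 h4 => ?_, fun t h1 h2 h3 => ?_⟩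
  · rw [e t (by omega) (by omega)]
    exact h.1 t h1 h2 h3
  · rw [e t (by omega) (by omega), e (t + 1) (by omega) (by omega)]
    exact h.2.1 t h1 h2 h3 h4
  · rw [e (t - 1) (by omega) (by omega), e (t + 1) (by omega) (by omega)]
    exact h.2.2 t h1 h2 h3

theorem zdp_ext1 {I : ℤ → Prop} {a b : ℤ → ZMod 3} {p q : ℤ} {s : ℤ → ZMod 3}
    (h : ArcOK I a b p q s) (hq : ¬ I q) (ha : p < q → s q ≠ a q) (hy : s q ≠ s (q + 1)) :
    ArcOK I a b p (q + 1) s := by
  refine ⟨fun t h1 h2 h3 => ?_, fun t h1 h2 h3 h4 => ?_, fun t h1 h2 h3 => ?_⟩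
  · by_cases e : t = q
    · subst e
      exact ha h1
    · exact h.1 t h1 (by omega) h3
  · by_cases e : t = q
    · subst e
      exact hy
    · exact h.2.1 t h1 (by omega) h3 h4
  · by_cases e : t = q
    · subst e
      exact absurd h3 hq
    · exact h.2.2 t h1 (by omega) h3

theorem zdp_ext2 {I : ℤ → Prop} {a b : ℤ → ZMod 3} {p q : ℤ} {s : ℤ → ZMod 3}
    (h : ArcOK I a b p q s) (hq : ¬ I q) (hq' : I (q + 1)) (ha : p < q → s q ≠ a q)
    (hy : s q + s (q + 2) + b (q + 1) ≠ 0) : ArcOK I a b p (q + 2) s := by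
  refine ⟨fun t h1 h2 h3 => ?_, fun t h1 h2 h3 h4 => ?_, fun t h1 h2 h3 => ?_⟩
  · by_cases e : t = q
    · subst e
      exact ha h1
    · by_cases e' : t = q + 1
      · subst e'
        exact absurd hq' h3
      · exact h.1 t h1 (by omega) h3
  · by_cases e : t = q
    · subst e
      exact absurd hq' h4
    · by_cases e' : t = q + 1
      · subst e'
        exact absurd hq' h3
      · exact h.2.1 t h1 (by omega) h3 h4
  · by_cases e : t = q
    · subst e
      exact absurd h3 hq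
    · by_cases e' : t = q + 1
      · subst e'
        rwa [show q + 1 - 1 = q by omega, show q + 1 + 1 = q + 2 by omega]
      · exact h.2.2 t h1 (by omega) h3

/-- a new value is put at a position beyond the arc -/
theorem zdp_put {I : ℤ → Prop} {a b : ℤ → ZMod 3} {p q : ℤ} {s : ℤ → ZMod 3}
    (h : ArcOK I a b p q s) {u : ℤ} (hu : q < u) (y : ZMod 3) :
    ∃ s', (∀ t, t ≤ q → s' t = s t) ∧ s' u = y ∧ ArcOK I a b p q s' :=
  ⟨fun t => if t = u then y else s t, fun t _ => if_neg (by omega), if_pos rfl,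
    zdp_congr h fun t _ _ => if_neg (by omega)⟩

theorem zdp_s1 : ∀ a f y : ZMod 3, y ≠ -a - f → ∃ z, z ≠ a ∧ z ≠ f ∧ z ≠ y := by decide

theorem zdp_s2 : ∀ a b f y : ZMod 3, y ≠ a - b + f → ∃ z, z ≠ a ∧ z ≠ f ∧ z + y + b ≠ 0 := by
  decide

theorem zdp_base : ∀ b x y : ZMod 3, y ≠ -b - x → x + y + b ≠ 0 := by decide

theorem zdp_start : ∀ a r : ZMod 3, ∃ x, x ≠ a ∧ x ≠ r - x := by decide

theorem zdp_two : ∀ r r' : ZMod 3, ∃ x y, x ≠ y ∧ y ≠ r - x ∧ x ≠ r' - y := by decide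

/-- Induction on `n` (strong: the previous position outside `I` is `q - 1` or `q - 2`). The value
at `q` that is forbidden is `x + r` if `q - p` is odd and `r - x` if it is even. In the step three
values are forbidden at the previous position; they are all different only if their sum is 0. -/
theorem arc_dp {I : ℤ → Prop} (hi : ∀ t, I t → ¬ I (t + 1)) (a b : ℤ → ZMod 3) (p : ℤ)
    (hp : ¬ I p) (n : ℕ) (hn : 0 < n) (hq : ¬ I (p + n)) :
    ∃ r : ZMod 3, ∀ x y : ZMod 3, y ≠ (if n % 2 = 1 then x + r else r - x) →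
      ∃ s, s p = x ∧ s (p + n) = y ∧ ArcOK I a b p (p + n) s := by
  induction n using Nat.strong_induction_on with
  | _ n ih =>
  obtain ⟨m, rfl⟩ : ∃ m, n = m + 1 := ⟨n - 1, by omega⟩
  have e1 : p + ((m + 1 : ℕ) : ℤ) = p + m + 1 := by push_cast; omega
  rw [e1] at hq ⊢
  by_cases h1 : I (p + m)
  · obtain ⟨k, rfl⟩ : ∃ k, m = k + 1 := ⟨m - 1, by
      rcases m with _ | m
      · exact absurd (by simpa using h1) hp
      · omega⟩
    have e2 : p + ((k + 1 : ℕ) : ℤ) = p + k + 1 := by push_cast; omega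
    have e3 : p + k + 1 + 1 = p + k + 2 := by omega
    rw [e2] at h1 ⊢
    rw [e3]
    have h2 : ¬ I (p + k) := fun h => hi _ h h1
    rcases Nat.eq_zero_or_pos k with rfl | hk
    · refine ⟨-b (p + (0 : ℕ) + 1), fun x y hy => ?_⟩
      rw [if_neg (by omega)] at hy
      obtain ⟨s, s1, s2, s3⟩ := zdp_put (zdp_nil I a b (p + (0 : ℕ)) fun _ => x)
        (u := p + (0 : ℕ) + 2) (by omega) y
      refine ⟨s, s1 p (by omega), s2, ?_⟩
      have := zdp_ext2 s3 h2 h1 (fun h => by omega) (by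
        rw [s1 _ le_rfl, s2]
        exact zdp_base _ _ _ hy)
      simpa using this
    · obtain ⟨r, hr⟩ := ih k (by omega) hk h2
      refine ⟨a (p + k) - b (p + k + 1) + r, fun x y hy => ?_⟩
      obtain ⟨z, z1, z2, z3⟩ := zdp_s2 (a (p + k)) (b (p + k + 1))
        (if k % 2 = 1 then x + r else r - x) y (by
          by_cases e : k % 2 = 1
          · rw [if_pos (by omega)] at hy
            rw [if_pos e]
            intro h
            exact hy (by rw [h]; ring)
          · rw [if_neg (by omega)] at hy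
            rw [if_neg e]
            intro h
            exact hy (by rw [h]; ring))
      obtain ⟨s0, t1, t2, t3⟩ := hr x z z2
      obtain ⟨s, s1, s2, s3⟩ := zdp_put t3 (u := p + k + 2) (by omega) y
      refine ⟨s, (s1 p (by omega)).trans t1, s2, zdp_ext2 s3 h2 h1 (fun _ => ?_) ?_⟩
      · rwa [s1 _ le_rfl, t2]
      · rwa [s1 _ le_rfl, t2, s2]
  · rcases Nat.eq_zero_or_pos m with rfl | hm
    · refine ⟨0, fun x y hy => ?_⟩
      rw [if_pos (by omega), add_zero] at hy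
      obtain ⟨s, s1, s2, s3⟩ := zdp_put (zdp_nil I a b (p + (0 : ℕ)) fun _ => x)
        (u := p + (0 : ℕ) + 1) (by omega) y
      refine ⟨s, s1 p (by omega), s2, ?_⟩
      have := zdp_ext1 s3 h1 (fun h => by omega) (by
        rw [s1 _ le_rfl, s2]
        exact hy.symm)
      simpa using this
    · obtain ⟨r, hr⟩ := ih m (by omega) hm h1
      refine ⟨-a (p + m) - r, fun x y hy => ?_⟩
      obtain ⟨z, z1, z2, z3⟩ := zdp_s1 (a (p + m)) (if m % 2 = 1 then x + r else r - x) y (by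
          by_cases e : m % 2 = 1
          · rw [if_neg (by omega)] at hy
            rw [if_pos e]
            intro h
            exact hy (by rw [h]; ring)
          · rw [if_pos (by omega)] at hy
            rw [if_neg e]
            intro h
            exact hy (by rw [h]; ring))
      obtain ⟨s0, t1, t2, t3⟩ := hr x z z2
      obtain ⟨s, s1, s2, s3⟩ := zdp_put t3 (u := p + m + 1) (by omega) y
      refine ⟨s, (s1 p (by omega)).trans t1, s2, zdp_ext1 s3 h1 (fun _ => ?_) ?_⟩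
      · rwa [s1 _ le_rfl, t2]
      · rwa [s1 _ le_rfl, t2, s2]

theorem cyc_dp {I : ℤ → Prop} (hi : ∀ t, I t → ¬ I (t + 1)) (a b : ℤ → ZMod 3) (p : ℤ)
    (hp : ¬ I p) (L : ℕ) (hL : 0 < L) (he : L % 2 = 0) (hq : ¬ I (p + L)) :
    ∃ s, s (p + L) = s p ∧ s p ≠ a p ∧ ArcOK I a b p (p + L) s := by
  obtain ⟨r, hr⟩ := arc_dp hi a b p hp L hL hq
  obtain ⟨x, x1, x2⟩ := zdp_start (a p) r
  obtain ⟨s, s1, s2, s3⟩ := hr x x (by rwa [if_neg (by omega)])
  exact ⟨s, s2.trans s1.symm, by rwa [s1], s3⟩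

/-- take `x ≠ r1 + r2`, then `y` outside `{x, r1 - x, r2 - x}`; paste the two arcs -/
theorem chord_dp {I : ℤ → Prop} (hi : ∀ t, I t → ¬ I (t + 1)) (a b : ℤ → ZMod 3) (p : ℤ)
    (d L : ℕ) (hd : 0 < d) (hdL : d < L) (he : L % 2 = 0) (hde : d % 2 = 0) (hp : ¬ I p)
    (hq : ¬ I (p + d)) (hr : ¬ I (p + L)) :
    ∃ s, s (p + L) = s p ∧ s p ≠ s (p + d) ∧ ArcOK I a b p (p + d) s ∧
      ArcOK I a b (p + d) (p + L) s := by
  have e : p + d + ((L - d : ℕ) : ℤ) = p + L := by omega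
  obtain ⟨r, h1⟩ := arc_dp hi a b p hp d hd hq
  obtain ⟨r', h2⟩ := arc_dp hi a b (p + d) hq (L - d) (by omega) (by rwa [e])
  obtain ⟨x, y, x1, x2, x3⟩ := zdp_two r r'
  obtain ⟨s, s1, s2, s3⟩ := h1 x y (by rwa [if_neg (by omega)])
  obtain ⟨s', t1, t2, t3⟩ := h2 y x (by rwa [if_neg (by omega)])
  rw [e] at t2 t3
  refine ⟨fun t => if t ≤ p + d then s t else s' t, ?_, ?_,
    zdp_congr s3 fun t _ h => if_pos h, zdp_congr t3 fun t h _ => ?_⟩
  · simp only [if_neg (show ¬ p + (L : ℤ) ≤ p + d by omega), if_pos (show p ≤ p + d by omega)]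
    rw [t2, s1]
  · simp only [if_pos (show p ≤ p + d by omega), le_refl, if_true]
    rwa [s1, s2]
  · by_cases h' : t ≤ p + d
    · obtain rfl : t = p + d := by omega
      simp only [le_refl, if_true]
      rw [s2, t1]
    · exact if_neg h'

/-- residues as finite colours -/
def zdp_up (x : ZMod 3) : Fin 4 := Fin.castSucc (n := 3) x

theorem zdp_c1 : ∀ x : ZMod 3, zdp_up x ≠ 3 := by decide

theorem zdp_c2 : ∀ (x : ZMod 3) (z : Fin 4), z ≠ 3 → x ≠ (z.val : ZMod 3) → zdp_up x ≠ z := by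
  decide

theorem zdp_c3 : ∀ (x y : ZMod 3) (z : Fin 4), z ≠ 3 → x + y + (z.val : ZMod 3) ≠ 0 →
    vok 3 (zdp_up x) (zdp_up y) z = true := by decide

theorem zdp_c4 : ∀ x y : ZMod 3, zdp_up x = zdp_up y → x = y := by decide

/-- a periodic property that holds on a window holds everywhere -/
theorem zdp_win {L : ℕ} (hL : 0 < L) (p : ℤ) {P : ℤ → Prop} (h : ∀ t, P (t + L) ↔ P t)
    (hw : ∀ t, p ≤ t → t < p + L → P t) (t : ℤ) : P t := by
  have h1 : Function.Periodic P (L : ℤ) := fun t => propext (h t)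
  have h2 := h1.int_mul ((t - p) / L) (p + (t - p) % L)
  have h3 := Int.emod_add_ediv_mul (t - p) L
  have h4 := Int.emod_nonneg (t - p) (show (L : ℤ) ≠ 0 by omega)
  have h5 := Int.emod_lt_of_pos (t - p) (show (0 : ℤ) < L by omega)
  rw [Int.cast_id, show p + (t - p) % L + (t - p) / L * L = t by linarith] at h2
  rw [h2]
  exact hw _ (by omega) (by omega)

/-- periodic extension from a window -/
theorem zdp_per {L : ℕ} (s : ℤ → Fin 4) (p : ℤ) (h : s (p + L) = s p) :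
    ∃ S : ℤ → Fin 4, (∀ t, S (t + L) = S t) ∧ ∀ t, p ≤ t → t ≤ p + L → S t = s t := by
  refine ⟨fun t => s (p + (t - p) % L), fun t => ?_, fun t h1 h2 => ?_⟩
  · simp only [show t + L - p = t - p + L by omega, Int.add_emod_right]
  · by_cases e : t = p + L
    · subst e
      simp [h]
    · simp only [Int.emod_eq_of_lt (show 0 ≤ t - p by omega) (show t - p < L by omega)]
      rw [show p + (t - p) = t by omega]

/-- On colours, with a periodic answer. `X` marks the chord ends: there is none, or exactly the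
classes of `p` and `p + d`. Transfer along `Fin 4 → ZMod 3` and extend `s` from the window
`[p, p + L)` with period `L`. -/
theorem dp3 {L : ℕ} (hL : 0 < L) (he : L % 2 = 0) {I : ℤ → Prop} (hI : Gaps L I)
    (a b : ℤ → Fin 4) (pa : ∀ t, a (t + L) = a t) (pb : ∀ t, b (t + L) = b t)
    (ha : ∀ t, a t ≠ 3) (hb : ∀ t, b t ≠ 3) (X : ℤ → Prop)
    (hX : (∀ t, ¬ X t) ∨ ∃ p : ℤ, ∃ d : ℕ, 0 < d ∧ d < L ∧ d % 2 = 0 ∧ ¬ I p ∧ ¬ I (p + d) ∧
      ∀ t, X t ↔ ∃ k : ℤ, t = p + k * L ∨ t = p + d + k * L) :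
    ∃ s : ℤ → Fin 4, (∀ t, s (t + L) = s t) ∧ (∀ t, s t ≠ 3) ∧
      (∀ t, ¬ I t → ¬ X t → s t ≠ a t) ∧ (∀ t, ¬ I t → ¬ I (t + 1) → s t ≠ s (t + 1)) ∧
      (∀ t, I t → vok 3 (s (t - 1)) (s (t + 1)) (b t) = true) ∧
      ∀ t u, X t → X u → s t = s u → ∃ k : ℤ, u = t + k * L := by
  have key : ∀ (p : ℤ) (s : ℤ → ZMod 3), ¬ I p → s (p + L) = s p →
      (∀ t, X (t + L) ↔ X t) →
      (∀ t, p ≤ t → t < p + L → ¬ I t → ¬ X t → s t ≠ ((a t).val : ZMod 3)) →
      (∀ t, p ≤ t → t < p + L → ¬ I t → ¬ I (t + 1) → s t ≠ s (t + 1)) →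
      (∀ t, p < t → t < p + L → I t → s (t - 1) + s (t + 1) + ((b t).val : ZMod 3) ≠ 0) →
      ∃ S : ℤ → Fin 4, (∀ t, p ≤ t → t ≤ p + L → S t = zdp_up (s t)) ∧
        (∀ t, S (t + L) = S t) ∧ (∀ t, S t ≠ 3) ∧
        (∀ t, ¬ I t → ¬ X t → S t ≠ a t) ∧ (∀ t, ¬ I t → ¬ I (t + 1) → S t ≠ S (t + 1)) ∧
        ∀ t, I t → vok 3 (S (t - 1)) (S (t + 1)) (b t) = true := by
    intro p s hp h0 pX h1 h2 h3
    obtain ⟨S, S1, S2⟩ := zdp_per (fun t => zdp_up (s t)) p (congrArg zdp_up h0)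
    have S3 : ∀ t, S (t + L + 1) = S (t + 1) := fun t => by
      rw [show t + L + 1 = t + 1 + L by omega, S1]
    have S4 : ∀ t, S (t + L - 1) = S (t - 1) := fun t => by
      rw [show t + L - 1 = t - 1 + L by omega, S1]
    have I3 : ∀ t, I (t + L + 1) ↔ I (t + 1) := fun t => by
      rw [show t + L + 1 = t + 1 + L by omega, hI.per]
    refine ⟨S, S2, S1, ?_, ?_, ?_, ?_⟩
    · refine zdp_win hL p (fun t => by rw [S1]) fun t h4 h5 => ?_
      rw [S2 t h4 h5.le]
      exact zdp_c1 _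
    · refine zdp_win hL p (fun t => by rw [hI.per, pX, S1, pa]) fun t h4 h5 h6 h7 => ?_
      rw [S2 t h4 h5.le]
      exact zdp_c2 _ _ (ha t) (h1 t h4 h5 h6 h7)
    · refine zdp_win hL p (fun t => by rw [hI.per, I3, S1, S3]) fun t h4 h5 h6 h7 => ?_
      rw [S2 t h4 h5.le, S2 (t + 1) (by omega) (by omega)]
      exact fun h => h2 t h4 h5 h6 h7 (zdp_c4 _ _ h)
    · refine zdp_win hL p (fun t => by rw [hI.per, S4, S3, pb]) fun t h4 h5 h6 => ?_
      have h7 : t ≠ p := fun e => hp (e ▸ h6)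
      rw [S2 (t - 1) (by omega) (by omega), S2 (t + 1) (by omega) (by omega)]
      exact zdp_c3 _ _ _ (hb t) (h3 t (by omega) h5 h6)
  rcases hX with hX | ⟨p, d, hd, hdL, hde, hp, hq, hX⟩
  · obtain ⟨p, hp⟩ : ∃ p, ¬ I p := by
      by_cases h : I 0
      · exact ⟨_, hI.ind 0 h⟩
      · exact ⟨0, h⟩
    obtain ⟨s, s1, s2, s3⟩ := cyc_dp hI.ind (fun t => ((a t).val : ZMod 3))
      (fun t => ((b t).val : ZMod 3)) p hp L hL he (by rwa [hI.per])
    obtain ⟨S, -, S1, S2, S3, S4, S5⟩ := key p s hp s1 (fun t => by simp [hX])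
      (fun t h1 h2 h3 _ => by
        by_cases e : t = p
        · rw [e]
          exact s2
        · exact s3.1 t (by omega) h2 h3) s3.2.1 s3.2.2
    exact ⟨S, S1, S2, S3, S4, S5, fun t _ h => absurd h (hX t)⟩
  · obtain ⟨s, s1, s2, s3, s4⟩ := chord_dp hI.ind (fun t => ((a t).val : ZMod 3))
      (fun t => ((b t).val : ZMod 3)) p d L hd hdL he hde hp hq (by rwa [hI.per])
    obtain ⟨S, S0, S1, S2, S3, S4, S5⟩ := key p s hp s1
      (fun t => by
        rw [hX, hX]
        constructor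
        · rintro ⟨k, h⟩
          exact ⟨k - 1, h.imp (fun h => by linarith) fun h => by linarith⟩
        · rintro ⟨k, h⟩
          exact ⟨k + 1, h.imp (fun h => by linarith) fun h => by linarith⟩)
      (fun t h1 h2 h3 h4 => by
        have n1 : t ≠ p := fun e => h4 ((hX t).2 ⟨0, Or.inl (by linarith)⟩)
        have n2 : t ≠ p + d := fun e => h4 ((hX t).2 ⟨0, Or.inr (by linarith)⟩)
        by_cases e : t < p + d
        · exact s3.1 t (by omega) e h3
        · exact s4.1 t (by omega) h2 h3)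
      (fun t h1 h2 h3 h4 => by
        by_cases e : t < p + d
        · exact s3.2.1 t h1 e h3 h4
        · exact s4.2.1 t (by omega) h2 h3 h4)
      (fun t h1 h2 h3 => by
        have n2 : t ≠ p + d := fun e => hq (e ▸ h3)
        by_cases e : t < p + d
        · exact s3.2.2 t h1 e h3
        · exact s4.2.2 t (by omega) h2 h3)
    refine ⟨S, S1, S2, S3, S4, S5, fun t u ht hu h => ?_⟩
    have S6 : ∀ (t k : ℤ), S (t + k * L) = S t := fun t k =>
      Function.Periodic.int_mul (f := S) (c := (L : ℤ)) S1 k t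
    have n : S p ≠ S (p + d) := by
      rw [S0 p le_rfl (by omega), S0 (p + d) (by omega) (by omega)]
      exact fun h => s2 (zdp_c4 _ _ h)
    obtain ⟨k, rfl | rfl⟩ := (hX t).1 ht <;> obtain ⟨k', rfl | rfl⟩ := (hX u).1 hu
    · exact ⟨k' - k, by ring⟩
    · rw [S6, S6] at h
      exact absurd h n
    · rw [S6, S6] at h
      exact absurd h.symm n
    · exact ⟨k' - k, by ring⟩

end Pool.Agent.Lib.MP_7e4769_co.Sp
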