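import Pool.Agent.Lib.MP_7e4769_co.Sp.Defs

set_option autoImplicit false
set_option linter.unusedSectionVars false

namespace Pool.Agent.Lib.MP_7e4769_co.Sp

open Finset

variable {V : Type} [Fintype V] [DecidableEq V] {G : SimpleGraph V} [DecidableRel G.Adj]

/-- a path from `x` to `y` with inner vertices `l` -/
def Pth (G : SimpleGraph V) (x : V) (l : List V) (y : V) : Prop :=
  List.IsChain G.Adj (x :: (l ++ [y]))

/-- `x :: l` is a cycle -/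
def IsCyc (G : SimpleGraph V) (x : V) (l : List V) : Prop :=
  Pth G x l x ∧ (x :: l).Nodup ∧ 2 ≤ l.length

/-- every cycle with fewer than `L` vertices is odd -/
def NoEven (G : SimpleGraph V) (L : ℕ) : Prop :=
  ∀ x l, IsCyc G x l → l.length + 1 < L → l.length % 2 = 0

/-- a long shortest even cycle `z` of length `L` with third neighbours `o` -/
structure CZ (G : SimpleGraph V) (L : ℕ) (z o : ℤ → V) : Prop where
  big : 22 ≤ L
  ev : L % 2 = 0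
  adj : ∀ i, G.Adj (z i) (z (i + 1))
  per : ∀ i, z (i + L) = z i
  inj : ∀ i j, i < j → j < i + L → z i ≠ z j
  oadj : ∀ i, G.Adj (z i) (o i)
  oper : ∀ i, o (i + L) = o i
  on : ∀ i, o i ≠ z (i + 1)
  op : ∀ i, o i ≠ z (i - 1)
  ne : NoEven G L

def OnZ (z : ℤ → V) (v : V) : Prop := ∃ i, z i = v

/-- the vertices `z (a + 1), ..., z (a + n)` -/
def arcF (z : ℤ → V) (a : ℤ) (n : ℕ) : List V := (List.range n).map (fun k : ℕ => z (a + 1 + k))

/-- an ear from position `t` to position `u` with inner vertices `l` -/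
structure EarL (G : SimpleGraph V) (z o : ℤ → V) (t : ℤ) (l : List V) (u : ℤ) : Prop where
  ne : z t ≠ z u
  pth : Pth G (z t) l (z u)
  nd : l.Nodup
  off : ∀ v ∈ l, ¬ OnZ z v
  fs : fst l (z u) = o t

/-- a short ear -/
def Ear (G : SimpleGraph V) (z o : ℤ → V) (t u : ℤ) : Prop :=
  ∃ l, l.length ≤ 4 ∧ EarL G z o t l u

/-- a triangle hangs at position `t` -/
def Tri (G : SimpleGraph V) (z o : ℤ → V) (t : ℤ) : Prop :=
  ¬ OnZ z (o t) ∧ ∃ a b, ¬ OnZ z a ∧ ¬ OnZ z b ∧ G.Adj (o t) a ∧ G.Adj (o t) b ∧ G.Adj a b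

/-- role C: both neighbours on the cycle are in `I` -/
def RC (I : ℤ → Prop) (t : ℤ) : Prop := I (t - 1) ∧ I (t + 1)

/-- role M -/
def RM (I : ℤ → Prop) (t : ℤ) : Prop := ¬ I t ∧ ¬ RC I t

/-- a periodic set of positions with gaps 2 and 3 -/
structure Gaps (L : ℕ) (I : ℤ → Prop) : Prop where
  per : ∀ t, I (t + L) ↔ I t
  ind : ∀ t, I t → ¬ I (t + 1)
  no3 : ∀ t, I t ∨ I (t + 1) ∨ I (t + 2)

def Wp (z o : ℤ → V) (I : ℤ → Prop) (v : V) : Prop := ¬ OnZ z v ∧ ∃ t, RC I t ∧ o t = v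

def Op (o : ℤ → V) (I : ℤ → Prop) (v : V) : Prop := ∃ t, RM I t ∧ o t = v

def Jp (G : SimpleGraph V) (z o : ℤ → V) (I : ℤ → Prop) (v : V) : Prop :=
  ¬ OnZ z v ∧ ∃ w, Wp z o I w ∧ G.Adj v w

/-- the vertices of colour 3 -/
def Sq (G : SimpleGraph V) (z o : ℤ → V) (I : ℤ → Prop) (v : V) : Prop :=
  (∃ t, I t ∧ z t = v) ∨ Op o I v ∨ Jp G z o I v

/-- the rest -/
def Rq (G : SimpleGraph V) (z o : ℤ → V) (I : ℤ → Prop) (v : V) : Prop :=
  ¬ OnZ z v ∧ ¬ Wp z o I v ∧ ¬ Op o I v ∧ ¬ Jp G z o I v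

structure Valid3 (G : SimpleGraph V) (L : ℕ) (z o : ℤ → V) (I : ℤ → Prop) : Prop where
  gaps : Gaps L I
  v1 : ∀ t, OnZ z (o t) → RC I t
  v1u : ∀ t u, OnZ z (o t) → OnZ z (o u) → z u = z t ∨ z u = o t
  v2 : ∀ t u, ¬ I t → ¬ I u → o t = o u → z t = z u
  v3 : ∀ w w', Wp z o I w → Wp z o I w' → ¬ G.Adj w w'
  v4 : ∀ a b, Sq G z o I a → Sq G z o I b → ¬ G.Adj a b

/-- the local facts on ears `E`, chords `ch` and hanging triangles `tr` -/
structure Loc (L : ℕ) (E : ℤ → ℤ → Prop) (ch tr : ℤ → Prop) : Prop where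
  pE : ∀ t u, E (t + L) u ↔ E t u
  pc : ∀ t, ch (t + L) ↔ ch t
  pt : ∀ t, tr (t + L) ↔ tr t
  sym : ∀ t u, E t u → E u t
  irr : ∀ t, ¬ E t t
  a1 : ∀ i u j u', E i u → E j u' → i < j → j ≤ i + 12 → E i j
  a2 : ∀ i j k, E i j → E i k → j ≤ k → k ≤ j + 12 → j = k
  a3 : ∀ i j, tr i → tr j → i ≤ j → j ≤ i + 12 → i = j
  a4 : ∀ i j k, E i j → tr k → i < j → j ≤ i + 12 → i - 12 ≤ k → k ≤ i + 12 → False
  c1 : ∀ i, ch i → ∃ u, E i u
  c2 : ∀ i j, ch i → E i j → ch j ∧ (i + j) % 2 = 0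
  c3 : ∀ i, tr i → ¬ ch i

/-- parity potential on `S`: every short path through `R` between vertices of `S` is frustrated -/
def Pot (G : SimpleGraph V) (S R : V → Prop) (σ : V → ℤ) : Prop :=
  ∀ a b ms, S a → S b → ms ≠ [] → ms.length ≤ 4 → ms.Nodup → (∀ m ∈ ms, R m) → Pth G a ms b →
    (ms.length = 1 → a ≠ b) → (σ a + σ b + ms.length) % 2 = 0

end Pool.Agent.Lib.MP_7e4769_co.Sp
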