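import Pool.Agent.Lib.MP_7e4769_co.Sp.ZTwo
import Pool.Agent.Lib.MP_7e4769_co.Sp.Cut

set_option autoImplicit false
set_option linter.unusedSectionVars false

namespace Pool.Agent.Lib.MP_7e4769_co.Sp

open Finset

variable {V : Type} [Fintype V] [DecidableEq V] {G : SimpleGraph V} [DecidableRel G.Adj]

/-- `core` for the arc from `a` to `b` together with `A0` -/
theorem dense (hs : Sparse G 100) {L : ℕ} {z o : ℤ → V} (h : CZ G L z o) {a b : ℤ} (hab : a < b)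
    (hb : b ≤ a + 60) (A0 A : Finset V) (hA : ∀ v, v ∈ A ↔ v ∈ A0 ∨ ∃ k, a ≤ k ∧ k ≤ b ∧ z k = v)
    (h0 : A0.card ≤ 20) (h2 : ∀ v ∈ A0, 2 ≤ dg G A v) (ha : o a ∈ A) (hb' : o b ∈ A)
    (h3 : (∃ k, a < k ∧ k < b ∧ o k ∈ A) ∨ ∃ v ∈ A, 3 ≤ dg G A v) : False := by
  have hz : ∀ k, a ≤ k → k ≤ b → z k ∈ A := fun k h1 h2 => (hA _).2 (.inr ⟨k, h1, h2, rfl⟩)
  have hc : A.card ≤ 100 := by
    have h1 : A ⊆ A0 ∪ (Icc a b).image z := fun v hv => by
      rcases (hA v).1 hv with h1 | ⟨k, h1, h2, rfl⟩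
      · exact mem_union_left _ h1
      · exact mem_union_right _ (mem_image_of_mem _ (mem_Icc.2 ⟨h1, h2⟩))
    have h2 := (card_le_card h1).trans (card_union_le _ _)
    have h3 := card_image_le (s := Icc a b) (f := z)
    rw [Int.card_Icc] at h3
    omega
  have hd : ∀ v ∈ A, 2 ≤ dg G A v := fun v hv => by
    rcases (hA v).1 hv with h1 | ⟨k, h1, h4, rfl⟩
    · exact h2 v h1
    rcases h1.eq_or_lt with rfl | h1
    · exact two_le_dg ha (hz _ (by omega) (by omega)) (h.oadj _) (h.adj _) (h.on _)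
    rcases h4.eq_or_lt with rfl | h4
    · exact two_le_dg hb' (hz _ (by omega) (by omega)) (h.oadj _) (h.adj' _) (h.op _)
    · exact two_le_dg (hz _ (by omega) (by omega)) (hz _ (by omega) (by omega)) (h.adj' _)
        (h.adj _) (h.ne2 _)
  rcases h3 with ⟨k, h4, h5, h6⟩ | ⟨v, hv, h4⟩
  · exact core (hs A hc) hd (hz k h4.le h5.le) (three_le_dg h6 (hz _ (by omega) (by omega))
      (hz _ (by omega) (by omega)) (h.oadj k) (h.adj' k) (h.adj k) (h.op k) (h.on k) (h.ne2 k))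
  · exact core (hs A hc) hd hv h4

theorem zdense_set (z : ℤ → V) (a b : ℤ) (A0 : Finset V) :
    ∃ A : Finset V, ∀ v, v ∈ A ↔ v ∈ A0 ∨ ∃ k, a ≤ k ∧ k ≤ b ∧ z k = v :=
  ⟨A0 ∪ (Icc a b).image z, fun v => by simp [and_assoc]⟩

theorem zdense_ear (hG : G.IsRegularOfDegree 3) {L : ℕ} {z o : ℤ → V} (h : CZ G L z o) {t u : ℤ}
    {l : List V} (he : EarL G z o t l u) {A : Finset V} (ht : z t ∈ A) (hu : z u ∈ A)
    (hl : ∀ v ∈ l, v ∈ A) : o t ∈ A ∧ o u ∈ A ∧ ∀ v ∈ l, 2 ≤ dg G A v := by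
  have k : ∀ (m : List V) (y : V), (∀ v ∈ m, v ∈ A) → y ∈ A → fst m y ∈ A := fun m y h1 h2 => by
    cases m with
    | nil => exact h2
    | cons x m => exact h1 x List.mem_cons_self
  exact ⟨he.fs ▸ k _ _ hl hu, (he.symm hG h).fs ▸ k _ _ (fun v hv => hl v (List.mem_reverse.1 hv)) ht,
    fun v hv => he.pth.dg2 he.nd (fun h' => he.off _ h' ⟨t, rfl⟩) (fun h' => he.off _ h' ⟨u, rfl⟩)
      (fun _ => he.ne) ht hu hl hv⟩

theorem zdense_tri {L : ℕ} {z o : ℤ → V} (h : CZ G L z o) {t : ℤ} (ht : Tri G z o t) :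
    ∃ T : Finset V, T.card ≤ 3 ∧ o t ∈ T ∧ ∀ A : Finset V, (∀ v ∈ T, v ∈ A) → z t ∈ A →
      (∀ v ∈ T, 2 ≤ dg G A v) ∧ 3 ≤ dg G A (o t) := by
  obtain ⟨-, a, b, ha, hb, h1, h2, h3⟩ := ht
  refine ⟨{o t, a, b}, card_le_three, mem_insert_self _ _, fun A hA hz => ?_⟩
  have m0 := hA (o t) (by simp)
  have m1 := hA a (by simp)
  have m2 := hA b (by simp)
  refine ⟨fun v hv => ?_, three_le_dg hz m1 m2 (h.oadj t).symm h1 h2 (fun e => ha ⟨t, e⟩)
    (fun e => hb ⟨t, e⟩) h3.ne⟩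
  simp only [mem_insert, mem_singleton] at hv
  rcases hv with rfl | rfl | rfl
  · exact two_le_dg m1 m2 h1 h2 h3.ne
  · exact two_le_dg m0 m2 h1.symm h3 h2.ne
  · exact two_le_dg m0 m1 h2.symm h3.symm h1.ne

theorem zdense_symm (hG : G.IsRegularOfDegree 3) {L : ℕ} {z o : ℤ → V} (h : CZ G L z o) {t u : ℤ}
    (he : Ear G z o t u) : Ear G z o u t :=
  he.elim fun l hl => ⟨l.reverse, List.length_reverse.trans_le hl.1, hl.2.symm hG h⟩

theorem zdense_congr {L : ℕ} {z o : ℤ → V} (h : CZ G L z o) {t u t' u' : ℤ} (he : Ear G z o t u)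
    (h1 : z t = z t') (h2 : z u = z u') : Ear G z o t' u' :=
  he.imp fun _ hl => ⟨hl.1, hl.2.congr h h1 h2⟩

theorem zdense_inj {L : ℕ} {z o : ℤ → V} (h : CZ G L z o) (i j : ℤ) (h1 : i < j) (h2 : j < i + L) :
    z i ≠ z j := fun e => by
  obtain ⟨k, rfl⟩ := h.eq_iff.1 e
  rcases le_or_gt k 0 with h3 | h3 <;> nlinarith

theorem zdense_gap {L : ℕ} {z o : ℤ → V} (h : CZ G L z o) {p q t u : ℤ} (h1 : z p = z t)
    (h2 : z q = z u) (htu : t ≤ u) (hq : q < p + L) : q ≤ p + (u - t) := by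
  by_contra hc
  refine zdense_inj h (p + (u - t)) q (by omega) (by omega) ?_
  rw [h.add_eq h1, h2, add_sub_cancel]

/-- two ears on a short window -/
theorem dense_ee (hG : G.IsRegularOfDegree 3) (hs : Sparse G 100) {L : ℕ} {z o : ℤ → V}
    (h : CZ G L z o) {a b c d : ℤ} (h1 : Ear G z o a b) (h2 : Ear G z o c d) (hab : a < b)
    (hbc : b < c) (hcd : c < d) (hd : d ≤ a + 60) : False := by
  obtain ⟨l, hl, e1⟩ := h1
  obtain ⟨m, hm, e2⟩ := h2
  obtain ⟨A, hA⟩ := zdense_set z a d (l.toFinset ∪ m.toFinset)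
  have hz : ∀ k, a ≤ k → k ≤ d → z k ∈ A := fun k h1 h2 => (hA _).2 (.inr ⟨k, h1, h2, rfl⟩)
  obtain ⟨p1, p2, p3⟩ := zdense_ear hG h e1 (hz a le_rfl (by omega)) (hz b (by omega) (by omega))
    fun v hv => (hA v).2 (.inl (by simp [hv]))
  obtain ⟨-, q2, q3⟩ := zdense_ear hG h e2 (hz c (by omega) (by omega)) (hz d (by omega) le_rfl)
    fun v hv => (hA v).2 (.inl (by simp [hv]))
  refine dense hs h (by omega) hd _ A hA ?_ (fun v hv => ?_) p1 q2 (.inl ⟨b, hab, by omega, p2⟩)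
  · have := card_union_le l.toFinset m.toFinset
    have := l.toFinset_card_le
    have := m.toFinset_card_le
    omega
  · exact (mem_union.1 hv).elim (fun h' => p3 v (List.mem_toFinset.1 h'))
      fun h' => q3 v (List.mem_toFinset.1 h')

/-- near ends belong to the same ear: `ear_two`, `ear_norm`; the gap between the two arcs on one
side is at most 12, rotate and use `dense_ee` -/
theorem ear_near (hG : G.IsRegularOfDegree 3) (hs : Sparse G 100) {L : ℕ} {z o : ℤ → V}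
    (h : CZ G L z o) {t t' u u' : ℤ} (h1 : Ear G z o t t') (h2 : Ear G z o u u') (htu : t ≤ u)
    (hu : u ≤ t + 12) : (z u = z t ∧ z u' = z t') ∨ (z u = z t' ∧ z u' = z t) := by
  obtain ⟨l, hl, e1⟩ := id h1
  obtain ⟨m, hm, e2⟩ := id h2
  rcases ear_two hG h e1 e2 hl hm with h3 | h3 | ⟨n1, n2, n3, n4, hd⟩
  · exact .inl h3
  · exact .inr h3
  obtain ⟨a, b, c, d, k1, k2, k3, k4, k5, k6, k7⟩ := ear_norm hG h e1 e2 hl hm n1 n2 n3 n4 hd
  have k8 : c ≤ b + 12 := by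
    rcases k5 with ⟨k5, -⟩ | ⟨-, k5⟩ <;> rcases k6 with ⟨k6, -⟩ | ⟨-, k6⟩ <;>
      have := zdense_gap h k5 k6 htu (by omega) <;> omega
  refine (dense_ee hG hs h (a := a) (b := b) (c := c) (d := d) ?_ ?_ k1 k2 k3 (by omega)).elim
  · exact k5.elim (fun k => zdense_congr h h1 k.1.symm k.2.symm)
      fun k => zdense_congr h (zdense_symm hG h h1) k.1.symm k.2.symm
  · exact k6.elim (fun k => zdense_congr h h2 k.1.symm k.2.symm)
      fun k => zdense_congr h (zdense_symm hG h h2) k.1.symm k.2.symm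

theorem dense_tt (hs : Sparse G 100) {L : ℕ} {z o : ℤ → V} (h : CZ G L z o) {i j : ℤ}
    (h1 : Tri G z o i) (h2 : Tri G z o j) (hij : i < j) (hj : j ≤ i + 12) : False := by
  obtain ⟨S, s1, s2, s3⟩ := zdense_tri h h1
  obtain ⟨T, t1, t2, t3⟩ := zdense_tri h h2
  obtain ⟨A, hA⟩ := zdense_set z i j (S ∪ T)
  have hS : ∀ v ∈ S, v ∈ A := fun v hv => (hA v).2 (.inl (mem_union_left _ hv))
  have hT : ∀ v ∈ T, v ∈ A := fun v hv => (hA v).2 (.inl (mem_union_right _ hv))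
  obtain ⟨s4, s5⟩ := s3 A hS ((hA _).2 (.inr ⟨i, le_rfl, hij.le, rfl⟩))
  obtain ⟨t4, -⟩ := t3 A hT ((hA _).2 (.inr ⟨j, hij.le, le_rfl, rfl⟩))
  exact dense hs h hij (by omega) _ A hA ((card_union_le _ _).trans (by omega))
    (fun v hv => (mem_union.1 hv).elim (s4 v) (t4 v)) (hS _ s2) (hT _ t2) (.inr ⟨_, hS _ s2, s5⟩)

/-- window from `min i k` to `max j k`; the vertex `o k` has three neighbours in the set -/
theorem dense_te (hG : G.IsRegularOfDegree 3) (hs : Sparse G 100) {L : ℕ} {z o : ℤ → V}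
    (h : CZ G L z o) {i j k : ℤ} (h1 : Ear G z o i j) (h2 : Tri G z o k) (hij : i < j)
    (hj : j ≤ i + 12) (hk : i - 12 ≤ k) (hk' : k ≤ i + 12) : False := by
  obtain ⟨l, hl, e1⟩ := h1
  obtain ⟨T, t1, t2, t3⟩ := zdense_tri h h2
  obtain ⟨A, hA⟩ := zdense_set z (min i k) (max j k) (l.toFinset ∪ T)
  have hz : ∀ r, min i k ≤ r → r ≤ max j k → z r ∈ A := fun r h1 h2 =>
    (hA _).2 (.inr ⟨r, h1, h2, rfl⟩)
  have hT : ∀ v ∈ T, v ∈ A := fun v hv => (hA v).2 (.inl (mem_union_right _ hv))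
  obtain ⟨t4, t5⟩ := t3 A hT (hz k (by omega) (by omega))
  obtain ⟨p1, p2, p3⟩ := zdense_ear hG h e1 (hz i (by omega) (by omega))
    (hz j (by omega) (by omega)) fun v hv => (hA v).2 (.inl (by simp [hv]))
  refine dense hs h (by omega) (by omega) _ A hA ?_ (fun v hv => (mem_union.1 hv).elim
    (fun h' => p3 v (List.mem_toFinset.1 h')) (t4 v)) ?_ ?_ (.inr ⟨_, hT _ t2, t5⟩)
  · have := card_union_le l.toFinset T
    have := l.toFinset_card_le
    omega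
  · rcases min_choice i k with e | e <;> rw [e]
    exacts [p1, hT _ t2]
  · rcases max_choice j k with e | e <;> rw [e]
    exacts [p2, hT _ t2]

theorem loc_of_sparse (hG : G.IsRegularOfDegree 3) (hs : Sparse G 100) {L : ℕ} {z o : ℤ → V}
    (h : CZ G L z o) : Loc L (Ear G z o) (fun t => OnZ z (o t)) (Tri G z o) := by
  have hL := h.big
  refine ⟨fun t u => ⟨fun e => zdense_congr h e (h.per t) rfl,
    fun e => zdense_congr h e (h.per t).symm rfl⟩, fun t => by rw [h.oper],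
    fun t => by rw [Tri, Tri, h.oper], fun t u => zdense_symm hG h,
    fun t ⟨_, _, e⟩ => e.ne rfl, fun i u j u' e1 e2 h1 h2 => ?_, fun i j k e1 e2 h1 h2 => ?_,
    fun i j e1 e2 h1 h2 => h1.eq_or_lt.elim id fun h3 => (dense_tt hs h e1 e2 h3 h2).elim,
    fun i j k => dense_te hG hs h, fun i ⟨u, e⟩ => ⟨u, [], by simp, earL_chord h e.symm⟩,
    fun i j hc ⟨l, _, e⟩ => ?_, fun i e => e.1⟩
  · rcases ear_near hG hs h e1 e2 h1.le h2 with h3 | h3
    · exact (zdense_inj h i j h1 (by omega) h3.1.symm).elim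
    · exact zdense_congr h e1 rfl h3.1.symm
  · rcases ear_near hG hs h (zdense_symm hG h e1) (zdense_symm hG h e2) h1 h2 with h3 | h3
    · exact h1.eq_or_lt.elim id fun h4 => (zdense_inj h j k h4 (by omega) h3.1.symm).elim
    · exact e1.elim fun _ e => (e.2.ne h3.2).elim
  · obtain rfl := e.nil_iff.2 hc
    exact ⟨(e.symm hG h).nil_iff.1 rfl, by simpa using ear_par hG h e (by simp)⟩

end Pool.Agent.Lib.MP_7e4769_co.Sp
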