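import Pool.Agent.Lib.MP_7e4769_co.Sp.ZSets

set_option autoImplicit false
set_option linter.unusedSectionVars false

namespace Pool.Agent.Lib.MP_7e4769_co.Sp

open Finset

variable {V : Type} [Fintype V] [DecidableEq V] {G : SimpleGraph V} [DecidableRel G.Adj]

/-- the path from the cycle to a vertex of `S` -/
def Tk (G : SimpleGraph V) (z o : ℤ → V) (I : ℤ → Prop) (a : V) (t : ℤ) (pa : List V) : Prop :=
  (I t ∧ pa = [] ∧ a = z t) ∨ (RM I t ∧ pa = [a] ∧ a = o t) ∨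
    (RC I t ∧ ¬ OnZ z (o t) ∧ pa = [o t, a] ∧ G.Adj (o t) a ∧ ¬ OnZ z a)

theorem tk_ex {z o : ℤ → V} {I : ℤ → Prop} {a : V} (h : Sq G z o I a) :
    ∃ t pa, Tk G z o I a t pa := by
  rcases h with ⟨t, ht, rfl⟩ | ⟨t, ht, rfl⟩ | ⟨h0, w, ⟨h1, t, ht, rfl⟩, ha⟩
  · exact ⟨t, _, .inl ⟨ht, rfl, rfl⟩⟩
  · exact ⟨t, _, .inr (.inl ⟨ht, rfl, rfl⟩)⟩
  · exact ⟨t, _, .inr (.inr ⟨ht, h1, rfl, ha.symm, h0⟩)⟩

theorem zpot_pth {L : ℕ} {z o : ℤ → V} (h : CZ G L z o) {I : ℤ → Prop} {a y : V} {t : ℤ}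
    {pa l : List V} (ha : Tk G z o I a t pa) (hp : Pth G a l y) : Pth G (z t) (pa ++ l) y := by
  rcases ha with ⟨-, rfl, rfl⟩ | ⟨-, rfl, rfl⟩ | ⟨-, -, rfl, k, -⟩
  · exact hp
  · exact pth_cons.2 ⟨h.oadj t, hp⟩
  · exact pth_cons.2 ⟨h.oadj t, pth_cons.2 ⟨k, hp⟩⟩

theorem zpot_nd {z o : ℤ → V} {I : ℤ → Prop} {a : V} {t : ℤ} {pa : List V}
    (ha : Tk G z o I a t pa) : pa.Nodup ∧ pa.length ≤ 2 := by
  rcases ha with ⟨-, rfl, -⟩ | ⟨-, rfl, -⟩ | ⟨-, -, rfl, k, -⟩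
  · simp
  · simp
  · simp [k.ne]

theorem zpot_mem {L : ℕ} {z o : ℤ → V} {I : ℤ → Prop} (hv : Valid3 G L z o I) {a v : V} {t : ℤ}
    {pa : List V} (ha : Tk G z o I a t pa) (hm : v ∈ pa) : ¬ OnZ z v ∧
      ((v = a ∧ Sq G z o I v) ∨ (v = o t ∧ RC I t ∧ Wp z o I v)) := by
  rcases ha with ⟨-, rfl, -⟩ | ⟨k, rfl, rfl⟩ | ⟨k, k1, rfl, k2, k3⟩
  · simp at hm
  · obtain rfl := List.mem_singleton.1 hm
    exact ⟨hv.op_off ⟨t, k, rfl⟩, .inl ⟨rfl, .inr (.inl ⟨t, k, rfl⟩)⟩⟩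
  · rcases List.mem_pair.1 hm with rfl | rfl
    · exact ⟨k1, .inr ⟨rfl, k, k1, t, k, rfl⟩⟩
    · exact ⟨k3, .inl ⟨rfl, .inr (.inr ⟨k3, _, ⟨k1, t, k, rfl⟩, k2.symm⟩)⟩⟩

/-- Different feet and `a ≠ b`: `pa ++ ms ++ pb.reverse` is an ear (`earL_of`; no repeated vertex
by `v2`, `w_notS`, `r_notS`), use `ear_par`. -/
theorem pot_ear (hG : G.IsRegularOfDegree 3) {L : ℕ} {z o : ℤ → V} (h : CZ G L z o)
    {I : ℤ → Prop} (hv : Valid3 G L z o I) {a b : V} {t u : ℤ} {pa pb ms : List V}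
    (ha : Tk G z o I a t pa) (hb : Tk G z o I b u pb) (hab : a ≠ b) (htu : z t ≠ z u)
    (h0 : ms ≠ []) (h4 : ms.length ≤ 4) (hn : ms.Nodup) (hr : ∀ m ∈ ms, Rq G z o I m)
    (hp : Pth G a ms b) : (t + pa.length + (u + pb.length) + ms.length) % 2 = 0 := by
  have hR : ∀ {c s pc}, Tk G z o I c s pc → ∀ v ∈ pc, v ∉ ms := fun hc v hv1 hm =>
    (zpot_mem hv hc hv1).2.elim (fun k => hv.r_notS (hr v hm) k.2) fun k => (hr v hm).2.1 k.2.2
  have hd : ∀ v ∈ pa, v ∉ pb := fun v h1 h2 => by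
    rcases (zpot_mem hv ha h1).2 with k | k <;> rcases (zpot_mem hv hb h2).2 with k' | k'
    · exact hab (k.1.symm.trans k'.1)
    · exact hv.w_notS h k'.2.2 k.2
    · exact hv.w_notS h k.2.2 k'.2
    · exact htu (hv.v2 t u (k.2.1.notI hv.gaps) (k'.2.1.notI hv.gaps) (k.1.symm.trans k'.1))
  have he := earL_of hG h htu (zpot_pth h ha (zpot_pth h hb hp.symm).symm) ?_ ?_ (by simp [h0])
  · have := ear_par hG h he
    have h1 := (zpot_nd ha).2
    have h2 := (zpot_nd hb).2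
    simp only [List.length_append, List.length_reverse, Nat.cast_add] at this
    omega
  · simp only [List.nodup_append, List.nodup_reverse, List.mem_reverse, List.mem_append]
    refine ⟨(zpot_nd ha).1, ⟨(zpot_nd hb).1, hn, fun x hx y hy e => hR hb x hx (e ▸ hy)⟩,
      fun x hx y hy e => ?_⟩
    exact hy.elim (fun k => hd x hx (e ▸ k)) fun k => hR ha x hx (e ▸ k)
  · simp only [List.mem_reverse, List.mem_append]
    rintro v (k | k | k)
    exacts [(zpot_mem hv ha k).1, (zpot_mem hv hb k).1, (hr v k).1]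

/-- Same foot and `a ≠ b`: the roles agree (`Gaps.congr`), so both are of the third kind and
`o t, a, ms, b` is a short cycle, odd by `ne`; `t + u` is even by `CZ.par`. -/
theorem pot_same (hG : G.IsRegularOfDegree 3) {L : ℕ} {z o : ℤ → V} (h : CZ G L z o)
    {I : ℤ → Prop} (hv : Valid3 G L z o I) {a b : V} {t u : ℤ} {pa pb ms : List V}
    (ha : Tk G z o I a t pa) (hb : Tk G z o I b u pb) (hab : a ≠ b) (htu : z t = z u)
    (h0 : ms ≠ []) (h4 : ms.length ≤ 4) (hn : ms.Nodup) (hr : ∀ m ∈ ms, Rq G z o I m)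
    (hp : Pth G a ms b) : (t + pa.length + (u + pb.length) + ms.length) % 2 = 0 := by
  have e0 : I t ↔ I u := by simpa using Gaps.congr h hv.gaps htu 0
  have e1 : RC I t ↔ RC I u := and_congr
    (by simpa only [sub_eq_add_neg] using Gaps.congr h hv.gaps htu (-1))
    (Gaps.congr h hv.gaps htu 1)
  have eo := h.o_eq htu
  rcases ha with ⟨k, -, rfl⟩ | ⟨k, -, rfl⟩ | ⟨k, k1, rfl, k2, k3⟩ <;>
    rcases hb with ⟨j, -, rfl⟩ | ⟨j, -, rfl⟩ | ⟨j, -, rfl, j2, j3⟩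
  · exact absurd htu hab
  · exact absurd (e0.1 k) j.1
  · exact absurd (e0.1 k) (j.notI hv.gaps)
  · exact absurd (e0.2 j) k.1
  · exact absurd eo hab
  · exact absurd (e1.2 j) k.2
  · exact absurd (e0.2 j) (k.notI hv.gaps)
  · exact absurd (e1.1 k) j.2
  · rw [← eo] at j2
    have hw : Wp z o I (o t) := ⟨k1, t, k, rfl⟩
    have n1 : o t ∉ ms := fun m => (hr _ m).2.1 hw
    have n2 : a ∉ ms := fun m => (hr _ m).2.2.2 ⟨k3, _, hw, k2.symm⟩
    have n3 : b ∉ ms := fun m => (hr _ m).2.2.2 ⟨j3, _, hw, j2.symm⟩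
    have := h.ne (o t) (a :: (ms ++ [b])) ⟨pth_cons.2 ⟨k2, hp.append (pth_nil.2 j2.symm)⟩, by
      simp [List.nodup_append, k2.ne, j2.ne, n1, n2, hab, hn]
      exact fun x hx e => n3 (e ▸ hx), by simp⟩
    have h1 := h.par htu
    have h2 := h.big
    simp only [List.length_cons, List.length_append, List.length_nil] at this ⊢
    omega

/-- choose a foot for every vertex of `S`; if `a = b` then `a :: ms` is a short cycle -/
theorem pot_ex (hG : G.IsRegularOfDegree 3) {L : ℕ} {z o : ℤ → V} (h : CZ G L z o)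
    {I : ℤ → Prop} (hv : Valid3 G L z o I) : ∃ σ, Pot G (Sq G z o I) (Rq G z o I) σ := by
  have : ∀ a, ∃ t pa, Sq G z o I a → Tk G z o I a t pa := fun a => by
    by_cases k : Sq G z o I a
    · obtain ⟨t, pa, j⟩ := tk_ex k
      exact ⟨t, pa, fun _ => j⟩
    · exact ⟨0, [], fun j => absurd j k⟩
  choose t p hp using this
  refine ⟨fun a => t a + (p a).length, fun a b ms ha hb h0 h4 hn hr hq h1 => ?_⟩
  by_cases hab : a = b
  · subst hab
    have h2 := List.length_pos_iff.2 h0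
    have h3 : ms.length ≠ 1 := fun e => h1 e rfl
    have h5 := h.big
    have := h.ne a ms ⟨hq, List.nodup_cons.2 ⟨fun m => hv.r_notS (hr a m) ha, hn⟩, by omega⟩
    omega
  · by_cases e : z (t a) = z (t b)
    · exact pot_same hG h hv (hp a ha) (hp b hb) hab e h0 h4 hn hr hq
    · exact pot_ear hG h hv (hp a ha) (hp b hb) hab e h0 h4 hn hr hq

end Pool.Agent.Lib.MP_7e4769_co.Sp
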