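import Pool.Agent.Lib.MP_7e4769_co.Sp.ZSets
import Pool.Agent.Lib.MP_7e4769_co.Sp.ZDP
import Pool.Agent.Lib.MP_7e4769_co.Sp.Start

set_option autoImplicit false
set_option linter.unusedSectionVars false

namespace Pool.Agent.Lib.MP_7e4769_co.Sp

open Finset

variable {V : Type} [Fintype V] [DecidableEq V] {G : SimpleGraph V} [DecidableRel G.Adj]

/-- First stage: colour the rest, then `W` by `greedy` with `J` = vertices of `Jp` outside `Op`.
A vertex of the rest has neighbours in the rest or in `S` only, so it stays satisfied. -/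
theorem stage1 (hG : G.IsRegularOfDegree 3) {L : ℕ} {z o : ℤ → V} (h : CZ G L z o)
    {I : ℤ → Prop} (hv : Valid3 G L z o I) {R : Finset V} (hR : ∀ v, v ∈ R ↔ Rq G z o I v)
    (hg : Good G R) :
    ∃ c : V → Fin 4, (∀ v, Sq G z o I v → c v = 3) ∧ (∀ v, Wp z o I v → c v ≠ 3) ∧
      (∀ v, Rq G z o I v → ok G c v) ∧ ∀ j, Jp G z o I j → ¬ Op o I j → ok G c j := by
  classical
  obtain ⟨c0, h0, h1⟩ := hg
  have wS : ∀ w, Wp z o I w → ¬ Sq G z o I w := fun w a => hv.w_notS h a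
  obtain ⟨c, k1, k2, k3⟩ := greedy hG (W := univ.filter (Wp z o I))
    (J := univ.filter fun j => Jp G z o I j ∧ ¬ Op o I j) c0
    (fun w a b => wS w (mem_filter.1 a).2 (Or.inr (Or.inr (mem_filter.1 b).2.1)))
    (fun w a => by
      obtain ⟨-, t, -, rfl⟩ := (mem_filter.1 a).2
      exact dg_le_two_of_out hG (p := z t) (fun b => (mem_filter.1 b).2.1.1 ⟨t, rfl⟩)
        (h.oadj t).symm)
    (fun j a => h0 j fun b => ((hR j).1 b).2.2.2 (mem_filter.1 a).2.1)
    (fun j a x b d e => by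
      have a' := (mem_filter.1 a).2
      rcases hv.j_nb hG h a'.1 a'.2 b with f | f
      · exact (h1 x ((hR x).2 f)).1 j b.symm
          ((h0 j fun g => ((hR j).1 g).2.2.2 a'.1).trans e.symm)
      · exact d (mem_filter.2 ⟨mem_univ x, f⟩))
    (fun j a => by
      obtain ⟨-, w, b, d⟩ := (mem_filter.1 a).2.1
      exact ⟨w, mem_filter.2 ⟨mem_univ w, b⟩, d⟩)
  have k1' : ∀ v, ¬ Wp z o I v → c v = c0 v := fun v a => k1 v fun b => a (mem_filter.1 b).2
  refine ⟨c, fun v a => ?_, fun v a => k2 v (mem_filter.2 ⟨mem_univ v, a⟩), fun v a => ?_,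
    fun j a b => k3 j (mem_filter.2 ⟨mem_univ j, a, b⟩)⟩
  · rw [k1' v fun b => wS v b a]
    exact h0 v fun b => hv.r_notS ((hR v).1 b) a
  · refine ok_congr (k1' v a.2.1) (fun w b => k1' w fun d => ?_) (h1 v ((hR v).2 a))
    rcases hv.rest_nb hG h a b with e | e
    · exact e.2.1 d
    · exact wS w d e

theorem zst_vok : ∀ a b : Fin 4, a ≠ 3 → b ≠ 3 → b ≠ a →
    vok a b 3 3 = true ∧ vok b 3 3 a = true ∧ vok b 3 a 3 = true := by
  decide

/-- Second stage. For a position `t` of role M, `st_free` at `o t` towards `z t` gives a colour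
(choose it as a function of the two vertices, so that it is periodic); `a t` is that colour, or
`c (o t)` for role C without chord, else 0; `b t = c (o t)` if `I t`, else 0. Take `s` from `dp3`
with `X t = OnZ z (o t)` and give `z t` the colour `s t` when `¬ I t`. -/
theorem start3 (hG : G.IsRegularOfDegree 3) {L : ℕ} {z o : ℤ → V} (h : CZ G L z o)
    {I : ℤ → Prop} (hv : Valid3 G L z o I) {R : Finset V} (hR : ∀ v, v ∈ R ↔ Rq G z o I v)
    (hg : Good G R) : ∃ c : V → Fin 4, ∀ v, ok G c v := by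
  classical
  obtain ⟨c, cS, cW, cR, cJ⟩ := stage1 hG h hv hR hg
  have hI := hv.gaps
  have fin : ∀ y x, Sq G z o I y → G.Adj y x → Rq G z o I x ∨ Wp z o I x → c x ≠ 3 := by
    rintro y x a b (d | d) e
    · exact (cR x d).1 y b.symm ((cS y a).trans e.symm)
    · exact cW x d e
  have off : ∀ x, Rq G z o I x ∨ Wp z o I x → ¬ OnZ z x := by
    rintro x (d | d)
    exacts [d.1, d.1]
  have zS : ∀ t, I t → Sq G z o I (z t) := fun t a => Or.inl ⟨t, a, rfl⟩
  have oS : ∀ t, RM I t → Sq G z o I (o t) := fun t a => Or.inr (Or.inl ⟨t, a, rfl⟩)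
  have hE : ∀ w p : V, ∃ e : Fin 4, (∃ e', St G c w p e') → St G c w p e := by
    intro w p
    by_cases a : ∃ e', St G c w p e'
    · obtain ⟨e, he⟩ := a
      exact ⟨e, fun _ => he⟩
    · exact ⟨0, fun b => absurd b a⟩
  choose E hE using hE
  have hSt : ∀ t, RM I t → St G c (o t) (z t) (E (o t) (z t)) := fun t a =>
    hE _ _ (st_free hG (h.oadj t).symm fun x b d => by
      rw [cS _ (oS t a)]
      exact fin _ x (oS t a) b ((hv.o_nb hG h a b).resolve_left d))
  have pC : ∀ t, RC I (t + L) ↔ RC I t := fun t => by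
    have a1 := hI.per (t - 1)
    have a2 := hI.per (t + 1)
    rw [show t - 1 + (L : ℤ) = t + L - 1 by ring] at a1
    rw [show t + 1 + (L : ℤ) = t + L + 1 by ring] at a2
    exact and_congr a1 a2
  have pM : ∀ t, RM I (t + L) ↔ RM I t := fun t =>
    and_congr (not_congr (hI.per t)) (not_congr (pC t))
  obtain ⟨a, pa, a3, aM, aC⟩ : ∃ a : ℤ → Fin 4, (∀ t, a (t + L) = a t) ∧ (∀ t, a t ≠ 3) ∧
      (∀ t, RM I t → a t = E (o t) (z t)) ∧
      ∀ t, RC I t → ¬ OnZ z (o t) → a t = c (o t) := by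
    refine ⟨fun t => if RM I t then E (o t) (z t) else
      if RC I t ∧ ¬ OnZ z (o t) then c (o t) else 0, fun t => ?_, fun t => ?_,
      fun t b => if_pos b, fun t b d => ?_⟩
    · simp only [pM, pC, h.per, h.oper]
    · beta_reduce
      split_ifs with b d
      · exact (hSt t b).1.trans_eq (cS _ (oS t b))
      · exact cW _ ⟨d.2, t, d.1, rfl⟩
      · decide
    · exact (if_neg fun e => e.2 b).trans (if_pos ⟨b, d⟩)
  obtain ⟨b, pb, b3, bI⟩ : ∃ b : ℤ → Fin 4, (∀ t, b (t + L) = b t) ∧ (∀ t, b t ≠ 3) ∧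
      ∀ t, I t → b t = c (o t) := by
    refine ⟨fun t => if I t then c (o t) else 0, fun t => ?_, fun t => ?_, fun t d => if_pos d⟩
    · simp only [hI.per, h.oper]
    · beta_reduce
      split_ifs with d
      · exact fin _ _ (zS t d) (h.oadj t) (hv.i_nb h d)
      · decide
  obtain ⟨s, s1, s2, s3, s4, s5, s6⟩ := dp3 (by have := h.big; omega) h.ev hI a b pa pb a3 b3
    (fun t => OnZ z (o t)) (hv.chords hG h)
  have sper : ∀ t u, z t = z u → s t = s u := fun t u e => by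
    obtain ⟨k, rfl⟩ := h.eq_iff.1 e
    exact ((show Function.Periodic s (L : ℤ) from s1).int_mul k t).symm
  obtain ⟨c', q1, q2⟩ : ∃ c' : V → Fin 4, (∀ t, ¬ I t → c' (z t) = s t) ∧
      ∀ v, (∀ t, ¬ I t → z t ≠ v) → c' v = c v := by
    refine ⟨fun v => if d : ∃ t, ¬ I t ∧ z t = v then s d.choose else c v, fun t ht => ?_,
      fun v d => dif_neg fun ⟨t, e, f⟩ => d t e f⟩
    have d : ∃ u, ¬ I u ∧ z u = z t := ⟨t, ht, rfl⟩
    exact (dif_pos d).trans (sper _ _ d.choose_spec.2)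
  have q3 : ∀ v, ¬ OnZ z v → c' v = c v := fun v d => q2 v fun t _ e => d ⟨t, e⟩
  have q4 : ∀ v, Sq G z o I v → c' v = c v := fun v d =>
    q2 v fun t e f => hv.fin_notS h e (f ▸ d)
  have q5 : ∀ v, Sq G z o I v → c' v = 3 := fun v d => (q4 v d).trans (cS v d)
  have okz : ∀ t, ok G c' (z t) ↔
      vok (c' (z t)) (c' (z (t - 1))) (c' (z (t + 1))) (c' (o t)) = true := fun t =>
    ok_iff hG (h.adj' t) (h.adj t) (h.oadj t) (h.ne2 t) (h.op t).symm (h.on t).symm
  have okO : ∀ v, Op o I v → ok G c' v := by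
    rintro v ⟨t, d, rfl⟩
    have e : ¬ OnZ z (o t) := hv.op_off ⟨t, d, rfl⟩
    refine (hSt t d).2 c' (fun x f g => q3 x (off x ((hv.o_nb hG h d f).resolve_left g)))
      (q3 _ e) ?_ ?_
    · rw [q1 t d.1, cS _ (oS t d)]
      exact s2 t
    · rw [q1 t d.1, ← aM t d]
      exact s3 t d.1 e
  refine ⟨c', fun v => ?_⟩
  rcases cases_q G z o I v with d | d | d | ⟨t, d, rfl⟩
  · refine ok_congr (q3 v d.1) (fun w e => ?_) (cR v d)
    rcases hv.rest_nb hG h d e with f | f
    · exact q3 w f.1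
    · exact q4 w f
  · have d3 := cW v d
    obtain ⟨e, t, f, rfl⟩ := d
    have g := f.notI hI
    obtain ⟨x, y, a1, a2, a3', a4, a5⟩ := nbrs_of1 hG (v := o t) (z t)
    rw [ok_iff hG (h.oadj t).symm a1 a2 a4.symm a5.symm a3', q1 t g,
      q5 x ((hv.w_nb hG h f e a1).resolve_left a4), q5 y ((hv.w_nb hG h f e a2).resolve_left a5),
      q3 _ e]
    exact (zst_vok _ _ d3 (s2 t) (aC t f e ▸ s3 t g e)).1
  · rcases d with ⟨t, d, rfl⟩ | d | d
    · have d1 : ¬ I (t - 1) := fun e => hI.ind _ e (by rwa [sub_add_cancel])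
      rw [okz, q5 _ (zS t d), q1 _ d1, q1 _ (hI.ind t d), q3 _ (off _ (hv.i_nb h d)), ← bI t d]
      exact s5 t d
    · exact okO v d
    · by_cases e : Op o I v
      · exact okO v e
      · exact ok_congr (q3 v d.1) (fun w f => q3 w (off w (hv.j_nb hG h d e f))) (cJ v d e)
  · rw [okz, q1 t d]
    by_cases e : RC I t
    · rw [q5 _ (zS _ e.1), q5 _ (zS _ e.2)]
      by_cases f : OnZ z (o t)
      · obtain ⟨u, g⟩ := f
        have f' : OnZ z (o u) := ⟨t, (h.chord hG g.symm).symm⟩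
        rw [← g, q1 u ((hv.v1 u f').notI hI)]
        refine (zst_vok _ _ (s2 u) (s2 t) fun i => ?_).2.1
        exact (h.oadj t).ne ((h.eq_iff.2 (s6 t u ⟨u, g⟩ f' i)).trans g)
      · rw [q3 _ f]
        exact (zst_vok _ _ (cW _ ⟨f, t, e, rfl⟩) (s2 t) (aC t e f ▸ s3 t d f)).2.1
    · have f : RM I t := ⟨d, e⟩
      rw [q5 _ (oS t f)]
      rcases f.nb hI with g | g
      · rw [q5 _ (zS _ g.1), q1 _ g.2]
        exact (zst_vok _ _ (s2 _) (s2 t) (s4 t d g.2)).2.2
      · rw [q5 _ (zS _ g.2), q1 _ g.1]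
        have i := s4 (t - 1) g.1 (by rwa [sub_add_cancel])
        rw [sub_add_cancel] at i
        exact (zst_vok _ _ (s2 t) (s2 _) i).1

end Pool.Agent.Lib.MP_7e4769_co.Sp
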