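import Pool.Agent.Lib.MP_7e4769_co.Sp.ZDefs

set_option autoImplicit false
set_option linter.unusedSectionVars false

namespace Pool.Agent.Lib.MP_7e4769_co.Sp

open Finset

variable {V : Type} [Fintype V] [DecidableEq V] {G : SimpleGraph V} [DecidableRel G.Adj]

/-- positions forced by ears -/
def F0 (E : ℤ → ℤ → Prop) (ch : ℤ → Prop) (t : ℤ) : Prop :=
  ch (t - 1) ∨ ch (t + 1) ∨ E t (t + 1) ∨ E (t - 2) (t - 1) ∨
    ((∃ u, E t u) ∧ ¬ ch t ∧ ¬ E t (t + 1) ∧ ¬ E (t - 1) t)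

/-- all forced positions -/
def F1 (E : ℤ → ℤ → Prop) (ch tr : ℤ → Prop) (t : ℤ) : Prop :=
  F0 E ch t ∨ (tr (t - 2) ∧ F0 E ch (t - 3)) ∨
    (tr (t + 2) ∧ F0 E ch (t + 3) ∧ ¬ F0 E ch (t + 1)) ∨
    (tr t ∧ ¬ F0 E ch (t - 1) ∧ ¬ F0 E ch (t + 1))

theorem zf_ch {L : ℕ} {E : ℤ → ℤ → Prop} {ch tr : ℤ → Prop} (h : Loc L E ch tr) (i j : ℤ)
    (h1 : ch i) (h2 : ∃ u, E j u) (h3 : i - 12 ≤ j) (h4 : j ≤ i + 12) :
    ch j ∧ (i + j) % 2 = 0 := by
  obtain ⟨u, a⟩ := h.c1 i h1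
  obtain ⟨v, b⟩ := h2
  rcases lt_trichotomy i j with e | rfl | e
  · exact h.c2 i j h1 (h.a1 i u j v a b e h4)
  · exact ⟨h1, by omega⟩
  · exact h.c2 i j h1 (h.sym _ _ (h.a1 j v i u b a e (by omega)))

theorem zf_f0 {L : ℕ} {E : ℤ → ℤ → Prop} {ch tr : ℤ → Prop} (h : Loc L E ch tr) {t : ℤ}
    (h1 : F0 E ch t) : ch (t - 1) ∨ ch (t + 1) ∨ ((∃ u, E t u) ∧ ∃ u, E (t + 1) u) ∨
      ((∃ u, E (t - 2) u) ∧ ∃ u, E (t - 1) u) ∨
      ((∃ u, E t u) ∧ ¬ ch t ∧ (¬ ∃ u, E (t + 1) u) ∧ ¬ ∃ u, E (t - 1) u) := by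
  rcases h1 with a | a | a | a | ⟨⟨u, a⟩, b, c, d⟩
  · exact Or.inl a
  · exact Or.inr (Or.inl a)
  · exact Or.inr (Or.inr (Or.inl ⟨⟨_, a⟩, _, h.sym _ _ a⟩))
  · exact Or.inr (Or.inr (Or.inr (Or.inl ⟨⟨_, a⟩, _, h.sym _ _ a⟩)))
  · exact Or.inr (Or.inr (Or.inr (Or.inr ⟨⟨u, a⟩, b,
      fun ⟨v, e⟩ => c (h.a1 _ u _ v a e (by omega) (by omega)),
      fun ⟨v, e⟩ => d (h.a1 _ v _ u e a (by omega) (by omega))⟩)))

theorem zf_abs {en ch : ℤ → Prop}
    (H3 : ∀ i j k, en i → en j → en k → i < j → j < k → k ≤ i + 12 → False)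
    (Hc : ∀ i j, ch i → en j → i - 12 ≤ j → j ≤ i + 12 → ch j ∧ (i + j) % 2 = 0)
    (c1 : ∀ i, ch i → en i) (t : ℤ)
    (a : ch (t - 1) ∨ ch (t + 1) ∨ (en t ∧ en (t + 1)) ∨ (en (t - 2) ∧ en (t - 1)) ∨
      (en t ∧ ¬ ch t ∧ ¬ en (t + 1) ∧ ¬ en (t - 1)))
    (b : ch t ∨ ch (t + 2) ∨ (en (t + 1) ∧ en (t + 2)) ∨ (en (t - 1) ∧ en t) ∨
      (en (t + 1) ∧ ¬ ch (t + 1) ∧ ¬ en (t + 2) ∧ ¬ en t)) : False := by
  have P : ∀ i j, ch i → en j → i - 12 ≤ j → j ≤ i + 12 → (i + j) % 2 = 1 → False :=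
    fun i j p q r s u => by
      have := (Hc i j p q r s).2
      omega
  have Q : ∀ i j, ch i → en j → ¬ ch j → i - 12 ≤ j → j ≤ i + 12 → False :=
    fun i j p q u r s => u (Hc i j p q r s).1
  rcases a with a | a | ⟨a, a'⟩ | ⟨a, a'⟩ | ⟨a, a1, a2, a3⟩ <;>
    rcases b with b | b | ⟨b, b'⟩ | ⟨b, b'⟩ | ⟨b, b1, b2, b3⟩
  · exact P _ _ a (c1 _ b) (by omega) (by omega) (by omega)
  · exact P _ _ a (c1 _ b) (by omega) (by omega) (by omega)
  · exact P _ _ a b' (by omega) (by omega) (by omega)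
  · exact P _ _ a b' (by omega) (by omega) (by omega)
  · exact Q _ _ a b b1 (by omega) (by omega)
  · exact P _ _ a (c1 _ b) (by omega) (by omega) (by omega)
  · exact P _ _ a (c1 _ b) (by omega) (by omega) (by omega)
  · exact P _ _ a b' (by omega) (by omega) (by omega)
  · exact P _ _ a b' (by omega) (by omega) (by omega)
  · exact b1 a
  · exact P _ _ b a' (by omega) (by omega) (by omega)
  · exact P _ _ b a' (by omega) (by omega) (by omega)
  · exact H3 _ _ _ a b b' (by omega) (by omega) (by omega)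
  · exact H3 _ _ _ b a a' (by omega) (by omega) (by omega)
  · exact b3 a
  · exact P _ _ b a' (by omega) (by omega) (by omega)
  · exact P _ _ b a' (by omega) (by omega) (by omega)
  · exact H3 _ _ _ a a' b (by omega) (by omega) (by omega)
  · exact H3 _ _ _ a a' b' (by omega) (by omega) (by omega)
  · exact H3 _ _ _ a a' b (by omega) (by omega) (by omega)
  · exact a1 b
  · exact Q _ _ b a a1 (by omega) (by omega)
  · exact a2 b
  · exact a3 b
  · exact a2 b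

/-- Useful steps: a chord end and an ear between adjacent positions are never near (`a1`, `a2`,
`c2`); a chord end and an ear end that is no chord end are never near (`a1`, `c2`); two ears between
adjacent positions that are near are equal. -/
theorem f0_ind {L : ℕ} {E : ℤ → ℤ → Prop} {ch tr : ℤ → Prop} (h : Loc L E ch tr) (t : ℤ)
    (h1 : F0 E ch t) (h2 : F0 E ch (t + 1)) : False := by
  have a := zf_f0 h h1
  have b := zf_f0 h h2
  rw [show t + 1 - 1 = t by ring, show t + 1 + 1 = t + 2 by ring,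
    show t + 1 - 2 = t - 1 by ring] at b
  refine zf_abs (en := fun i => ∃ u, E i u) (fun i j k ⟨u, a⟩ ⟨v, b⟩ ⟨w, c⟩ d e f => ?_)
    (zf_ch h) h.c1 t a b
  have := h.a2 i j k (h.a1 i u j v a b d (by omega)) (h.a1 i u k w a c (by omega) f) e.le (by omega)
  omega

/-- near a triangle there is only one ear end (`a1`, `a4`) -/
theorem f0_tri {L : ℕ} {E : ℤ → ℤ → Prop} {ch tr : ℤ → Prop} (h : Loc L E ch tr) {k s s' : ℤ}
    (hk : tr k) (h1 : F0 E ch s) (h2 : F0 E ch s') (hs : s < s') (a1 : k - 4 ≤ s)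
    (a2 : s' ≤ k + 4) : s' = s + 2 ∧ ch (s + 1) := by
  have U : ∀ i j, (∃ u, E i u) → (∃ u, E j u) → k - 6 ≤ i → i ≤ k + 6 → k - 6 ≤ j → j ≤ k + 6 →
      i = j := by
    have U0 : ∀ i j, (∃ u, E i u) → (∃ u, E j u) → k - 6 ≤ i → j ≤ k + 6 → ¬ i < j :=
      fun i j ⟨u, a⟩ ⟨v, b⟩ c d e =>
        h.a4 i j k (h.a1 i u j v a b e (by omega)) hk e (by omega) (by omega) (by omega)
    intro i j a b c d e f
    have := U0 i j a b c f
    have := U0 j i b a e d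
    omega
  have W : ∀ t, F0 E ch t → k - 4 ≤ t → t ≤ k + 4 → ∃ e, (∃ u, E e u) ∧
      ((ch e ∧ (e = t - 1 ∨ e = t + 1)) ∨ (¬ ch e ∧ e = t)) := by
    intro t ht b1 b2
    rcases zf_f0 h ht with a | a | ⟨a, a'⟩ | ⟨a, a'⟩ | ⟨a, a', -⟩
    · exact ⟨_, h.c1 _ a, Or.inl ⟨a, Or.inl rfl⟩⟩
    · exact ⟨_, h.c1 _ a, Or.inl ⟨a, Or.inr rfl⟩⟩
    · have := U _ _ a a' (by omega) (by omega) (by omega) (by omega)
      omega
    · have := U _ _ a a' (by omega) (by omega) (by omega) (by omega)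
      omega
    · exact ⟨_, a, Or.inr ⟨a', rfl⟩⟩
  obtain ⟨e, e1, e2⟩ := W s h1 a1 (by omega)
  obtain ⟨e', e3, e4⟩ := W s' h2 (by omega) a2
  have : e = e' := U _ _ e1 e3 (by omega) (by omega) (by omega) (by omega)
  subst this
  rcases e2 with ⟨p, q⟩ | ⟨p, q⟩ <;> rcases e4 with ⟨p', q'⟩ | ⟨p', q'⟩
  · refine ⟨by omega, ?_⟩
    rwa [show s + 1 = e by omega]
  · exact absurd p p'
  · exact absurd p' p
  · omega

theorem f1_ind {L : ℕ} {E : ℤ → ℤ → Prop} {ch tr : ℤ → Prop} (h : Loc L E ch tr) (t : ℤ)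
    (h1 : F1 E ch tr t) (h2 : F1 E ch tr (t + 1)) : False := by
  have T : ∀ i j, tr i → tr j → i - 12 ≤ j → j ≤ i + 12 → i = j := fun i j a b c d => by
    rcases le_total i j with e | e
    · exact h.a3 i j a b e d
    · exact (h.a3 j i b a e (by omega)).symm
  unfold F1 at h1 h2
  rw [show t + 1 - 2 = t - 1 by ring, show t + 1 - 3 = t - 2 by ring,
    show t + 1 - 1 = t by ring] at h2
  rcases h1 with a | ⟨a, a'⟩ | ⟨a, -, a'⟩ | ⟨a, -, a'⟩ <;>
    rcases h2 with b | ⟨b, b'⟩ | ⟨b, b', -⟩ | ⟨b, b', -⟩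
  · exact f0_ind h t a b
  · have := (f0_tri h b b' a (by omega) (by omega) (by omega)).2
    rw [show t - 2 + 1 = t - 1 by ring] at this
    exact h.c3 _ b this
  · have := (f0_tri h b a b' (by omega) (by omega) (by omega)).1
    omega
  · exact b' a
  · have := (f0_tri h a a' b (by omega) (by omega) (by omega)).1
    omega
  all_goals first
    | exact a' b
    | have := T _ _ a b (by omega) (by omega)
      omega

theorem zf_per {L : ℕ} {E : ℤ → ℤ → Prop} {ch tr : ℤ → Prop} (h : Loc L E ch tr) (t : ℤ) :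
    F0 E ch (t + L) ↔ F0 E ch t := by
  have e : ∀ c : ℤ, t + L - c = t - c + L := fun c => by ring
  have e' : ∀ c : ℤ, t + L + c = t + c + L := fun c => by ring
  have p : ∀ a b, E a (b + L) ↔ E a b := fun a b =>
    ⟨fun q => h.sym _ _ ((h.pE _ _).1 (h.sym _ _ q)), fun q => h.sym _ _ ((h.pE _ _).2 (h.sym _ _ q))⟩
  simp only [F0, e, e', h.pE, h.pc, p]

theorem f1_per {L : ℕ} {E : ℤ → ℤ → Prop} {ch tr : ℤ → Prop} (h : Loc L E ch tr) (t : ℤ) :
    F1 E ch tr (t + L) ↔ F1 E ch tr t := by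
  have e : ∀ c : ℤ, t + L - c = t - c + L := fun c => by ring
  have e' : ∀ c : ℤ, t + L + c = t + c + L := fun c => by ring
  simp only [F1, e, e', zf_per h, h.pt]

/-- a largest set of residues that contains the forced ones and has no two consecutive elements -/
theorem gaps_ex {L : ℕ} (hL : 3 ≤ L) {F : ℤ → Prop} (hp : ∀ t, F (t + L) ↔ F t)
    (hi : ∀ t, F t → F (t + 1) → False) : ∃ I : ℤ → Prop, Gaps L I ∧ ∀ t, F t → I t := by
  obtain ⟨I, h1, h2⟩ := zorn_subset_nonempty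
    {I : Set ℤ | (∀ t : ℤ, t + L ∈ I ↔ t ∈ I) ∧ ∀ t : ℤ, t ∈ I → t + 1 ∉ I}
    (fun c hc hch _ => ⟨⋃₀ c, ⟨fun t => exists_congr fun J => and_congr_right fun hJ => (hc hJ).1 t,
      fun t ⟨J, hJ, a⟩ ⟨J', hJ', b⟩ => by
        rcases hch.total hJ hJ' with e | e
        · exact (hc hJ').2 t (e a) b
        · exact (hc hJ).2 t a (e b)⟩, fun s hs => Set.subset_sUnion_of_mem hs⟩)
    {t | F t} ⟨hp, hi⟩
  refine ⟨fun t => t ∈ I, ⟨h2.prop.1, h2.prop.2, fun t => ?_⟩, fun t ht => h1 ht⟩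
  by_contra hc
  rw [not_or, not_or] at hc
  have hper : Function.Periodic (fun t => t ∈ I) (L : ℤ) := fun t => propext (h2.prop.1 t)
  have hm : ∀ a b : ℤ, (L : ℤ) ∣ a - b → a ∈ I → b ∈ I := by
    rintro a b ⟨n, e⟩ ha
    have := hper.int_mul n b
    simp only [Int.cast_id] at this
    rw [← this, show b + n * L = a by rw [mul_comm]; omega]
    exact ha
  refine hc.2.1 (h2.le_of_ge (y := I ∪ {s | (L : ℤ) ∣ s - (t + 1)}) ⟨fun s => ?_, ?_⟩
    Set.subset_union_left (Or.inr (by simp)))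
  · refine or_congr (h2.prop.1 s) ?_
    show (L : ℤ) ∣ s + L - (t + 1) ↔ (L : ℤ) ∣ s - (t + 1)
    rw [show s + L - (t + 1) = s - (t + 1) + L by ring, dvd_add_self_right]
  · rintro s (a | a) (b | b)
    · exact h2.prop.2 s a b
    · exact hc.1 (hm s t (by rwa [show s - t = s + 1 - (t + 1) by ring]) a)
    · exact hc.2.2 (hm (s + 1) (t + 2) (by rwa [show s + 1 - (t + 2) = s - (t + 1) by ring]) b)
    · have : (L : ℤ) ∣ 1 := by
        have := dvd_sub b a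
        rwa [show s + 1 - (t + 1) - (s - (t + 1)) = 1 by ring] at this
      have := Int.le_of_dvd one_pos this
      omega

theorem roles_ex {L : ℕ} (hL : 3 ≤ L) {E : ℤ → ℤ → Prop} {ch tr : ℤ → Prop}
    (h : Loc L E ch tr) : ∃ I : ℤ → Prop, Gaps L I ∧ (∀ t, ch t → RC I t) ∧
      (∀ t, tr t → ¬ RC I t) ∧ (∀ t, E t (t + 1) → I t ∧ RC I (t + 1)) ∧
      ∀ t u, E t u → ¬ ch t → ¬ E t (t + 1) → ¬ E (t - 1) t → I t := by
  obtain ⟨I, hI, hF⟩ := gaps_ex hL (f1_per h) (f1_ind h)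
  have h0 : ∀ t, F0 E ch t → I t := fun t ht => hF t (Or.inl ht)
  refine ⟨I, hI, fun t ht => ⟨h0 _ (Or.inr (Or.inl ?_)), h0 _ (Or.inl ?_)⟩, fun t ht ⟨a, b⟩ => ?_,
    fun t ht => ?_, fun t u a b c d => h0 t (Or.inr (Or.inr (Or.inr (Or.inr ⟨⟨u, a⟩, b, c, d⟩))))⟩
  · rwa [sub_add_cancel]
  · rwa [add_sub_cancel_right]
  · by_cases p : F0 E ch (t - 1)
    · refine hI.ind _ b (hF _ (Or.inr (Or.inl ⟨?_, ?_⟩)))
      · rwa [show t + 1 + 1 - 2 = t by ring]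
      · rwa [show t + 1 + 1 - 3 = t - 1 by ring]
    · by_cases q : F0 E ch (t + 1)
      · refine hI.ind (t - 2) (hF _ (Or.inr (Or.inr (Or.inl ⟨?_, ?_, ?_⟩)))) ?_
        · rwa [sub_add_cancel]
        · rwa [show t - 2 + 3 = t + 1 by ring]
        · rwa [show t - 2 + 1 = t - 1 by ring]
        · rwa [show t - 2 + 1 = t - 1 by ring]
      · exact hI.ind t (hF _ (Or.inr (Or.inr (Or.inr ⟨ht, p, q⟩)))) b
  · have a : I t := h0 t (Or.inr (Or.inr (Or.inl ht)))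
    refine ⟨a, ?_, h0 _ (Or.inr (Or.inr (Or.inr (Or.inl ?_))))⟩
    · rwa [add_sub_cancel_right]
    · rwa [show t + 1 + 1 - 2 = t by ring, add_sub_cancel_right]

end Pool.Agent.Lib.MP_7e4769_co.Sp
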