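import Pool.Agent.Lib.MP_7e4769_co.Sp.ZDense
import Pool.Agent.Lib.MP_7e4769_co.Sp.ZForce

set_option autoImplicit false
set_option linter.unusedSectionVars false

namespace Pool.Agent.Lib.MP_7e4769_co.Sp

open Finset

variable {V : Type} [Fintype V] [DecidableEq V] {G : SimpleGraph V} [DecidableRel G.Adj]

theorem zv_i {L : ℕ} {z o : ℤ → V} (h : CZ G L z o) {I : ℤ → Prop} (hI : Gaps L I) {i j : ℤ}
    (hij : z i = z j) (hi : I i) : I j := by
  have := hI.congr h hij 0
  rw [add_zero, add_zero] at this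
  exact this.1 hi

theorem zv_rc {L : ℕ} {z o : ℤ → V} (h : CZ G L z o) {I : ℤ → Prop} (hI : Gaps L I) {i j : ℤ}
    (hij : z i = z j) (hi : RC I i) : RC I j := by
  have h1 := hI.congr h hij (-1)
  have h2 := hI.congr h hij 1
  rw [← sub_eq_add_neg, ← sub_eq_add_neg] at h1
  exact ⟨h1.1 hi.1, h2.1 hi.2⟩

theorem zv_ni {L : ℕ} {I : ℤ → Prop} (hI : Gaps L I) {t : ℤ} (hi : RC I t) : ¬ I t :=
  fun h => hI.ind t h hi.2

/-- Roles at the ends of a short ear that is no chord. If `Ear t (t + 1)` then `z u = z (t + 1)`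
(`ear_near`), and `l` is odd by `ear_par`; the same for `Ear (t - 1) t`. Otherwise `I t`, and also
`I u`: an ear `u, u + 1` or `u - 1, u` would have the same ends as the given one. -/
theorem ear_roles (hG : G.IsRegularOfDegree 3) (hs : Sparse G 100) {L : ℕ} {z o : ℤ → V}
    (h : CZ G L z o) {I : ℤ → Prop} (hI : Gaps L I)
    (r3 : ∀ t, Ear G z o t (t + 1) → I t ∧ RC I (t + 1))
    (r4 : ∀ t u, Ear G z o t u → ¬ OnZ z (o t) → ¬ Ear G z o t (t + 1) →
      ¬ Ear G z o (t - 1) t → I t)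
    {t u : ℤ} {l : List V} (he : EarL G z o t l u) (hl : l.length ≤ 4) (hne : l ≠ []) :
    (I t ∧ I u) ∨ (l.length % 2 = 1 ∧ ((I t ∧ RC I u) ∨ (RC I t ∧ I u))) := by
  have hE : Ear G z o t u := ⟨l, hl, he⟩
  have he' := he.symm hG h
  have hE' : Ear G z o u t := ⟨l.reverse, by rw [List.length_reverse]; exact hl, he'⟩
  have hp := ear_par hG h he (by omega)
  by_cases hA : Ear G z o t (t + 1)
  · have hz : z u = z (t + 1) := by
      rcases ear_near hG hs h hA hE le_rfl (by omega) with h1 | h1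
      · exact h1.2
      · exact absurd h1.2.symm he.ne
    have hq := h.par hz
    obtain ⟨i1, i2⟩ := r3 t hA
    exact Or.inr ⟨by omega, Or.inl ⟨i1, zv_rc h hI hz.symm i2⟩⟩
  by_cases hB : Ear G z o (t - 1) t
  · have hz : z u = z (t - 1) := by
      rcases ear_near hG hs h hB hE (by omega) (by omega) with h1 | h1
      · exact absurd h1.2.symm he.ne
      · exact h1.2
    have hq := h.par hz
    have e1 : t - 1 + 1 = t := by omega
    obtain ⟨i1, i2⟩ := r3 (t - 1) (by rw [e1]; exact hB)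
    rw [e1] at i2
    exact Or.inr ⟨by omega, Or.inr ⟨i2, zv_i h hI hz.symm i1⟩⟩
  refine Or.inl ⟨r4 t u hE (fun hc => hne (he.nil_iff.2 hc)) hA hB, r4 u t hE' ?_ ?_ ?_⟩
  · intro hc
    exact hne (List.reverse_eq_nil_iff.1 (he'.nil_iff.2 hc))
  · intro hc
    have hz : z t = z (u + 1) := by
      rcases ear_near hG hs h hc hE' le_rfl (by omega) with h1 | h1
      · exact h1.2
      · exact absurd h1.2 he.ne
    have hz' := h.add_eq hz (-1)
    have e1 : u + 1 + -1 = u := by omega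
    have e2 : t + -1 = t - 1 := by omega
    rw [e1, e2] at hz'
    obtain ⟨m, hm, hc⟩ := hc
    exact hB ⟨m, hm, hc.congr h hz'.symm hz.symm⟩
  · intro hc
    have hz : z t = z (u - 1) := by
      rcases ear_near hG hs h hc hE' (by omega) (by omega) with h1 | h1
      · exact absurd h1.2 he.ne
      · exact h1.2
    have hz' := h.add_eq hz 1
    have e1 : u - 1 + 1 = u := by omega
    rw [e1] at hz'
    obtain ⟨m, hm, hc⟩ := hc
    exact hA ⟨m, hm, hc.congr h hz.symm hz'.symm⟩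

/-- Every violation of `v2`, `v3`, `v4` is a short ear (`earL_of`) with wrong roles, or a hanging
triangle at a position of role C. In `v2`, if `o t` is on the cycle use `CZ.chord`. -/
theorem valid_of_roles (hG : G.IsRegularOfDegree 3) {L : ℕ} {z o : ℤ → V} (h : CZ G L z o)
    {I : ℤ → Prop} (hI : Gaps L I) (r1 : ∀ t, OnZ z (o t) → RC I t)
    (r2 : ∀ t, Tri G z o t → ¬ RC I t)
    (r3 : ∀ t l u, EarL G z o t l u → l.length ≤ 4 → l ≠ [] →
      (I t ∧ I u) ∨ (l.length % 2 = 1 ∧ ((I t ∧ RC I u) ∨ (RC I t ∧ I u)))) :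
    Valid3 G L z o I := by
  have key : ∀ t u l, z t ≠ z u → Pth G (z t) l (z u) → l.Nodup → (∀ v ∈ l, ¬ OnZ z v) →
      l ≠ [] → l.length ≤ 4 → ¬ I u → I t ∧ l.length % 2 = 1 ∧ RC I u := by
    intro t u l h1 h2 h3 h4 h5 h6 h7
    rcases r3 t l u (earL_of hG h h1 h2 h3 h4 h5) h6 h5 with h8 | ⟨h8, h9 | h9⟩
    · exact absurd h8.2 h7
    · exact ⟨h9.1, h8, h9.2⟩
    · exact absurd h9.2 h7
  have v2 : ∀ t u, ¬ I t → ¬ I u → o t = o u → z t = z u := by
    intro t u ht hu hq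
    by_cases hc : OnZ z (o t)
    · obtain ⟨s, hs⟩ := hc
      have e1 := h.chord hG hs.symm
      have e2 := h.chord hG (hq.symm.trans hs.symm)
      exact e1.symm.trans e2
    · by_contra hne
      refine ht (key t u [o t] hne ?_ (by simp) (by simpa using hc) (by simp) (by simp) hu).1
      refine pth_cons.2 ⟨h.oadj t, pth_nil.2 ?_⟩
      rw [hq]
      exact (h.oadj u).symm
  have two : ∀ t u, ¬ I t → ¬ I u → ¬ OnZ z (o t) → ¬ OnZ z (o u) → ¬ G.Adj (o t) (o u) := by
    intro t u ht hu h1 h2 ha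
    have hne : z t ≠ z u := fun hz => ha.ne (h.o_eq hz)
    refine ht (key t u [o t, o u] hne ?_ (by simpa using ha.ne) ?_ (by simp) (by simp) hu).1
    · exact pth_cons.2 ⟨h.oadj t, pth_cons.2 ⟨ha, pth_nil.2 (h.oadj u).symm⟩⟩
    · intro v hv
      simp only [List.mem_cons, List.not_mem_nil, or_false] at hv
      rcases hv with rfl | rfl
      · exact h1
      · exact h2
  have offO : ∀ t, RM I t → ¬ OnZ z (o t) := fun t ht hc => ht.2 (r1 t hc)
  have II : ∀ t u, I t → I u → ¬ G.Adj (z t) (z u) := by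
    intro t u ht hu ha
    rcases h.nb hG t ha with h1 | h1 | h1
    · have h2 := hI.ind (t - 1) (zv_i h hI h1 hu)
      rw [sub_add_cancel] at h2
      exact h2 ht
    · exact hI.ind t ht (zv_i h hI h1 hu)
    · exact zv_ni hI (r1 t ⟨u, h1⟩) ht
  have IO : ∀ t u, I t → RM I u → ¬ G.Adj (z t) (o u) := by
    intro t u ht hu ha
    have hne : z t ≠ z u := fun hz => hu.1 (zv_i h hI hz ht)
    refine hu.2 (key t u [o u] hne ?_ (by simp) (by simpa using offO u hu) (by simp) (by simp)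
      hu.1).2.2
    exact pth_cons.2 ⟨ha, pth_nil.2 (h.oadj u).symm⟩
  have IJ : ∀ t b, I t → Jp G z o I b → ¬ G.Adj (z t) b := by
    rintro t b ht ⟨hb, w, ⟨hw, u, hu, rfl⟩, hbw⟩ ha
    have hne : z t ≠ z u := fun hz => zv_ni hI hu (zv_i h hI hz ht)
    have h1 := (key t u [b, o u] hne ?_ (by simpa using hbw.ne) ?_ (by simp) (by simp)
      (zv_ni hI hu)).2.1
    · simp at h1
    · exact pth_cons.2 ⟨ha, pth_cons.2 ⟨hbw, pth_nil.2 (h.oadj u).symm⟩⟩
    · intro v hv
      simp only [List.mem_cons, List.not_mem_nil, or_false] at hv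
      rcases hv with rfl | rfl
      · exact hb
      · exact hw
  have OJ : ∀ t b, RM I t → Jp G z o I b → ¬ G.Adj (o t) b := by
    rintro t b ht ⟨hb, w, ⟨hw, u, hu, rfl⟩, hbw⟩ ha
    have hne : z t ≠ z u := fun hz => ht.2 (zv_rc h hI hz.symm hu)
    have hq : o t ≠ o u := fun hq => hne (v2 t u ht.1 (zv_ni hI hu) hq)
    refine ht.1 (key t u [o t, b, o u] hne ?_ ?_ ?_ (by simp) (by simp) (zv_ni hI hu)).1
    · exact pth_cons.2 ⟨h.oadj t, pth_cons.2 ⟨ha, pth_cons.2 ⟨hbw, pth_nil.2 (h.oadj u).symm⟩⟩⟩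
    · simp [ha.ne, hq, hbw.ne]
    · intro v hv
      simp only [List.mem_cons, List.not_mem_nil, or_false] at hv
      rcases hv with rfl | rfl | rfl
      · exact offO t ht
      · exact hb
      · exact hw
  have JJ : ∀ a b, Jp G z o I a → Jp G z o I b → ¬ G.Adj a b := by
    rintro a b ⟨ha, w, ⟨hw, t, ht, rfl⟩, haw⟩ ⟨hb, w', ⟨hw', u, hu, rfl⟩, hbw⟩ hab
    by_cases hne : z t = z u
    · refine r2 t ⟨hw, a, b, ha, hb, haw.symm, ?_, hab⟩ ht
      rw [h.o_eq hne]
      exact hbw.symm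
    have hq : o t ≠ o u := fun hq => hne (v2 t u (zv_ni hI ht) (zv_ni hI hu) hq)
    have n3 := two t u (zv_ni hI ht) (zv_ni hI hu) hw hw'
    have n1 : a ≠ o u := by
      rintro rfl
      exact n3 haw.symm
    have n2 : o t ≠ b := by
      rintro rfl
      exact n3 hbw
    refine zv_ni hI ht (key t u [o t, a, b, o u] hne ?_ ?_ ?_ (by simp) (by simp) (zv_ni hI hu)).1
    · exact pth_cons.2 ⟨h.oadj t, pth_cons.2 ⟨haw.symm, pth_cons.2 ⟨hab, pth_cons.2
        ⟨hbw, pth_nil.2 (h.oadj u).symm⟩⟩⟩⟩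
    · simp [haw.ne.symm, hq, hbw.ne, hab.ne, n1, n2]
    · intro v hv
      simp only [List.mem_cons, List.not_mem_nil, or_false] at hv
      rcases hv with rfl | rfl | rfl | rfl
      · exact hw
      · exact ha
      · exact hb
      · exact hw'
  refine ⟨hI, r1, fun t u h1 h2 => chord_uniq hG h h1 h2, v2, ?_, ?_⟩
  · rintro w w' ⟨hw, t, ht, rfl⟩ ⟨hw', u, hu, rfl⟩
    exact two t u (zv_ni hI ht) (zv_ni hI hu) hw hw'
  · rintro a b (⟨t, ht, rfl⟩ | ⟨t, ht, rfl⟩ | ha) (⟨u, hu, rfl⟩ | ⟨u, hu, rfl⟩ | hb)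
    · exact II t u ht hu
    · exact IO t u ht hu
    · exact IJ t b ht hb
    · exact fun hc => IO u t hu ht hc.symm
    · exact two t u ht.1 hu.1 (offO t ht) (offO u hu)
    · exact OJ t b ht hb
    · exact fun hc => IJ u a hu ha hc.symm
    · exact fun hc => OJ u a hu ha hc.symm
    · exact JJ a b ha hb

theorem valid_ex (hG : G.IsRegularOfDegree 3) (hs : Sparse G 100) {L : ℕ} {z o : ℤ → V}
    (h : CZ G L z o) : ∃ I, Valid3 G L z o I := by
  obtain ⟨I, hI, r1, r2, r3, r4⟩ := roles_ex (by have := h.big; omega) (loc_of_sparse hG hs h)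
  exact ⟨I, valid_of_roles hG h hI r1 r2
    (fun t l u he hl hne => ear_roles hG hs h hI r3 r4 he hl hne)⟩

end Pool.Agent.Lib.MP_7e4769_co.Sp
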