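import Pool.Agent.Lib.MP_7e4769_co.Sp.Final
import Pool.Agent.Lib.MP_7e4769_co.Sp.ZValid
import Pool.Agent.Lib.MP_7e4769_co.Sp.ZStart
import Pool.Agent.Lib.MP_7e4769_co.Sp.ZPot
import Pool.Agent.Lib.MP_7e4769_co.Sp.ZRest
import Pool.Agent.Lib.MP_7e4769_co.Sp.ZTop
import Pool.Agent.Lib.MP_7e4769_co.Sp.ZComp

set_option autoImplicit false
set_option linter.unusedSectionVars false

namespace Pool.Agent.Lib.MP_7e4769_co.Sp

open Finset

variable {V : Type} [Fintype V] [DecidableEq V] {G : SimpleGraph V} [DecidableRel G.Adj]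

theorem conn_good (hG : G.IsRegularOfDegree 3) (hc : G.Connected) (hs : Sparse G 100) :
    ∃ c : V → Fin 4, ∀ v, ok G c v := by
  classical
  obtain ⟨v⟩ := hc.nonempty
  obtain ⟨x, l, h1, h2, h3⟩ := shortest_ex hG v
  obtain ⟨m, z, o, h, hm⟩ := cy_of_list hG h1 h2
  by_cases hb : 11 ≤ m
  · rw [← hm] at h3
    obtain ⟨z', o', hz⟩ := cz_of_cy h hb h3
    obtain ⟨I, hv⟩ := valid_ex hG hs hz
    obtain ⟨σ, hp⟩ := pot_ex hG hz hv
    have hR : ∀ v, v ∈ univ.filter (Rq G z' o' I) ↔ Rq G z' o' I v := fun v => by simp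
    refine start3 hG hz hv hR (rest_good3 hG (fun y k hk hl => h3 y k hk (by omega))
      (hU_all hG hs) (hA_all hG hs) (conn_univ hc) (fun e => ?_) (S := Sq G z' o' I) (σ := σ)
      (fun v hv' w ha hw => ?_) (fun a b ms ha hb h0 h4 hn hr => hp a b ms ha hb h0 h4 hn
        (fun y hy => (hR y).1 (hr y hy))))
    · exact ((hR (z' 0)).1 (by rw [e]; exact mem_univ _)).1 ⟨0, rfl⟩
    · exact (hv.rest_nb hG hz ((hR v).1 hv') ha).resolve_left fun e => hw ((hR w).2 e)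
  · refine clean_good hG hc hs h fun A _ hA => hs A ?_
    have : (Zs m z).card ≤ 2 * m := card_image_le.trans (card_range _).le
    omega

theorem sparse_all (hG : G.IsRegularOfDegree 3)
    (hs : ∀ A : Finset V, A.card ≤ 100 → {e ∈ G.edgeSet | ∀ v ∈ e, v ∈ A}.ncard ≤ A.card) :
    ∃ c : V → Fin 4, (∀ u v : V, G.Adj u v → c u ≠ c v) ∧
      ∀ v : V, ((G.neighborFinset v).image c).card = 2 := by
  obtain ⟨c, h1⟩ := of_conn hG (N := 100) (fun A hA => by
    rw [eb_self]; have := hs A hA; omega) (fun W _ _ H _ a b d => conn_good a b d)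
  exact ⟨c, fun u v huv => ((h1 u).1 v huv).symm, fun v => (h1 v).2⟩

end Pool.Agent.Lib.MP_7e4769_co.Sp
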